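import Pool.Agent.MP_62c071_al.H57.Spec

/-! Row A2: centraliser orders divisible by a large prime. -/

set_option autoImplicit false

namespace Pool.Agent.MP_62c071_al.H57

open Subgroup
open scoped Nat

namespace A2

/-- the classes that split in the alternating group -/
def Od (f : ℕ) (M : Multiset ℕ) : Prop := (∀ l ∈ M, Odd l) ∧ f ≤ 1 ∧ ∀ i, M.count i ≤ 1

/-- the types of even permutations -/
def Val (n f : ℕ) (M : Multiset ℕ) : Prop :=
  (∀ l ∈ M, 2 ≤ l) ∧ M.sum + f = n ∧ Even (M.sum + M.card)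

/-- the order of the centraliser in the alternating group -/
def Rel (f : ℕ) (M : Multiset ℕ) (c : ℕ) : Prop :=
  (Od f M → c = zf f M) ∧ (¬ Od f M → 2 * c = zf f M)

theorem card_cen {n : ℕ} (s : An n) : Nat.card (cen s) *
    (alternatingGroup (Fin n)).relIndex (centralizer {(s : Equiv.Perm (Fin n))}) =
      Nat.card (centralizer {(s : Equiv.Perm (Fin n))}) := by
  rw [← card_mul_index ((alternatingGroup (Fin n)).subgroupOf (centralizer {(s : Equiv.Perm (Fin n))}))]
  congr 1
  refine Nat.card_congr ⟨fun x => ⟨⟨x.1.1, ?_⟩, x.1.2⟩, fun y => ⟨⟨y.1.1, y.2⟩, ?_⟩,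
    fun _ => rfl, fun _ => rfl⟩
  · have := mem_centralizer_singleton_iff.1 x.2
    exact mem_centralizer_singleton_iff.2 (congrArg Subtype.val this)
  · exact mem_centralizer_singleton_iff.2 (Subtype.ext (mem_centralizer_singleton_iff.1 y.1.2))

theorem rel_cen {n : ℕ} (s : An n) :
    Rel (n - s.1.cycleType.sum) s.1.cycleType (Nat.card (cen s)) := by
  have h := card_cen s
  have hz : Nat.card (centralizer {(s : Equiv.Perm (Fin n))}) =
      zf (n - s.1.cycleType.sum) s.1.cycleType := by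
    rw [Equiv.Perm.nat_card_centralizer, Fintype.card_fin, zf]
  have ho : centralizer {(s : Equiv.Perm (Fin n))} ≤ alternatingGroup (Fin n) ↔
      Od (n - s.1.cycleType.sum) s.1.cycleType := by
    rw [Equiv.Perm.centralizer_le_alternating_iff, Fintype.card_fin, Od]
    exact and_congr_right fun _ => and_congr_left fun _ => by omega
  rw [hz] at h
  refine ⟨fun hO => ?_, fun hO => ?_⟩
  · rw [relIndex_eq_one.2 (ho.2 hO), mul_one] at h
    exact h
  · rw [← ho] at hO
    obtain ⟨a, ha, ha'⟩ := SetLike.not_le_iff_exists.1 hO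
    have h2 : (alternatingGroup (Fin n)).relIndex (centralizer {(s : Equiv.Perm (Fin n))}) = 2 := by
      refine relIndex_eq_two_iff_exists_notMem_and.2 ⟨a, ha, ha', fun b _ => ?_⟩
      rw [Equiv.Perm.mem_alternatingGroup] at ha' ⊢
      rw [Equiv.Perm.mem_alternatingGroup, Equiv.Perm.sign_mul]
      rcases Int.units_eq_one_or (Equiv.Perm.sign a) with h1 | h1
      · exact absurd h1 ha'
      · rcases Int.units_eq_one_or (Equiv.Perm.sign b) with h3 | h3
        · exact Or.inr h3
        · left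
          rw [h1, h3]
          rfl
    rw [h2, mul_comm] at h
    exact h

theorem of_mem {n c : ℕ} (h : c ∈ Cz n) : ∃ f M, Val n f M ∧ Rel f M c := by
  obtain ⟨s, rfl⟩ := h
  refine ⟨_, _, ⟨fun l hl => Equiv.Perm.two_le_of_mem_cycleType hl, ?_, ?_⟩, rel_cen s⟩
  · have := s.1.sum_cycleType_le
    rw [Fintype.card_fin] at this
    omega
  · have := Equiv.Perm.mem_alternatingGroup.1 s.2
    rwa [Equiv.Perm.sign_of_cycleType, neg_one_pow_eq_one_iff_even (by simp)] at this

theorem ex_mem {n f : ℕ} {M : Multiset ℕ} (h : Val n f M) : ∃ c ∈ Cz n, Rel f M c := by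
  obtain ⟨h1, h2, h3⟩ := h
  obtain ⟨g, rfl⟩ := (Equiv.Perm.exists_with_cycleType_iff (Fin n) (m := M)).2
    ⟨by rw [Fintype.card_fin]; omega, h1⟩
  have hg : g ∈ alternatingGroup (Fin n) := by
    rw [Equiv.Perm.mem_alternatingGroup, Equiv.Perm.sign_of_cycleType, h3.neg_one_pow]
  have := rel_cen (⟨g, hg⟩ : An n)
  rw [show n - g.cycleType.sum = f by omega] at this
  exact ⟨_, ⟨⟨g, hg⟩, rfl⟩, this⟩

theorem zf_cons {p f : ℕ} {M : Multiset ℕ} (h : p ∉ M) : zf f (p ::ₘ M) = p * zf f M := by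
  have h' : p ∉ M.toFinset := by simpa using h
  rw [zf, zf, Multiset.toFinset_cons, Finset.prod_insert h', Multiset.prod_cons,
    Multiset.count_cons_self, Multiset.count_eq_zero_of_notMem h,
    Finset.prod_congr rfl fun l hl => by
      rw [Multiset.count_cons_of_ne (show l ≠ p from fun e => h' (e ▸ hl))]]
  simp only [zero_add, Nat.factorial_one]
  ring

theorem od_cons {p f : ℕ} {M : Multiset ℕ} (hp : Odd p) (h : p ∉ M) :
    Od f (p ::ₘ M) ↔ Od f M := by
  refine ⟨fun ⟨h1, h2, h3⟩ => ⟨fun l hl => h1 l (Multiset.mem_cons_of_mem hl), h2, fun i =>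
    (Multiset.count_le_count_cons _ _ _).trans (h3 i)⟩, fun ⟨h1, h2, h3⟩ => ⟨fun l hl => ?_, h2,
      fun i => ?_⟩⟩
  · rcases Multiset.mem_cons.1 hl with rfl | hl
    · exact hp
    · exact h1 l hl
  · by_cases e : i = p
    · rw [e, Multiset.count_cons_self, Multiset.count_eq_zero_of_notMem h]
    · rw [Multiset.count_cons_of_ne e]
      exact h3 i

theorem val_cons {p k f : ℕ} {M : Multiset ℕ} (hp : Odd p) (h2 : 2 ≤ p) :
    Val (p + k) f (p ::ₘ M) ↔ Val k f M := by
  obtain ⟨r, hr⟩ := hp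
  simp only [Val, Multiset.mem_cons, forall_eq_or_imp, Multiset.sum_cons, Multiset.card_cons,
    Nat.even_iff, h2, true_and]
  exact and_congr_right fun _ => by omega

theorem rel_cons {p f c κ : ℕ} {M : Multiset ℕ} (hp : Odd p) (h : p ∉ M)
    (hc : Rel f (p ::ₘ M) c) (hκ : Rel f M κ) : c = p * κ := by
  by_cases hO : Od f M
  · rw [hc.1 ((od_cons hp h).2 hO), hκ.1 hO, zf_cons h]
  · have h1 := hc.2 fun h' => hO ((od_cons hp h).1 h')
    rw [zf_cons h, ← hκ.2 hO, mul_left_comm] at h1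
    omega

theorem not_mem {p k f : ℕ} {M : Multiset ℕ} (hk : k < p) (h : Val k f M) : p ∉ M := fun hm => by
  have := Multiset.single_le_sum (fun _ _ => Nat.zero_le _) p hm
  have := h.2.1
  omega

theorem le_fix {p k f : ℕ} {M : Multiset ℕ} (hp : p.Prime) (hk : k < p) (h : Val (p + k) f M)
    (hm : p ∉ M) (hd : p ∣ zf f M) : p ≤ f := by
  obtain ⟨h1, h2, -⟩ := h
  rw [zf, hp.dvd_mul, hp.dvd_mul, hp.dvd_factorial, hp.prime.dvd_finset_prod_iff] at hd
  rcases hd with (hd | hd) | ⟨l, hl, hd⟩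
  · exact hd
  · obtain ⟨l, hl, t, rfl⟩ := hp.prime.exists_mem_multiset_dvd hd
    have h3 := Multiset.single_le_sum (fun _ _ => Nat.zero_le _) _ hl
    have h4 := h1 _ hl
    have h5 : t < 2 := by
      by_contra h5
      have := Nat.mul_le_mul_left p (not_lt.1 h5)
      omega
    interval_cases t
    · omega
    · exact absurd (by simpa using hl) hm
  · rw [hp.dvd_factorial] at hd
    have h3 := h1 l (Multiset.mem_toFinset.1 hl)
    obtain ⟨u, hu⟩ := Multiset.le_iff_exists_add.1 (Multiset.le_count_iff_replicate_le.1 hd)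
    rw [hu, Multiset.sum_add, Multiset.sum_replicate, smul_eq_mul] at h2
    have := Nat.mul_le_mul_left p h3
    omega

end A2

open A2 in
theorem rowA2' : RowA2 := by
  intro p k hp h2 hk
  have ho : Odd p := hp.odd_of_ne_two h2.ne'
  refine ⟨fun c hc hd => ?_, fun κ hκ => ?_⟩
  · obtain ⟨f, M, hv, hr⟩ := of_mem hc
    by_cases hm : p ∈ M
    · obtain ⟨M', rfl⟩ := Multiset.exists_cons_of_mem hm
      have hv' := (val_cons ho h2.le).1 hv
      obtain ⟨κ, hκ, hr'⟩ := ex_mem hv'
      exact Or.inr ⟨κ, hκ, rel_cons ho (not_mem hk hv') hr hr'⟩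
    · have h3 : c ∣ zf f M ∧ zf f M ∣ 2 * c := by
        by_cases hO : Od f M
        · rw [hr.1 hO]
          exact ⟨dvd_rfl, dvd_mul_left _ _⟩
        · rw [← hr.2 hO]
          exact ⟨dvd_mul_left _ _, dvd_rfl⟩
      refine Or.inl (((Nat.factorial_dvd_factorial (le_fix hp hk hv hm (hd.trans h3.1))).trans
        ?_).trans h3.2)
      rw [zf, mul_assoc]
      exact dvd_mul_right _ _
  · obtain ⟨f, M, hv, hr⟩ := of_mem hκ
    obtain ⟨c, hc, hr'⟩ := ex_mem ((val_cons ho h2.le).2 hv)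
    rwa [← rel_cons ho (not_mem hk hv) hr' hr]

theorem rowA2 (_h : RowSH) : RowA2 := rowA2'

end Pool.Agent.MP_62c071_al.H57
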