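import Pool.Agent.MP_62c071_al.H57.Spec

/-! Row A3: centralisers and classes of long cycles in the alternating group. -/

set_option autoImplicit false

namespace Pool.Agent.MP_62c071_al.H57

open Subgroup Equiv Equiv.Perm
open scoped Nat

namespace A3

variable {α : Type} [Fintype α] [DecidableEq α]

theorem ex (M : Multiset ℕ) (h1 : M.sum ≤ Fintype.card α) (h2 : ∀ a ∈ M, 2 ≤ a)
    (h3 : Even (M.sum + M.card)) : ∃ s : alternatingGroup α, (s : Perm α).cycleType = M := by
  obtain ⟨g, rfl⟩ := (exists_with_cycleType_iff α).2 ⟨h1, h2⟩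
  exact ⟨⟨g, by rw [mem_alternatingGroup, sign_of_cycleType, h3.neg_one_pow]⟩, rfl⟩

theorem dvd (s : alternatingGroup α) :
    Nat.card (cen s) ∣ Nat.card (centralizer {(s : Perm α)}) := by
  rw [← card_map_of_injective (alternatingGroup α).subtype_injective]
  refine card_dvd_of_le ?_
  rintro _ ⟨t, ht, rfl⟩
  rw [mem_centralizer_singleton_iff]
  exact congrArg Subtype.val (mem_centralizer_singleton_iff.1 ht)

theorem ord {s : alternatingGroup α} {l : ℕ} (h : (s : Perm α).cycleType = {l}) :
    orderOf s = l := by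
  rw [← orderOf_coe, ← lcm_cycleType, h]
  simp

theorem cyc {l : ℕ} (hl : Odd l) (h3 : 3 ≤ l) (h : l ≤ Fintype.card α) :
    ∃ s : alternatingGroup α, (s : Perm α).cycleType = {l} ∧ l ∣ Nat.card (cen s) ∧
      Nat.card (cen s) ∣ (Fintype.card α - l)! * l := by
  obtain ⟨s, hs⟩ := ex (α := α) {l} (by simpa using h) (by simp; omega)
    (by simpa using hl.add_one)
  refine ⟨s, hs, ?_, ?_⟩
  · rw [← ord hs, ← Nat.card_zpowers]
    exact card_dvd_of_le (zpowers_le.2 (mem_centralizer_singleton_iff.2 rfl))
  · simpa [nat_card_centralizer, hs] using dvd s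

theorem cls {H : Type} [Group H] (g : H) :
    {v | IsConj v g}.ncard * Nat.card (cen g) = Nat.card H := by
  have : {v | IsConj v g} = MulAction.orbit (ConjAct H) g :=
    Set.ext fun _ => ConjAct.mem_orbit_conjAct.symm
  rw [this, ← MulAction.index_stabilizer, cen, nat_card_centralizer_nat_card_stabilizer,
    index_mul_card]
  rfl

end A3

open A3 in
theorem rowA3 (_h : RowSH) : RowA3 := by
  refine ⟨fun m hm => ?_, fun n hn => ?_, fun α _ _ Γ l hl h3 hΓ => ?_⟩
  · by_cases h3 : 3 ≤ m
    · obtain ⟨s, -, h1, h2⟩ := cyc (α := Fin m) (l := od m) (Nat.odd_iff.2 (by unfold od; omega))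
        (by unfold od; omega) (by rw [Fintype.card_fin]; unfold od; omega)
      rw [Fintype.card_fin, Nat.factorial_eq_one.2 (by unfold od; omega), one_mul] at h2
      exact ⟨s, Nat.dvd_antisymm h2 h1⟩
    · have e : od m = 1 := by unfold od; omega
      have : Subsingleton (An m) := by
        obtain rfl | rfl : m = 1 ∨ m = 2 := by omega
        · exact ⟨by decide⟩
        · exact ⟨by decide⟩
      exact ⟨1, by rw [e]; exact Nat.card_unique⟩
  · have key : ∃ s : An n, Nat.card (cen s) ∣ 2 * (n - 2) := by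
      rcases Nat.even_or_odd n with h | h
      · obtain ⟨s, hs⟩ := ex (α := Fin n) {n - 2, 2} (by simp; omega) (by simp; omega)
          (by rw [Nat.even_iff] at h ⊢; simp; omega)
        have h4 : n - 2 ≠ 2 := by omega
        have h5 : n - (n - 2 + 2) = 0 := by omega
        exact ⟨s, by simpa [nat_card_centralizer, hs, h4, h4.symm, h5, mul_comm] using dvd s⟩
      · obtain ⟨s, -, -, h2⟩ := cyc (α := Fin n) (l := n - 2)
          (by rw [Nat.odd_iff] at h ⊢; omega) (by omega) (by simp)
        rw [Fintype.card_fin, show n - (n - 2) = 2 by omega] at h2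
        exact ⟨s, h2⟩
    obtain ⟨s, hs⟩ := key
    have ho : Odd (od n) := Nat.odd_iff.2 (by unfold od; omega)
    have h2 : Nat.Coprime 2 (od n) := Nat.coprime_two_left.2 ho
    refine ⟨_, ⟨s, rfl⟩, Nat.Coprime.coprime_dvd_left hs (h2.mul_left ?_)⟩
    obtain e | e : od n = n - 2 + 1 ∨ od n = n - 2 + 2 := by unfold od; omega
    · rw [e]; simp
    · rw [e] at h2 ⊢
      simpa [Nat.coprime_comm] using h2
  · obtain ⟨T, hT, hc⟩ := Finset.exists_subset_card_eq hΓ
    have hc' : Fintype.card T = l := by simpa using hc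
    obtain ⟨g, g1, -, g3⟩ := cyc (α := T) hl h3 hc'.ge
    rw [hc', Nat.sub_self, Nat.factorial_zero, one_mul] at g3
    have sub : ∀ s : alternatingGroup T, sp (alternatingGroup.ofSubtype T s) ⊆ T := fun s x hx => by
      rw [sp, show (alternatingGroup.ofSubtype T s : Perm α) = ofSubtype (s : Perm T) from rfl,
        support_ofSubtype] at hx
      obtain ⟨y, -, rfl⟩ := Finset.mem_map.1 hx
      exact y.2
    have w1 : (alternatingGroup.ofSubtype T g : Perm α).cycleType = {l} :=
      cycleType_ofSubtype.trans g1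
    have w2 : (sp (alternatingGroup.ofSubtype T g)).card = l := by
      rw [sp, ← sum_cycleType, w1, Multiset.sum_singleton]
    have w3 : sp (alternatingGroup.ofSubtype T g) = T :=
      Finset.eq_of_subset_of_card_le (sub g) (by rw [hc, w2])
    refine ⟨_, (sub g).trans hT, w2, ord w1, ?_⟩
    have : Nontrivial T := Fintype.one_lt_card_iff_nontrivial.1 (by omega)
    have e1 := two_mul_nat_card_alternatingGroup (α := T)
    rw [Nat.card_perm, Nat.card_eq_fintype_card (α := T), hc', ← cls g,
      ← Nat.mul_factorial_pred (by omega : l ≠ 0)] at e1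
    have e2 : {v | IsConj v g}.ncard ≤ {v : alternatingGroup α | ∃ s,
        sp s ⊆ sp (alternatingGroup.ofSubtype T g) ∧
          v = s * alternatingGroup.ofSubtype T g * s⁻¹}.ncard := by
      refine Set.ncard_le_ncard_of_injOn (alternatingGroup.ofSubtype T) (fun v hv => ?_)
        alternatingGroup.ofSubtype_injective.injOn
      obtain ⟨s, rfl⟩ := isConj_iff.1 (IsConj.symm hv)
      exact ⟨_, (sub s).trans w3.ge, by simp⟩
    refine Nat.le_of_mul_le_mul_left ?_ (by omega : 0 < l)
    rw [← e1, mul_comm l, mul_assoc]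
    exact Nat.mul_le_mul_left 2 (Nat.mul_le_mul e2 (Nat.le_of_dvd (by omega) g3))

end Pool.Agent.MP_62c071_al.H57
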