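import Pool.Agent.MP_62c071_al.H57.Spec

/-! Row ALPHA: few primes are not tame. -/

set_option autoImplicit false

namespace Pool.Agent.MP_62c071_al.H57

open Subgroup
open scoped Pointwise

namespace ALPHAx

variable {G : Type} [Group G]

theorem mem_cen {g x : G} : x ∈ cen g ↔ Commute g x := by
  rw [cen, mem_centralizer_singleton_iff]
  exact eq_comm

theorem cen_le_of_mem {a b : G} (h : a ∈ zpowers b) : cen b ≤ cen a := by
  obtain ⟨k, rfl⟩ := mem_zpowers_iff.1 h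
  exact fun x hx => mem_cen.2 ((mem_cen.1 hx).zpow_left k)

theorem inf_le_cen (a b : G) : cen a ⊓ cen b ≤ cen (a * b) := fun _ hx =>
  mem_cen.2 ((mem_cen.1 hx.1).mul_left (mem_cen.1 hx.2))

theorem mem_zp {a b : G} (h : Commute a b) (hc : (orderOf a).Coprime (orderOf b)) :
    a ∈ zpowers (a * b) := by
  have h1 : (a * b) ^ orderOf b = a ^ orderOf b := by
    rw [h.mul_pow, pow_orderOf_eq_one, mul_one]
  have h2 : a ∈ zpowers (a ^ orderOf b) := mem_zpowers_pow_iff.2 hc.symm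
  rw [← h1] at h2
  exact zpowers_le.2 (npow_mem_zpowers _ _) h2

theorem cop {a b : G} (h : Commute a b) (hc : (orderOf a).Coprime (orderOf b)) :
    cen (a * b) = cen a ⊓ cen b := by
  refine le_antisymm (le_inf (cen_le_of_mem (mem_zp h hc)) ?_) (inf_le_cen a b)
  rw [h.eq]
  exact cen_le_of_mem (mem_zp h.symm hc.symm)

theorem pe_cop {q : ℕ} {a b : G} (ha : PE q a) (hb : PP q b) :
    (orderOf a).Coprime (orderOf b) := by
  obtain ⟨e, he⟩ := ha
  exact Nat.Coprime.coprime_dvd_left (orderOf_dvd_of_pow_eq_one he)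
    (Nat.Coprime.pow_left e (Nat.Coprime.symm hb))

theorem pe_pp {q r : ℕ} {a : G} (ha : PE r a) (h : r.Coprime q) : PP q a := by
  obtain ⟨e, he⟩ := ha
  exact Nat.Coprime.coprime_dvd_left (orderOf_dvd_of_pow_eq_one he) (Nat.Coprime.pow_left e h)

theorem part [Finite G] {q : ℕ} (hq : q.Prime) (g : G) :
    ∃ a b : G, a ∈ zpowers g ∧ b ∈ zpowers g ∧ g = a * b ∧ PE q a ∧ PP q b := by
  obtain ⟨e, m, hm, hn⟩ := Nat.exists_eq_pow_mul_and_not_dvd (orderOf_pos g).ne' q hq.ne_one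
  have hc : (q ^ e).Coprime m := Nat.Coprime.pow_left e ((Nat.Prime.coprime_iff_not_dvd hq).2 hm)
  obtain ⟨i, h1, h0⟩ := Nat.chineseRemainder hc 1 0
  refine ⟨g ^ i, (g ^ i)⁻¹ * g, npow_mem_zpowers _ _,
    mul_mem (inv_mem (npow_mem_zpowers _ _)) (mem_zpowers g), by group, ⟨e, ?_⟩, ?_⟩
  · rw [← pow_mul, ← orderOf_dvd_iff_pow_eq_one, hn, mul_comm]
    exact Nat.mul_dvd_mul_right ((Nat.modEq_zero_iff_dvd).1 h0) _
  · have h2 : ((g ^ i)⁻¹ * g) ^ m = 1 := by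
      rw [((Commute.refl g).pow_left i).inv_left.mul_pow, inv_pow, ← pow_mul, inv_mul_eq_one,
        pow_eq_pow_iff_modEq, hn]
      simpa using Nat.ModEq.mul_right' m h1
    exact Nat.Coprime.coprime_dvd_left (orderOf_dvd_of_pow_eq_one h2)
      ((Nat.Prime.coprime_iff_not_dvd hq).2 hm).symm

theorem pe_of_mem {q : ℕ} {P : Subgroup G} (hP : IsPGroup q P) {a : G} (ha : a ∈ P) :
    PE q a := by
  obtain ⟨k, hk⟩ := hP ⟨a, ha⟩
  exact ⟨k, by simpa using congrArg Subtype.val hk⟩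

theorem pgroup_zp {q : ℕ} {a : G} (ha : PE q a) : IsPGroup q (zpowers a) := by
  obtain ⟨e, he⟩ := ha
  rintro ⟨x, hx⟩
  obtain ⟨k, rfl⟩ := mem_zpowers_iff.1 hx
  refine ⟨e, Subtype.ext ?_⟩
  simp only [SubmonoidClass.coe_pow, OneMemClass.coe_one]
  rw [← zpow_natCast, ← zpow_mul, mul_comm, zpow_mul, zpow_natCast, he, one_zpow]

theorem ex_syl [Finite G] {q : ℕ} (hq : q.Prime) (E : Subgroup G) {a : G} (ha : a ∈ E)
    (hp : PE q a) : ∃ Q : Subgroup G, Q ≤ E ∧ IsPGroup q Q ∧ a ∈ Q ∧ ¬ q ∣ Q.relIndex E := by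
  have := Fact.mk hq
  have h1 : PE q (⟨a, ha⟩ : E) := by
    obtain ⟨e, he⟩ := hp
    exact ⟨e, Subtype.ext (by simpa using he)⟩
  obtain ⟨S, hS⟩ := (pgroup_zp h1).exists_le_sylow
  refine ⟨(S : Subgroup E).map E.subtype, map_subtype_le _, S.isPGroup'.map _,
    ⟨_, hS (mem_zpowers _), rfl⟩, ?_⟩
  rw [relIndex, subgroupOf, comap_map_eq_self_of_injective E.subtype_injective]
  exact S.not_dvd_index

theorem Oq_le (q : ℕ) (U : Subgroup G) : Oq q U ≤ U := by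
  obtain ⟨S⟩ : Nonempty (Sylow q U) := inferInstance
  exact (iInf_le _ S).trans (map_subtype_le _)

theorem Oq_pgroup (q : ℕ) (U : Subgroup G) : IsPGroup q (Oq q U) := by
  obtain ⟨S⟩ : Nonempty (Sylow q U) := inferInstance
  exact (S.isPGroup'.map U.subtype).to_le (iInf_le _ S)

theorem Oq_conj (q : ℕ) (U : Subgroup G) {g x : G} (hg : g ∈ U) (hx : x ∈ Oq q U) :
    g * x * g⁻¹ ∈ Oq q U := by
  rw [Oq, mem_iInf] at hx ⊢
  intro S
  obtain ⟨z, hz, rfl⟩ := hx ((⟨g, hg⟩ : U)⁻¹ • S)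
  refine ⟨⟨g, hg⟩ * z * (⟨g, hg⟩ : U)⁻¹, ?_, rfl⟩
  have h1 : z ∈ MulAut.conj (⟨g, hg⟩ : U)⁻¹ • (S : Subgroup U) := hz
  rw [mem_pointwise_smul_iff_inv_smul_mem] at h1
  have h2 : ⟨g, hg⟩ * z * (⟨g, hg⟩ : U)⁻¹ ∈ (S : Subgroup U) := by simpa using h1
  exact h2

theorem le_norm (q : ℕ) (U : Subgroup G) : U ≤ normalizer (Oq q U : Set G) := by
  intro g hg
  rw [mem_normalizer_iff]
  refine fun x => ⟨Oq_conj q U hg, fun h => ?_⟩
  simpa [mul_assoc] using Oq_conj q U (inv_mem hg) h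

theorem le_Oq {q : ℕ} {N U : Subgroup G} (hN : IsPGroup q N) (h : N ≤ U)
    (hn : ∀ g ∈ U, ∀ x ∈ N, g * x * g⁻¹ ∈ N) : N ≤ Oq q U := by
  refine le_iInf fun S => ?_
  have : (N.subgroupOf U).Normal := ⟨fun x hx g => hn g g.2 x hx⟩
  have h1 : IsPGroup q (N.subgroupOf U) := hN.comap_subtype
  intro x hx
  exact ⟨⟨x, h hx⟩, h1.le_sylow_of_normal S hx, rfl⟩

theorem min_sub [Finite G] (B : Finset ℕ) (f : ℕ → Subgroup G) :
    ∃ C ⊆ B, C.inf f = B.inf f ∧ 2 ^ C.card ≤ (B.inf f).index := by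
  induction B using Finset.induction_on with
  | empty => exact ⟨∅, le_rfl, rfl, by simp⟩
  | insert a B ha ih =>
    obtain ⟨C, hC, h1, h2⟩ := ih
    rw [Finset.inf_insert]
    by_cases h : B.inf f ≤ f a
    · rw [inf_eq_right.2 h]
      exact ⟨C, hC.trans (Finset.subset_insert _ _), h1, h2⟩
    · refine ⟨insert a C, Finset.insert_subset_insert _ hC, by rw [Finset.inf_insert, h1], ?_⟩
      rw [Finset.card_insert_of_notMem fun h' => ha (hC h'), pow_succ,
        ← relIndex_mul_index (inf_le_right : f a ⊓ B.inf f ≤ B.inf f), inf_relIndex_right,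
        mul_comm]
      have h3 : (f a).relIndex (B.inf f) ≠ 1 := fun h' => h (relIndex_eq_one.1 h')
      have h4 : (f a).relIndex (B.inf f) ≠ 0 := FiniteIndex.index_ne_zero
      exact Nat.mul_le_mul (by omega) h2

/-- a subgroup of index dividing `q`: what centralises it and one more element centralises all -/
theorem max_sub [Finite G] {q : ℕ} (hq : q.Prime) {R Q H : Subgroup G} (h : R ≤ Q)
    (hi : R.relIndex Q ∣ q) (hH : R ≤ H) {z : G} (hz : z ∈ Q) (hzH : z ∈ H) (hR : z ∉ R) :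
    Q ≤ H := by
  have h1 := relIndex_mul_relIndex R (H ⊓ Q) Q (le_inf hH h) inf_le_right
  have h2 : R.relIndex (H ⊓ Q) ≠ 1 := fun h' => hR (relIndex_eq_one.1 h' ⟨hzH, hz⟩)
  have h3 : R.relIndex (H ⊓ Q) = q :=
    ((Nat.dvd_prime hq).1 ((Dvd.intro _ h1).trans hi)).resolve_left h2
  rw [← h1, h3] at hi
  have h4 : (H ⊓ Q).relIndex Q = 1 :=
    Nat.dvd_one.1 (Nat.dvd_of_mul_dvd_mul_left hq.pos (by simpa using hi))
  exact (relIndex_eq_one.1 h4).trans inf_le_left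

theorem ix_dvd {P : Subgroup G} {g : G} (h : P ≤ cen g) : ix g ∣ P.index := index_dvd_of_le h

/-- the product of commuting small elements of different prime power orders -/
theorem prod_small [Finite G] {Pi : Finset ℕ} {p m n : ℕ} (hX : HX G Pi p m n) {P : Subgroup G}
    (hP : ¬ p ∣ P.index) (w : ℕ → G) (S : Finset ℕ)
    (hS : ∀ q ∈ S, q.Prime ∧ PE q (w q) ∧ P ≤ cen (w q) ∧ ix (w q) ≤ m)
    (hc : ∀ q ∈ S, ∀ r ∈ S, Commute (w q) (w r)) :
    ∃ z : G, P ≤ cen z ∧ ix z ≤ m ∧ cen z = S.inf (fun q => cen (w q)) ∧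
      ∀ r : ℕ, r.Prime → r ∉ S → PP r z := by
  induction S using Finset.induction_on with
  | empty =>
    have h1 : cen (1 : G) = ⊤ := eq_top_iff.2 fun x _ => mem_cen.2 (Commute.one_left x)
    have h2 : ix (1 : G) = 1 := by rw [ix, h1, index_top]
    obtain ⟨q, hq⟩ : Pi.Nonempty := Finset.card_pos.1 (by have := hX.two_le; omega)
    refine ⟨1, h1 ▸ le_top, hX.sm1 1 q hq ?_ ?_, by simpa using h1, fun r _ _ => by simp [PP]⟩
    · rw [h2]
      exact (hX.pr p (Finset.mem_insert_self _ _)).1.not_dvd_one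
    · rw [h2]
      exact (hX.pr q (Finset.mem_insert_of_mem hq)).1.not_dvd_one
  | insert a S ha ih =>
    obtain ⟨z, h1, h2, h3, h4⟩ := ih (fun q hq => hS q (Finset.mem_insert_of_mem hq))
      fun q hq r hr => hc q (Finset.mem_insert_of_mem hq) r (Finset.mem_insert_of_mem hr)
    obtain ⟨a1, a2, a3, a4⟩ := hS a (Finset.mem_insert_self _ _)
    have h5 : Commute (w a) z := by
      have : w a ∈ cen z := by
        rw [h3, Finset.inf_eq_iInf]
        simp only [mem_iInf]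
        exact fun q hq => mem_cen.2
          (hc q (Finset.mem_insert_of_mem hq) a (Finset.mem_insert_self _ _))
      exact (mem_cen.1 this).symm
    have h6 := pe_cop a2 (h4 a a1 ha)
    have h7 := cop h5 h6
    have h8 : P ≤ cen (w a * z) := h7 ▸ le_inf a3 h1
    refine ⟨w a * z, h8, (hX.sm2 _ (fun h => hP (h.trans (ix_dvd h8))) ?_).1,
      by rw [h7, h3, Finset.inf_insert], fun r hr hr' => ?_⟩
    · rw [ix, h7, sq]
      exact index_inf_le.trans (Nat.mul_le_mul a4 h2)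
    · rw [Finset.mem_insert, not_or] at hr'
      rw [PP, h5.orderOf_mul_eq_mul_orderOf_of_coprime h6]
      exact Nat.Coprime.mul_left (pe_pp a2 ((Nat.coprime_primes a1 hr).2 (Ne.symm hr'.1)))
        (h4 r hr hr'.2)

theorem min_small [Finite G] {Pi : Finset ℕ} {p m n μ : ℕ} (hX : HX G Pi p m n) (hm : m < 2 ^ μ)
    {P : Subgroup G} (hP : ¬ p ∣ P.index) (w : ℕ → G) (S : Finset ℕ)
    (hS : ∀ q ∈ S, q.Prime ∧ PE q (w q) ∧ P ≤ cen (w q) ∧ ix (w q) ≤ m)
    (hc : ∀ q ∈ S, ∀ r ∈ S, Commute (w q) (w r)) :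
    ∃ C ⊆ S, C.card ≤ μ ∧ ∃ z : G, P ≤ cen z ∧ ix z ≤ m ∧
      cen z = C.inf (fun q => cen (w q)) ∧ (∀ q ∈ S, cen z ≤ cen (w q)) ∧
      ∀ r : ℕ, r.Prime → r ∉ C → PP r z := by
  obtain ⟨C, hC, h1, h2⟩ := min_sub S fun q => cen (w q)
  obtain ⟨z, z1, z2, z3, z4⟩ := prod_small hX hP w C (fun q hq => hS q (hC hq))
    fun q hq r hr => hc q (hC hq) r (hC hr)
  refine ⟨C, hC, ?_, z, z1, z2, z3, fun q hq => ?_, z4⟩
  · rw [← h1, ← z3] at h2
    exact ((Nat.pow_lt_pow_iff_right (by norm_num)).1 ((h2.trans z2).trans_lt hm)).le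
  · rw [z3, h1]
    exact Finset.inf_le hq

/-- the central element of a Sylow subgroup inside `E` -/
theorem ex_w [Finite G] {q : ℕ} (hq : q.Prime) {E : Subgroup G} (hE : ¬ q ^ 2 ∣ E.index)
    (hT : ¬ Tame G q)
    (hZ : ∀ Q : Sylow q G, ¬ (Q : Subgroup G).Normal →
      ∃ w ∈ Q, (∀ a ∈ Q, Commute a w) ∧ w ∉ Oq q (⊤ : Subgroup G))
    {u : G} (hu : u ∈ E) (hp : PE q u) (hEu : E ≤ cen u)
    (h : q ∣ ix u ∨ ∀ a ∈ E, PE q a → E ≤ cen a) :
    ∃ w ∈ E, PE q w ∧ ¬ q ∣ ix w ∧ w ∉ Oq q (⊤ : Subgroup G) := by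
  have := Fact.mk hq
  obtain ⟨R, hRE, hR, huR, hi⟩ := ex_syl hq E hu hp
  obtain ⟨Q, hQ⟩ := hR.exists_le_sylow
  have h1 : R.relIndex Q ∣ q := by
    obtain ⟨j, hj⟩ := Q.isPGroup'.index (R.subgroupOf Q)
    have hj' : R.relIndex Q = q ^ j := hj
    have h2 : R.relIndex Q ∣ R.relIndex E * E.index := by
      rw [relIndex_mul_index hRE, ← relIndex_mul_index hQ]
      exact Dvd.intro _ rfl
    rw [hj'] at h2 ⊢
    have h3 : q ^ j ∣ E.index :=
      (Nat.Coprime.pow_left j ((Nat.Prime.coprime_iff_not_dvd hq).2 hi)).dvd_of_dvd_mul_left h2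
    have : j ≤ 1 := by
      by_contra h
      exact hE ((pow_dvd_pow q (by omega)).trans h3)
    simpa using pow_dvd_pow q this
  have h2 : q * Nat.card (Oq q (⊤ : Subgroup G)) < Nat.card Q := by
    rw [Tame] at hT
    push Not at hT
    obtain ⟨Q', hQ'⟩ := hT
    exact hQ'.trans_eq (Nat.card_congr (Sylow.equiv Q' Q).toEquiv)
  have h3 : ¬ (Q : Subgroup G).Normal := by
    intro hn
    have h4 := card_le_of_le (le_Oq Q.isPGroup' le_top fun g _ x hx => hn.conj_mem x hx g)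
    have h5 := Nat.le_mul_of_pos_left (Nat.card (Oq q (⊤ : Subgroup G))) hq.pos
    exact absurd (h4.trans h5) (not_le.2 h2)
  have hn : ∀ w : G, (Q : Subgroup G) ≤ cen w → ¬ q ∣ ix w := fun w hw h' =>
    Q.not_dvd_index (h'.trans (ix_dvd hw))
  obtain ⟨z, hz, hzc, hzO⟩ := hZ Q h3
  by_cases hzR : z ∈ R
  · exact ⟨z, hRE hzR, pe_of_mem hR hzR, hn z fun a ha => mem_cen.2 (hzc a ha).symm, hzO⟩
  have h4 : ∀ a ∈ R, E ≤ cen a → ¬ q ∣ ix a := fun a ha hc =>
    hn a (max_sub hq hQ h1 (hRE.trans hc) hz (mem_cen.2 (hzc a (hQ ha))) hzR)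
  rcases h with h | h
  · exact absurd h (h4 u huR hEu)
  have h5 : ¬ R ≤ Oq q ⊤ := by
    intro hle
    have h6 := card_le_of_le hle
    have h7 : Nat.card (R.subgroupOf Q) * R.relIndex Q = Nat.card Q := card_mul_index _
    rw [Nat.card_congr (subgroupOfEquivOfLe hQ).toEquiv] at h7
    have h8 := Nat.mul_le_mul h6 (Nat.le_of_dvd hq.pos h1)
    rw [h7, mul_comm] at h8
    exact absurd h8 (not_le.2 h2)
  obtain ⟨w, hw, hwO⟩ := SetLike.not_le_iff_exists.1 h5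
  exact ⟨w, hRE hw, pe_of_mem hR hw, h4 w hw (h w (hRE hw) (pe_of_mem hR hw)), hwO⟩

theorem cop_pred {q r n : ℕ} (hq : q.Prime) (hr : r.Prime) (h1 : n + 1 < 2 * r) (h2 : q ≤ n) :
    r.Coprime (q - 1) := by
  rw [Nat.Prime.coprime_iff_not_dvd hr]
  rintro ⟨k, hk⟩
  have h3 := hq.two_le
  have h4 := hr.two_le
  rcases k with _ | _ | k
  · omega
  · rcases hr.eq_two_or_odd with h | h
    · omega
    · rcases hq.eq_two_or_odd with h' | h' <;> omega
  · have : r * (k + 1 + 1) = r * k + 2 * r := by ring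
    omega

end ALPHAx

open ALPHAx

theorem rowALPHA (hc : RowCAM) (h1 : RowR1) (h3 : RowR3) (hp : RowPB) : RowALPHA := by
  intro G _ _ Pi p m n μ hX hm B hB hT
  classical
  have hpr : ∀ q ∈ B, q.Prime := fun q hq => (hX.pr q (Finset.mem_insert_of_mem (hB hq))).1
  have hp0 : p.Prime := (hX.pr p (Finset.mem_insert_self _ _)).1
  obtain ⟨y, hy, -, hmin⟩ := hX.key p (Finset.mem_insert_self _ _)
  obtain ⟨P, hPE, hPp, -, hPi⟩ := ex_syl hp0 (cen y) (one_mem _) ⟨0, by simp⟩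
  have hP : ¬ p ∣ P.index := by
    rw [← relIndex_mul_index hPE]
    exact fun h => ((Nat.Prime.dvd_mul hp0).1 h).elim hPi hy
  have hparts : ∀ q : ℕ, ∃ a b : G, q.Prime →
      a ∈ zpowers y ∧ b ∈ zpowers y ∧ y = a * b ∧ PE q a ∧ PP q b := by
    intro q
    by_cases hq : q.Prime
    · obtain ⟨a, b, h⟩ := part hq y
      exact ⟨a, b, fun _ => h⟩
    · exact ⟨1, 1, fun h => absurd h hq⟩
  choose u v huv using hparts
  have hzE : ∀ a ∈ zpowers y, a ∈ cen y := fun a ha =>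
    zpowers_le.2 (mem_cen.2 (Commute.refl y)) ha
  have hzc : ∀ a ∈ zpowers y, ∀ b ∈ zpowers y, Commute a b := fun a ha b hb =>
    mem_cen.1 (cen_le_of_mem ha (hzE b hb))
  obtain ⟨B2, hB2, c2, z, -, -, z3, z4, -⟩ := min_small hX hm hP u
    (B.filter fun q => ¬ q ∣ ix (u q))
    (fun q hq => by
      rw [Finset.mem_filter] at hq
      obtain ⟨a1, -, -, a4, -⟩ := huv q (hpr q hq.1)
      have h := hPE.trans (cen_le_of_mem a1)
      exact ⟨hpr q hq.1, a4, h, hX.sm1 _ q (hB hq.1) (fun h' => hP (h'.trans (ix_dvd h))) hq.2⟩)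
    fun q hq r hr => hzc _ (huv q (hpr q (Finset.mem_filter.1 hq).1)).1 _
      (huv r (hpr r (Finset.mem_filter.1 hr).1)).1
  have hcase : ∀ q ∈ B \ B2, q ∣ ix (u q) ∨ ∀ a ∈ cen y, PE q a → cen y ≤ cen a := by
    intro q hq
    rw [Finset.mem_sdiff] at hq
    by_cases hd : q ∣ ix (u q)
    · exact Or.inl hd
    refine Or.inr fun a ha hqa => ?_
    obtain ⟨a1, a2, a3, a4, a5⟩ := huv q (hpr q hq.1)
    have h4 : cen (v q) ≤ cen z := by
      rw [z3]
      refine Finset.le_inf fun r hr => ?_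
      have hrB := (Finset.mem_filter.1 (hB2 hr)).1
      obtain ⟨b1, -, -, b4, -⟩ := huv r (hpr r hrB)
      obtain ⟨k, hk⟩ := mem_zpowers_iff.1 b1
      obtain ⟨e, he⟩ := a4
      have h5 : u r ^ q ^ e ∈ zpowers (v q) := by
        rw [← hk, ← zpow_natCast, ← zpow_mul, mul_comm, zpow_mul, zpow_natCast]
        refine zpow_mem ?_ k
        rw [a3, (hzc _ a1 _ a2).mul_pow, he, one_mul]
        exact npow_mem_zpowers _ _
      have h6 : u r ∈ zpowers (u r ^ q ^ e) := by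
        have hne : r ≠ q := fun h => hq.2 (h ▸ hr)
        exact mem_zpowers_pow_iff.2 (Nat.Coprime.pow_left e
          (Nat.Coprime.symm (pe_pp b4 ((Nat.coprime_primes (hpr r hrB) (hpr q hq.1)).2 hne))))
      exact cen_le_of_mem (zpowers_le.2 h5 h6)
    have h5 : cen (v q) ≤ cen y := by
      have h6 := h4.trans (z4 q (Finset.mem_filter.2 ⟨hq.1, hd⟩))
      exact (le_inf h6 le_rfl).trans ((inf_le_cen _ _).trans_eq (congrArg cen a3.symm))
    have h6 := cop (mem_cen.1 (cen_le_of_mem a2 ha)).symm (pe_cop hqa a5)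
    exact (hmin (a * v q) (h6 ▸ inf_le_right.trans h5)).trans (h6 ▸ inf_le_left)
  have hcomm : ∀ q ∈ B \ B2, ∀ a ∈ cen y, ∀ b ∈ cen y, PE q a → PP q b → Commute a b := by
    intro q hq a ha b hb hqa hqb
    have hqB := (Finset.mem_sdiff.1 hq).1
    rcases hcase q hq with h | h
    · obtain ⟨a1, -, -, a4, -⟩ := huv q (hpr q hqB)
      exact (hc G q (hpr q hqB)).2.2 (fun g => hX.sq g q (Finset.mem_insert_of_mem (hB hqB)))
        (u q) a4 h a b (mem_cen.1 (cen_le_of_mem a1 ha)) (mem_cen.1 (cen_le_of_mem a1 hb)) hqa hqb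
    · exact mem_cen.1 (h a ha hqa hb)
  have hw : ∀ q : ℕ, ∃ w : G, q ∈ B \ B2 →
      w ∈ cen y ∧ PE q w ∧ ¬ q ∣ ix w ∧ w ∉ Oq q (⊤ : Subgroup G) := by
    intro q
    by_cases hq : q ∈ B \ B2
    · have hqB := (Finset.mem_sdiff.1 hq).1
      obtain ⟨a1, -, -, a4, -⟩ := huv q (hpr q hqB)
      obtain ⟨w, h⟩ := ex_w (hpr q hqB) (hX.sq y q (Finset.mem_insert_of_mem (hB hqB)))
        (hT q hqB) (((h3 G).2 Pi p m n hX).2 q (hB hqB)).2.2 (hzE _ a1) a4 (cen_le_of_mem a1)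
        (hcase q hq)
      exact ⟨w, fun _ => h⟩
    · exact ⟨1, fun h => absurd h hq⟩
  choose w hw using hw
  have hwc : ∀ q ∈ B \ B2, ∀ r ∈ B \ B2, Commute (w q) (w r) := by
    intro q hq r hr
    by_cases h : r = q
    · rw [h]
    · exact hcomm q hq _ (hw q hq).1 _ (hw r hr).1 (hw q hq).2.1 (pe_pp (hw r hr).2.1
        ((Nat.coprime_primes (hpr r (Finset.mem_sdiff.1 hr).1)
          (hpr q (Finset.mem_sdiff.1 hq).1)).2 h))
  obtain ⟨B1, hB1, c1, x, x1, x2, x3, x4, x5⟩ := min_small hX hm hP w (B \ B2)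
    (fun q hq => by
      have hqB := (Finset.mem_sdiff.1 hq).1
      obtain ⟨a1, a2, a3, -⟩ := hw q hq
      have h : P ≤ cen (w q) := fun b hb => mem_cen.2 (hcomm q hq _ a1 _ (hPE hb) a2
        (pe_pp (pe_of_mem hPp hb)
          ((Nat.coprime_primes hp0 (hpr q hqB)).2 (hX.lt q (hB hqB)).ne')))
      exact ⟨hpr q hqB, a2, h, hX.sm1 _ q (hB hqB) (fun h' => hP (h'.trans (ix_dvd h))) a3⟩)
    hwc
  have hxs := (hX.sm2 x (fun h => hP (h.trans (ix_dvd x1)))
    (x2.trans (Nat.le_self_pow two_ne_zero m))).2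
  have hPB := hp G (cen x) ((B \ B2) \ B1)
    (fun q hq => by
      have hq1 := (Finset.mem_sdiff.1 hq).1
      have hqB := (Finset.mem_sdiff.1 hq1).1
      refine ⟨hpr q hqB, hxs q (hB hqB), fun h => (hw q hq1).2.2.2 ?_⟩
      have h4 : w q ∈ cen x := by
        rw [x3, Finset.inf_eq_iInf]
        simp only [mem_iInf]
        exact fun r hr => mem_cen.2 (hwc r (hB1 hr) q hq1)
      rw [← h]
      refine le_Oq (pgroup_zp (hw q hq1).2.1) (zpowers_le.2 h4) (fun g hg a ha => ?_)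
        (mem_zpowers _)
      rw [← (mem_cen.1 (cen_le_of_mem ha (x4 q hq1 hg))).eq, mul_inv_cancel_right]
      exact ha)
    fun q hq r hr hne a ha hra s hs => by
      have hqB := (Finset.mem_sdiff.1 (Finset.mem_sdiff.1 hq).1).1
      have hrB := (Finset.mem_sdiff.1 (Finset.mem_sdiff.1 hr).1).1
      have h4 := cop (mem_cen.1 ha).symm
        (pe_cop hra (x5 r (hpr r hrB) (Finset.mem_sdiff.1 hr).2))
      refine (h1 G q (Oq q (cen x)) (cen x) a (hpr q hqB) (Oq_pgroup _ _) (Oq_le _ _)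
        (le_norm _ _) ha fun h => ?_).2
        (pe_pp hra ((Nat.coprime_primes (hpr r hrB) (hpr q hqB)).2 hne.symm))
        (pe_pp hra (cop_pred (hpr q hqB) (hpr r hrB)
          (hX.pr r (Finset.mem_insert_of_mem (hB hrB))).2.1
          (hX.pr q (Finset.mem_insert_of_mem (hB hqB))).2.2)) s hs
      refine hX.sq (a * x) q (Finset.mem_insert_of_mem (hB hqB)) (h.trans ?_)
      rw [ix, h4, ← relIndex_mul_index (inf_le_right : cen a ⊓ cen x ≤ cen x),
        inf_relIndex_right]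
      exact Dvd.intro _ rfl
  have c3 : ((B \ B2) \ B1).card ≤ μ :=
    ((Nat.pow_lt_pow_iff_right (by norm_num)).1 ((hPB.trans x2).trans_lt hm)).le
  have c4 := Finset.le_card_sdiff B2 B
  have c5 := Finset.le_card_sdiff B1 (B \ B2)
  omega

end Pool.Agent.MP_62c071_al.H57
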