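import Pool.Agent.MP_62c071_al.H57.Spec

/-! Row AR: the quotient of two big centraliser orders. -/

set_option autoImplicit false

namespace Pool.Agent.MP_62c071_al.H57

open scoped Nat

namespace AR

theorem zf_cons (f p : ℕ) (M : Multiset ℕ) (h : p ∉ M) : zf f (p ::ₘ M) = p * zf f M := by
  have h1 : ∏ l ∈ M.toFinset, ((p ::ₘ M).count l)! = ∏ l ∈ M.toFinset, (M.count l)! :=
    Finset.prod_congr rfl fun l hl => by
      rw [Multiset.count_cons_of_ne (fun e : l = p => h (e ▸ Multiset.mem_toFinset.1 hl))]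
  rw [zf, zf, Multiset.toFinset_cons, Finset.prod_insert (by simpa using h), h1,
    Multiset.count_cons_self, Multiset.count_eq_zero_of_notMem h, Multiset.prod_cons]
  simp only [zero_add, Nat.factorial_one]
  ring

/-- A big centraliser order has many fixed points. -/
theorem big (h : RowSH) {p k c : ℕ} (hp : p.Prime) (hk : k < p) (hl : 2 * p * k ! < p !)
    (hc : c ∈ Cz (p + k)) (hb : Big p c) :
    ∃ f y, p ≤ f ∧ f ≤ p + k ∧ 2 * c = f ! * y ∧ y ∣ k ! ∧ y ^ 2 ≤ k ^ k := by
  obtain ⟨f, M, h1, h2, -, h3, h4⟩ := h.1 _ _ hc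
  have h0 : 0 < c := (h.2.2 _ _ hc).1
  have hp2 : 2 < p := by
    rcases hp.two_le.lt_or_eq with h | rfl
    · exact h
    · have := Nat.factorial_pos k
      simp only [Nat.factorial_two] at hl
      omega
  have hf : p ≤ f := by
    by_contra hf
    have h5 : p ∣ 2 * zf f M := by
      refine (Nat.dvd_factorial hp.pos le_rfl).trans (Dvd.dvd.trans hb ?_)
      rcases h3 with h3 | h3
      · rw [h3]
      · rw [h3]; exact Dvd.intro_left _ rfl
    have h6 : p ∣ zf f M := ((Nat.Prime.dvd_mul hp).1 h5).resolve_left fun h =>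
      absurd (Nat.le_of_dvd two_pos h) (by omega)
    have h7 : M.card * 2 ≤ M.sum := Multiset.card_nsmul_le_sum h1
    have h8 : p ∈ M := by
      rcases (Nat.Prime.dvd_mul hp).1 h6 with h8 | h8
      · obtain ⟨l, h9, m, rfl⟩ := hp.prime.exists_mem_multiset_dvd
          (((Nat.Prime.dvd_mul hp).1 h8).resolve_left fun h => hf (hp.dvd_factorial.1 h))
        have a1 := h1 _ h9
        have a2 := Multiset.le_sum_of_mem h9
        have a3 : m = 1 := by
          rcases m with _ | _ | m
          · omega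
          · rfl
          · nlinarith
        simpa [a3] using h9
      · obtain ⟨l, -, h9⟩ := hp.prime.exists_mem_finset_dvd h8
        have a1 := hp.dvd_factorial.1 h9
        have a2 := Multiset.count_le_card l M
        omega
    obtain ⟨M', rfl⟩ := Multiset.exists_cons_of_mem h8
    rw [Multiset.sum_cons] at h2
    have a1 : p ∉ M' := fun h => by
      have := Multiset.le_sum_of_mem h
      omega
    have a2 := (h.2.1 f M' fun l hl => h1 l (Multiset.mem_cons_of_mem hl)).2.1
    rw [show M'.sum + f = k by omega] at a2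
    have a3 := Nat.le_of_dvd (Nat.factorial_pos k) a2
    have a4 := Nat.le_of_dvd (by omega) hb
    rw [zf_cons f p M' a1] at h3
    have a5 := Nat.mul_le_mul_left p a3
    rw [mul_assoc] at hl
    omega
  have h5 : M.sum ≤ k := by omega
  obtain ⟨-, h6, h7⟩ := h.2.1 0 M h1
  refine ⟨f, zf 0 M, hf, by omega, ?_, h6.trans (Nat.factorial_dvd_factorial h5), h7.trans ?_⟩
  · rw [h4 (by omega)]
    simp [zf, mul_assoc]
  · rcases Nat.eq_zero_or_pos k with rfl | h9
    · rw [Nat.le_zero.1 h5]
    · exact (Nat.pow_le_pow_left h5 _).trans (Nat.pow_le_pow_right h9 h5)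

theorem smooth {f e K : ℕ} (hf : 0 < f) (he : e ≤ f)
    (h : ∀ l : ℕ, l.Prime → l ∣ f.choose e → l ≤ K) : f.choose e ≤ f ^ Nat.primeCounting K := by
  rw [← Nat.prod_factorization_pow_eq_self (Nat.choose_pos he).ne', Finsupp.prod,
    ← Nat.primesLE_card_eq_primeCounting]
  refine (Finset.prod_le_pow_card _ _ f fun l _ => Nat.pow_factorization_choose_le hf).trans
    (Nat.pow_le_pow_right hf (Finset.card_le_card fun l hl => ?_))
  rw [Nat.support_factorization, Nat.mem_primeFactors] at hl
  exact Nat.mem_primesLE.2 ⟨h l hl.1 hl.2.1, hl.1⟩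

end AR

open AR in
theorem rowAR (h : RowSH) : RowAR := by
  intro p k K d c c' ρ hp hk hK hl hc hc' hb hb' he hs _ hd
  obtain ⟨f, y, a1, a2, a3, -, a5⟩ := big h hp hk hl hc hb
  obtain ⟨f', y', b1, -, b3, b4, -⟩ := big h hp hk hl hc' hb'
  have hn : 0 < p + k := by omega
  have b5 : 0 < y' := Nat.pos_of_dvd_of_pos b4 (Nat.factorial_pos k)
  have e1 : f ! * y = f' ! * (ρ * y') := by
    rw [← a3, he, mul_left_comm, b3]
    ring
  have key : ρ * y' ≤ (p + k) ^ d * y := by
    rcases le_or_gt f f' with h1 | h1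
    · have h2 : f' ! * (ρ * y') ≤ f' ! * y :=
        e1 ▸ Nat.mul_le_mul_right y (Nat.factorial_le h1)
      exact (Nat.le_of_mul_le_mul_left h2 (Nat.factorial_pos _)).trans
        (Nat.le_mul_of_pos_left y (Nat.pow_pos hn))
    · obtain ⟨e, rfl⟩ := Nat.exists_eq_add_of_le h1.le
      have h2 := Nat.factorial_mul_descFactorial (Nat.le_add_left e f')
      rw [Nat.add_sub_cancel] at h2
      have h3 : ρ * y' = (f' + e).descFactorial e * y :=
        Nat.eq_of_mul_eq_mul_left (Nat.factorial_pos f') (by rw [← e1, ← h2, mul_assoc])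
      have h4 : (f' + e).choose e ≤ (p + k) ^ Nat.primeCounting K := by
        refine (smooth (by omega) (Nat.le_add_left e f') fun l hl1 hl2 => ?_).trans
          (Nat.pow_le_pow_left a2 _)
        have h5 : l ∣ ρ * y' := by
          rw [h3, Nat.descFactorial_eq_factorial_mul_choose]
          exact (hl2.mul_left _).mul_right _
        rcases (Nat.Prime.dvd_mul hl1).1 h5 with h6 | h6
        · exact hs l hl1 h6
        · exact (hl1.dvd_factorial.1 (h6.trans b4)).trans hK
      have h5 : p ^ e ≤ (p + k) ^ Nat.primeCounting K * k ^ e := by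
        refine (Nat.pow_le_pow_left (by omega) e).trans
          ((Nat.pow_sub_le_descFactorial (f' + e) e).trans ?_)
        rw [Nat.descFactorial_eq_factorial_mul_choose, mul_comm]
        exact Nat.mul_le_mul h4 ((Nat.factorial_le_pow e).trans (Nat.pow_le_pow_left (by omega) e))
      have h6 : e ≤ d := by
        by_contra h6
        obtain ⟨j, rfl⟩ := Nat.exists_eq_add_of_le (Nat.succ_le_of_lt (not_le.1 h6))
        rw [pow_add, pow_add, ← mul_assoc] at h5
        exact absurd h5 (not_le.2 (Nat.mul_lt_mul_of_lt_of_le hd (Nat.pow_le_pow_left hk.le j)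
          (Nat.pow_pos hp.pos)))
      rw [h3]
      exact Nat.mul_le_mul_right y ((Nat.descFactorial_le_pow _ _).trans
        ((Nat.pow_le_pow_left a2 e).trans (Nat.pow_le_pow_right hn h6)))
  have h1 : ρ ≤ (p + k) ^ d * y := (Nat.le_mul_of_pos_right ρ b5).trans key
  calc ρ ^ 2 ≤ ((p + k) ^ d * y) ^ 2 := Nat.pow_le_pow_left h1 2
    _ = (p + k) ^ (2 * d) * y ^ 2 := by ring
    _ ≤ (p + k) ^ (2 * d) * k ^ k := Nat.mul_le_mul_left _ a5
    _ ≤ 4 * (p + k) ^ (2 * d) * k ^ k := by
      rw [mul_assoc]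
      exact Nat.le_mul_of_pos_left _ (by norm_num)

end Pool.Agent.MP_62c071_al.H57
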