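import Pool.Agent.MP_62c071_al.H57.Spec

/-! The chain of three primes and the final assembly. -/

set_option autoImplicit false

namespace Pool.Agent.MP_62c071_al.H57

open Subgroup Filter
open scoped Nat

namespace CHAIN

theorem log_tendsto : Tendsto (Nat.log 2) atTop atTop := by
  refine tendsto_atTop.2 fun b => ?_
  filter_upwards [eventually_ge_atTop (2 ^ b)] with n hn
  exact Nat.le_log_of_pow_le (by norm_num) hn

theorem poly_le (C a : ℕ) : ∀ᶠ M : ℕ in atTop, C * Nat.log 2 M ^ a ≤ M := by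
  have h : ∀ᶠ L : ℕ in atTop, C * L ^ a ≤ 2 ^ L := by
    have h1 := tendsto_pow_const_div_const_pow_of_one_lt a (show (1 : ℝ) < 2 by norm_num)
    have h2 : ∀ᶠ L : ℕ in atTop, (L : ℝ) ^ a / 2 ^ L < 1 / (C + 1) :=
      h1.eventually (gt_mem_nhds (by positivity))
    filter_upwards [h2] with L hL
    rw [div_lt_div_iff₀ (by positivity) (by positivity)] at hL
    have : ((C * L ^ a : ℕ) : ℝ) ≤ ((2 ^ L : ℕ) : ℝ) := by
      push_cast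
      nlinarith [pow_nonneg (Nat.cast_nonneg (α := ℝ) L) a]
    exact_mod_cast this
  filter_upwards [log_tendsto.eventually h, eventually_ge_atTop 1] with M hM h1
  exact hM.trans (Nat.pow_log_le_self 2 (by omega))

theorem log_le {M N : ℕ} (h : N ≤ 2 * M) (hL : 1 ≤ Nat.log 2 M) :
    Nat.log 2 N ≤ 2 * Nat.log 2 M := by
  have hM : M ≠ 0 := by
    rintro rfl
    simp at hL
  have h1 : Nat.log 2 N ≤ Nat.log 2 (M * 2) := Nat.log_mono_right (by omega)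
  rw [Nat.log_mul_base (by norm_num) hM] at h1
  omega

/-- the sizes of the three primes -/
theorem sizes (N : ℕ) : ∀ᶠ M : ℕ in atTop, ∀ p₁ p₂ p₃ : ℕ, Win M p₁ p₂ p₃ →
    N ≤ p₁ ∧ 5 ≤ p₁ ∧ p₁ ≤ p₂ ∧ 2 * M ≤ p₁ ^ 2 ∧ 32 * p₁ * Nat.log 2 M ^ 4 ≤ p₂ ∧
      48 * p₂ * Nat.log 2 M ^ 4 ≤ M ∧ 1 ≤ Nat.log 2 M ∧ 5 ≤ M := by
  filter_upwards [poly_le (N + 5) 16, poly_le 2 32, log_tendsto.eventually (eventually_ge_atTop 10),
    eventually_ge_atTop 5] with M h1 h2 hL h5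
  rintro p₁ p₂ p₃ ⟨-, -, -, -, a1, a2, b1, b2⟩
  set L := Nat.log 2 M with hLd
  have hp : 0 < L := by omega
  have e1 : N + 5 ≤ p₁ := Nat.le_of_mul_le_mul_right (h1.trans a1) (by positivity)
  have e2 : p₁ * L ^ 10 ≤ 2 * p₂ := by
    refine Nat.le_of_mul_le_mul_right (c := L ^ 6) ?_ (by positivity)
    calc p₁ * L ^ 10 * L ^ 6 = p₁ * L ^ 16 := by ring
      _ ≤ 2 * M := a2
      _ ≤ 2 * (p₂ * L ^ 6) := by omega
      _ = 2 * p₂ * L ^ 6 := by ring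
  have l6 : 64 ≤ L ^ 6 := le_trans (by norm_num) (Nat.pow_le_pow_left hL 6)
  have l2 : 96 ≤ L ^ 2 := le_trans (by norm_num) (Nat.pow_le_pow_left hL 2)
  have l4 : 1 ≤ L ^ 4 := Nat.one_le_pow _ _ hp
  have e3 : 32 * p₁ * L ^ 4 ≤ p₂ := by
    have : p₁ * L ^ 4 * 64 ≤ p₁ * L ^ 4 * L ^ 6 := Nat.mul_le_mul_left _ l6
    have e : p₁ * L ^ 4 * L ^ 6 = p₁ * L ^ 10 := by ring
    nlinarith
  refine ⟨by omega, by omega, by nlinarith, ?_, e3, ?_, by omega, h5⟩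
  · refine Nat.le_of_mul_le_mul_right (c := L ^ 32) ?_ (by positivity)
    calc 2 * M * L ^ 32 = M * (2 * L ^ 32) := by ring
      _ ≤ M * M := Nat.mul_le_mul_left _ h2
      _ ≤ (p₁ * L ^ 16) * (p₁ * L ^ 16) := Nat.mul_le_mul a1 a1
      _ = p₁ ^ 2 * L ^ 32 := by ring
  · have : p₂ * L ^ 4 * 96 ≤ p₂ * L ^ 4 * L ^ 2 := Nat.mul_le_mul_left _ l2
    have e : p₂ * L ^ 4 * L ^ 2 = p₂ * L ^ 6 := by ring
    nlinarith

theorem lev_mono {n : ℕ} {S T : Set ℕ} (h : S ⊆ T) (hl : Lev n S) : Lev n T :=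
  fun G _ _ ζ c hch hW => hl G ζ c hch fun κ hκ => hW κ (h hκ)

theorem pow_bound {a N M : ℕ} (h : N ≤ 2 * M) (hL : 1 ≤ Nat.log 2 M) :
    a * Nat.log 2 N ^ 4 ≤ 16 * a * Nat.log 2 M ^ 4 := by
  calc a * Nat.log 2 N ^ 4 ≤ a * (2 * Nat.log 2 M) ^ 4 :=
        Nat.mul_le_mul_left _ (Nat.pow_le_pow_left (log_le h hL) 4)
    _ = 16 * a * Nat.log 2 M ^ 4 := by ring

end CHAIN

theorem lev5 (hc : RowCZ5) (ha : RowT5A) (hb : RowT5B) (hd : RowT5C) : Lev 5 {3, 4, 5} := by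
  intro G _ _ ζ c hch hW
  have hT := ha G ζ c hch.pos (fun g => hc.1 ▸ hch.mem g) hch.card hW
  obtain ⟨f, hf, hk⟩ := hb G hT
  exact hd G f hf hk hT.syl

open CHAIN in
theorem rowCHAIN (h : RowSH) (hc : RowCZ5) (h5 : Lev 5 {3, 4, 5}) (hL : RowLEV) (hE : RowEXS) :
    RowCHAIN := by
  obtain ⟨N, hN⟩ := eventually_atTop.1 (hL.and (poly_le 5 4))
  filter_upwards [hE, sizes (N + 20)] with M hM hs
  intro p₁ p₂ p₃ hw
  obtain ⟨E₁, E₂, hE1, hE2, hs1, hs2⟩ := hM p₁ p₂ p₃ hw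
  obtain ⟨a1, a2, a3, a4, a5, a6, a7, a8⟩ := hs p₁ p₂ p₃ hw
  obtain ⟨q1, q2, q3, hsum, -⟩ := hw
  have l4 : 1 ≤ Nat.log 2 M ^ 4 := Nat.one_le_pow _ _ a7
  have hsub : ({3, 4, 5} : Set ℕ) ⊆ Cz 5 := by
    rw [hc.1]
    rintro x (rfl | rfl | rfl) <;> simp
  obtain ⟨L1, S1⟩ := ((hN (p₁ + 5) (by omega)).1 p₁ 5 rfl q1 (Or.inl rfl)
    (hN (p₁ + 5) (by omega)).2).1 E₁ {3, 4, 5} hE1 ⟨3, by simp⟩ hsub (by
      intro κ hκ c hc' hd
      have h1 := (h.2.2 _ c hc').2.2.2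
      have h2 : c ≤ 5 := by
        rcases hκ with rfl | rfl | rfl <;> exact (Nat.le_of_dvd (by norm_num) hd).trans (by norm_num)
      omega) h5
  obtain ⟨L2, S2⟩ := ((hN (p₂ + (p₁ + 5)) (by omega)).1 p₂ (p₁ + 5) rfl q2
    (Or.inr (by nlinarith)) (by
      have := pow_bound (a := p₁ + 5) (N := p₂ + (p₁ + 5)) (M := M) (by omega) a7
      nlinarith)).1 E₂ _ hE2 ⟨p₁ * 3, Or.inl ⟨3, by simp, rfl⟩⟩ S1 hs1 L1
  obtain ⟨L3, S3⟩ := ((hN (M + 5) (by omega)).1 p₃ (p₂ + (p₁ + 5)) (by omega) q3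
    (Or.inr (by nlinarith)) (by
      have := pow_bound (a := p₂ + (p₁ + 5)) (N := M + 5) (M := M) (by omega) a7
      nlinarith)).1 ∅ _ (by simp) ⟨p₂ * (p₁ * 3), Or.inl ⟨_, Or.inl ⟨3, by simp, rfl⟩, rfl⟩⟩
      S2 hs2 L2
  exact lev_mono S3 L3

/-- groups with the class sizes of the alternating group of degree `n` split -/
def Rec (n : ℕ) : Prop :=
  ∀ (G : Type) [Group G] [Finite G],
    Set.range (fun x : G => Nat.card {y : G // IsConj x y}) =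
      Set.range (fun x : An n => Nat.card {y : An n // IsConj x y}) →
    ∃ (A : Type) (_ : CommGroup A), Nonempty (G ≃* An n × A)

theorem rec_of_lev (hT : RowTOP) {n : ℕ} (h5 : 5 ≤ n) (h : Lev n (Cz n)) : Rec n := by
  intro G _ _ hG
  obtain ⟨ζ, c, hch, hon⟩ := hT.1 n G h5 hG
  refine hT.2 n G h5 (h G ζ c hch fun κ hκ => ?_)
  obtain ⟨g, hg⟩ := hon κ hκ
  exact ⟨g, by rw [hg]⟩

theorem rec_step (hT : RowTOP) (hL : RowLEV) : ∀ᶠ n : ℕ in atTop, ∀ p k : ℕ, n = p + k →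
    p.Prime → n ≤ k ^ 2 → k * Nat.log 2 n ^ 4 ≤ n → Lev k (Cz k) → Rec n := by
  filter_upwards [hL, eventually_ge_atTop 5] with n hn h5
  intro p k e hp h1 h2 hk G _ _ hG
  obtain ⟨ζ, c, hch, hon⟩ := hT.1 n G h5 hG
  exact hT.2 n G h5 ((hn p k e hp (Or.inr h1) h2).2 hk G ζ c hch hon)

open CHAIN in
theorem main_of (hT : RowTOP) (hL : RowLEV) (hC : RowCHAIN) (hV : RowV3) :
    ∀ᶠ n : ℕ in atTop, Rec n := by
  obtain ⟨N, hN⟩ := eventually_atTop.1 (hC.and hV)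
  have hev : ∀ k, N + 5 ≤ k → Even k → Lev k (Cz k) := by
    intro k hk he
    obtain ⟨M, rfl⟩ : ∃ M, k = M + 5 := ⟨k - 5, by omega⟩
    have ho : Odd M := by
      rcases he with ⟨r, hr⟩
      exact ⟨r - 3, by omega⟩
    obtain ⟨p₁, p₂, p₃, hw⟩ := (hN M (by omega)).2 ho
    exact (hN M (by omega)).1 p₁ p₂ p₃ hw
  filter_upwards [hV, rec_step hT hL, sizes (N + 5), eventually_ge_atTop (N + 5)] with
    n hv hr hs hn
  rcases Nat.even_or_odd n with he | ho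
  · exact rec_of_lev hT (by omega) (hev n hn he)
  · obtain ⟨p₁, p₂, p₃, hw⟩ := hv ho
    obtain ⟨a1, a2, a3, a4, a5, a6, a7, a8⟩ := hs p₁ p₂ p₃ hw
    obtain ⟨q1, q2, q3, hsum, -⟩ := hw
    refine hr p₃ (p₁ + p₂) (by omega) q3 (by nlinarith) (by nlinarith) (hev _ (by omega) ?_)
    exact (q1.odd_of_ne_two (by omega)).add_odd (q2.odd_of_ne_two (by omega))

end Pool.Agent.MP_62c071_al.H57
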