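import Pool.Agent.MP_62c071_al.H57.Spec

/-! The centraliser orders in degree five, and the big ones in degree `p + 5`. -/

set_option autoImplicit false

namespace Pool.Agent.MP_62c071_al.H57

open Subgroup
open scoped Nat

namespace CZ5

theorem small (M : Multiset ℕ) (h2 : ∀ l ∈ M, 2 ≤ l) (hs : M.sum ≤ 5)
    (he : Even (M.sum + M.card)) : M = 0 ∨ M = {3} ∨ M = {2, 2} ∨ M = {5} := by
  have hc : M.card • 2 ≤ M.sum := Multiset.card_nsmul_le_sum h2
  rw [smul_eq_mul] at hc
  have : M.card = 0 ∨ M.card = 1 ∨ M.card = 2 := by omega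
  rcases this with h | h | h
  · exact Or.inl (Multiset.card_eq_zero.1 h)
  · obtain ⟨a, rfl⟩ := Multiset.card_eq_one.1 h
    have ha := h2 a (by simp)
    simp only [Multiset.sum_singleton, Multiset.card_singleton] at hs he
    rw [Nat.even_iff] at he
    have : a = 3 ∨ a = 5 := by omega
    rcases this with rfl | rfl
    · exact Or.inr (Or.inl rfl)
    · exact Or.inr (Or.inr (Or.inr rfl))
  · obtain ⟨a, b, rfl⟩ := Multiset.card_eq_two.1 h
    have ha := h2 a (by simp)
    have hb := h2 b (by simp)
    simp only [Multiset.insert_eq_cons, Multiset.sum_cons, Multiset.sum_singleton,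
      Multiset.card_cons, Multiset.card_singleton] at hs he
    rw [Nat.even_iff] at he
    have h1 : a = 2 := by omega
    have h3 : b = 2 := by omega
    subst h1 h3
    exact Or.inr (Or.inr (Or.inl rfl))

theorem zf_cons (f p : ℕ) (M : Multiset ℕ) (hp : p ∉ M) : zf f (p ::ₘ M) = p * zf f M := by
  unfold zf
  have h1 : p ∉ M.toFinset := by simpa using hp
  rw [Multiset.toFinset_cons, Finset.prod_insert h1, Multiset.count_cons_self,
    Multiset.count_eq_zero_of_notMem hp, Multiset.prod_cons]
  have h2 : ∏ l ∈ M.toFinset, (Multiset.count l (p ::ₘ M))! = ∏ l ∈ M.toFinset, (M.count l)! := by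
    refine Finset.prod_congr rfl fun l hl => ?_
    rw [Multiset.count_cons_of_ne]
    rintro rfl
    exact h1 hl
  rw [h2]
  simp only [zero_add, Nat.factorial_one, one_mul]
  ring

theorem zf_zero (f : ℕ) : zf f 0 = f ! := by simp [zf]

theorem zf_one (f a : ℕ) : zf f {a} = a * f ! := by
  have := zf_cons f a 0 (by simp)
  rw [zf_zero] at this
  exact this

theorem zf_two (f : ℕ) : zf f {2, 2} = 8 * f ! := by
  have h1 : ({2, 2} : Multiset ℕ).toFinset = {2} := by decide
  have h2 : ({2, 2} : Multiset ℕ).count 2 = 2 := by decide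
  have h3 : ({2, 2} : Multiset ℕ).prod = 4 := by decide
  unfold zf
  rw [h1, Finset.prod_singleton, h2, h3]
  simp only [Nat.factorial_two]
  ring

theorem sub5 (h : RowSH) (c : ℕ) (hc : c ∈ Cz 5) : c = 3 ∨ c = 4 ∨ c = 5 ∨ c = 60 := by
  obtain ⟨f, M, h2, hs, he, h1, h3⟩ := h.1 5 c hc
  have hd : 2 * c ∣ 5 ! := (h.2.2 5 c hc).2.2.1 (by norm_num)
  rcases small M h2 (by omega) he with rfl | rfl | rfl | rfl
  · have hf : f = 5 := by simpa using hs
    subst hf
    have := h3 (by norm_num)
    rw [zf_zero] at this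
    norm_num [Nat.factorial] at this
    omega
  · have hf : f = 2 := by
      simp only [Multiset.sum_singleton] at hs
      omega
    subst hf
    have := h3 le_rfl
    rw [zf_one] at this
    norm_num [Nat.factorial] at this
    omega
  · have hf : f = 1 := by
      simp only [Multiset.insert_eq_cons, Multiset.sum_cons, Multiset.sum_singleton] at hs
      omega
    subst hf
    rw [zf_two] at h1
    norm_num [Nat.factorial] at h1 hd
    rcases h1 with rfl | h1
    · norm_num at hd
    · omega
  · have hf : f = 0 := by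
      simp only [Multiset.sum_singleton] at hs
      omega
    subst hf
    rw [zf_one] at h1
    norm_num [Nat.factorial] at h1
    omega

theorem card5 : Nat.card (An 5) = 60 := by
  have h1 := two_mul_nat_card_alternatingGroup (α := Fin 5)
  have h2 : 5 ! = 120 := by decide
  rw [Nat.card_perm, Nat.card_fin, h2] at h1
  change Nat.card (alternatingGroup (Fin 5)) = 60
  omega

theorem exists_prime (r : ℕ) (hr : r.Prime) (hd : r ∣ 60) : ∃ c ∈ Cz 5, r ∣ c ∧ c ≠ 60 := by
  have : Fact r.Prime := ⟨hr⟩
  obtain ⟨s, hs⟩ := exists_prime_orderOf_dvd_card' (G := An 5) r (by rw [card5]; exact hd)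
  refine ⟨Nat.card (cen s), ⟨s, rfl⟩, ?_, ?_⟩
  · rw [← hs]
    apply Subgroup.orderOf_dvd_natCard
    exact mem_centralizer_singleton_iff.2 rfl
  · intro h
    have h1 : cen s = ⊤ := Subgroup.eq_top_of_card_eq _ (by rw [h, card5])
    have h2 : s ∈ center (An 5) := by
      rw [mem_center_iff]
      intro g
      have : g ∈ cen s := by rw [h1]; trivial
      exact mem_centralizer_singleton_iff.1 this
    rw [alternatingGroup.center_eq_bot (by simp), mem_bot] at h2
    rw [h2, orderOf_one] at hs
    exact hr.one_lt.ne hs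

theorem mem60 : 60 ∈ Cz 5 := by
  refine ⟨1, ?_⟩
  have h1 : cen (1 : An 5) = ⊤ := by
    rw [eq_top_iff]
    intro g _
    exact mem_centralizer_singleton_iff.2 (by simp)
  simp only [h1, card_top, card5]

theorem le_f (h : RowSH) (p f : ℕ) (M : Multiset ℕ) (hp : p.Prime) (h5 : 5 < p)
    (h2 : ∀ l ∈ M, 2 ≤ l) (hs : M.sum + f = p + 5) (hb : p ! ∣ 2 * zf f M) : p ≤ f := by
  by_contra hlt
  rw [not_le] at hlt
  have hpd : p ∣ 2 * zf f M := (Nat.dvd_factorial hp.pos le_rfl).trans hb
  have hcard : M.card • 2 ≤ M.sum := Multiset.card_nsmul_le_sum h2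
  rw [smul_eq_mul] at hcard
  have hmem : p ∈ M := by
    rcases (Nat.Prime.dvd_mul hp).1 hpd with h1 | h1
    · have := Nat.le_of_dvd (by norm_num) h1
      omega
    unfold zf at h1
    rcases (Nat.Prime.dvd_mul hp).1 h1 with h1 | h1
    · rcases (Nat.Prime.dvd_mul hp).1 h1 with h1 | h1
      · have := (Nat.Prime.dvd_factorial hp).1 h1
        omega
      · obtain ⟨l, hl, hd⟩ := hp.prime.exists_mem_multiset_dvd h1
        have hle : l ≤ M.sum := Multiset.single_le_sum (fun _ _ => Nat.zero_le _) l hl
        obtain ⟨t, rfl⟩ := hd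
        have h0 := h2 _ hl
        have ht : t = 1 := by
          rcases t with _ | _ | t
          · omega
          · rfl
          · exfalso
            nlinarith
        subst ht
        simpa using hl
    · obtain ⟨l, _, hd⟩ := (Prime.dvd_finsetProd_iff hp.prime _).1 h1
      have h3 := (Nat.Prime.dvd_factorial hp).1 hd
      have h4 := Multiset.count_le_card l M
      omega
  obtain ⟨M', rfl⟩ := Multiset.exists_cons_of_mem hmem
  rw [Multiset.sum_cons] at hs
  have hn : p ∉ M' := by
    intro hm
    have hle : p ≤ M'.sum := Multiset.single_le_sum (fun _ _ => Nat.zero_le _) p hm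
    omega
  rw [zf_cons f p M' hn] at hb
  have h3 := (h.2.1 f M' fun l hl => h2 l (Multiset.mem_cons_of_mem hl)).2.1
  have h4 : M'.sum + f = 5 := by omega
  rw [h4] at h3
  obtain ⟨q, rfl⟩ : ∃ q, p = q + 1 := ⟨p - 1, by omega⟩
  rw [Nat.factorial_succ, mul_left_comm] at hb
  have h6 := Nat.dvd_of_mul_dvd_mul_left (Nat.succ_pos q) hb
  have hq : 6 ≤ q := by
    by_contra hq
    have : q = 5 := by omega
    subst this
    norm_num at hp
  have h7 : 6 ! ∣ 2 * 5 ! :=
    (Nat.factorial_dvd_factorial hq).trans (h6.trans (Nat.mul_dvd_mul_left 2 h3))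
  norm_num [Nat.factorial] at h7

end CZ5

theorem rowCZ5 (h : RowSH) : RowCZ5 := by
  refine ⟨?_, ?_⟩
  · ext c
    simp only [Set.mem_insert_iff, Set.mem_singleton_iff]
    refine ⟨CZ5.sub5 h c, ?_⟩
    rintro (rfl | rfl | rfl | rfl)
    · obtain ⟨c, hc, h1, h2⟩ := CZ5.exists_prime 3 (by norm_num) (by norm_num)
      rcases CZ5.sub5 h c hc with rfl | rfl | rfl | rfl
      · exact hc
      · norm_num at h1
      · norm_num at h1
      · exact absurd rfl h2
    · obtain ⟨c, hc, h1, h2⟩ := CZ5.exists_prime 2 (by norm_num) (by norm_num)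
      rcases CZ5.sub5 h c hc with rfl | rfl | rfl | rfl
      · norm_num at h1
      · exact hc
      · norm_num at h1
      · exact absurd rfl h2
    · obtain ⟨c, hc, h1, h2⟩ := CZ5.exists_prime 5 (by norm_num) (by norm_num)
      rcases CZ5.sub5 h c hc with rfl | rfl | rfl | rfl
      · norm_num at h1
      · norm_num at h1
      · exact hc
      · exact absurd rfl h2
    · exact CZ5.mem60
  · intro p c hp h5 hc hb
    obtain ⟨f, M, h2, hs, he, h1, h3⟩ := h.1 (p + 5) c hc
    have hd : p ! ∣ 2 * zf f M := by
      rcases h1 with h1 | h1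
      · rw [← h1]
        exact hb
      · rw [← h1]
        exact Dvd.dvd.mul_left hb 2
    have hf := CZ5.le_f h p f M hp h5 h2 hs hd
    have h4 := h3 (by omega)
    rcases CZ5.small M h2 (by omega) he with rfl | rfl | rfl | rfl
    · have hf : f = p + 5 := by simpa using hs
      subst hf
      rw [CZ5.zf_zero] at h4
      exact Or.inl h4
    · have hf : f = p + 2 := by
        simp only [Multiset.sum_singleton] at hs
        omega
      subst hf
      rw [CZ5.zf_one] at h4
      exact Or.inr (Or.inl h4)
    · have hf : f = p + 1 := by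
        simp only [Multiset.insert_eq_cons, Multiset.sum_cons, Multiset.sum_singleton] at hs
        omega
      subst hf
      rw [CZ5.zf_two] at h4
      exact Or.inr (Or.inr (Or.inl h4))
    · have hf : f = p := by
        simp only [Multiset.sum_singleton] at hs
        omega
      subst hf
      rw [CZ5.zf_one] at h4
      exact Or.inr (Or.inr (Or.inr h4))

end Pool.Agent.MP_62c071_al.H57
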