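import Pool.Agent.MP_62c071_al.H57.Spec

/-! Row EXC: the exceptional primes are few. -/

set_option autoImplicit false

namespace Pool.Agent.MP_62c071_al.H57

open Finset

namespace EXC

/-- the values `q` with `q d` just below `X` -/
def FA (ν X d : ℕ) : Finset ℕ := Icc (X / d - (ν / d / d + 1)) (X / d)

theorem card_FA (ν X d : ℕ) : ((FA ν X d).card : ℝ) ≤ ν * ((d : ℝ) ^ 2)⁻¹ + 2 := by
  have h1 : (FA ν X d).card ≤ ν / d ^ 2 + 2 := by
    rw [FA, Nat.card_Icc, Nat.div_div_eq_div_mul, ← sq]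
    generalize X / d = a
    generalize ν / d ^ 2 = b
    omega
  have h2 : ((ν / d ^ 2 : ℕ) : ℝ) ≤ ν / (d ^ 2 : ℕ) := Nat.cast_div_le
  have h3 : ((FA ν X d).card : ℝ) ≤ (ν / d ^ 2 : ℕ) + 2 := by exact_mod_cast h1
  rw [Nat.cast_pow, div_eq_mul_inv] at h2
  linarith

theorem mem_FA {ν X d q R : ℕ} (hd : 0 < d) (h : X = q * d + R) (hR : d * (R - 1) ≤ ν) :
    q ∈ FA ν X d := by
  rw [FA, mem_Icc]
  refine ⟨?_, (Nat.le_div_iff_mul_le hd).2 (by omega)⟩
  have h1 : R - 1 ≤ ν / d := (Nat.le_div_iff_mul_le hd).2 (by rwa [mul_comm])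
  have h2 : ν / d < d * (ν / d / d + 1) := Nat.lt_mul_div_succ _ hd
  have h3 : X / d ≤ q + (ν / d / d + 1) := by
    refine Nat.div_le_of_le_mul ?_
    rw [mul_add, mul_comm d q]
    omega
  omega

/-- the values `q` with `d ∣ 2 od (ν - q)` -/
def FB (ν d : ℕ) : Finset ℕ := (range ν).filter fun q => ν < 2 * q ∧ d ∣ 2 * od (ν - q)

theorem card_FB (ν : ℕ) {d : ℕ} (hd : 0 < d) : (FB ν d).card ≤ ν / d * 2 := by
  have : (FB ν d).card ≤ (Icc 1 (ν / d) ×ˢ range 2).card := by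
    refine card_le_card_of_injOn (fun q => (2 * od (ν - q) / d, (ν - q) % 2)) ?_ ?_
    · intro q hq
      simp only [FB, coe_filter, mem_range, Set.mem_ofPred_eq] at hq
      obtain ⟨h1, h2, h3⟩ := hq
      simp only [coe_product, coe_Icc, coe_range, Set.mem_prod, Set.mem_Icc, Set.mem_Iio]
      have h4 : 0 < 2 * od (ν - q) ∧ 2 * od (ν - q) ≤ ν := by
        unfold od
        omega
      exact ⟨⟨Nat.div_pos (Nat.le_of_dvd h4.1 h3) hd, Nat.div_le_div_right h4.2⟩, by omega⟩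
    · intro q hq q' hq' h
      simp only [FB, coe_filter, mem_range, Set.mem_ofPred_eq] at hq hq'
      simp only [Prod.mk.injEq] at h
      have h1 := (Nat.div_left_inj hq.2.2 hq'.2.2).1 h.1
      have h2 := h.2
      have h3 := hq.1
      have h4 := hq'.1
      unfold od at h1
      omega
  simpa using this

end EXC

open EXC in
theorem rowEXC : RowEXC := by
  intro N r ν Λ Λ₁ D₁ D₂ E hΛ hΛ₁ hν hr hN hor hD₁ hD₂ hE
  have hr0 : 0 < r := lt_of_lt_of_le (by positivity) hr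
  let A : Finset ℕ := (range (D₁ + 1)).biUnion fun d₁ =>
    (Ioo (Λ - 1) (D₂ + 1)).biUnion fun d₂ => FA ν (N - r * d₁) d₂
  let B : Finset ℕ := if Λ₁ ≤ N / r then FB ν (N / r) else ∅
  have hsub : E ⊆ A ∪ B := by
    intro q hq
    obtain ⟨h1, h2, d₁, d₂, R, e, hm, hd⟩ := hE q hq
    have hm' : max d₂ 1 * (R - 1) ≤ ν := by
      refine le_trans ?_ hm
      rw [mul_assoc]
      exact Nat.le_mul_of_pos_left _ (by omega)
    by_cases c : Λ ≤ d₂
    · refine mem_union_left _ (mem_biUnion.2 ⟨d₁, mem_range.2 ?_, mem_biUnion.2 ⟨d₂, ?_, ?_⟩⟩)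
      · have : d₁ ≤ N / r := (Nat.le_div_iff_mul_le hr0).2 (by rw [mul_comm]; omega)
        omega
      · have : d₂ * ν ≤ D₂ * ν := by nlinarith
        have := Nat.le_of_mul_le_mul_right this hν
        rw [mem_Ioo]
        omega
      · rw [max_eq_left (by omega)] at hm'
        exact mem_FA (R := R) (by omega) (by omega) hm'
    · have a1 : R - 1 ≤ ν := le_trans (Nat.le_mul_of_pos_left _ (by omega)) hm'
      have a3 : q * d₂ + ν ≤ ν * Λ := by
        have : q * d₂ ≤ ν * d₂ := Nat.mul_le_mul_right _ h2.le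
        have : ν * (d₂ + 1) ≤ ν * Λ := Nat.mul_le_mul_left _ (by omega)
        linarith
      have a4 : q * d₂ + R < ν * (Λ + 2) := by
        rw [mul_add]
        omega
      have a5 : N / r = d₁ := by
        rw [e, add_assoc, Nat.mul_add_div hr0, Nat.div_eq_of_lt (by omega), add_zero]
      have a6 : d₁ ≠ 0 := by
        rintro rfl
        omega
      have a7 : r ≤ N := by
        have : r * 1 ≤ r * d₁ := Nat.mul_le_mul_left _ (by omega)
        omega
      have a8 : Λ₁ ≤ N / r := (Nat.le_div_iff_mul_le hr0).2 (by omega)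
      refine mem_union_right _ ?_
      simp only [B, a8, if_true, FB, mem_filter, mem_range]
      exact ⟨h2, h1, a5 ▸ hd.resolve_left a6⟩
  have hA : (A.card : ℝ) ≤ (D₁ + 1) * (2 * ν / Λ + 2 * D₂) := by
    have one : ∀ X : ℕ, (((Ioo (Λ - 1) (D₂ + 1)).biUnion fun d₂ => FA ν X d₂).card : ℝ) ≤
        2 * ν / Λ + 2 * D₂ := by
      intro X
      have s1 : (((Ioo (Λ - 1) (D₂ + 1)).biUnion fun d₂ => FA ν X d₂).card : ℝ) ≤
          ∑ d ∈ Ioo (Λ - 1) (D₂ + 1), ((FA ν X d).card : ℝ) := by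
        exact_mod_cast card_biUnion_le
      have s2 := sum_le_sum fun d (_ : d ∈ Ioo (Λ - 1) (D₂ + 1)) => card_FA ν X d
      have s3 := sum_Ioo_inv_sq_le (α := ℝ) (Λ - 1) (D₂ + 1)
      have s4 : ((Λ - 1 : ℕ) : ℝ) + 1 = Λ := by
        rw [Nat.cast_sub (by omega)]
        simp
      have s5 : ((Ioo (Λ - 1) (D₂ + 1)).card : ℝ) ≤ D₂ := by
        rw [Nat.card_Ioo]
        exact_mod_cast (by omega : D₂ + 1 - (Λ - 1) - 1 ≤ D₂)
      rw [sum_add_distrib, ← mul_sum, sum_const, nsmul_eq_mul] at s2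
      rw [s4] at s3
      have s6 := mul_le_mul_of_nonneg_left s3 (Nat.cast_nonneg (α := ℝ) ν)
      have s7 : (ν : ℝ) * (2 / Λ) = 2 * ν / Λ := by ring
      linarith
    have s1 : (A.card : ℝ) ≤ ∑ d₁ ∈ range (D₁ + 1), (((Ioo (Λ - 1) (D₂ + 1)).biUnion
        fun d₂ => FA ν (N - r * d₁) d₂).card : ℝ) := by
      exact_mod_cast card_biUnion_le
    refine s1.trans ((sum_le_sum fun d _ => one _).trans_eq ?_)
    rw [sum_const, card_range, nsmul_eq_mul, Nat.cast_succ]
  have hB : (B.card : ℝ) ≤ 2 * ν / Λ₁ := by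
    by_cases c : Λ₁ ≤ N / r
    · have b1 : B.card ≤ ν / Λ₁ * 2 := by
        simp only [B, c, if_true]
        exact (card_FB ν (by omega)).trans
          (Nat.mul_le_mul_right _ (Nat.div_le_div_left c (by omega)))
      have b2 : ((ν / Λ₁ : ℕ) : ℝ) ≤ ν / Λ₁ := Nat.cast_div_le
      have b3 : (B.card : ℝ) ≤ (ν / Λ₁ : ℕ) * 2 := by exact_mod_cast b1
      have b4 : (2 : ℝ) * ν / Λ₁ = ν / Λ₁ * 2 := by ring
      linarith
    · simp only [B, c, if_false, card_empty, Nat.cast_zero]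
      positivity
  have hU : (E.card : ℝ) ≤ A.card + B.card := by
    exact_mod_cast (card_le_card hsub).trans (card_union_le _ _)
  linarith

end Pool.Agent.MP_62c071_al.H57
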