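import Pool.Agent.MP_62c071_al.H57.Spec

/-! The exceptional sets of the chain. -/

set_option autoImplicit false

namespace Pool.Agent.MP_62c071_al.H57

open Filter

namespace EXS

theorem evL : ∀ᶠ L : ℕ in atTop, 24 ≤ L ∧ 32 * L ^ 40 ≤ 2 ^ L := by
  have h := tendsto_pow_const_div_const_pow_of_one_lt 40 (by norm_num : (1 : ℝ) < 2)
  have h2 := h.eventually (gt_mem_nhds (by norm_num : (0 : ℝ) < 1 / 32))
  filter_upwards [h2, eventually_ge_atTop 24] with L hL h24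
  refine ⟨h24, ?_⟩
  have hp : (0 : ℝ) < 2 ^ L := by positivity
  rw [div_lt_iff₀ hp] at hL
  have : (32 : ℝ) * (L : ℝ) ^ 40 ≤ 2 ^ L := by linarith
  exact_mod_cast this

theorem evM : ∀ᶠ M : ℕ in atTop, 24 ≤ Nat.log 2 M ∧ 32 * Nat.log 2 M ^ 40 ≤ M := by
  have ht : Tendsto (Nat.log 2) atTop atTop := by
    refine tendsto_atTop.2 fun b => ?_
    filter_upwards [eventually_ge_atTop (2 ^ b)] with M hM
    exact Nat.le_log_of_pow_le (by norm_num) hM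
  filter_upwards [ht.eventually evL, eventually_ge_atTop 1] with M hM h1
  exact ⟨hM.1, hM.2.trans (Nat.pow_log_le_self 2 (by omega))⟩

theorem od_le (x : ℕ) : od x ≤ x := by
  unfold od; omega

theorem od_pos {x : ℕ} (hx : 2 ≤ x) : 0 < od x := by
  unfold od; omega

/-- a member of `Cz N` dividing `r q od (ν - q)` makes `q` bad -/
theorem bad_of (hs : RowSAFE) {N r ν p q c : ℕ} (hr : r.Prime) (hq : q ∈ Pi0 ν p)
    (hp : p + 1 ≤ ν) (h9 : 9 ≤ ν) (hqr : q < r) (hN : N < q ^ 2) (hc : c ∈ Cz N)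
    (hd : c ∣ r * q * od (ν - q)) : Bad N r ν q := by
  unfold Pi0 at hq
  rw [Finset.mem_filter, Finset.mem_range] at hq
  obtain ⟨hq1, hq2, hq3⟩ := hq
  have h1 := od_le (ν - q)
  obtain ⟨d₁, d₂, R, e1, e2, -, -, e5⟩ :=
    hs N r q (od (ν - q)) c hr hq2 (by omega) hqr hN (od_pos (by omega)) (by omega) hc hd
  exact ⟨d₁, d₂, R, e1, e2.trans (by omega), e5⟩

open Classical in
/-- the bad primes -/
noncomputable def bad (N r ν p : ℕ) : Finset ℕ := (Pi0 ν p).filter fun q => Bad N r ν q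

theorem bad_mem {N r ν p : ℕ} (hp : p ≤ ν) :
    ∀ q ∈ bad N r ν p, ν < 2 * q ∧ q < ν ∧ Bad N r ν q := by
  intro q hq
  unfold bad Pi0 at hq
  simp only [Finset.mem_filter, Finset.mem_range] at hq
  exact ⟨by omega, by omega, hq.2⟩

theorem mem_bad {N r ν p q : ℕ} (hq : q ∈ Pi0 ν p) (hb : Bad N r ν q) : q ∈ bad N r ν p := by
  unfold bad
  simp only [Finset.mem_filter]
  exact ⟨hq, hb⟩

theorem cnt1 {L ν a b : ℝ} (hL : 24 ≤ L) (hν : 32 * L ^ 24 ≤ ν)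
    (ha : a ≤ (0 + 1) * (2 * ν / L ^ 9 + 2 * (2 * L ^ 16)) + 2 * ν / L ^ 5)
    (hb : b ≤ (2 * L ^ 6 + 1) * (2 * ν / L ^ 9 + 2 * (2 * L ^ 16)) + 2 * ν / L ^ 5) :
    (a + b) * L ^ 2 ≤ ν := by
  have hL0 : 0 < L := by linarith
  have hL1 : 1 ≤ L := by linarith
  have hν0 : 0 ≤ ν := le_trans (by positivity) hν
  obtain ⟨x, hx⟩ : ∃ x, x = ν / L ^ 9 := ⟨_, rfl⟩
  have hx0 : 0 ≤ x := by rw [hx]; positivity
  have e0 : ν = x * L ^ 9 := by rw [hx]; field_simp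
  have e1 : 2 * ν / L ^ 9 = 2 * x := by rw [hx]; ring
  have e2 : 2 * ν / L ^ 5 = 2 * x * L ^ 4 := by rw [e0]; field_simp
  rw [e1, e2] at ha hb
  have p46 : L ^ 4 ≤ L ^ 6 := pow_le_pow_right₀ hL1 (by norm_num)
  have p06 : 1 ≤ L ^ 6 := one_le_pow₀ hL1
  have s1 : a + b ≤ 4 * L ^ 6 * (2 * x + 4 * L ^ 16) + 4 * x * L ^ 6 := by
    have t1 : (2 * L ^ 6 + 2) * (2 * x + 4 * L ^ 16) ≤ 4 * L ^ 6 * (2 * x + 4 * L ^ 16) :=
      mul_le_mul_of_nonneg_right (by linarith) (by positivity)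
    have t2 : x * L ^ 4 ≤ x * L ^ 6 := mul_le_mul_of_nonneg_left p46 hx0
    nlinarith
  have s2 : (a + b) * L ^ 2 ≤ 12 * (x * L ^ 8) + 16 * L ^ 24 := by
    calc (a + b) * L ^ 2 ≤ (4 * L ^ 6 * (2 * x + 4 * L ^ 16) + 4 * x * L ^ 6) * L ^ 2 :=
          mul_le_mul_of_nonneg_right s1 (by positivity)
      _ = _ := by ring
  have s3 : 24 * (x * L ^ 8) ≤ ν := by
    calc 24 * (x * L ^ 8) ≤ L * (x * L ^ 8) := mul_le_mul_of_nonneg_right hL (by positivity)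
      _ = ν := by rw [e0]; ring
  linarith

theorem cnt2 {L ν a : ℝ} (hL : 24 ≤ L) (hν : 8 * L ^ 8 ≤ ν)
    (ha : a ≤ (0 + 1) * (2 * ν / L ^ 4 + 2 * (2 * L ^ 6)) + 2 * ν / L ^ 4) :
    a * L ^ 2 ≤ ν := by
  have hL0 : 0 < L := by linarith
  have hν0 : 0 ≤ ν := le_trans (by positivity) hν
  obtain ⟨x, hx⟩ : ∃ x, x = ν / L ^ 4 := ⟨_, rfl⟩
  have hx0 : 0 ≤ x := by rw [hx]; positivity
  have e0 : ν = x * L ^ 4 := by rw [hx]; field_simp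
  have e1 : 2 * ν / L ^ 4 = 2 * x := by rw [hx]; ring
  rw [e1] at ha
  have s2 : a * L ^ 2 ≤ 4 * (x * L ^ 2) + 4 * L ^ 8 := by
    calc a * L ^ 2 ≤ (4 * x + 4 * L ^ 6) * L ^ 2 :=
          mul_le_mul_of_nonneg_right (by linarith) (by positivity)
      _ = _ := by ring
  have s3 : 8 * (x * L ^ 2) ≤ ν := by
    have : 8 ≤ L ^ 2 := by nlinarith
    calc 8 * (x * L ^ 2) ≤ L ^ 2 * (x * L ^ 2) := mul_le_mul_of_nonneg_right this (by positivity)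
      _ = ν := by rw [e0]; ring
  linarith

/-- the numerical facts on the windows -/
structure NF (M L p₁ p₂ : ℕ) : Prop where
  a1 : 32 * L ^ 24 ≤ p₁
  a2 : 32 * M ≤ p₁ ^ 2
  a3 : (p₁ + 5) * (L ^ 9 + 2) ≤ p₂
  a4 : L ^ 5 * p₂ ≤ M
  a5 : (p₂ + (p₁ + 5)) * (L ^ 4 + 2) ≤ M
  a6 : 8 * L ^ 8 ≤ p₂
  a7 : 9 ≤ p₁
  a8 : 11 * (p₁ + 5) ≤ p₂
  a9 : 24 * p₂ ≤ M

theorem nf {M L p₁ p₂ : ℕ} (hL : 24 ≤ L) (hM : 32 * L ^ 40 ≤ M) (h1 : M ≤ p₁ * L ^ 16)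
    (h2 : p₁ * L ^ 16 ≤ 2 * M) (h3 : M ≤ p₂ * L ^ 6) (h4 : p₂ * L ^ 6 ≤ 2 * M) :
    NF M L p₁ p₂ := by
  have hL0 : 0 < L := by omega
  have one : ∀ k : ℕ, 1 ≤ L ^ k := fun k => Nat.one_le_pow _ _ hL0
  have ge : ∀ k : ℕ, 24 ≤ L ^ (k + 1) := fun k => by
    calc 24 ≤ L := hL
      _ = 1 * L := (one_mul _).symm
      _ ≤ L ^ k * L := Nat.mul_le_mul_right _ (one k)
      _ = _ := by ring
  have a1 : 32 * L ^ 24 ≤ p₁ := by
    refine Nat.le_of_mul_le_mul_right (c := L ^ 16) ?_ (one 16)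
    calc 32 * L ^ 24 * L ^ 16 = 32 * L ^ 40 := by ring
      _ ≤ _ := hM.trans h1
  have a7 : 9 ≤ p₁ := by have := one 24; omega
  have b1 : p₁ * L ^ 10 ≤ 2 * p₂ := by
    refine Nat.le_of_mul_le_mul_right (c := L ^ 6) ?_ (one 6)
    calc p₁ * L ^ 10 * L ^ 6 = p₁ * L ^ 16 := by ring
      _ ≤ 2 * M := h2
      _ ≤ 2 * (p₂ * L ^ 6) := by omega
      _ = _ := by ring
  have a3 : (p₁ + 5) * (L ^ 9 + 2) ≤ p₂ := by
    have g : 24 ≤ L ^ 9 := ge 8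
    have t1 : (p₁ + 5) * (L ^ 9 + 2) ≤ (2 * p₁) * (2 * L ^ 9) :=
      Nat.mul_le_mul (by omega) (by omega)
    have t2 : 8 * (p₁ * L ^ 9) ≤ L * (p₁ * L ^ 9) := Nat.mul_le_mul_right _ (by omega)
    have t3 : L * (p₁ * L ^ 9) = p₁ * L ^ 10 := by ring
    have t4 : (2 * p₁) * (2 * L ^ 9) = 4 * (p₁ * L ^ 9) := by ring
    omega
  have a8 : 11 * (p₁ + 5) ≤ p₂ := by
    have g : 24 ≤ L ^ 9 := ge 8
    calc 11 * (p₁ + 5) = (p₁ + 5) * 11 := by ring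
      _ ≤ (p₁ + 5) * (L ^ 9 + 2) := Nat.mul_le_mul_left _ (by omega)
      _ ≤ p₂ := a3
  have a4 : L ^ 5 * p₂ ≤ M := by
    have t2 : 2 * (L ^ 5 * p₂) ≤ L * (L ^ 5 * p₂) := Nat.mul_le_mul_right _ (by omega)
    have t3 : L * (L ^ 5 * p₂) = p₂ * L ^ 6 := by ring
    omega
  refine ⟨a1, ?_, a3, a4, ?_, ?_, a7, a8, ?_⟩
  · refine Nat.le_of_mul_le_mul_right (c := L ^ 32) ?_ (one 32)
    have t : L ^ 32 ≤ L ^ 40 := Nat.pow_le_pow_right hL0 (by norm_num)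
    calc 32 * M * L ^ 32 = M * (32 * L ^ 32) := by ring
      _ ≤ M * M := Nat.mul_le_mul_left _ (by omega)
      _ ≤ (p₁ * L ^ 16) * (p₁ * L ^ 16) := Nat.mul_le_mul h1 h1
      _ = _ := by ring
  · have g : 24 ≤ L ^ 4 := ge 3
    have t1 : (p₂ + (p₁ + 5)) * (L ^ 4 + 2) ≤ (2 * p₂) * (2 * L ^ 4) :=
      Nat.mul_le_mul (by omega) (by omega)
    have t2 : 4 * (p₂ * L ^ 4) ≤ L * (p₂ * L ^ 4) := Nat.mul_le_mul_right _ (by omega)
    have t3 : L * (p₂ * L ^ 4) = L ^ 5 * p₂ := by ring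
    have t4 : (2 * p₂) * (2 * L ^ 4) = 4 * (p₂ * L ^ 4) := by ring
    omega
  · refine Nat.le_of_mul_le_mul_right (c := L ^ 6) ?_ (one 6)
    have t : L ^ 14 ≤ L ^ 40 := Nat.pow_le_pow_right hL0 (by norm_num)
    calc 8 * L ^ 8 * L ^ 6 = 8 * L ^ 14 := by ring
      _ ≤ M := by omega
      _ ≤ _ := h3
  · exact (Nat.mul_le_mul_right _ (ge 4)).trans a4

theorem sq_lt {M ν p p₁ q : ℕ} (h : 32 * M ≤ p₁ ^ 2) (hM : 1 ≤ M) (hq : q ∈ Pi0 ν p)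
    (hν : p₁ ≤ ν) : M + 5 < q ^ 2 := by
  unfold Pi0 at hq
  rw [Finset.mem_filter] at hq
  have t : p₁ ^ 2 ≤ (2 * q) ^ 2 := Nat.pow_le_pow_left (by omega) 2
  have e : (2 * q) ^ 2 = 4 * q ^ 2 := by ring
  omega

theorem pi_lt {ν p q : ℕ} (hq : q ∈ Pi0 ν p) : q < p := by
  unfold Pi0 at hq
  rw [Finset.mem_filter, Finset.mem_range] at hq
  exact hq.1

end EXS

open EXS in
theorem rowEXS (h : RowSH) (hs : RowSAFE) (he : RowEXC) : RowEXS := by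
  unfold RowEXS
  filter_upwards [evM] with M hM p₁ p₂ p₃ hw
  obtain ⟨hp₁, hp₂, -, -, h1, h2, h3, h4⟩ := hw
  obtain ⟨L, hL⟩ : ∃ L, L = Nat.log 2 M := ⟨_, rfl⟩
  rw [← hL] at hM h1 h2 h3 h4
  obtain ⟨h24, hM⟩ := hM
  obtain ⟨a1, a2, a3, a4, a5, a6, a7, a8, a9⟩ := nf h24 hM h1 h2 h3 h4
  have hL0 : 0 < L := by omega
  have one : ∀ k : ℕ, 1 ≤ L ^ k := fun k => Nat.one_le_pow _ _ hL0
  have two : ∀ k : ℕ, 2 ≤ L ^ (k + 1) := fun k => by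
    calc 2 ≤ L := by omega
      _ = 1 * L := (one_mul _).symm
      _ ≤ L ^ k * L := Nat.mul_le_mul_right _ (one k)
      _ = _ := by ring
  obtain ⟨r, hr1, hr⟩ := Nat.exists_infinite_primes (M + 6)
  have c1 : M + 5 ≤ L ^ 16 * (p₁ + 5) := by
    have := one 16
    have e : L ^ 16 * (p₁ + 5) = p₁ * L ^ 16 + 5 * L ^ 16 := by ring
    omega
  have c2 : M + 5 ≤ L ^ 6 * (p₂ + (p₁ + 5)) := by
    have := one 6
    have e : L ^ 6 * (p₂ + (p₁ + 5)) = p₂ * L ^ 6 + p₁ * L ^ 6 + 5 * L ^ 6 := by ring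
    omega
  have c3 : (M + 5) / p₂ ≤ 2 * L ^ 6 := by
    refine Nat.div_le_of_le_mul ?_
    have t : p₂ * 1 ≤ p₂ * L ^ 6 := Nat.mul_le_mul_left _ (one 6)
    have e : p₂ * (2 * L ^ 6) = 2 * (p₂ * L ^ 6) := by ring
    omega
  have ea := he (p₂ + (p₁ + 5)) r (p₁ + 5) (L ^ 9) (L ^ 5) 0 (2 * L ^ 16)
    (bad (p₂ + (p₁ + 5)) r (p₁ + 5) p₁) (two 8) (one 5) (by omega) (by omega) (by omega)
    (Or.inl (by omega)) (by rw [Nat.div_eq_of_lt (by omega)])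
    (by rw [mul_assoc]; omega) (bad_mem (by omega))
  have eb := he (M + 5) p₂ (p₁ + 5) (L ^ 9) (L ^ 5) (2 * L ^ 6) (2 * L ^ 16)
    (bad (M + 5) p₂ (p₁ + 5) p₁) (two 8) (one 5) (by omega) a3 (by omega)
    (Or.inr (by omega)) c3 (by rw [mul_assoc]; omega) (bad_mem (by omega))
  have ec := he (M + 5) r (p₂ + (p₁ + 5)) (L ^ 4) (L ^ 4) 0 (2 * L ^ 6)
    (bad (M + 5) r (p₂ + (p₁ + 5)) p₂) (two 3) (one 4) (by omega) (by omega) (by omega)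
    (Or.inl (by omega)) (by rw [Nat.div_eq_of_lt (by omega)])
    (by rw [mul_assoc]; omega) (bad_mem (by omega))
  have hLr : (24 : ℝ) ≤ L := by exact_mod_cast h24
  have hM1 : 1 ≤ M := by omega
  refine ⟨bad (p₂ + (p₁ + 5)) r (p₁ + 5) p₁ ∪ bad (M + 5) p₂ (p₁ + 5) p₁,
    bad (M + 5) r (p₂ + (p₁ + 5)) p₂, ?_, ?_, ?_, ?_⟩
  · have hl : Nat.log 2 (p₁ + 5) ≤ L := by
      rw [hL]; exact Nat.log_mono_right (by omega)
    have hν : 32 * (L : ℝ) ^ 24 ≤ ((p₁ + 5 : ℕ) : ℝ) := by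
      exact_mod_cast (show 32 * L ^ 24 ≤ p₁ + 5 by omega)
    have k := cnt1 hLr hν (by exact_mod_cast ea) (by exact_mod_cast eb)
    have k' : ((bad (p₂ + (p₁ + 5)) r (p₁ + 5) p₁).card + (bad (M + 5) p₂ (p₁ + 5) p₁).card) *
        L ^ 2 ≤ p₁ + 5 := by exact_mod_cast k
    exact (Nat.mul_le_mul (Finset.card_union_le _ _) (Nat.pow_le_pow_left hl 2)).trans k'
  · have hl : Nat.log 2 (p₂ + (p₁ + 5)) ≤ L := by
      rw [hL]; exact Nat.log_mono_right (by omega)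
    have hν : 8 * (L : ℝ) ^ 8 ≤ ((p₂ + (p₁ + 5) : ℕ) : ℝ) := by
      exact_mod_cast (show 8 * L ^ 8 ≤ p₂ + (p₁ + 5) by omega)
    have k := cnt2 hLr hν (by exact_mod_cast ec)
    have k' : (bad (M + 5) r (p₂ + (p₁ + 5)) p₂).card * L ^ 2 ≤ p₂ + (p₁ + 5) := by
      exact_mod_cast k
    exact (Nat.mul_le_mul_left _ (Nat.pow_le_pow_left hl 2)).trans k'
  · rintro κ (⟨κ', hκ, rfl⟩ | ⟨q, hq, rfl⟩) c hc hd
    · have hk : 3 ≤ κ' ∧ κ' ≤ 5 := by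
        simp only [Set.mem_insert_iff, Set.mem_singleton_iff] at hκ
        omega
      have t1 := (h.2.2 _ c hc).2.2.2
      have t2 : c ≤ p₁ * κ' := Nat.le_of_dvd (Nat.mul_pos (by omega) (by omega)) hd
      have t3 : p₁ * κ' ≤ p₁ * 5 := Nat.mul_le_mul_left _ hk.2
      omega
    · rw [Finset.mem_sdiff] at hq
      have hlt := pi_lt hq.1
      have hsq := sq_lt a2 hM1 hq.1 (by omega)
      refine hq.2 (Finset.mem_union_left _ (mem_bad hq.1 ?_))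
      refine bad_of hs hr hq.1 (by omega) (by omega) (by omega) (by omega) hc ?_
      rw [mul_assoc]
      exact hd.mul_left r
  · rintro κ (⟨κ', (⟨κ'', hκ, rfl⟩ | ⟨q, hq, rfl⟩), rfl⟩ | ⟨q, hq, rfl⟩) c hc hd
    · have hk : 3 ≤ κ'' ∧ κ'' ≤ 5 := by
        simp only [Set.mem_insert_iff, Set.mem_singleton_iff] at hκ
        omega
      obtain ⟨d₁, d₂, R, e1, e2, e3, e4, -⟩ :=
        hs (M + 5) p₂ p₁ κ'' c hp₂ hp₁ (by omega) (by omega) (by omega) (by omega) (by omega) hc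
          (by rw [mul_assoc]; exact hd)
      have t0 : 1 * 1 * (R - 1) ≤ max d₁ 1 * max d₂ 1 * (R - 1) :=
        Nat.mul_le_mul_right _ (Nat.mul_le_mul (le_max_right _ _) (le_max_right _ _))
      have t1 : p₂ * d₁ ≤ p₂ * 10 := Nat.mul_le_mul_left _ (by omega)
      have t2 : p₁ * d₂ ≤ p₁ * 10 := Nat.mul_le_mul_left _ (by omega)
      omega
    · rw [Finset.mem_sdiff] at hq
      have hlt := pi_lt hq.1
      have hsq := sq_lt a2 hM1 hq.1 (by omega)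
      refine hq.2 (Finset.mem_union_right _ (mem_bad hq.1 ?_))
      refine bad_of hs hp₂ hq.1 (by omega) (by omega) (by omega) hsq hc ?_
      rw [mul_assoc]
      exact hd
    · rw [Finset.mem_sdiff] at hq
      have hlt := pi_lt hq.1
      have hsq := sq_lt a2 hM1 hq.1 (by omega)
      refine hq.2 (mem_bad hq.1 ?_)
      refine bad_of hs hr hq.1 (by omega) (by omega) (by omega) hsq hc ?_
      rw [mul_assoc]
      exact hd.mul_left r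

end Pool.Agent.MP_62c071_al.H57
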