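import Pool.Agent.MP_62c071_al.H57.Spec

/-! Rows FUS and K5A: fusion in the centraliser of a Sylow subgroup; the types for `k = 5`. -/

set_option autoImplicit false

namespace Pool.Agent.MP_62c071_al.H57

open Subgroup
open scoped Nat commutatorElement

namespace FUS

theorem cls {G : Type} [Group G] (s : G) : {t | IsConj s t}.ncard = ix s := by
  have h := MulAction.index_stabilizer (ConjAct G) s
  rw [ConjAct.stabilizer_eq_centralizer] at h
  have e : MulAction.orbit (ConjAct G) s = {t | IsConj s t} := by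
    ext t
    rw [ConjAct.mem_orbit_conjAct]
    exact isConj_comm
  rw [← e, ← h]
  rfl

theorem mem_cen {G : Type} [Group G] {x g : G} : g ∈ cen x ↔ Commute x g :=
  mem_centralizer_singleton_iff.trans eq_comm

theorem fus {G : Type} [Group G] [Finite G] {p k ζ : ℕ} {c : G → ℕ} {x : G} {ψ : An k →* G}
    (H : Cfg p k ζ c x ψ) (g : G) (s : An k) (h : Commute x (g * ψ s * g⁻¹)) :
    g * ψ s * g⁻¹ ∈ ψ.range := by
  have : Fact p.Prime := ⟨H.pr⟩
  obtain ⟨P, -, hP, -⟩ := H.xc.syl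
  obtain ⟨n, hn, e⟩ := P.conj_eq_normalizer_conj_of_mem_centralizer (ψ s) g⁻¹
    (by rw [hP]; exact mem_cen.2 (H.com s)) (by rw [hP, inv_inv]; exact mem_cen.2 h)
  rw [inv_inv] at e
  rw [e]
  let f : An k →* G := (MulAut.conj n⁻¹).toMonoidHom.comp ψ
  have hf : ∀ t, f t = n⁻¹ * ψ t * n := fun t => by simp [f]
  have hK : ∀ t, Commute x (f t) := by
    intro t
    rw [← mem_cen, ← hP, hf]
    intro y hy
    have h1 : ψ t ∈ centralizer (P : Set G) := by rw [hP]; exact mem_cen.2 (H.com t)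
    have h2 := h1 (n * y * n⁻¹) ((mem_normalizer_iff.1 hn y).1 hy)
    calc y * (n⁻¹ * ψ t * n) = n⁻¹ * (n * y * n⁻¹ * ψ t) * n := by group
      _ = n⁻¹ * ψ t * n * y := by rw [h2]; group
  have hc : commutator (An k) ≤ ψ.range.comap f := by
    rw [commutator_def, commutator_le]
    intro a _ b _
    obtain ⟨a', u, hu, ha⟩ := H.dec _ (hK a)
    obtain ⟨b', v, hv, hb⟩ := H.dec _ (hK b)
    have u1 : ψ a' * u = u * ψ a' := hu _ (mem_cen.2 (H.com a'))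
    have u2 : f b * u = u * f b := hu _ (mem_cen.2 (hK b))
    have v1 : ψ b' * v = v * ψ b' := hv _ (mem_cen.2 (H.com b'))
    have v2 : ψ a'⁻¹ * v = v * ψ a'⁻¹ := hv _ (mem_cen.2 (H.com a'⁻¹))
    refine ⟨⁅a', b'⁆, ?_⟩
    rw [map_commutatorElement, map_commutatorElement, commutatorElement_def,
      commutatorElement_def, ha]
    have e1 : ψ a' * u * f b * (ψ a' * u)⁻¹ = ψ a' * f b * (ψ a')⁻¹ := by
      rw [mul_assoc (ψ a') u, ← u2]; group
    rw [e1, hb]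
    rw [map_inv] at v2
    calc ψ a' * ψ b' * (ψ a')⁻¹ * (ψ b')⁻¹
        = ψ a' * ψ b' * ((ψ a')⁻¹ * v) * v⁻¹ * (ψ b')⁻¹ := by group
      _ = ψ a' * (ψ b' * v) * (ψ a')⁻¹ * (ψ b' * v)⁻¹ := by rw [v2]; group
  rw [commutator_alternatingGroup_eq_top (by simpa using H.five)] at hc
  rw [← hf]
  exact hc (mem_top s)

/-! ### arithmetic -/

theorem nd {p m : ℕ} (hp : p.Prime) (h6 : 600 < p) (h : p ∣ m) (a : ℕ) (hm : 0 < m) (ha : 0 < a)
    (ha' : a ≤ 600) (hq : m / m.gcd a ≤ 600) : False := by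
  rw [← Nat.div_mul_cancel (Nat.gcd_dvd_left m a), hp.dvd_mul] at h
  rcases h with h | h
  · have := Nat.le_of_dvd (Nat.div_pos (Nat.gcd_le_left _ hm) (Nat.gcd_pos_of_pos_left _ hm)) h
    omega
  · have := Nat.le_of_dvd ha (h.trans (Nat.gcd_dvd_right m a))
    omega

theorem arith1 {p α β N : ℕ} (hp : p.Prime) (h6 : 600 < p)
    (hα : α = 120 ∨ α = 6 ∨ α = 8 ∨ α = 5) (hβ : β = 120 ∨ β = 6 ∨ β = 8 ∨ β = 5)
    (hN : N = 12 ∨ N = 15 ∨ N = 20 ∨ N = 24) (h : α ≡ N * β [MOD p]) :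
    α = 120 ∧ N * β = 120 := by
  by_contra hc
  refine nd hp h6 (Int.natCast_dvd.1 (Nat.modEq_iff_dvd.1 h)) α ?_ ?_ ?_ ?_ <;> revert hc <;>
    rcases hα with rfl | rfl | rfl | rfl <;> rcases hβ with rfl | rfl | rfl | rfl <;>
    rcases hN with rfl | rfl | rfl | rfl <;> decide

theorem arith2 {p α κ N : ℕ} (hp : p.Prime) (h6 : 600 < p)
    (hα : α = 120 ∨ α = 6 ∨ α = 8 ∨ α = 5) (hκ : κ = 3 ∨ κ = 4 ∨ κ = 5 ∨ κ = 60)
    (hN : N = 12 ∨ N = 15 ∨ N = 20 ∨ N = 24) (h : p ∣ α + 2 * N * κ) : False := by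
  refine nd hp h6 h α ?_ ?_ ?_ ?_ <;>
    rcases hα with rfl | rfl | rfl | rfl <;> rcases hκ with rfl | rfl | rfl | rfl <;>
    rcases hN with rfl | rfl | rfl | rfl <;> decide

/-- the four types -/
def Ty (p β c : ℕ) : Prop :=
  (β = 120 ∧ 2 * c = (p + 5)!) ∨ (β = 6 ∧ 2 * c = 3 * (p + 2)!) ∨
    (β = 8 ∧ 2 * c = 8 * (p + 1)!) ∨ (β = 5 ∧ 2 * c = 5 * p !)

theorem Ty.val {p β c : ℕ} (h : Ty p β c) : β = 120 ∨ β = 6 ∨ β = 8 ∨ β = 5 := by
  unfold Ty at h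
  tauto

theorem typ {p c : ℕ}
    (h : 2 * c = (p + 5)! ∨ 2 * c = 3 * (p + 2)! ∨ 2 * c = 8 * (p + 1)! ∨ 2 * c = 5 * p !) :
    ∃ b β : ℕ, 2 * c = p ! * b ∧ (b : ZMod p) = β ∧ Ty p β c := by
  rcases h with h | h | h | h
  · refine ⟨(p + 1) * (p + 2) * (p + 3) * (p + 4) * (p + 5), 120, ?_, ?_, Or.inl ⟨rfl, h⟩⟩
    · rw [h]; simp only [Nat.factorial_succ]; ring
    · push_cast; rw [ZMod.natCast_self]; norm_num
  · refine ⟨3 * (p + 1) * (p + 2), 6, ?_, ?_, Or.inr (Or.inl ⟨rfl, h⟩)⟩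
    · rw [h]; simp only [Nat.factorial_succ]; ring
    · push_cast; rw [ZMod.natCast_self]; norm_num
  · refine ⟨8 * (p + 1), 8, ?_, ?_, Or.inr (Or.inr (Or.inl ⟨rfl, h⟩))⟩
    · rw [h]; simp only [Nat.factorial_succ]; ring
    · push_cast; rw [ZMod.natCast_self]; norm_num
  · exact ⟨5, 5, by rw [h]; ring, rfl, Or.inr (Or.inr (Or.inr ⟨rfl, h⟩))⟩

theorem val (h2 : RowA2) (hs : RowSM) (hc : RowCZ5) {G : Type} [Group G] [Finite G] {p ζ : ℕ}
    {c : G → ℕ} {x : G} {ψ : An 5 →* G} (H : Cfg p 5 ζ c x ψ) (h6 : 600 < p) (g : G) {N : ℕ}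
    (hN : N = 12 ∨ N = 15 ∨ N = 20 ∨ N = 24) (hi : ix g ≡ N [MOD p]) :
    2 * c 1 = (p + 5)! ∧ ∃ β, Ty p β (c g) ∧ N * β = 120 := by
  have hp := H.pr
  have : Fact p.Prime := ⟨hp⟩
  obtain ⟨s1, s2, -⟩ := hs G p 5 ζ c hp (by norm_num) (by omega) H.ch H.big H.dich
  obtain ⟨a, α, a1, a2, a3⟩ := typ (hc.2 p _ hp (by omega) (H.ch.mem 1) H.big)
  have hi' : (ix g : ZMod p) = N := (ZMod.natCast_eq_natCast_iff _ _ _).2 hi
  have hd : p ∣ c g := (s2 g).2 fun h => by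
    have := Nat.le_of_dvd (by omega) ((hi.dvd_iff dvd_rfl).1 h)
    omega
  rcases (h2 p 5 hp (by omega) (by omega)).1 _ (H.ch.mem g) hd with hb | ⟨κ, hκ, e⟩
  · obtain ⟨b, β, b1, b2, b3⟩ := typ (hc.2 p _ hp (by omega) (H.ch.mem g) hb)
    have e : a = ix g * b := Nat.eq_of_mul_eq_mul_left (Nat.factorial_pos p) (by
      rw [← a1, s1 g, mul_left_comm, b1]; ring)
    have e' : α ≡ N * β [MOD p] := (ZMod.natCast_eq_natCast_iff _ _ _).1 (by
      rw [← a2, e]; push_cast; rw [hi', b2])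
    obtain ⟨rfl, e2⟩ := arith1 hp h6 a3.val b3.val hN e'
    refine ⟨?_, β, b3, e2⟩
    rcases a3 with h | h | h | h
    · exact h.2
    all_goals exact absurd h.1 (by norm_num)
  · exfalso
    rw [hc.1] at hκ
    have e1 : (p - 1)! * a = 2 * ix g * κ := Nat.eq_of_mul_eq_mul_left hp.pos (by
      rw [← mul_assoc, Nat.mul_factorial_pred hp.ne_zero, ← a1, s1 g, e]; ring)
    have e2 := congrArg (Nat.cast : ℕ → ZMod p) e1
    push_cast at e2
    rw [ZMod.wilsons_lemma, a2, hi'] at e2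
    refine arith2 hp h6 a3.val hκ hN ((ZMod.natCast_eq_zero_iff _ _).1 ?_)
    push_cast
    linear_combination -e2

/-! ### classes of the alternating group of degree five -/

theorem n3 : {s : An 5 | s ^ 3 = 1 ∧ s ≠ 1}.ncard = 20 := by
  rw [← Finset.coe_filter_univ, Set.ncard_coe_finset]; decide +kernel

theorem n2 : {s : An 5 | s ^ 2 = 1 ∧ s ≠ 1}.ncard = 15 := by
  rw [← Finset.coe_filter_univ, Set.ncard_coe_finset]; decide +kernel

theorem n5 : {s : An 5 | s ^ 5 = 1 ∧ s ≠ 1}.ncard = 24 := by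
  rw [← Finset.coe_filter_univ, Set.ncard_coe_finset]; decide +kernel

theorem card5 : Nat.card (An 5) = 60 := by
  rw [nat_card_alternatingGroup, Nat.card_fin]; rfl

theorem ix5 (hc : RowCZ5) (s : An 5) (hs : s ≠ 1) : ∃ z, (z = 3 ∨ z = 4 ∨ z = 5) ∧
    orderOf s ∣ z ∧ ix s * z = 60 := by
  have h1 : Nat.card (cen s) ∈ Cz 5 := ⟨s, rfl⟩
  have h2 : ix s * Nat.card (cen s) = 60 := by rw [← card5]; exact (cen s).index_mul_card
  refine ⟨Nat.card (cen s), ?_, (cen s).orderOf_dvd_natCard (mem_cen.2 (Commute.refl s)), h2⟩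
  rw [hc.1] at h1
  rcases h1 with h | h | h | h
  · exact Or.inl h
  · exact Or.inr (Or.inl h)
  · exact Or.inr (Or.inr h)
  · exfalso
    have h' : Nat.card (cen s) = 60 := h
    have h3 : cen s = ⊤ := eq_top_of_card_eq _ (h'.trans card5.symm)
    have h4 : s ∈ center (An 5) := mem_center_iff.2 fun g =>
      (mem_cen.1 (h3 ▸ mem_top g : g ∈ cen s)).symm
    rw [alternatingGroup.center_eq_bot (by simp)] at h4
    exact hs h4

section cls

variable {G : Type} [Group G] {ψ : An 5 →* G}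

theorem sub1 {s t : An 5} (h : IsConj (ψ s) (ψ t)) :
    {u | IsConj t u} ⊆ {s' | IsConj (ψ s) (ψ s')} := fun _ hu => h.trans (ψ.map_isConj hu)

theorem sub2 (hψ : Function.Injective ψ) {s : An 5} {r : ℕ} (hr : s ^ r = 1) (hs : s ≠ 1) :
    {s' | IsConj (ψ s) (ψ s')} ⊆ {t | t ^ r = 1 ∧ t ≠ 1} := by
  intro t ht
  obtain ⟨g, hg⟩ := isConj_iff.1 ht
  refine ⟨hψ ?_, fun e => hs (hψ ?_)⟩
  · rw [map_pow, ← hg, conj_pow, ← map_pow, hr]; simp
  · rw [e, map_one, conj_eq_one_iff] at hg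
    rw [hg, map_one]

theorem ne1 {s : An 5} {r : ℕ} (h : orderOf s = r) (hr : r ≠ 1) : s ^ r = 1 ∧ s ≠ 1 :=
  ⟨h ▸ pow_orderOf_eq_one s, fun e => hr (by rw [← h, e, orderOf_one])⟩

theorem low (s : An 5) : ix s ≤ {s' | IsConj (ψ s) (ψ s')}.ncard :=
  cls s ▸ Set.ncard_le_ncard (sub1 (IsConj.refl _))

theorem N3 (hc : RowCZ5) (hψ : Function.Injective ψ) {s : An 5} (h : orderOf s = 3) :
    {s' | IsConj (ψ s) (ψ s')}.ncard = 20 := by
  obtain ⟨h1, h2⟩ := ne1 h (by norm_num)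
  obtain ⟨z, a1, a2, a3⟩ := ix5 hc s h2
  have b1 := low (ψ := ψ) s
  have b2 := Set.ncard_le_ncard (sub2 hψ h1 h2)
  rw [n3] at b2
  rw [h] at a2
  rcases a1 with rfl | rfl | rfl <;> omega

theorem N2 (hc : RowCZ5) (hψ : Function.Injective ψ) {s : An 5} (h : orderOf s = 2) :
    {s' | IsConj (ψ s) (ψ s')}.ncard = 15 := by
  obtain ⟨h1, h2⟩ := ne1 h (by norm_num)
  obtain ⟨z, a1, a2, a3⟩ := ix5 hc s h2
  have b1 := low (ψ := ψ) s
  have b2 := Set.ncard_le_ncard (sub2 hψ h1 h2)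
  rw [n2] at b2
  rw [h] at a2
  rcases a1 with rfl | rfl | rfl <;> omega

theorem ix12 (hc : RowCZ5) {s : An 5} (h1 : s ^ 5 = 1) (h2 : s ≠ 1) : ix s = 12 := by
  have : Fact (Nat.Prime 5) := ⟨by norm_num⟩
  obtain ⟨z, a1, a2, a3⟩ := ix5 hc s h2
  rw [orderOf_eq_prime h1 h2] at a2
  rcases a1 with rfl | rfl | rfl <;> omega

theorem N5 (hc : RowCZ5) (hψ : Function.Injective ψ) {s : An 5} (h : orderOf s = 5) :
    {s' | IsConj (ψ s) (ψ s')}.ncard = 12 ∨ {s' | IsConj (ψ s) (ψ s')}.ncard = 24 := by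
  obtain ⟨h1, h2⟩ := ne1 h (by norm_num)
  have b2 := Set.ncard_le_ncard (sub2 hψ h1 h2)
  rw [n5] at b2
  by_cases e : {s' | IsConj (ψ s) (ψ s')} ⊆ {u | IsConj s u}
  · left
    rw [e.antisymm (sub1 (IsConj.refl _)), cls, ix12 hc h1 h2]
  · right
    obtain ⟨t, t1, t2⟩ := Set.not_subset.1 e
    have t3 := sub2 hψ h1 h2 t1
    have d : Disjoint {u | IsConj s u} {u | IsConj t u} :=
      Set.disjoint_left.2 fun u a b => t2 (IsConj.trans a (IsConj.symm b))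
    have b1 := Set.ncard_le_ncard (Set.union_subset (sub1 (ψ := ψ) (IsConj.refl _)) (sub1 t1))
    rw [Set.ncard_union_eq d, cls, cls, ix12 hc h1 h2, ix12 hc t3.1 t3.2] at b1
    omega

end cls

end FUS

open FUS

theorem rowFUS (ho : RowORB) : RowFUS := by
  intro G _ _ p k ζ c x ψ H
  refine ⟨fus H, fun s => ?_⟩
  obtain ⟨b, hb⟩ := (ho G p x H.pr H.xc.xp).2.1 {t | IsConj (ψ s) t} fun v hv =>
    IsConj.trans hv (isConj_iff.2 ⟨x, rfl⟩)
  have e : {v ∈ {t | IsConj (ψ s) t} | Commute x v} = ψ '' {s' | IsConj (ψ s) (ψ s')} := by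
    ext v
    constructor
    · rintro ⟨h1, h2⟩
      obtain ⟨g, rfl⟩ := isConj_iff.1 h1
      obtain ⟨t, ht⟩ := fus H g s h2
      exact ⟨t, by rw [Set.mem_ofPred_eq, ht]; exact h1, ht⟩
    · rintro ⟨t, ht, rfl⟩
      exact ⟨ht, H.com t⟩
  rw [cls, e, Set.ncard_image_of_injective _ H.inj] at hb
  rw [hb]
  exact (Nat.modEq_iff_dvd' (Nat.le_add_right _ _)).2 (by simp) |>.symm

theorem rowK5A (h2 : RowA2) (hs : RowSM) (hc : RowCZ5) (hf : RowFUS) : RowK5A := by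
  intro G _ _ p ζ c x ψ H h6
  have hi := (hf G p 5 ζ c x ψ H).2
  have v3 : ∀ s, orderOf s = 3 → 2 * c 1 = (p + 5)! ∧ ∃ β, Ty p β (c (ψ s)) ∧ 20 * β = 120 :=
    fun s h => val h2 hs hc H h6 (ψ s) (by norm_num) (N3 hc H.inj h ▸ hi s)
  refine ⟨?_, fun s h => ?_, fun s h => ?_, fun s h => ?_⟩
  · have : Fact (Nat.Prime 3) := ⟨by norm_num⟩
    obtain ⟨s, h⟩ := exists_prime_orderOf_dvd_card' (G := An 5) 3 (by rw [card5]; norm_num)
    exact (v3 s h).1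
  · obtain ⟨-, β, b1, b2⟩ := v3 s h
    rcases b1 with b | b | b | b <;> first | exact b.2 | omega
  · obtain ⟨-, β, b1, b2⟩ := val (N := 15) h2 hs hc H h6 (ψ s) (by norm_num)
      (N2 hc H.inj h ▸ hi s)
    rcases b1 with b | b | b | b <;> first | exact b.2 | omega
  · rcases N5 hc H.inj h with e | e
    · obtain ⟨-, β, b1, b2⟩ := val (N := 12) h2 hs hc H h6 (ψ s) (by norm_num) (e ▸ hi s)
      have := b1.val
      omega
    · obtain ⟨-, β, b1, b2⟩ := val (N := 24) h2 hs hc H h6 (ψ s) (by norm_num) (e ▸ hi s)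
      rcases b1 with b | b | b | b <;> first | exact b.2 | omega

end Pool.Agent.MP_62c071_al.H57
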