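import Pool.Agent.MP_62c071_al.H57.Spec

/-! Row GEN: generation of alternating groups by three-cycles through two points. -/

set_option autoImplicit false

namespace Pool.Agent.MP_62c071_al.H57

open Subgroup Equiv Equiv.Perm

namespace GEN

variable {α : Type} [Fintype α] [DecidableEq α]

theorem cy3_val {a b c : α} (h : a ≠ b) (h' : a ≠ c) :
    (cy3 a b c : Perm α) = swap a c * swap a b := by
  rw [cy3, dif_pos ⟨h, h'⟩]

theorem part1 (Γ : Finset α) (a b : α) (hab : a ≠ b) (s : alternatingGroup α) (hs : sp s ⊆ Γ) :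
    s ∈ closure {u | ∃ i ∈ Γ, i ≠ a ∧ i ≠ b ∧ u = cy3 a b i} := by
  set K := (closure {u | ∃ i ∈ Γ, i ≠ a ∧ i ≠ b ∧ u = cy3 a b i}).map
    (alternatingGroup α).subtype with hK
  have h1 : ∀ x ∈ Γ, x ≠ a → swap a x * swap a b ∈ K := fun x hx hxa => by
    by_cases e : x = b
    · rw [e, swap_mul_self]; exact K.one_mem
    · exact ⟨cy3 a b x, subset_closure ⟨x, hx, hxa, e, rfl⟩, cy3_val hab hxa.symm⟩
  have h2 : ∀ x ∈ Γ, ∀ σ : Perm α, σ ∈ K ∨ swap a b * σ ∈ K →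
      swap a x * σ ∈ K ∨ swap a b * (swap a x * σ) ∈ K := fun x hx σ h => by
    by_cases e : x = a
    · rwa [e, swap_self, ← Perm.one_def, one_mul]
    rcases h with h | h
    · refine Or.inr ?_
      have := K.mul_mem (K.inv_mem (h1 x hx e)) h
      rwa [mul_inv_rev, swap_inv, swap_inv, mul_assoc] at this
    · refine Or.inl ?_
      have := K.mul_mem (h1 x hx e) h
      rwa [mul_assoc, swap_mul_self_mul] at this
  have h3 : ∀ x ∈ Γ, ∀ y ∈ Γ, x ≠ y → ∀ σ : Perm α, σ ∈ K ∨ swap a b * σ ∈ K →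
      swap x y * σ ∈ K ∨ swap a b * (swap x y * σ) ∈ K := fun x hx y hy hxy σ h => by
    by_cases e : y = a
    · rw [e, swap_comm x]; exact h2 x hx σ h
    · rw [← swap_mul_swap_mul_swap e hxy.symm, swap_comm y, mul_assoc, mul_assoc]
      exact h2 x hx _ (h2 y hy _ (h2 x hx σ h))
  have h4 : ∀ (n : ℕ) (σ : Perm α), σ.support.card < n → σ.support ⊆ Γ →
      σ ∈ K ∨ swap a b * σ ∈ K := fun n => by
    induction n with
    | zero => exact fun σ h => absurd h (Nat.not_lt_zero _)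
    | succ n ih =>
      intro σ h hσ
      by_cases e : σ = 1
      · exact Or.inl (e ▸ K.one_mem)
      obtain ⟨x, hx⟩ : ∃ x, σ x ≠ x := by
        by_contra! hh
        exact e (Equiv.ext hh)
      have := h3 x (hσ (mem_support.2 hx)) (σ x) (hσ (apply_mem_support.2 (mem_support.2 hx)))
        hx.symm _ (ih (swap x (σ x) * σ) (by have := card_support_swap_mul hx; omega) fun y hy =>
          hσ (mem_support_swap_mul_imp_mem_support_ne hy).1)
      rwa [swap_mul_self_mul] at this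
  rcases h4 _ s (Nat.lt_succ_self _) hs with ⟨u, hu, e⟩ | ⟨u, -, e⟩
  · rwa [← show u = s from Subtype.ext e]
  · have := congrArg sign e
    rw [Perm.sign_mul, sign_swap hab, mem_alternatingGroup.1 s.2] at this
    exact absurd ((mem_alternatingGroup.1 u.2).symm.trans this) (by decide)

theorem tt_eq {k : ℕ} (i : Fin k) (h : 2 ≤ (i : ℕ)) :
    tt k i = cy3 ⟨0, by omega⟩ ⟨1, by omega⟩ i := by
  rw [tt, dif_pos ⟨h, i.2⟩]

theorem part2 (k : ℕ) : closure {u | ∃ i, i < k ∧ u = tt k i} = (⊤ : Subgroup (An k)) := by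
  rcases k with _ | _ | k
  · exact Subsingleton.elim _ _
  · exact Subsingleton.elim (α := Subgroup (An 1)) _ _
  refine eq_top_iff.2 fun s _ => closure_mono ?_
    (part1 Finset.univ (0 : Fin (k + 2)) 1 zero_ne_one s (Finset.subset_univ _))
  rintro _ ⟨i, -, h0, h1, rfl⟩
  refine ⟨i, i.2, (tt_eq i ?_).symm⟩
  have a : (i : ℕ) ≠ 0 := fun h => h0 (Fin.ext h)
  have b : (i : ℕ) ≠ 1 := fun h => h1 (Fin.ext h)
  omega

theorem conj_cy3 (g : alternatingGroup α) {a b c : α} (h : a ≠ b) (h' : a ≠ c) :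
    g * cy3 a b c * g⁻¹ = cy3 (g.1 a) (g.1 b) (g.1 c) := by
  refine Subtype.ext ?_
  rw [cy3_val (g.1.injective.ne h) (g.1.injective.ne h'), swap_apply_apply, swap_apply_apply,
    Subgroup.coe_mul, Subgroup.coe_mul, cy3_val h h', Subgroup.coe_inv]
  group

theorem part3 (k : ℕ) (hk : 5 ≤ k) : ∃ g : An k, ∀ i, 3 ≤ i → i < k →
    ∃ e : ℕ, g ^ e * tt k 3 * (g ^ e)⁻¹ = tt k i := by
  obtain ⟨l, r, h2, h3, hr⟩ : ∃ l r : ℕ, 2 ≤ l ∧ l ≤ 3 ∧ k - l = 2 * r + 1 :=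
    ⟨3 - k % 2, (k - (3 - k % 2)) / 2, by omega, by omega, by omega⟩
  obtain ⟨f, hf, hs⟩ := (Finset.Ici (⟨l, by omega⟩ : Fin k)).exists_cycleOn
  refine ⟨⟨f * f, by simp [mem_alternatingGroup]⟩, fun i hi hik => ?_⟩
  have m3 : (⟨3, by omega⟩ : Fin k) ∈ Finset.Ici (⟨l, by omega⟩ : Fin k) :=
    Finset.mem_Ici.2 (Fin.mk_le_mk.2 h3)
  obtain ⟨m, -, hm⟩ := hf.exists_pow_eq m3 (b := ⟨i, hik⟩)
    (Finset.mem_Ici.2 (Fin.le_def.2 (h3.trans hi)))
  have h4 := hf.pow_card_apply m3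
  rw [Fin.card_Ici, hr] at h4
  have fx : ∀ (x : Fin k) (n : ℕ), (x : ℕ) < 2 → (f ^ n) x = x := fun x n hx =>
    pow_apply_eq_self_of_apply_eq_self (notMem_support.1 fun h => by
      have := Fin.le_def.1 (Finset.mem_Ici.1 (hs h))
      simp only at this
      omega) n
  refine ⟨m * (r + 1), ?_⟩
  have e : ((⟨f * f, by simp [mem_alternatingGroup]⟩ : An k) ^ (m * (r + 1))).1 =
      f ^ m * (f ^ (2 * r + 1)) ^ m := by
    change (f * f) ^ _ = _
    rw [← sq, ← pow_mul, ← pow_mul, ← pow_add]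
    congr 1
    ring
  rw [tt_eq (⟨3, by omega⟩ : Fin k) (by simp), tt_eq (⟨i, hik⟩ : Fin k) (by simp only; omega),
    conj_cy3 _ (by simp) (by simp), e]
  simp only [mul_apply]
  rw [pow_apply_eq_self_of_apply_eq_self h4, hm, ← pow_mul, fx ⟨0, _⟩ _ (by simp), fx ⟨1, _⟩ _ (by simp),
    fx ⟨0, _⟩ _ (by simp), fx ⟨1, _⟩ _ (by simp)]

end GEN

theorem rowGEN : RowGEN :=
  ⟨fun _ _ _ Γ a b h _ _ => GEN.part1 Γ a b h, GEN.part2, GEN.part3⟩

end Pool.Agent.MP_62c071_al.H57
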