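import Pool.Agent.MP_62c071_al.H57.Spec
import Pool.Agent.MP_62c071_al.H88.Car
import Pool.Agent.MP_62c071_al.H88.Jor

/-! Rows JOR, NAT and END. -/

set_option autoImplicit false

namespace Pool.Agent.MP_62c071_al.H57

open Subgroup
open scoped Nat

theorem rowJOR : RowJOR := fun _ _ _ H _ _ hr h1 h2 ht hg ho =>
  H88.jor H ⟨fun a b => let ⟨h, m, e⟩ := ht a b; ⟨⟨h, m⟩, e⟩⟩ hr h1 h2 hg ho

theorem rowNAT : RowNAT := by
  intro α _ _ U r e hr _ h1 h2 hd hi
  have e1 : (U.map (alternatingGroup α).subtype).relIndex (alternatingGroup α) = U.index := by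
    rw [relIndex, subgroupOf, comap_map_eq_self_of_injective (alternatingGroup α).subtype_injective]
  obtain ⟨O, c, h⟩ := H88.nat (U.map (alternatingGroup α).subtype) (map_subtype_le U) hr
    (e := e) (e1 ▸ hi) (e1 ▸ hd) h1 h2
  refine ⟨O, c, fun s hs => ?_⟩
  obtain ⟨t, ht, e2⟩ := h s s.2 hs
  exact (Subtype.ext e2 : t = s) ▸ ht

theorem rowEND : RowEND := by
  intro G _ _ n T A hn hT hc hA hAT hG
  have fin := T.toFinite
  have := Fact.mk Nat.prime_three
  obtain ⟨ψ, inj, rg⟩ := H88.car hn fin.toFinset (by rw [← Set.ncard_eq_toFinset_card, hc])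
    (fun t ht => orderOf_eq_prime (hT.1 t (fin.mem_toFinset.1 ht)).2
      (hT.1 t (fin.mem_toFinset.1 ht)).1)
    fun t ht u hu => hT.2 t (fin.mem_toFinset.1 ht) u (fin.mem_toFinset.1 hu)
  rw [fin.coe_toFinset] at rg
  have cm : ∀ (s : An n) (a : A), Commute (ψ s) (A.subtype a) := fun s a => by
    have : closure T ≤ centralizer {(a : G)} := (closure_le _).2 fun t ht =>
      mem_centralizer_singleton_iff.2 (hAT a a.2 t ht).symm
    exact mem_centralizer_singleton_iff.1 (this (rg ▸ ⟨s, rfl⟩))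
  let Ψ : An n × A →* G := ψ.noncommCoprod A.subtype cm
  have i2 : Function.Injective Ψ := by
    refine (injective_iff_map_eq_one Ψ).2 fun ⟨s, a⟩ h => ?_
    have e : ψ s = (a : G)⁻¹ := eq_inv_of_mul_eq_one_left h
    have s1 : s ∈ center (An n) := mem_center_iff.2 fun s' => inj (by
      rw [map_mul, map_mul, e]
      exact (cm s' a).inv_right.eq)
    rw [alternatingGroup.center_eq_bot (by simpa using (by omega : 4 ≤ n)), mem_bot] at s1
    subst s1
    rw [map_one, eq_comm, inv_eq_one] at e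
    exact Prod.ext rfl (Subtype.ext e)
  have bij : Function.Bijective Ψ := by
    refine i2.bijective_of_nat_card_le ?_
    have : Nontrivial (Fin n) := Fin.nontrivial_iff_two_le.2 (by omega)
    have a1 := two_mul_nat_card_alternatingGroup (α := Fin n)
    rw [Nat.card_perm, Nat.card_fin] at a1
    rw [← a1] at hG
    rw [Nat.card_prod]
    nlinarith
  refine ⟨ψ, inj, fun g => ?_⟩
  obtain ⟨⟨s, a⟩, rfl⟩ := bij.2 g
  refine ⟨s, a, mem_center_iff.2 fun g' => ?_, rfl⟩
  obtain ⟨⟨s', a'⟩, rfl⟩ := bij.2 g'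
  exact ((cm s' a).mul_left (hA a' a'.2 a a.2)).eq

end Pool.Agent.MP_62c071_al.H57
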