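import Pool.Agent.MP_62c071_al.H57.Spec

/-! Rows K5B and K5D. -/

set_option autoImplicit false

namespace Pool.Agent.MP_62c071_al.H57

open Subgroup
open scoped Nat

namespace K5B

theorem tt0 : tt 5 0 = 1 := by decide +kernel
theorem tt1 : tt 5 1 = 1 := by decide +kernel

/-- an element of order five -/
def ww : An 5 := tt 5 3 * tt 5 3 * tt 5 2 * tt 5 4

/-- the three-cycle on the last three points -/
def t3 : An 5 := tt 5 2 * tt 5 3 * tt 5 4 * tt 5 2 * tt 5 3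

theorem b_w : tt 5 3 = ww * tt 5 2 * tt 5 2 * ww * ww := by decide +kernel
theorem d_w : tt 5 4 = tt 5 2 * tt 5 2 * ww * tt 5 2 * tt 5 2 * ww * ww * ww := by decide +kernel
theorem b_t : tt 5 3 = t3 * tt 5 2 * t3 * t3 := by decide +kernel
theorem d_t : tt 5 4 = t3 * t3 * tt 5 2 * t3 := by decide +kernel
theorem ww5 : ww ^ 5 = 1 := by decide +kernel
theorem ww1 : ww ≠ 1 := by decide +kernel
theorem t33 : t3 ^ 3 = 1 := by decide +kernel
theorem t31 : t3 ≠ 1 := by decide +kernel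
theorem a3 : tt 5 2 ^ 3 = 1 := by decide +kernel
theorem a1 : tt 5 2 ≠ 1 := by decide +kernel
theorem aw2 : (tt 5 2 * ww) ^ 2 = 1 := by decide +kernel
theorem v2 : (tt 5 2 * tt 5 3) ^ 2 = 1 := by decide +kernel
theorem v1 : tt 5 2 * tt 5 3 ≠ 1 := by decide +kernel

theorem sol5P : ∀ s : Equiv.Perm (Fin 5), s ^ 3 = 1 → (s * (ww : Equiv.Perm (Fin 5))) ^ 2 = 1 →
    ∃ i : Fin 5, s = ((ww ^ (i : ℕ) * tt 5 2 * (ww ^ (i : ℕ))⁻¹ : An 5) : Equiv.Perm (Fin 5)) := by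
  decide +kernel

theorem sol5 (s : An 5) (h3 : s ^ 3 = 1) (h2 : (s * ww) ^ 2 = 1) :
    ∃ i : Fin 5, s = ww ^ (i : ℕ) * tt 5 2 * (ww ^ (i : ℕ))⁻¹ := by
  obtain ⟨i, hi⟩ := sol5P (s : Equiv.Perm (Fin 5)) (by exact_mod_cast congrArg Subtype.val h3)
    (by exact_mod_cast congrArg Subtype.val h2)
  exact ⟨i, Subtype.ext hi⟩

theorem inj5 : Function.Injective
    (fun i : Fin 5 => ww ^ (i : ℕ) * tt 5 2 * (ww ^ (i : ℕ))⁻¹) := by decide +kernel

theorem sol4P : ∀ s : Equiv.Perm (Fin 5), s ^ 3 = 1 →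
    s * ((tt 5 3 * tt 5 2 : An 5) : Equiv.Perm (Fin 5)) =
      ((tt 5 2 * tt 5 3 : An 5) : Equiv.Perm (Fin 5)) * s →
    s = (tt 5 2 : An 5) ∨ s = (tt 5 3 * tt 5 3 : An 5) ∨ s = (tt 5 2 * tt 5 2 * tt 5 3 : An 5) ∨
      s = (tt 5 3 * tt 5 2 * tt 5 2 : An 5) := by
  decide +kernel

theorem sol4 (s : An 5) (h3 : s ^ 3 = 1) (h2 : s * (tt 5 3 * tt 5 2) = (tt 5 2 * tt 5 3) * s) :
    s = tt 5 2 ∨ s = tt 5 3 * tt 5 3 ∨ s = tt 5 2 * tt 5 2 * tt 5 3 ∨
      s = tt 5 3 * tt 5 2 * tt 5 2 := by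
  rcases sol4P (s : Equiv.Perm (Fin 5)) (by exact_mod_cast congrArg Subtype.val h3)
    (by exact_mod_cast congrArg Subtype.val h2) with h | h | h | h
  · exact Or.inl (Subtype.ext h)
  · exact Or.inr (Or.inl (Subtype.ext h))
  · exact Or.inr (Or.inr (Or.inl (Subtype.ext h)))
  · exact Or.inr (Or.inr (Or.inr (Subtype.ext h)))

/-- the four-group as a finite set -/
def VF : Finset (An 5) :=
  {1, tt 5 2 * tt 5 3, tt 5 3 * tt 5 2, tt 5 2 * tt 5 3 * (tt 5 3 * tt 5 2)}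

theorem VF_card : VF.card = 4 := by decide +kernel
theorem VF_mul : ∀ a ∈ VF, ∀ b ∈ VF, a * b ∈ VF := by decide +kernel
theorem VF_inv : ∀ a ∈ VF, a⁻¹ ∈ VF := by decide +kernel
theorem VF_one : (1 : An 5) ∈ VF := by decide +kernel
theorem VF_com : ∀ a ∈ VF, a * (tt 5 2 * tt 5 3) = (tt 5 2 * tt 5 3) * a := by decide +kernel
theorem VF_a : ∀ a ∈ VF, a * tt 5 2 = tt 5 2 * a → a = 1 := by decide +kernel

/-- the four-group -/
def VV : Subgroup (An 5) where
  carrier := (VF : Set (An 5))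
  one_mem' := VF_one
  mul_mem' := fun {a b} ha hb => VF_mul a ha b hb
  inv_mem' := fun {a} ha => VF_inv a ha

theorem VV_card : Nat.card VV = 4 := by
  rw [← VF_card]
  exact Nat.card_eq_card_toFinset (VF : Set (An 5)) |>.trans (by simp)

variable {G : Type} [Group G]

theorem mem_cen' {g u : G} : u ∈ cen g ↔ Commute u g := by
  unfold cen
  rw [mem_centralizer_singleton_iff]
  rfl

theorem memBB {k : ℕ} (ψ : An k →* G) (j : ℕ) (u : G) :
    u ∈ BB ψ j ↔ ∀ i, i < j → Commute u (ψ (tt k i)) := by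
  unfold BB
  rw [mem_centralizer_iff]
  constructor
  · intro h i hi
    exact (h _ ⟨i, hi, rfl⟩).symm
  · rintro h _ ⟨i, hi, rfl⟩
    exact (h i hi).symm.eq

theorem memBB4 (ψ : An 5 →* G) (u : G) :
    u ∈ BB ψ 4 ↔ Commute u (ψ (tt 5 2)) ∧ Commute u (ψ (tt 5 3)) := by
  rw [memBB]
  constructor
  · intro h
    exact ⟨h 2 (by omega), h 3 (by omega)⟩
  · rintro ⟨h2, h3⟩ i hi
    interval_cases i
    · rw [tt0, map_one]; exact Commute.one_right _
    · rw [tt1, map_one]; exact Commute.one_right _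
    · exact h2
    · exact h3

theorem memBB5 (ψ : An 5 →* G) (u : G) :
    u ∈ BB ψ 5 ↔ Commute u (ψ (tt 5 2)) ∧ Commute u (ψ (tt 5 3)) ∧ Commute u (ψ (tt 5 4)) := by
  rw [memBB]
  constructor
  · intro h
    exact ⟨h 2 (by omega), h 3 (by omega), h 4 (by omega)⟩
  · rintro ⟨h2, h3, h4⟩ i hi
    interval_cases i
    · rw [tt0, map_one]; exact Commute.one_right _
    · rw [tt1, map_one]; exact Commute.one_right _
    · exact h2
    · exact h3
    · exact h4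

theorem BB5_w (ψ : An 5 →* G) : cen (ψ (tt 5 2)) ⊓ cen (ψ ww) = BB ψ 5 := by
  ext u
  rw [mem_inf, mem_cen', mem_cen', memBB5]
  constructor
  · rintro ⟨ha, hw⟩
    refine ⟨ha, ?_, ?_⟩
    · rw [b_w]
      simp only [map_mul]
      exact (((hw.mul_right ha).mul_right ha).mul_right hw).mul_right hw
    · rw [d_w]
      simp only [map_mul]
      exact ((((((ha.mul_right ha).mul_right hw).mul_right ha).mul_right ha).mul_right
        hw).mul_right hw).mul_right hw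
  · rintro ⟨ha, hb, hd⟩
    refine ⟨ha, ?_⟩
    unfold ww
    simp only [map_mul]
    exact ((hb.mul_right hb).mul_right ha).mul_right hd

theorem BB5_t (ψ : An 5 →* G) : cen (ψ (tt 5 2)) ⊓ cen (ψ t3) = BB ψ 5 := by
  ext u
  rw [mem_inf, mem_cen', mem_cen', memBB5]
  constructor
  · rintro ⟨ha, hw⟩
    refine ⟨ha, ?_, ?_⟩
    · rw [b_t]
      simp only [map_mul]
      exact ((hw.mul_right ha).mul_right hw).mul_right hw
    · rw [d_t]
      simp only [map_mul]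
      exact ((hw.mul_right hw).mul_right ha).mul_right hw
  · rintro ⟨ha, hb, hd⟩
    refine ⟨ha, ?_⟩
    unfold t3
    simp only [map_mul]
    exact (((ha.mul_right hb).mul_right hd).mul_right ha).mul_right hb

/-- index times order of the intersection -/
theorem rel_card (H K : Subgroup G) : H.relIndex K * Nat.card (H ⊓ K : Subgroup G) = Nat.card K := by
  have h1 := (H.subgroupOf K).index_mul_card
  have h2 : Nat.card (H.subgroupOf K) = Nat.card (H ⊓ K : Subgroup G) := by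
    rw [← inf_subgroupOf_right]
    exact Nat.card_congr (subgroupOfEquivOfLe inf_le_right).toEquiv
  rw [← h2]
  exact h1

theorem orb_ncard (B : Subgroup G) (u : G) : (orb B u).ncard = (cen u).relIndex B := by
  let f : B → G := fun b => b * u * (b : G)⁻¹
  have hr : orb B u = Set.range f := by
    ext v
    constructor
    · rintro ⟨b, hb, rfl⟩
      exact ⟨⟨b, hb⟩, rfl⟩
    · rintro ⟨b, rfl⟩
      exact ⟨b, b.2, rfl⟩
  have hs : QuotientGroup.leftRel ((cen u).subgroupOf B) = Setoid.ker f := by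
    ext a b
    rw [QuotientGroup.leftRel_apply, mem_subgroupOf, mem_cen', Setoid.ker_def]
    simp only [f, coe_mul, coe_inv]
    constructor
    · intro h
      have h' := h.eq
      calc (a : G) * u * (a : G)⁻¹ = a * (u * ((a : G)⁻¹ * b)) * (b : G)⁻¹ := by group
        _ = a * (((a : G)⁻¹ * b) * u) * (b : G)⁻¹ := by rw [h']
        _ = b * u * (b : G)⁻¹ := by group
    · intro h
      show (a : G)⁻¹ * b * u = u * ((a : G)⁻¹ * b)
      calc (a : G)⁻¹ * b * u = (a : G)⁻¹ * (b * u * (b : G)⁻¹) * b := by group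
        _ = (a : G)⁻¹ * (a * u * (a : G)⁻¹) * b := by rw [h]
        _ = u * ((a : G)⁻¹ * b) := by group
  rw [hr, ← Nat.card_coe_set_eq, relIndex, index]
  have e : (B ⧸ (cen u).subgroupOf B) ≃ Set.range f := by
    show Quotient (QuotientGroup.leftRel ((cen u).subgroupOf B)) ≃ Set.range f
    rw [hs]
    exact Setoid.quotientKerEquivRange f
  exact (Nat.card_congr e).symm

theorem orb_conj {B : Subgroup G} {x : G} (hx : x ∈ B) (u : G) :
    ∀ v ∈ orb B u, x * v * x⁻¹ ∈ orb B u := by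
  rintro _ ⟨b, hb, rfl⟩
  exact ⟨x * b, B.mul_mem hx hb, by group⟩

theorem four_dvd [Finite G] (ψ : An 5 →* G) (hi : Function.Injective ψ) :
    Nat.card (BB ψ 4) * 4 ∣ Nat.card (cen (ψ (tt 5 2 * tt 5 3))) := by
  have hc : ∀ (b : BB ψ 4) (s : VV), Commute ((BB ψ 4).subtype b) ((ψ.comp VV.subtype) s) := by
    intro b s
    obtain ⟨h2, h3⟩ := (memBB4 ψ b).1 b.2
    have hs : (s : An 5) ∈ VF := s.2
    show Commute (b : G) (ψ (s : An 5))
    simp only [VF, Finset.mem_insert, Finset.mem_singleton] at hs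
    rcases hs with h | h | h | h <;> rw [h]
    · rw [map_one]; exact Commute.one_right _
    · rw [map_mul]; exact h2.mul_right h3
    · rw [map_mul]; exact h3.mul_right h2
    · simp only [map_mul]; exact (h2.mul_right h3).mul_right (h3.mul_right h2)
  let F : BB ψ 4 × VV →* G := MonoidHom.noncommCoprod (BB ψ 4).subtype (ψ.comp VV.subtype) hc
  have hF : ∀ (b : BB ψ 4) (s : VV), F (b, s) = (b : G) * ψ s := fun b s => rfl
  have hinj : Function.Injective F := by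
    rw [injective_iff_map_eq_one]
    rintro ⟨b, s⟩ h
    rw [hF] at h
    obtain ⟨h2, -⟩ := (memBB4 ψ b).1 b.2
    have hb : ψ s = (b : G)⁻¹ := (eq_inv_of_mul_eq_one_right h)
    have hs : (s : An 5) * tt 5 2 = tt 5 2 * s := by
      apply hi
      rw [map_mul, map_mul, hb]
      exact h2.inv_left.eq
    have hs1 : (s : An 5) = 1 := VF_a s s.2 hs
    rw [hs1, map_one, mul_one] at h
    exact Prod.ext (Subtype.ext h) (Subtype.ext hs1)
  have hle : F.range ≤ cen (ψ (tt 5 2 * tt 5 3)) := by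
    rintro _ ⟨⟨b, s⟩, rfl⟩
    rw [hF, mem_cen']
    obtain ⟨h2, h3⟩ := (memBB4 ψ b).1 b.2
    refine Commute.mul_left ?_ ?_
    · rw [map_mul]; exact h2.mul_right h3
    · show ψ s * ψ (tt 5 2 * tt 5 3) = ψ (tt 5 2 * tt 5 3) * ψ s
      rw [← map_mul, ← map_mul, VF_com s s.2]
  have hcard : Nat.card F.range = Nat.card (BB ψ 4) * 4 := by
    have e := (Nat.card_congr (MonoidHom.ofInjective hinj).toEquiv).symm
    rwa [Nat.card_prod, VV_card] at e
  rw [← hcard]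
  exact card_dvd_of_le hle

theorem num1 (p b N I C ζ P : ℕ) (hp : 600 < p) (hζ : 0 < ζ) (hP : 0 < P)
    (h5 : 2 * ((5 + b * p) * C) = ζ * (5 * P))
    (h3 : 2 * (N * C) = ζ * (3 * ((p + 2) * (p + 1) * P)))
    (hN : N ≤ I) (hI : I * 3 = (p + 5) * (p + 4) * (p + 3)) : b = 0 := by
  by_contra hb
  have hb1 : 1 ≤ b := Nat.one_le_iff_ne_zero.2 hb
  have hC : 0 < C := by
    rcases Nat.eq_zero_or_pos C with h | h
    · rw [h] at h5
      have : 0 < ζ * (5 * P) := by positivity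
      omega
    · exact h
  have e : (N * 5) * (2 * C) = (3 * ((p + 2) * (p + 1)) * (5 + b * p)) * (2 * C) := by
    calc (N * 5) * (2 * C) = 5 * (2 * (N * C)) := by ring
      _ = 3 * ((p + 2) * (p + 1)) * (ζ * (5 * P)) := by rw [h3]; ring
      _ = _ := by rw [← h5]; ring
  have e2 : N * 5 = 3 * ((p + 2) * (p + 1)) * (5 + b * p) :=
    Nat.eq_of_mul_eq_mul_right (by omega) e
  have h6 : 5 + p ≤ 5 + b * p := by nlinarith
  have h7 : 3 * ((p + 2) * (p + 1)) * (5 + p) ≤ I * 5 := by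
    calc 3 * ((p + 2) * (p + 1)) * (5 + p) ≤ 3 * ((p + 2) * (p + 1)) * (5 + b * p) :=
          Nat.mul_le_mul_left _ h6
      _ = N * 5 := e2.symm
      _ ≤ I * 5 := Nat.mul_le_mul_right _ hN
  have h8 : (p + 5) * (9 * ((p + 2) * (p + 1))) ≤ (p + 5) * (5 * ((p + 4) * (p + 3))) := by
    calc (p + 5) * (9 * ((p + 2) * (p + 1))) = 3 * (3 * ((p + 2) * (p + 1)) * (5 + p)) := by ring
      _ ≤ 3 * (I * 5) := Nat.mul_le_mul_left _ h7
      _ = 5 * (I * 3) := by ring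
      _ = _ := by rw [hI]; ring
  have h9 := Nat.le_of_mul_le_mul_left h8 (by omega)
  nlinarith

theorem num2 (p b : ℕ) (hp : 600 < p) (h : 1 + b * p ∣ 2 * (p + 1)) :
    1 + b * p = 1 ∨ 1 + b * p = p + 1 := by
  have hle := Nat.le_of_dvd (by omega) h
  have hb : b < 3 := by
    by_contra hb
    have : 3 * p ≤ b * p := Nat.mul_le_mul_right _ (by omega)
    omega
  interval_cases b
  · left; omega
  · right; omega
  · exfalso
    have h1 : 1 + 2 * p ∣ 2 * (p + 1) - (1 + 2 * p) := Nat.dvd_sub h (dvd_refl _)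
    have h2 : 2 * (p + 1) - (1 + 2 * p) = 1 := by omega
    rw [h2] at h1
    have := Nat.le_of_dvd one_pos h1
    omega

end K5B

open K5B

theorem rowK5B (ho : RowORB) (_hg : RowGEN) (h1 : RowUP1) (hs : RowSM) : RowK5B := by
  intro G _ _ p ζ c x ψ cfg hp kt
  obtain ⟨-, hfix, -⟩ := ho G p x cfg.pr cfg.xc.xp
  obtain ⟨hu1, hu2, hu3, -⟩ := h1 G p 5 ζ c x ψ cfg
  obtain ⟨hix, -, -, -⟩ := hs G p 5 ζ c cfg.pr (by omega) (by omega) cfg.ch cfg.big cfg.dich
  have : Fact (Nat.Prime 5) := ⟨by norm_num⟩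
  have : Fact (Nat.Prime 3) := ⟨by norm_num⟩
  have ow : orderOf ww = 5 := orderOf_eq_prime ww5 ww1
  have ot : orderOf t3 = 3 := orderOf_eq_prime t33 t31
  have oa : orderOf (tt 5 2) = 3 := orderOf_eq_prime a3 a1
  have ov : orderOf (tt 5 2 * tt 5 3) = 2 := orderOf_eq_prime v2 v1
  have hζ := cfg.ch.pos
  have hP : 0 < p ! := Nat.factorial_pos p
  -- the class of the three-cycle under the centraliser of the five-cycle
  obtain ⟨b, hb⟩ := hfix (orb (cen (ψ ww)) (ψ (tt 5 2)))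
    (orb_conj (mem_cen'.2 (cfg.com ww)) _)
  have hfx : {v ∈ orb (cen (ψ ww)) (ψ (tt 5 2)) | Commute x v} =
      Set.range (fun i : Fin 5 => ψ (ww ^ (i : ℕ) * tt 5 2 * (ww ^ (i : ℕ))⁻¹)) := by
    ext v
    constructor
    · rintro ⟨⟨g, hg, rfl⟩, hx⟩
      have hgw : Commute g (ψ ww) := mem_cen'.1 hg
      have e3 : (g * ψ (tt 5 2) * g⁻¹) ^ 3 = 1 := by
        rw [conj_pow, ← map_pow, a3, map_one, mul_one, mul_inv_cancel]
      have e2 : (g * ψ (tt 5 2) * g⁻¹ * ψ ww) ^ 2 = 1 := by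
        have : g * ψ (tt 5 2) * g⁻¹ * ψ ww = g * ψ (tt 5 2 * ww) * g⁻¹ := by
          rw [map_mul, mul_assoc _ g⁻¹, hgw.inv_left.eq]
          group
        rw [this, conj_pow, ← map_pow, aw2, map_one, mul_one, mul_inv_cancel]
      obtain ⟨s, hs'⟩ := hu1 _ ww hx e3 e2
      rw [← hs'] at e3 e2
      have s3 : s ^ 3 = 1 := cfg.inj (by rw [map_pow, e3, map_one])
      have s2 : (s * ww) ^ 2 = 1 := cfg.inj (by rw [map_pow, map_mul, e2, map_one])
      obtain ⟨i, hi⟩ := sol5 s s3 s2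
      exact ⟨i, by rw [← hs', hi]⟩
    · rintro ⟨i, rfl⟩
      refine ⟨⟨ψ ww ^ (i : ℕ), mem_cen'.2 ((Commute.refl _).pow_left _), ?_⟩, cfg.com _⟩
      simp only [map_mul, map_inv, map_pow]
  have hf5 : {v ∈ orb (cen (ψ ww)) (ψ (tt 5 2)) | Commute x v}.ncard = 5 := by
    rw [hfx]
    exact (Set.ncard_range_of_injective (cfg.inj.comp inj5)).trans (by simp)
  rw [hf5, orb_ncard] at hb
  have c5 := rel_card (cen (ψ (tt 5 2))) (cen (ψ ww))
  rw [BB5_w, hb, cfg.ch.card] at c5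
  have c3 := rel_card (cen (ψ (tt 5 2))) (cen (ψ t3))
  rw [BB5_t, cfg.ch.card] at c3
  have hN : (cen (ψ (tt 5 2))).relIndex (cen (ψ t3)) ≤ ix (ψ (tt 5 2)) := by
    unfold ix
    rw [← relIndex_top_right]
    refine relIndex_le_of_le_right le_top ?_
    rw [relIndex_top_right]
    exact index_ne_zero_of_finite
  have f2 : (p + 2)! = (p + 2) * (p + 1) * p ! := by
    rw [Nat.factorial_succ, Nat.factorial_succ]; ring
  have f5 : (p + 5)! = (p + 5) * (p + 4) * (p + 3) * (p + 2)! := by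
    rw [Nat.factorial_succ (p + 4), Nat.factorial_succ (p + 3), Nat.factorial_succ (p + 2)]; ring
  have hI : ix (ψ (tt 5 2)) * 3 = (p + 5) * (p + 4) * (p + 3) := by
    apply Nat.eq_of_mul_eq_mul_right (Nat.factorial_pos (p + 2))
    rw [← f5, ← kt.one, hix (ψ (tt 5 2)), mul_assoc, ← kt.three _ oa]
    ring
  have hb0 : b = 0 := by
    refine num1 p b _ _ (Nat.card (BB ψ 5)) ζ (p !) hp hζ hP ?_ ?_ hN hI
    · rw [c5, ← kt.five _ ow]; ring
    · rw [c3, ← f2, ← kt.three _ ot]; ring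
  have hC : 2 * Nat.card (BB ψ 5) = ζ * p ! := by
    rw [hb0] at c5
    have h5 := kt.five _ ow
    apply Nat.eq_of_mul_eq_mul_left (show 0 < 5 by norm_num)
    calc 5 * (2 * Nat.card (BB ψ 5)) = 2 * ((5 + 0 * p) * Nat.card (BB ψ 5)) := by ring
      _ = ζ * (2 * c (ψ ww)) := by rw [c5]; ring
      _ = 5 * (ζ * p !) := by rw [h5]; ring
  refine ⟨hC, ?_⟩
  -- the class of the last three-cycle
  have hxB : x ∈ BB ψ 4 := (memBB4 ψ x).2 ⟨cfg.com _, cfg.com _⟩
  obtain ⟨b', hb'⟩ := hfix (orb (BB ψ 4) (ψ (tt 5 4))) (orb_conj hxB _)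
  have hfx' : {v ∈ orb (BB ψ 4) (ψ (tt 5 4)) | Commute x v} = {ψ (tt 5 4)} := by
    ext v
    constructor
    · rintro ⟨hv, hx⟩
      obtain ⟨i, hi1, hi2, rfl⟩ := hu2 4 le_rfl (by omega) v hv hx
      have : i = 4 := by omega
      rw [this]
      rfl
    · rintro rfl
      exact ⟨⟨1, one_mem _, by group⟩, cfg.com _⟩
  rw [hfx', Set.ncard_singleton, ← hu3 4] at hb'
  have hb'' : (BB ψ 5).relIndex (BB ψ 4) = 1 + b' * p := hb'
  rw [hb'']
  apply num2 p b' hp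
  have hle : BB ψ 5 ≤ BB ψ 4 := fun u hu =>
    (memBB4 ψ u).2 ⟨((memBB5 ψ u).1 hu).1, ((memBB5 ψ u).1 hu).2.1⟩
  have c4 := rel_card (BB ψ 5) (BB ψ 4)
  rw [inf_eq_left.2 hle, hb''] at c4
  obtain ⟨e, he⟩ := four_dvd ψ cfg.inj
  rw [cfg.ch.card, ← c4] at he
  refine ⟨e, ?_⟩
  apply Nat.eq_of_mul_eq_mul_right (show 0 < 4 * (ζ * p !) by positivity)
  calc 2 * (p + 1) * (4 * (ζ * p !)) = ζ * (8 * (p + 1)!) := by rw [Nat.factorial_succ]; ring
    _ = 2 * (ζ * c (ψ (tt 5 2 * tt 5 3))) := by rw [← kt.two _ ov]; ring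
    _ = (1 + b' * p) * e * (4 * (2 * Nat.card (BB ψ 5))) := by rw [he]; ring
    _ = _ := by rw [hC]

theorem rowK5D (hf : RowFUS) : RowK5D := by
  intro G _ _ p ζ c x ψ cfg _ hcard hcom
  obtain ⟨hr, -⟩ := hf G p 5 ζ c x ψ cfg
  have memCV : ∀ u, u ∈ CV ψ ↔
      Commute u (ψ (tt 5 2 * tt 5 3)) ∧ Commute u (ψ (tt 5 3 * tt 5 2)) := by
    intro u
    unfold CV
    rw [mem_centralizer_iff]
    constructor
    · intro h
      exact ⟨(h _ (Or.inl rfl)).symm, (h _ (Or.inr rfl)).symm⟩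
    · rintro ⟨h1, h2⟩ _ (rfl | rfl)
      · exact h1.symm.eq
      · exact h2.symm.eq
  have hinf : cen (ψ (tt 5 2)) ⊓ CV ψ = BB ψ 4 := by
    ext u
    rw [mem_inf, mem_cen', memCV, memBB4]
    simp only [map_mul]
    constructor
    · rintro ⟨ha, hab, -⟩
      refine ⟨ha, ?_⟩
      have := ha.inv_right.mul_right hab
      rwa [inv_mul_cancel_left] at this
    · rintro ⟨ha, hb⟩
      exact ⟨ha, ha.mul_right hb, hb.mul_right ha⟩
  have hsub : orb (CV ψ) (ψ (tt 5 2)) ⊆ {ψ (tt 5 2), ψ (tt 5 3 * tt 5 3),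
      ψ (tt 5 2 * tt 5 2 * tt 5 3), ψ (tt 5 3 * tt 5 2 * tt 5 2)} := by
    rintro _ ⟨u, hu, rfl⟩
    obtain ⟨s, hs⟩ := hr u (tt 5 2) (hcom u hu)
    obtain ⟨h1, h2⟩ := (memCV u).1 hu
    have s3 : s ^ 3 = 1 := cfg.inj (by
      rw [map_pow, hs, conj_pow, ← map_pow, a3, map_one, mul_one, mul_inv_cancel])
    have s2 : s * (tt 5 3 * tt 5 2) = (tt 5 2 * tt 5 3) * s := cfg.inj (by
      rw [map_mul, map_mul ψ (tt 5 2 * tt 5 3), hs, mul_assoc _ u⁻¹, h2.inv_left.eq,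
        ← mul_assoc (ψ (tt 5 2 * tt 5 3)), ← mul_assoc (ψ (tt 5 2 * tt 5 3)), ← h1.eq]
      simp only [map_mul]
      group)
    rw [← hs]
    rcases sol4 s s3 s2 with h | h | h | h <;> rw [h] <;> simp
  have h4 : (cen (ψ (tt 5 2))).relIndex (CV ψ) ≤ 4 := by
    rw [← orb_ncard]
    refine (Set.ncard_le_ncard hsub).trans ?_
    refine (Set.ncard_insert_le _ _).trans (Nat.succ_le_succ ?_)
    refine (Set.ncard_insert_le _ _).trans (Nat.succ_le_succ ?_)
    refine (Set.ncard_insert_le _ _).trans (Nat.succ_le_succ ?_)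
    rw [Set.ncard_singleton]
  have c1 := rel_card (cen (ψ (tt 5 2))) (CV ψ)
  rw [hinf] at c1
  have hle : BB ψ 5 ≤ BB ψ 4 := fun u hu =>
    (memBB4 ψ u).2 ⟨((memBB5 ψ u).1 hu).1, ((memBB5 ψ u).1 hu).2.1⟩
  have c4 := rel_card (BB ψ 5) (BB ψ 4)
  rw [inf_eq_left.2 hle] at c4
  have hpos : 0 < 4 * Nat.card (BB ψ 5) := by
    have : 0 < Nat.card (BB ψ 5) := Nat.card_pos
    omega
  refine Nat.le_of_mul_le_mul_right ?_ hpos
  calc (p + 1) * (4 * Nat.card (BB ψ 5)) = 4 * (p + 1) * Nat.card (BB ψ 5) := by ring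
    _ ≤ Nat.card (CV ψ) := hcard
    _ = (cen (ψ (tt 5 2))).relIndex (CV ψ) * Nat.card (BB ψ 4) := c1.symm
    _ ≤ 4 * Nat.card (BB ψ 4) := Nat.mul_le_mul_right _ h4
    _ = _ := by rw [← c4]; ring

end Pool.Agent.MP_62c071_al.H57
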