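import Pool.Agent.MP_62c071_al.H57.K5Ca
import Pool.Agent.MP_62c071_al.H57.GEN

/-! Row K5C: the centraliser of the four-group. -/

set_option autoImplicit false

namespace Pool.Agent.MP_62c071_al.H57

open Subgroup MulAction
open scoped Nat commutatorElement

namespace K5C

/-- conjugation of subsets -/
@[reducible] def act (G : Type) [Group G] : MulAction G (Set G) where
  smul g S := {a | g⁻¹ * a * g ∈ S}
  one_smul S := by
    ext a
    change 1⁻¹ * a * 1 ∈ S ↔ _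
    simp
  mul_smul g h S := by
    ext a
    change (g * h)⁻¹ * a * (g * h) ∈ S ↔ h⁻¹ * (g⁻¹ * a * g) * h ∈ S
    simp [mul_assoc]

attribute [local instance] act

/-- the four-group -/
def vv : Fin 4 → An 5 :=
  ![1, tt 5 2 * tt 5 3, tt 5 3 * tt 5 2, tt 5 2 * tt 5 3 * (tt 5 3 * tt 5 2)]

theorem vv_inj : ∀ i j, (vv j)⁻¹ * vv i * tt 5 2 = tt 5 2 * ((vv j)⁻¹ * vv i) → i = j := by
  decide +kernel

theorem vv_com : ∀ i j, vv i * vv j = vv j * vv i := by decide +kernel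

theorem facts : vv 1 ^ 2 = 1 ∧ vv 1 ≠ 1 ∧ vv 2 ^ 2 = 1 ∧ tt 5 2 ^ 3 = 1 ∧
    vv 1 * tt 5 2 = tt 5 2 * vv 2 ∧ vv 2 * tt 5 2 = tt 5 2 * (vv 1 * vv 2) ∧
    tt 5 0 = 1 ∧ tt 5 1 = 1 := by decide +kernel

theorem card5 : Nat.card (An 5) = 60 := by
  rw [nat_card_alternatingGroup]
  simp [Nat.factorial]

variable {G : Type} [Group G] {ψ : An 5 →* G}

theorem mem_act {g a : G} {S : Set G} : a ∈ g • S ↔ g⁻¹ * a * g ∈ S := Iff.rfl

theorem mem_cen {g u : G} : u ∈ cen g ↔ Commute g u :=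
  ⟨fun h => mem_centralizer_iff.1 h g rfl, fun h =>
    mem_centralizer_iff.2 fun y hy => (show y = g from hy) ▸ h⟩

theorem mem_CV {u : G} : u ∈ CV ψ ↔ Commute (ψ (vv 1)) u ∧ Commute (ψ (vv 2)) u := by
  rw [CV, mem_centralizer_iff]
  simp only [Set.mem_insert_iff, Set.mem_singleton_iff, forall_eq_or_imp, forall_eq]
  rfl

theorem BB_com {b : G} (hb : b ∈ BB ψ 5) (s : An 5) : Commute (ψ s) b := by
  have h : closure {u | ∃ i, i < 5 ∧ u = tt 5 i} ≤ (cen b).comap ψ := by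
    rw [closure_le]
    rintro _ ⟨i, hi, rfl⟩
    exact mem_cen.2 (Commute.symm (mem_centralizer_iff.1 hb _ ⟨i, hi, rfl⟩))
  rw [rowGEN.2.1 5] at h
  exact (mem_cen.1 (h (mem_top s))).symm

theorem stabL (s : An 5) : ψ s • Set.range ψ = Set.range ψ := by
  ext a
  have h : ψ s ∈ ψ.range := ⟨s, rfl⟩
  exact (mul_mem_cancel_right h).trans (mul_mem_cancel_left (inv_mem h))

theorem stabC {g : G} (hg : ∀ s, Commute (ψ s) g) : g • Set.range ψ = Set.range ψ := by
  ext a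
  rw [mem_act]
  constructor
  · rintro ⟨s, hs⟩
    refine ⟨s, ?_⟩
    have e : g * ψ s = a * g := by rw [hs, mul_assoc, mul_inv_cancel_left]
    exact mul_right_cancel ((hg s).eq.trans e)
  · rintro ⟨s, rfl⟩
    exact ⟨s, by rw [mul_assoc, (hg s).eq, inv_mul_cancel_left]⟩

theorem smul_range (m : G) :
    m • Set.range ψ = Set.range ((MulAut.conj m).toMonoidHom.comp ψ) := by
  ext a
  rw [mem_act]
  constructor
  · rintro ⟨s, hs⟩
    exact ⟨s, by simp [hs, mul_assoc]⟩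
  · rintro ⟨s, rfl⟩
    exact ⟨s, by simp [mul_assoc]⟩

variable [Finite G]

theorem card4 (hi : Function.Injective ψ) {B W : Subgroup G} (hB : ∀ b ∈ B, ∀ s, Commute (ψ s) b)
    (hV : ∀ i, ψ (vv i) ∈ W) (hBW : B ≤ W) : 4 * Nat.card B ≤ Nat.card W := by
  have : Nat.card (Fin 4 × B) ≤ Nat.card W := by
    refine Nat.card_le_card_of_injective
      (fun t => ⟨ψ (vv t.1) * t.2, mul_mem (hV _) (hBW t.2.2)⟩) ?_
    rintro ⟨i, b⟩ ⟨j, b'⟩ e
    have e1 : ψ (vv i) * b = ψ (vv j) * b' := congrArg Subtype.val e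
    have e2 : ψ ((vv j)⁻¹ * vv i) = b' * (b : G)⁻¹ := by
      rw [map_mul, map_inv, eq_mul_inv_iff_mul_eq, mul_assoc, e1, inv_mul_cancel_left]
    have e3 := hB _ (mul_mem b'.2 (inv_mem b.2)) (tt 5 2)
    rw [← e2] at e3
    have e4 : i = j := vv_inj i j (hi (by rw [map_mul, map_mul ψ (tt 5 2)]; exact e3.eq.symm))
    subst e4
    exact Prod.ext rfl (Subtype.ext (mul_left_cancel e1))
  simpa using this

variable {p ζ : ℕ} {c : G → ℕ} {x : G}

omit [Finite G] in
theorem comA (h : Cfg p 5 ζ c x ψ) {a : G} (ha : a ∈ centralizer (cen x : Set G)) (s : An 5) :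
    Commute (ψ s) a := mem_centralizer_iff.1 ha _ (mem_cen.2 (h.com s))

omit [Finite G] in
theorem hKL (h : Cfg p 5 ζ c x ψ) (g : G) (hg : Commute x g) : g • Set.range ψ = Set.range ψ := by
  obtain ⟨s, a, ha, rfl⟩ := h.dec g hg
  rw [mul_smul, stabC (comA h ha), stabL]

theorem hfix (ho : RowORB) (h : Cfg p 5 ζ c x ψ) (hp : 600 < p) (m : G)
    (e : x • m • Set.range ψ = m • Set.range ψ) : m • Set.range ψ = Set.range ψ := by
  set f := (MulAut.conj m).toMonoidHom.comp ψ with hf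
  have hfi : Function.Injective f := (MulAut.conj m).injective.comp h.inj
  have hc : (Set.range f).ncard = 60 := by
    rw [← Nat.card_coe_set_eq, Nat.card_range_of_injective hfi, card5]
  have hc' : (Set.range ψ).ncard = 60 := by
    rw [← Nat.card_coe_set_eq, Nat.card_range_of_injective h.inj, card5]
  rw [smul_range] at e ⊢
  have hcom : ∀ s, Commute x (f s) := by
    intro s
    by_contra hn
    have h1 := (ho G p x h.pr h.xc.xp).2.2 _ hn
    have h2 : {v | ∃ i : ℕ, v = x ^ i * f s * (x ^ i)⁻¹} ⊆ Set.range f := by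
      rintro _ ⟨i, rfl⟩
      have h3 : x ^ i • Set.range f = Set.range f :=
        pow_mem (show x ∈ stabilizer G (Set.range f) from e) i
      rw [← h3, mem_act]
      exact ⟨s, by simp [mul_assoc]⟩
    have := Set.ncard_le_ncard h2 (Set.toFinite _)
    omega
  have hle : commutator (An 5) ≤ ψ.range.comap f := by
    rw [commutator_def, commutator_le]
    intro s _ s' _
    obtain ⟨r, a, ha, e1⟩ := h.dec _ (hcom s)
    obtain ⟨r', a', ha', e2⟩ := h.dec _ (hcom s')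
    refine ⟨⁅r, r'⁆, ?_⟩
    have c1 : Commute (f s') a := mem_centralizer_iff.1 ha _ (mem_cen.2 (hcom s'))
    have c2 : Commute (ψ r) a' := comA h ha' r
    rw [map_commutatorElement, map_commutatorElement, commutatorElement_def,
      commutatorElement_def, e1, mul_assoc (ψ r) a, ← c1.eq, e2]
    simp only [mul_inv_rev, mul_assoc, mul_inv_cancel_left]
    rw [← mul_assoc a', ← c2.inv_left.eq, mul_assoc, mul_inv_cancel_left]
  rw [commutator_alternatingGroup_eq_top (by simp)] at hle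
  refine Set.eq_of_subset_of_ncard_le ?_ (hc'.trans hc.symm).le (Set.toFinite _)
  rintro _ ⟨s, rfl⟩
  exact hle (mem_top s)

theorem cardM (h : Cfg p 5 ζ c x ψ) (hT : K5T p c ψ) :
    Nat.card (cen (ψ (vv 1))) = 4 * ζ * (p + 1)! := by
  have : Fact (Nat.Prime 2) := ⟨Nat.prime_two⟩
  have h1 := hT.two (vv 1) (orderOf_eq_prime facts.1 facts.2.1)
  rw [h.ch.card, show c (ψ (vv 1)) = 4 * (p + 1)! by omega]
  ring

theorem idxM (h : Cfg p 5 ζ c x ψ) (hT : K5T p c ψ) {r : ℕ} (hr : r.Prime)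
    (hd : r ∣ (cen (ψ (vv 1))).index) : ∃ i, 2 ≤ i ∧ i ≤ 5 ∧ r ∣ p + i := by
  have h1 := (cen (ψ (vv 1))).index_mul_card
  have h2 := h.ch.card 1
  have h3 : cen (1 : G) = ⊤ := eq_top_iff.2 fun g _ => mem_cen.2 (Commute.one_left g)
  rw [h3, card_top] at h2
  rw [cardM h hT, h2] at h1
  have h4 := hT.one
  have h5 : (p + 5)! = (p + 5) * ((p + 4) * ((p + 3) * ((p + 2) * (p + 1)!))) := rfl
  have h6 : 8 * (cen (ψ (vv 1))).index = (p + 5) * ((p + 4) * ((p + 3) * (p + 2))) := by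
    apply Nat.eq_of_mul_eq_mul_right (Nat.mul_pos h.ch.pos (Nat.factorial_pos (p + 1)))
    calc _ = 2 * ((cen (ψ (vv 1))).index * (4 * ζ * (p + 1)!)) := by ring
      _ = ζ * (2 * c 1) := by rw [h1]; ring
      _ = _ := by rw [h4, h5]; ring
  have h7 := h6 ▸ hd.mul_left 8
  rw [hr.dvd_mul, hr.dvd_mul, hr.dvd_mul] at h7
  rcases h7 with h7 | h7 | h7 | h7 <;> exact ⟨_, by omega, by omega, h7⟩

theorem card_sub (H K : Subgroup G) : Nat.card (H.subgroupOf K) = Nat.card (H ⊓ K : Subgroup G) := by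
  rw [← inf_subgroupOf_right]
  exact Nat.card_congr (subgroupOfEquivOfLe inf_le_right).toEquiv

theorem cardO (ho : RowORB) (h : Cfg p 5 ζ c x ψ) (hp : 600 < p) (hT : K5T p c ψ)
    (hB : 2 * Nat.card (BB ψ 5) = ζ * p !) :
    (orbit (cen (ψ (vv 1))) (Set.range ψ)).ncard = p + 1 := by
  set M := cen (ψ (vv 1)) with hM
  obtain ⟨P, hxP, -, -⟩ := h.xc.syl
  obtain ⟨a, ha⟩ := P.2 ⟨x, hxP⟩
  have hm := modp h.pr (M := M) (L := Set.range ψ) (mem_cen.2 (h.com _).symm)
    ⟨a, congrArg Subtype.val ha⟩ (hKL h x (Commute.refl x)) (fun X hX e => by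
      obtain ⟨m, -, rfl⟩ := mem_orb.1 hX
      exact hfix ho h hp m e)
  have hc : Nat.card M = 8 * (p + 1) * Nat.card (BB ψ 5) := by
    rw [cardM h hT, Nat.factorial_succ]
    calc _ = 4 * (p + 1) * (ζ * p !) := by ring
      _ = _ := by rw [← hB]; ring
  have hBM : BB ψ 5 ≤ M := fun b hb => mem_cen.2 (BB_com hb _)
  have hBS : BB ψ 5 ≤ stabilizer G (Set.range ψ) ⊓ M := fun b hb => ⟨stabC (BB_com hb), hBM hb⟩
  have h4 := card4 h.inj (fun b hb => BB_com hb) (W := stabilizer G (Set.range ψ) ⊓ M)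
    (fun i => ⟨stabL _, mem_cen.2 (Commute.map (vv_com 1 i) ψ)⟩) hBS
  obtain ⟨r, hr⟩ := card_dvd_of_le hBS
  have h1 := ((stabilizer G (Set.range ψ)).subgroupOf M).index_mul_card
  have hpos : 0 < Nat.card (BB ψ 5) := Nat.card_pos
  rw [card_sub, hc, hr] at h1
  rw [hr] at h4
  have h2 : (orbit M (Set.range ψ)).ncard * r = 8 * (p + 1) := by
    apply Nat.eq_of_mul_eq_mul_right hpos
    rw [← h1, ← rel_orb, relIndex]
    ring
  have h5 : 4 ≤ r := Nat.le_of_mul_le_mul_left (by rwa [mul_comm] at h4) hpos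
  have hne : (orbit M (Set.range ψ)).ncard ≠ 1 := by
    intro h1
    have hMS : M ≤ stabilizer G (Set.range ψ) := relIndex_eq_one.1 (by rw [rel_orb, h1])
    have hb : ∀ s, (cen (ψ s)).relIndex M ≤ 60 := by
      intro s
      rw [← (ho G p x h.pr h.xc.xp).1, ← card5, ← Nat.card_range_of_injective h.inj,
        Nat.card_coe_set_eq]
      refine Set.ncard_le_ncard ?_ (Set.toFinite _)
      rintro _ ⟨b, hb, rfl⟩
      rw [← (show b • Set.range ψ = Set.range ψ from hMS hb), mem_act]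
      exact ⟨s, by simp [mul_assoc]⟩
    have hle : (cen (ψ (tt 5 2)) ⊓ cen (ψ (tt 5 4))) ⊓ M ≤ BB ψ 5 := by
      rintro g ⟨⟨g2, g4⟩, g1⟩
      refine mem_centralizer_iff.2 ?_
      rintro _ ⟨i, hi, rfl⟩
      have g2' := mem_cen.1 g2
      have g3 : Commute (ψ (tt 5 3)) g := by
        have := g2'.inv_left.mul_left (mem_cen.1 g1)
        rwa [show vv 1 = tt 5 2 * tt 5 3 from rfl, map_mul, inv_mul_cancel_left] at this
      interval_cases i
      · simp [facts.2.2.2.2.2.2.1]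
      · simp [facts.2.2.2.2.2.2.2]
      · exact g2'
      · exact g3
      · exact mem_cen.1 g4
    have h6 := Nat.le_of_dvd (Nat.pos_of_ne_zero index_ne_zero_of_finite)
      (relIndex_dvd_of_le_left M hle)
    have h7 : (cen (ψ (tt 5 2)) ⊓ cen (ψ (tt 5 4))).relIndex M ≤ 60 * 60 :=
      relIndex_inf_le.trans (Nat.mul_le_mul (hb _) (hb _))
    rw [← inf_relIndex_right] at h7
    have h8 := ((BB ψ 5).subgroupOf M).index_mul_card
    rw [card_sub, inf_of_le_left hBM, hc] at h8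
    have h9 : (BB ψ 5).relIndex M = 8 * (p + 1) := Nat.eq_of_mul_eq_mul_right hpos h8
    have := h6.trans h7
    omega
  generalize (orbit M (Set.range ψ)).ncard = n at *
  have h6 : n ≤ 2 * (p + 1) := by nlinarith
  have h7 : n % p = 1 := by rw [hm, Nat.mod_eq_of_lt (by omega)]
  have h8 := Nat.div_add_mod n p
  rw [h7] at h8
  generalize n / p = b at h8
  have hb : b ≤ 2 := by
    by_contra hn
    have : p * 3 ≤ p * b := Nat.mul_le_mul_left _ (by omega)
    omega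
  interval_cases b
  · omega
  · omega
  · subst h8
    have : r ≤ 4 := by nlinarith
    have : r = 4 := by omega
    subst this
    omega

end K5C

open K5C in
theorem rowK5C (ho : RowORB) (hj : RowJOR) (_hs : RowSM) : RowK5C := by
  intro G _ _ p ζ q c x ψ h hp hT hB hq h1 h2 hQ
  let := act G
  have : Fact p.Prime := ⟨h.pr⟩
  have : Fact q.Prime := ⟨hq⟩
  set M := cen (ψ (vv 1)) with hM
  have H : Hy p M (Set.range ψ) x :=
    ⟨h.pr, mem_cen.2 (h.com _).symm, h.xc.xp, fun z hz X => by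
      ext a
      rw [mem_act, mul_assoc, mem_center_iff.1 hz a, inv_mul_cancel_left], hKL h, fun X hX e => by
      obtain ⟨m, -, rfl⟩ := mem_orb.1 hX
      exact hfix ho h hp m e, cardO ho h hp hT hB⟩
  obtain ⟨P, hxP, hPc, hP⟩ := h.xc.syl
  have hPK : ∀ g, Commute x g → g ∈ centralizer (P : Set G) := fun g hg => hPc ▸ mem_cen.2 hg
  have hPM : (P : Subgroup G) ≤ M := fun g hg =>
    mem_cen.2 (Commute.symm (mem_centralizer_iff.1 (hPK _ (h.com _)) g hg))
  have hqN : q ∣ (Nk M (Set.range ψ)).index := by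
    by_contra hn
    obtain ⟨Q, hQ'⟩ := frat M (Nk M (Set.range ψ)) P hPM (fun g hg hgP => by
      obtain ⟨i, z, hz, e⟩ := hP g hgP
      exact H.cent hz e (mem_Nk.1 hg)) hn (fun hd => by
      obtain ⟨i, hi, hi', b, hb⟩ := idxM h hT hq hd
      rcases (by omega : b ≤ 1 ∨ 2 ≤ b) with hb' | hb'
      · have := Nat.mul_le_mul_left q hb'
        omega
      · have := Nat.mul_le_mul_left q hb'
        omega) (fun hd => by
      obtain ⟨i, hi, hi', hb⟩ := idxM h hT h.pr hd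
      have := Nat.le_of_dvd (by omega) ((Nat.dvd_add_right (dvd_refl p)).1 hb)
      omega)
    exact hQ' (hQ Q)
  have hodd : q + 3 ≤ p + 1 := by
    have a1 := h.pr.eq_two_or_odd
    have a2 := hq.eq_two_or_odd
    omega
  have hN := H.cardN hj hq (by omega) hodd hqN
  rw [cardM h hT] at hN
  have hN' : Nat.card (Nk M (Set.range ψ)) ≤ 2 * (4 * ζ) :=
    Nat.le_of_mul_le_mul_left (hN.trans_eq (by ring)) (Nat.factorial_pos (p + 1))
  have hK : p * (4 * ζ) ≤ Nat.card (cen x ⊓ M : Subgroup G) := by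
    have := card4 h.inj (fun b hb => comA h hb) (W := cen x ⊓ M)
      (fun i => ⟨mem_cen.2 (h.com _), mem_cen.2 (Commute.map (vv_com 1 i) ψ)⟩)
      (fun b hb => ⟨mem_cen.2 (mem_centralizer_iff.1 hb x (mem_cen.2 (Commute.refl x))),
        mem_cen.2 (comA h hb _)⟩)
    rw [h.cardA] at this
    exact le_trans (le_of_eq (by ring)) this
  have hcom := H.comm (by omega) (by have := h.ch.pos; omega) hK hN' (fun g hg hgp => by
    refine hP g ?_
    have hz : IsPGroup p (zpowers g) := by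
      rintro ⟨_, i, rfl⟩
      refine ⟨1, Subtype.ext ?_⟩
      simp only [SubmonoidClass.coe_pow, OneMemClass.coe_one, pow_one]
      rw [← zpow_natCast, ← zpow_mul, mul_comm, zpow_mul, zpow_natCast, hgp, one_zpow]
    have hg' : g ∈ zpowers g ⊓ normalizer (P : Set G) :=
      ⟨mem_zpowers g, centralizer_le_normalizer _ (hPK g hg)⟩
    rw [hz.inf_normalizer_sylow P] at hg'
    exact hg'.2)
  have hnd : ∀ e, 0 < e → e ≤ 3 → ¬ p ∣ e := fun e h0 h3 hd => by
    have := Nat.le_of_dvd h0 hd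
    omega
  have hv2 : ψ (vv 2) ∈ M := mem_cen.2 (Commute.map (vv_com 1 2) ψ)
  have hv2N : (⟨_, hv2⟩ : M) ∈ Nk M (Set.range ψ) :=
    mem_Nk.2 (H.triv (h.com _) (fun X hX => orb_smul hv2 hX) (e := 2)
      (by rw [← map_pow, facts.2.2.1, map_one]) (hnd 2 (by omega) (by omega)))
  have hCM : CV ψ ≤ M := fun u hu => mem_cen.2 (mem_CV.1 hu).1
  have htr : orbit M (Set.range ψ) ⊆ orbit (CV ψ) (Set.range ψ) := H.trans fun m hm => by
    refine mem_CV.2 ⟨mem_cen.1 (mul_mem (mul_mem hm H.hx) (inv_mem hm)), ?_⟩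
    have := hcom _ (Normal.conj_mem' inferInstance _ hv2N ⟨m, hm⟩)
    have e : x * (m⁻¹ * ψ (vv 2) * m) = m⁻¹ * ψ (vv 2) * m * x := this.eq
    change ψ (vv 2) * (m * x * m⁻¹) = m * x * m⁻¹ * ψ (vv 2)
    calc _ = m * (m⁻¹ * ψ (vv 2) * m * x) * m⁻¹ := by group
      _ = _ := by rw [← e]; group
  have hconj : ∀ u ∈ CV ψ, ψ (tt 5 2) * u * (ψ (tt 5 2))⁻¹ ∈ CV ψ := by
    intro u hu
    obtain ⟨u1, u2⟩ := mem_CV.1 hu
    have key : ∀ s s' : An 5, s * tt 5 2 = tt 5 2 * s' → Commute (ψ s') u →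
        Commute (ψ s) (ψ (tt 5 2) * u * (ψ (tt 5 2))⁻¹) := by
      intro s s' e hc
      have e' : ψ s = ψ (tt 5 2) * ψ s' * (ψ (tt 5 2))⁻¹ := by
        rw [← map_mul, ← e, map_mul, mul_inv_cancel_right]
      rw [e']
      exact hc.conj _
    exact mem_CV.2 ⟨key _ _ facts.2.2.2.2.1 u2,
      key _ _ facts.2.2.2.2.2.1 (by rw [map_mul]; exact u1.mul_left u2)⟩
  constructor
  · have h4 := card4 h.inj (fun b hb => BB_com hb) (W := stabilizer G (Set.range ψ) ⊓ CV ψ)
      (fun i => ⟨stabL _, mem_CV.2 ⟨Commute.map (vv_com 1 i) ψ, Commute.map (vv_com 2 i) ψ⟩⟩)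
      (fun b hb => ⟨stabC (BB_com hb), mem_CV.2 ⟨BB_com hb _, BB_com hb _⟩⟩)
    have h5 := ((stabilizer G (Set.range ψ)).subgroupOf (CV ψ)).index_mul_card
    have h6 := Set.ncard_le_ncard htr (orb_fin _ _)
    rw [H.hc, ← rel_orb] at h6
    rw [← h5, card_sub]
    exact le_trans (le_of_eq (by ring)) (Nat.mul_le_mul h6 h4)
  · intro u hu
    have ht := H.triv (h.com (tt 5 2)) (fun X hX => by
      obtain ⟨d, hd, rfl⟩ := mem_orb.1 (htr hX)
      refine mem_orb.2 ⟨_, hCM (hconj d hd), ?_⟩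
      rw [mul_smul, mul_smul, inv_smul_eq_iff.2 (stabL _).symm]) (e := 3)
      (by rw [← map_pow, facts.2.2.2.1, map_one]) (hnd 3 (by omega) (by omega))
    have hn := hCM (mul_mem hu (hconj _ (inv_mem hu)))
    have h3 := hcom ⟨_, hn⟩ (mem_Nk.2 fun X hX => by
      change (u * (ψ (tt 5 2) * u⁻¹ * (ψ (tt 5 2))⁻¹)) • X = X
      rw [mul_smul, mul_smul, mul_smul, inv_smul_eq_iff.2 (ht X hX).symm,
        ht _ (orb_smul (inv_mem (hCM hu)) hX), smul_inv_smul])
    have h4 := h3.mul_right (h.com (tt 5 2))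
    simpa [mul_assoc] using h4

end Pool.Agent.MP_62c071_al.H57
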