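import Pool.Agent.MP_62c071_al.H57.Spec

/-! Row K5E: the end of the bottom step. -/

set_option autoImplicit false

namespace Pool.Agent.MP_62c071_al.H57

open Subgroup
open scoped Nat

namespace K5E

variable {G : Type} [Group G]

/-- conjugation -/
def cj (g u : G) : G := g * u * g⁻¹

theorem cj_cj (g h u : G) : cj g (cj h u) = cj (g * h) u := by simp only [cj]; group

theorem cj_one (u : G) : cj 1 u = u := by simp [cj]

theorem cj_fix {g u : G} (h : Commute g u) : cj g u = u := by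
  rw [cj, h.eq, mul_inv_cancel_right]

theorem cj_comm {g h : G} (e : Commute g h) (u : G) : cj g (cj h u) = cj h (cj g u) := by
  rw [cj_cj, cj_cj, e.eq]

theorem cj_inj (g : G) {u v : G} (h : cj g u = cj g v) : u = v := by simpa [cj] using h

theorem cj_pow (g u : G) (n : ℕ) : cj g u ^ n = cj g (u ^ n) := conj_pow

theorem cj_eq_one {g u : G} : cj g u = 1 ↔ u = 1 := by simp [cj]

theorem cj_mul (g u v : G) : cj g u * cj g v = cj g (u * v) := by simp only [cj]; group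

theorem sq_cj (g u v : G) : (cj g u * cj g v) ^ 2 = 1 ↔ (u * v) ^ 2 = 1 := by
  rw [cj_mul, cj_pow, cj_eq_one]

theorem sq_symm {u v : G} (h : (u * v) ^ 2 = 1) : (v * u) ^ 2 = 1 := by
  have : v * u = cj v (u * v) := by simp only [cj]; group
  rw [this, cj_pow, h, cj_eq_one]

theorem mem_orb {B : Subgroup G} {u v : G} : v ∈ orb B u ↔ ∃ b ∈ B, v = cj b u := Iff.rfl

theorem cj_orb {B : Subgroup G} {u v b : G} (hb : b ∈ B) (hv : v ∈ orb B u) :
    cj b v ∈ orb B u := by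
  obtain ⟨b', hb', rfl⟩ := hv
  exact ⟨b * b', B.mul_mem hb hb', cj_cj b b' u⟩

theorem self_orb (B : Subgroup G) (u : G) : u ∈ orb B u := ⟨1, B.one_mem, (cj_one u).symm⟩

theorem mem_BB {k j : ℕ} {ψ : An k →* G} {g : G} :
    g ∈ BB ψ j ↔ ∀ i, i < j → Commute g (ψ (tt k i)) := by
  rw [BB, mem_centralizer_iff]
  exact ⟨fun h i hi => (h _ ⟨i, hi, rfl⟩).symm, by rintro h _ ⟨i, hi, rfl⟩; exact (h i hi).symm⟩

theorem BB_le {k j : ℕ} (ψ : An k →* G) : BB ψ (j + 1) ≤ BB ψ j := fun _ h =>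
  mem_BB.2 fun i hi => mem_BB.1 h i (Nat.lt_succ_of_lt hi)

theorem BB3 (ψ : An 5 →* G) : BB ψ 3 = cen (ψ (tt 5 2)) := by
  ext g
  rw [mem_BB, cen, mem_centralizer_singleton_iff]
  refine ⟨fun h => h 2 (by omega), fun h i hi => ?_⟩
  by_cases h2 : i = 2
  · subst h2; exact h
  · rw [tt, dif_neg (by omega), map_one]; exact Commute.one_right g

theorem card_rel [Finite G] {H K : Subgroup G} (h : H ≤ K) :
    H.relIndex K * Nat.card H = Nat.card K := by
  rw [← Nat.card_congr (subgroupOfEquivOfLe h).toEquiv]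
  exact index_mul_card _

theorem small : ∀ j : Fin 3, ∀ e ∈ [tt 5 3, tt 5 4],
    (tt 5 2 ^ (j : ℕ) * e * (tt 5 2 ^ (j : ℕ))⁻¹ = tt 5 3 ∨
      (tt 5 2 ^ (j : ℕ) * e * (tt 5 2 ^ (j : ℕ))⁻¹ * tt 5 3) ^ 2 = 1) → j = 0 := by
  decide +kernel

theorem six : ∀ i : Fin 5, i ≠ 0 → i ≠ 1 → i ≠ 2 →
    ∀ u : An 5, (u = cy3 0 1 i ∨ u = cy3 1 2 i ∨ u = cy3 2 0 i) →
      u = tt 5 4 ∨ u ∈ [tt 5 3, cy3 1 2 3, cy3 1 2 4, cy3 2 0 3, cy3 2 0 4] := by
  intro i h0 h1 h2 u hu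
  have : i = 3 ∨ i = 4 := by omega
  rcases this with rfl | rfl <;> rcases hu with rfl | rfl | rfl <;> simp [tt]

end K5E

open K5E in
theorem rowK5E (ho : RowORB) (hx : RowX3) (h1 : RowUP1) (he : RowEND2) : RowK5E := by
  intro G _ _ p ζ c x ψ cfg hp K hB5 hrel
  obtain ⟨u1, u2, u3, -⟩ := h1 G p 5 ζ c x ψ cfg
  obtain ⟨-, o2, o3⟩ := ho G p x cfg.pr cfg.xc.xp
  obtain ⟨x1, -, x3, -⟩ := hx
  obtain ⟨ot, xt⟩ := x3 5 2 le_rfl (by omega)
  obtain ⟨oa, xa⟩ := x3 5 3 (by omega) (by omega)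
  obtain ⟨os, xs⟩ := x3 5 4 (by omega) (by omega)
  set t := ψ (tt 5 2) with ht
  set a := ψ (tt 5 3) with ha
  set s := ψ (tt 5 4) with hs
  have t3 : t ^ 3 = 1 := by rw [ht, ← map_pow, ← ot, pow_orderOf_eq_one, map_one]
  have a3 : a ^ 3 = 1 := by
    have := pow_orderOf_eq_one (tt 5 3)
    rw [oa] at this
    rw [ha, ← map_pow, this, map_one]
  have hat : (a * t) ^ 2 = 1 ∧ a * t ≠ 1 := by
    obtain ⟨-, h, h'⟩ := xa 2 le_rfl (by omega) (by omega)
    rw [ha, ht, ← map_mul, ← map_pow, h, map_one]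
    exact ⟨rfl, fun e => h' (cfg.inj (e.trans (map_one ψ).symm))⟩
  have hsa : (s * a) ^ 2 = 1 := by
    rw [ha, hs, ← map_mul, ← map_pow, (xs 3 (by omega) (by omega) (by omega)).2.1, map_one]
  have xB : ∀ j i : ℕ, x ^ i ∈ BB ψ j := fun j i =>
    pow_mem (mem_BB.2 fun _ _ => cfg.com _) i
  have bt : ∀ b ∈ BB ψ 3, ∀ j : ℕ, Commute b (t ^ j) := fun b hb j =>
    (mem_BB.1 hb 2 (by omega)).pow_right j
  have ba : ∀ b ∈ BB ψ 4, cj b a = a := fun b hb => cj_fix (mem_BB.1 hb 3 (by omega))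
  have tB : ∀ j : ℕ, t ^ j ∈ BB ψ 3 := fun j => pow_mem (by
    rw [BB3, cen, mem_centralizer_singleton_iff]) j
  have c5 : (orb (BB ψ 4) s).ncard = p + 1 := (u3 4).symm.trans hrel
  have c4 : (orb (BB ψ 3) a).ncard = 3 * (p + 2) := by
    have e1 := card_rel (BB_le (j := 3) ψ)
    have e2 := card_rel (BB_le (j := 4) ψ)
    have e3 := cfg.ch.card t
    have e4 := K.three _ ot
    rw [u3 3] at e1
    rw [hrel] at e2
    rw [← BB3, ← e1, ← e2] at e3
    have hpos : 0 < (p + 1) * (ζ * p !) :=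
      Nat.mul_pos (Nat.succ_pos p) (Nat.mul_pos cfg.ch.pos p.factorial_pos)
    refine Nat.eq_of_mul_eq_mul_right hpos ?_
    rw [Nat.factorial_succ, Nat.factorial_succ] at e4
    calc _ = 2 * ((orb (BB ψ 3) a).ncard * ((p + 1) * Nat.card (BB ψ 5))) := by rw [← hB5]; ring
      _ = ζ * (2 * c t) := by rw [e3]; ring
      _ = _ := by rw [e4]; ring
  have sa5 : ∀ u ∈ orb (BB ψ 4) s, (u * a) ^ 2 = 1 := by
    intro u hu
    obtain ⟨b, hb, rfl⟩ := mem_orb.1 hu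
    rw [← ba b hb, sq_cj, hsa]
  have a5 : a ∉ orb (BB ψ 4) s := fun h => by
    have h2 := sa5 a h
    have h3 : a = 1 := by
      calc a = a ^ 3 * a := by rw [a3, one_mul]
        _ = (a * a) ^ 2 := by simp only [pow_succ, pow_zero, one_mul, mul_assoc]
        _ = 1 := h2
    have h4 : tt 5 3 = 1 := cfg.inj (h3.trans (map_one ψ).symm)
    rw [h4, orderOf_one] at oa
    omega
  -- `s` lies in the class of `a`
  have s4 : s ∈ orb (BB ψ 3) a := by
    by_contra hn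
    obtain ⟨b, hb⟩ := o2 (orb (BB ψ 3) a) fun v hv => cj_orb (pow_one x ▸ xB 3 1) hv
    have hsub : {v ∈ orb (BB ψ 3) a | Commute x v} ⊆
        ψ '' ([tt 5 3, cy3 1 2 3, cy3 1 2 4, cy3 2 0 3, cy3 2 0 4].toFinset : Finset (An 5)) := by
      rintro v ⟨hv, hc⟩
      obtain ⟨g, hg, e⟩ := mem_orb.1 hv
      have gt : cj g t = t := cj_fix (pow_one t ▸ bt g hg 1)
      have v3 : v ^ 3 = 1 := by rw [e, cj_pow, a3, cj_eq_one]
      have v2 : (v * t) ^ 2 = 1 := by rw [e, ← gt, sq_cj, hat.1]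
      have v1 : v * t ≠ 1 := by rw [e, ← gt, cj_mul, Ne, cj_eq_one]; exact hat.2
      obtain ⟨w, rfl⟩ := u1 v _ hc v3 v2
      obtain ⟨i, i0, i1, i2, hi⟩ := x1 (Fin 5) 0 1 2 w (by decide) (by decide) (by decide)
        (cfg.inj (by rw [map_pow, v3, map_one]))
        (cfg.inj (by rw [map_pow, map_mul, map_one]; exact v2))
        (fun h => v1 (by rw [← map_one ψ, ← h, map_mul]; rfl))
      rcases six i i0 i1 i2 w hi with rfl | h
      · exact absurd hv hn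
      · exact ⟨w, List.mem_toFinset.2 h, rfl⟩
    have h5 := ((Set.ncard_le_ncard hsub).trans (Set.ncard_image_le)).trans
      ((Set.ncard_coe_finset _).le.trans (List.toFinset_card_le _))
    simp only [List.length_cons, List.length_nil] at h5
    rw [c4] at hb
    rcases Nat.lt_or_ge b 4 with h | h
    · have : b * p ≤ 3 * p := Nat.mul_le_mul_right p (by omega)
      omega
    · have : 4 * p ≤ b * p := Nat.mul_le_mul_right p h
      omega
  have o54 : ∀ u ∈ orb (BB ψ 4) s, u ∈ orb (BB ψ 3) a := by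
    intro u hu
    obtain ⟨b, hb, rfl⟩ := mem_orb.1 hu
    exact cj_orb (BB_le ψ hb) s4
  have tmod : ∀ j : ℕ, t ^ j = t ^ (j % 3) := fun j => pow_eq_pow_mod j t3
  -- conjugates by powers of `t`
  have key : ∀ (j : ℕ) (u : G), u ∈ insert a (orb (BB ψ 4) s) →
      (cj (t ^ j) u = a ∨ (cj (t ^ j) u * a) ^ 2 = 1) → j % 3 = 0 := by
    intro j u hu h
    obtain ⟨e, he, b, hb, rfl⟩ : ∃ e ∈ [tt 5 3, tt 5 4], ∃ b ∈ BB ψ 4, u = cj b (ψ e) := by
      rcases hu with rfl | ⟨b, hb, e⟩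
      · exact ⟨_, by simp, 1, one_mem _, (cj_one _).symm⟩
      · exact ⟨_, by simp, b, hb, e⟩
    rw [← cj_comm (bt b (BB_le ψ hb) j), ← ba b hb, sq_cj, tmod] at h
    have e1 : cj (t ^ (j % 3)) (ψ e) = ψ (tt 5 2 ^ (j % 3) * e * (tt 5 2 ^ (j % 3))⁻¹) := by
      rw [map_mul, map_mul, map_inv, map_pow]; rfl
    rw [e1] at h
    refine congrArg Fin.val (small ⟨j % 3, Nat.mod_lt _ (by omega)⟩ e he ?_)
    rcases h with h | h
    · exact Or.inl (cfg.inj (cj_inj b h))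
    · exact Or.inr (cfg.inj (by rw [map_pow, map_mul, map_one]; exact h))
  let f : Fin 3 × G → G := fun q => cj (t ^ (q.1 : ℕ)) q.2
  have finj : Set.InjOn f (Set.univ ×ˢ insert a (orb (BB ψ 4) s)) := by
    rintro ⟨j, u⟩ ⟨-, hu⟩ ⟨j', u'⟩ ⟨-, hu'⟩ h
    have h2 : cj (t ^ (2 * j' + j : ℕ)) u = u' := by
      have := congrArg (cj (t ^ (2 * j' : ℕ))) h
      simp only [f, cj_cj, ← pow_add] at this
      rw [this, show 2 * (j' : ℕ) + j' = 3 * j' by ring, pow_mul, t3, one_pow, cj_one]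
    have h3 := key _ u hu (by rw [h2]; exact hu'.imp id (sa5 u'))
    obtain rfl : j = j' := by omega
    exact Prod.ext rfl (cj_inj _ h)
  have fim : f '' (Set.univ ×ˢ insert a (orb (BB ψ 4) s)) = orb (BB ψ 3) a := by
    refine Set.eq_of_subset_of_ncard_le ?_ ?_
    · rintro _ ⟨⟨j, u⟩, ⟨-, hu⟩, rfl⟩
      refine cj_orb (tB j) ?_
      rcases hu with rfl | hu
      · exact self_orb _ _
      · exact o54 u hu
    · rw [finj.ncard_image, Set.ncard_prod, Set.ncard_insert_of_notMem a5, c4, c5]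
      simp
  obtain ⟨g, hg, eg⟩ := mem_orb.1 s4
  obtain ⟨w, ⟨u, hu, rfl⟩, hw⟩ := Set.exists_mem_notMem_of_ncard_lt_ncard
    (s := f '' (Set.univ ×ˢ {a, s})) (t := cj g '' orb (BB ψ 4) s) (by
      rw [Set.InjOn.ncard_image fun _ _ _ _ h => cj_inj g h, c5]
      refine lt_of_le_of_lt Set.ncard_image_le ?_
      rw [Set.ncard_prod]
      have := Set.ncard_insert_le a {s}
      simp only [Set.ncard_singleton, Set.ncard_univ, Nat.card_eq_fintype_card,
        Fintype.card_fin] at this ⊢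
      omega)
  obtain ⟨⟨j, v⟩, ⟨-, hv⟩, e⟩ := fim.ge (cj_orb hg (o54 u hu))
  have va : v ≠ a := fun h => hw ⟨(j, v), ⟨trivial, Or.inl h⟩, e⟩
  have vs : v ≠ s := fun h => hw ⟨(j, v), ⟨trivial, Or.inr h⟩, e⟩
  have v5 : v ∈ orb (BB ψ 4) s := hv.resolve_left va
  have e' : cj (t ^ (j : ℕ)) v = cj g u := e
  have xs' : ∀ i : ℕ, cj (x ^ i) s = s := fun i => cj_fix ((cfg.com _).pow_left i)
  have xorb : {y | ∃ i : ℕ, y = x ^ i * v * (x ^ i)⁻¹} = orb (BB ψ 4) s \ {s} := by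
    refine Set.eq_of_subset_of_ncard_le ?_ ?_
    · rintro _ ⟨i, rfl⟩
      exact ⟨cj_orb (xB 4 i) v5, fun h => vs (cj_inj (x ^ i) (h.trans (xs' i).symm))⟩
    · rw [Set.ncard_sdiff_singleton_of_mem (self_orb _ _), c5, o3 v fun h => ?_]
      · omega
      · obtain ⟨i, h4, h5, e⟩ := u2 4 le_rfl (by omega) v v5 h
        obtain rfl : i = 4 := by omega
        exact vs e
  have R : ∀ y ∈ orb (BB ψ 4) s, ∀ y' ∈ orb (BB ψ 4) s, y ≠ y' →
      (cj (t ^ (j : ℕ)) y * y') ^ 2 = 1 := by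
    intro y hy y' hy' hne
    obtain ⟨b, hb, rfl⟩ := mem_orb.1 hy'
    obtain ⟨i, hi⟩ := xorb.ge (⟨cj_orb (inv_mem hb) hy, fun h => hne (by
      rw [← show cj b⁻¹ y = s from h, cj_cj, mul_inv_cancel, cj_one])⟩ :
      cj b⁻¹ y ∈ orb (BB ψ 4) s \ {s})
    have hy2 : y = cj (b * x ^ i) v := by
      rw [← cj_cj, ← show cj b⁻¹ y = cj (x ^ i) v from hi, cj_cj, mul_inv_cancel, cj_one]
    have hb2 : cj b s = cj (b * x ^ i) s := by rw [← cj_cj, xs']
    rw [hy2, hb2, ← cj_comm (bt _ (BB_le ψ (mul_mem hb (xB 4 i))) j), sq_cj, e', eg, sq_cj]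
    exact sa5 u hu
  have j0 : (j : ℕ) = 0 := by
    have r := R s (self_orb _ _) v v5 vs.symm
    have e2 : cj (t ^ (j : ℕ)) s = cj (g * t ^ (j : ℕ)) a := by
      rw [eg, cj_cj, (bt g hg j).eq]
    have e3 : v = cj (g * t ^ (j : ℕ)) (cj (t ^ (j : ℕ)) u) := by
      refine cj_inj (t ^ (j : ℕ)) ?_
      rw [e', cj_cj, cj_cj, ← mul_assoc, ← (bt g hg j).eq, mul_assoc, mul_assoc, ← pow_add,
        ← pow_add, show (j : ℕ) + (j + j) = 3 * j by ring, pow_mul, t3, one_pow, mul_one]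
    rw [e2, e3, sq_cj] at r
    have := key j u (Or.inr hu) (Or.inr (sq_symm r))
    omega
  refine he G p 5 ζ c x ψ 4 cfg le_rfl (by omega) (by rw [c5]; omega) (fun i h4 h5 => ?_)
    fun y hy y' hy' hne => ?_
  · obtain rfl : i = 4 := by omega
    exact self_orb _ _
  · have := R y hy y' hy' hne
    rwa [j0, pow_zero, cj_one] at this

end Pool.Agent.MP_62c071_al.H57
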