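import Pool.Agent.MP_62c071_al.H57.Spec

/-! Row BETA of Lemma X: few tame primes have a small centraliser and a non normal Sylow
subgroup. -/

set_option autoImplicit false

namespace Pool.Agent.MP_62c071_al.H57

open Subgroup
open scoped Pointwise

namespace BETAx

variable {G : Type} [Group G]

theorem mcen {g h : G} : h ∈ cen g ↔ Commute g h := by
  unfold cen
  rw [mem_centralizer_iff]
  constructor
  · intro hh
    exact hh g rfl
  · intro hh x hx
    rw [Set.mem_singleton_iff.mp hx]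
    exact hh

theorem cop {a b : G} (h : Commute a b) (hc : (orderOf a).Coprime (orderOf b)) :
    cen (a * b) = cen a ⊓ cen b := by
  ext c
  rw [mem_inf, mcen, mcen, mcen]
  constructor
  · intro hab
    have ha : Commute a c := by
      obtain ⟨k, hk⟩ := exists_pow_eq_self_of_coprime (x := a) (n := orderOf b) hc.symm
      have h1 : (a * b) ^ orderOf b = a ^ orderOf b := by
        rw [h.mul_pow, pow_orderOf_eq_one, mul_one]
      rw [← hk, ← h1]
      exact (hab.pow_left _).pow_left _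
    refine ⟨ha, ?_⟩
    have : b = a⁻¹ * (a * b) := by group
    rw [this]
    exact ha.inv_left.mul_left hab
  · rintro ⟨ha, hb⟩
    exact ha.mul_left hb

theorem pe_mem {q : ℕ} {S : Subgroup G} (hS : IsPGroup q S) {g : G} (hg : g ∈ S) : PE q g := by
  obtain ⟨k, hk⟩ := hS ⟨g, hg⟩
  exact ⟨k, by simpa using congrArg Subtype.val hk⟩

theorem pe_zpowers {q : ℕ} {g : G} (hg : PE q g) : IsPGroup q (zpowers g) := by
  obtain ⟨k, hk⟩ := hg
  rintro ⟨x, j, rfl⟩
  refine ⟨k, Subtype.ext ?_⟩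
  show (g ^ j) ^ q ^ k = 1
  rw [← zpow_natCast, ← zpow_mul, mul_comm, zpow_mul, zpow_natCast, hk, one_zpow]

theorem pe_pp_cop {q : ℕ} {a b : G} (ha : PE q a) (hb : PP q b) :
    (orderOf a).Coprime (orderOf b) := by
  obtain ⟨k, hk⟩ := ha
  exact Nat.Coprime.coprime_dvd_left (orderOf_dvd_of_pow_eq_one hk)
    (Nat.Coprime.pow_left k (Nat.Coprime.symm hb))

theorem pe_pp {q r : ℕ} (hq : q.Prime) (hr : r.Prime) (hne : q ≠ r) {a : G} (ha : PE q a) :
    PP r a := by
  obtain ⟨k, hk⟩ := ha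
  exact Nat.Coprime.coprime_dvd_left (orderOf_dvd_of_pow_eq_one hk)
    (Nat.Coprime.pow_left k ((Nat.coprime_primes hq hr).mpr hne))

/-- a `q`-element that centralises a Sylow subgroup lies in it -/
theorem mem_of_cent {q : ℕ} (Q : Sylow q G) {u : G} (hu : PE q u)
    (hc : u ∈ centralizer (Q : Set G)) : u ∈ Q := by
  have h1 := (pe_zpowers hu).inf_normalizer_sylow Q
  have h2 : u ∈ zpowers u ⊓ normalizer (Q : Set G) :=
    ⟨mem_zpowers u, centralizer_le_normalizer _ hc⟩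
  rw [h1] at h2
  exact h2.2

theorem exists_le [Finite G] {q : ℕ} (hq : q.Prime) {W : Subgroup G} (h : ¬ q ∣ W.index) :
    ∃ S : Sylow q G, (S : Subgroup G) ≤ W := by
  have := Fact.mk hq
  obtain ⟨T⟩ : Nonempty (Sylow q W) := inferInstance
  have h1 : IsPGroup q ((T : Subgroup W).map W.subtype) := T.isPGroup'.map _
  have h2 : ¬ q ∣ ((T : Subgroup W).map W.subtype).index := by
    rw [index_map_of_injective _ W.subtype_injective, range_subtype]
    intro hd
    rcases (Nat.Prime.dvd_mul hq).mp hd with hd | hd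
    · exact T.not_dvd_index hd
    · exact h hd
  exact ⟨h1.toSylow h2, map_subtype_le _⟩

theorem not_dvd_of_le [Finite G] {q : ℕ} (hq : q.Prime) {W : Subgroup G} (S : Sylow q G)
    (h : (S : Subgroup G) ≤ W) : ¬ q ∣ W.index := by
  have := Fact.mk hq
  exact fun hd => S.not_dvd_index (hd.trans (index_dvd_of_le h))

theorem mem_smul {q : ℕ} (g : G) (Q : Sylow q G) (x : G) : x ∈ g • Q ↔ g⁻¹ * x * g ∈ Q := by
  change x ∈ ((g • Q : Sylow q G) : Subgroup G) ↔ _
  rw [Sylow.coe_subgroup_smul, mem_pointwise_smul_iff_inv_smul_mem]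
  simp only [← map_inv, MulAut.smul_def, MulAut.conj_apply, inv_inv]
  rfl

theorem cent_index [Finite G] {q : ℕ} (hq : q.Prime) (Q Q' : Sylow q G) :
    (centralizer (Q' : Set G)).index = (centralizer (Q : Set G)).index := by
  have := Fact.mk hq
  obtain ⟨g, rfl⟩ := MulAction.exists_smul_eq G Q Q'
  have : centralizer ((g • Q : Sylow q G) : Set G) =
      (centralizer (Q : Set G)).comap (MulAut.conj g⁻¹).toMonoidHom := by
    ext c
    rw [mem_comap, mem_centralizer_iff, mem_centralizer_iff]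
    constructor
    · intro h x hx
      have h1 : g * x * g⁻¹ ∈ ((g • Q : Sylow q G) : Set G) := by
        refine (mem_smul g Q _).mpr ?_
        simpa [mul_assoc] using hx
      have h2 := h _ h1
      simp only [MulEquiv.coe_toMonoidHom, MulAut.conj_apply, inv_inv]
      calc x * (g⁻¹ * c * g) = g⁻¹ * (g * x * g⁻¹ * c) * g := by group
        _ = g⁻¹ * (c * (g * x * g⁻¹)) * g := by rw [h2]
        _ = g⁻¹ * c * g * x := by group
    · intro h x hx
      have h1 : g⁻¹ * x * g ∈ (Q : Set G) := (mem_smul g Q x).mp hx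
      have h2 := h _ h1
      simp only [MulEquiv.coe_toMonoidHom, MulAut.conj_apply, inv_inv] at h2
      calc x * c = g * (g⁻¹ * x * g * (g⁻¹ * c * g)) * g⁻¹ := by group
        _ = g * (g⁻¹ * c * g * (g⁻¹ * x * g)) * g⁻¹ := by rw [h2]
        _ = c * x := by group
  rw [this, index_comap_of_surjective _ (MulAut.conj g⁻¹).surjective]

/-- dropping the `q`-part of an element when the `q`-elements are central -/
theorem drop [Finite G] {q : ℕ} (hq : q.Prime) {W : Subgroup G}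
    (hW : ∀ u ∈ W, PE q u → ∀ c ∈ W, Commute u c) {g : G} (hg : g ∈ W) :
    ∃ k : ℕ, PP q (g ^ k) ∧ cen (g ^ k) ⊓ W = cen g ⊓ W := by
  obtain ⟨e, r, hr, hN⟩ := Nat.exists_eq_pow_mul_and_not_dvd (orderOf_pos g).ne' q hq.ne_one
  have hcop : (q ^ e).Coprime r := Nat.Coprime.pow_left e ((Nat.Prime.coprime_iff_not_dvd hq).mpr hr)
  refine ⟨q ^ e, ?_, ?_⟩
  · have : (g ^ q ^ e) ^ r = 1 := by rw [← pow_mul, ← hN, pow_orderOf_eq_one]
    exact Nat.Coprime.coprime_dvd_left (orderOf_dvd_of_pow_eq_one this)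
      ((Nat.Prime.coprime_iff_not_dvd hq).mpr hr).symm
  · ext c
    rw [mem_inf, mem_inf, mcen, mcen]
    constructor
    · rintro ⟨h1, hc⟩
      refine ⟨?_, hc⟩
      have h2 : Commute (g ^ r) c :=
        hW _ (W.pow_mem hg r) ⟨e, by rw [← pow_mul, mul_comm, ← hN, pow_orderOf_eq_one]⟩ c hc
      have h3 : g = (g ^ q ^ e) ^ (Nat.gcdA (q ^ e) r) * (g ^ r) ^ (Nat.gcdB (q ^ e) r) := by
        rw [← zpow_natCast, ← zpow_natCast g r, ← zpow_mul, ← zpow_mul, ← zpow_add,
          ← Nat.gcd_eq_gcd_ab, hcop.gcd_eq_one]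
        simp
      rw [h3]
      exact (h1.zpow_left _).mul_left (h2.zpow_left _)
    · rintro ⟨h1, hc⟩
      exact ⟨h1.pow_left _, hc⟩

theorem Oq_le' {q : ℕ} (W : Subgroup G) : Oq q W ≤ W := by
  obtain ⟨T⟩ : Nonempty (Sylow q W) := inferInstance
  exact (iInf_le _ T).trans (map_subtype_le _)

theorem Oq_top_le' {q : ℕ} (Q : Sylow q G) : Oq q (⊤ : Subgroup G) ≤ Q := by
  refine (iInf_le _ (Q.subtype (N := ⊤) le_top)).trans ?_
  rw [Sylow.coe_subtype]
  exact (subgroupOf_map_subtype _ _).le.trans inf_le_left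

theorem mem_Oq {q : ℕ} {W : Subgroup G} {u : G} (hu : u ∈ W) (hp : PE q u)
    (hc : ∀ c ∈ W, Commute u c) : u ∈ Oq q W := by
  unfold Oq
  rw [mem_iInf]
  intro T
  refine ⟨⟨u, hu⟩, ?_, rfl⟩
  refine mem_of_cent T ?_ ?_
  · obtain ⟨k, hk⟩ := hp
    exact ⟨k, Subtype.ext (by simpa using hk)⟩
  · intro x _
    exact Subtype.ext (hc x x.2).symm

end BETAx

open BETAx

theorem rowBETA (hc : RowCAM) (hp : RowPB) : RowBETA := by
  intro G _ _ Pi p m n μ hX hm B hB hT
  by_cases h1 : B.card ≤ 1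
  · omega
  have hne : B.Nonempty := Finset.card_pos.mp (by omega)
  have hpr : ∀ q ∈ B, q.Prime := fun q hq => (hX.pr q (Finset.mem_insert_of_mem (hB hq))).1
  set a := B.max' hne with ha
  have haB : a ∈ B := B.max'_mem hne
  obtain ⟨q1, hq1B, hq1a⟩ : ∃ q1 ∈ B, q1 ≠ a := by
    by_contra hcon
    push Not at hcon
    exact h1 (Finset.card_le_one.mpr fun x hx y hy => by rw [hcon x hx, hcon y hy])
  have hlt : q1 < a := lt_of_le_of_ne (B.le_max' q1 hq1B) hq1a
  obtain ⟨hTa, Qa, hQa, -⟩ := hT a haB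
  obtain ⟨hab, ⟨xa, hxa, hca⟩, -⟩ := hTa Qa
  have hQac : (Qa : Subgroup G) ≤ centralizer (Qa : Set G) :=
    fun u hu v hv => hab v hv u hu
  have hia : ix xa ≤ m := by
    refine hX.sm1 xa a (hB haB) ?_ ?_
    · unfold ix
      rwa [hca]
    · unfold ix
      rw [hca]
      exact not_dvd_of_le (hpr a haB) Qa hQac
  have hm1 : 1 ≤ m := le_trans (Nat.pos_of_ne_zero (index_ne_zero_of_finite (H := cen xa))) hia
  have hq1n : ¬ q1 ∣ ix xa := by
    refine (hX.sm2 xa ?_ (hia.trans (Nat.le_self_pow two_ne_zero m))).2 q1 (hB hq1B)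
    unfold ix
    rwa [hca]
  obtain ⟨Q1, hQ1⟩ := exists_le (hpr q1 hq1B) hq1n
  obtain ⟨hT1, Q1', hQ1', -⟩ := hT q1 hq1B
  obtain ⟨hab1, ⟨x1, hx1, hc1⟩, -⟩ := hT1 Q1
  have hQ1c : (Q1 : Subgroup G) ≤ centralizer (Q1 : Set G) :=
    fun u hu v hv => hab1 v hv u hu
  have hi1 : ix x1 ≤ m := by
    refine hX.sm1 x1 q1 (hB hq1B) ?_ ?_
    · unfold ix
      rwa [hc1, cent_index (hpr q1 hq1B) Q1' Q1]
    · unfold ix
      rw [hc1]
      exact not_dvd_of_le (hpr q1 hq1B) Q1 hQ1c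
  have hpa : PE a xa := pe_mem Qa.isPGroup' hxa
  have hp1 : PE q1 x1 := pe_mem Q1.isPGroup' hx1
  have hcom : Commute xa x1 := mcen.mp (hQ1 hx1)
  set W : Subgroup G := cen xa ⊓ cen x1 with hW
  have hz : cen (xa * x1) = W :=
    cop hcom (pe_pp_cop hpa (pe_pp (hpr q1 hq1B) (hpr a haB) hq1a hp1))
  have hWa : W ≤ centralizer (Qa : Set G) := inf_le_left.trans hca.le
  have hW1 : W ≤ centralizer (Q1 : Set G) := inf_le_right.trans hc1.le
  have hQaW : (Qa : Subgroup G) ≤ W := by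
    refine le_inf (hQac.trans hca.ge) ?_
    rw [hc1]
    intro u hu v hv
    have : v ∈ centralizer (Qa : Set G) := hca ▸ hQ1 hv
    exact (this u hu).symm
  have hQ1W : (Q1 : Subgroup G) ≤ W := le_inf hQ1 (hQ1c.trans hc1.ge)
  have hcenA : ∀ u ∈ W, PE a u → ∀ c ∈ W, Commute u c :=
    fun u hu hpe c hc' => hWa hc' u (mem_of_cent Qa hpe (hWa hu))
  have hcen1 : ∀ u ∈ W, PE q1 u → ∀ c ∈ W, Commute u c :=
    fun u hu hpe c hc' => hW1 hc' u (mem_of_cent Q1 hpe (hW1 hu))
  have hxaW : xa ∈ W := hQaW hxa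
  have hx1W : x1 ∈ W := hQ1W hx1
  have key : ∀ g ∈ W, ∀ r ∈ B, ¬ r ∣ (cen g).relIndex W * W.index := by
    intro g hg r hr
    obtain ⟨k, hk1, hk2⟩ := drop (hpr a haB) hcenA hg
    obtain ⟨l, hl1, hl2⟩ := drop (hpr q1 hq1B) hcen1 (W.pow_mem hg k)
    set g' := (g ^ k) ^ l with hg'
    have hg'W : g' ∈ W := W.pow_mem (W.pow_mem hg k) l
    have hg'a : PP a g' := Nat.Coprime.coprime_dvd_left (orderOf_pow_dvd l) hk1
    have hzc : Commute (xa * x1) g' := mcen.mp (hz ▸ hg'W)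
    have hco : (orderOf (xa * x1)).Coprime (orderOf g') :=
      Nat.Coprime.coprime_dvd_left hcom.orderOf_mul_dvd_mul_orderOf
        (Nat.Coprime.mul_left (pe_pp_cop hpa hg'a) (pe_pp_cop hp1 hl1))
    have hcz : cen (xa * x1 * g') = cen g ⊓ W := by
      rw [cop hzc hco, hz, inf_comm, hl2, hk2]
    have hix : ix (xa * x1 * g') = (cen g).relIndex W * W.index := by
      unfold ix
      rw [hcz, ← inf_relIndex_right, relIndex_mul_index inf_le_right]
    rw [← hix]
    refine hX.two _ q1 (hB hq1B) a (Finset.mem_insert_of_mem (hB haB)) hlt ?_ ?_ r (hB hr)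
      (B.le_max' r hr)
    · unfold ix
      rw [hcz]
      refine not_dvd_of_le (hpr q1 hq1B) Q1 (le_inf ?_ hQ1W)
      intro u hu
      exact mcen.mpr (hW1 hg u hu).symm
    · unfold ix
      rw [hcz]
      refine not_dvd_of_le (hpr a haB) Qa (le_inf ?_ hQaW)
      intro u hu
      exact mcen.mpr (hWa hg u hu).symm
  have hcent : ∀ r ∈ B, ∀ u ∈ W, ∀ c ∈ W, PE r u → Commute u c := fun r hr =>
    (hc G r (hpr r hr)).2.1 W fun g hg hd => key g hg r hr (hd.mul_right _)
  have hidx : ∀ r ∈ B, ¬ r ∣ W.index := fun r hr hd => key 1 W.one_mem r hr (hd.mul_left _)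
  have hPB : 2 ^ B.card ≤ W.index := by
    refine hp G W B (fun q hq => ⟨hpr q hq, hidx q hq, ?_⟩) ?_
    · intro heq
      obtain ⟨-, Q, -, hQn⟩ := hT q hq
      obtain ⟨S, hS⟩ := exists_le (hpr q hq) (hidx q hq)
      have hSO : (S : Subgroup G) ≤ Oq q (⊤ : Subgroup G) := by
        rw [← heq]
        intro u hu
        have hpe := pe_mem S.isPGroup' hu
        exact mem_Oq (hS hu) hpe fun c hc' => hcent q hq u (hS hu) c hc' hpe
      have hall : ∀ R : Sylow q G, R = S := fun R =>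
        Sylow.ext (S.is_maximal' R.isPGroup' (hSO.trans (Oq_top_le' R)))
      have : Subsingleton (Sylow q G) := ⟨fun R R' => by rw [hall R, hall R']⟩
      exact hQn (Sylow.normal_of_subsingleton Q)
    · intro q _ r hr _ u hu hpe v hv
      exact hcent r hr u hu v (Oq_le' W hv) hpe
  have hWi : W.index ≤ m * m := index_inf_le.trans (Nat.mul_le_mul hia hi1)
  have hlt2 : 2 ^ B.card < 2 ^ (2 * μ) := by
    calc 2 ^ B.card ≤ m * m := hPB.trans hWi
      _ < 2 ^ μ * 2 ^ μ := Nat.mul_lt_mul'' hm hm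
      _ = 2 ^ (2 * μ) := by rw [← pow_add, two_mul]
  have := (Nat.pow_lt_pow_iff_right (by norm_num : 1 < 2)).mp hlt2
  omega

end Pool.Agent.MP_62c071_al.H57
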