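import Pool.Agent.MP_62c071_al.H57.Spec

/-! Row CAM: elements whose class size is prime to `q`. -/

set_option autoImplicit false

namespace Pool.Agent.MP_62c071_al.H57

open Subgroup

namespace CAMx

/-- A transitive action in which every element has a fixed point is an action on one point. -/
theorem jordan {H X : Type} [Group H] [Finite H] [Finite X] [MulAction H X]
    [MulAction.IsPretransitive H X] (h : ∀ g : H, ∃ x : X, g • x = x) : Subsingleton X := by
  classical
  have := Fintype.ofFinite H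
  have := Fintype.ofFinite X
  have := Fintype.ofFinite (Quotient (MulAction.orbitRel H X))
  have e := MulAction.sum_card_fixedBy_eq_card_orbits_mul_card_group H X
  have s : Subsingleton (Quotient (MulAction.orbitRel H X)) := ⟨fun a b => by
    induction a using Quotient.inductionOn
    induction b using Quotient.inductionOn
    exact Quotient.sound (MulAction.exists_smul_eq H _ _)⟩
  have l : Fintype.card (Quotient (MulAction.orbitRel H X)) ≤ 1 :=
    Fintype.card_le_one_iff_subsingleton.2 s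
  by_contra hX
  have hX' : 1 < Fintype.card X := Fintype.one_lt_card_iff_nontrivial.2
    (not_subsingleton_iff_nontrivial.1 hX)
  have lt : ∑ _g : H, 1 < ∑ g : H, Fintype.card (MulAction.fixedBy X g) := by
    refine Finset.sum_lt_sum (fun g _ => ?_) ⟨1, Finset.mem_univ _, ?_⟩
    · obtain ⟨x, hx⟩ := h g
      exact Fintype.card_pos_iff.2 ⟨⟨x, hx⟩⟩
    · refine hX'.trans_le (Fintype.card_le_of_injective
        (fun x => (⟨x, one_smul H x⟩ : MulAction.fixedBy X (1 : H))) fun x y e => ?_)
      exact congrArg Subtype.val e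
  rw [e, Finset.sum_const, smul_eq_mul, mul_one, Finset.card_univ] at lt
  exact absurd lt (not_lt.2 (by simpa using Nat.mul_le_mul_right (Fintype.card H) l))

variable {H : Type} [Group H] [Finite H] {q : ℕ} [Fact q.Prime]

omit [Finite H] [Fact q.Prime] in
theorem pg {u : H} (h : PE q u) : IsPGroup q (zpowers u) := by
  obtain ⟨a, ha⟩ := h
  rintro ⟨_, k, rfl⟩
  refine ⟨a, Subtype.ext ?_⟩
  change (u ^ k) ^ q ^ a = 1
  rw [← zpow_natCast, ← zpow_mul, mul_comm, zpow_mul, zpow_natCast, ha, one_zpow]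

theorem ex_syl {C : Subgroup H} (hC : ¬ q ∣ C.index) {u : H} (hu : u ∈ C) (h : PE q u) :
    ∃ P : Sylow q H, u ∈ P ∧ (P : Subgroup H) ≤ C := by
  have h' : PE q (⟨u, hu⟩ : C) := h.imp fun a ha => Subtype.ext ha
  obtain ⟨S, hS⟩ := (pg h').exists_le_sylow
  have hi : ¬ q ∣ ((S : Subgroup C).map C.subtype).index := by
    rw [index_map_subtype]
    exact Nat.Prime.not_dvd_mul Fact.out S.not_dvd_index hC
  exact ⟨(S.2.map C.subtype).toSylow hi, ⟨⟨u, hu⟩, hS (mem_zpowers _), rfl⟩, map_subtype_le _⟩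

theorem uniq (h : ∀ g : H, PP q g → ¬ q ∣ ix g) : Subsingleton (Sylow q H) := by
  refine jordan (H := H) fun g => ?_
  obtain ⟨a, m, hm, e⟩ := Nat.exists_eq_pow_mul_and_not_dvd (orderOf_pos g).ne' q
    (Fact.out : q.Prime).ne_one
  have c : m.Coprime q := ((Nat.Prime.coprime_iff_not_dvd Fact.out).2 hm).symm
  have h1 : PP q (g ^ q ^ a) := by
    refine Nat.Coprime.coprime_dvd_left (orderOf_dvd_of_pow_eq_one ?_) c
    rw [← pow_mul, ← e, pow_orderOf_eq_one]
  have h2 : PE q (g ^ m) := ⟨a, by rw [← pow_mul, mul_comm, ← e, pow_orderOf_eq_one]⟩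
  obtain ⟨P, hP, hP'⟩ := ex_syl (h _ h1)
    (mem_centralizer_singleton_iff.2 (Commute.pow_pow_self g m (q ^ a))) h2
  refine ⟨P, Sylow.smul_eq_iff_mem_normalizer.2 ?_⟩
  have n1 : g ^ m ∈ normalizer ((P : Subgroup H) : Set H) := le_normalizer hP
  have n2 : g ^ q ^ a ∈ normalizer ((P : Subgroup H) : Set H) :=
    centralizer_le_normalizer _ fun y hy => mem_centralizer_singleton_iff.1 (hP' hy)
  obtain ⟨x, y, hxy⟩ := Nat.isCoprime_iff_coprime.2 (c.pow_right a)
  have : g = (g ^ m) ^ x * (g ^ q ^ a) ^ y := by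
    rw [← zpow_natCast, ← zpow_natCast g, ← zpow_mul, ← zpow_mul, ← zpow_add, mul_comm _ x,
      mul_comm _ y, hxy, zpow_one]
  rw [this]
  exact mul_mem (zpow_mem n1 x) (zpow_mem n2 y)

theorem core (h : ∀ g : H, PP q g → ¬ q ∣ ix g) {a b : H} (ha : PE q a) (hb : ¬ q ∣ ix b) :
    Commute a b := by
  obtain ⟨P, -, hP⟩ := ex_syl hb (one_mem _) ⟨0, one_pow _⟩
  obtain ⟨S, hS⟩ := (pg ha).exists_le_sylow
  rw [(uniq h).elim S P] at hS
  exact mem_centralizer_singleton_iff.1 (hP (hS (mem_zpowers a)))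

omit [Finite H] in
theorem ix_sub (D : Subgroup H) (g : D) : ix g = (cen (g : H)).relIndex D := by
  have : cen g = (cen (g : H)).subgroupOf D := by
    ext x
    rw [mem_subgroupOf, cen, cen, mem_centralizer_singleton_iff, mem_centralizer_singleton_iff,
      Subtype.ext_iff]
    rfl
  rw [ix, this]
  rfl

theorem sub (D : Subgroup H) (h : ∀ g ∈ D, PP q g → ¬ q ∣ (cen g).relIndex D) {a b : H}
    (ha : a ∈ D) (hb : b ∈ D) (pa : PE q a) (pb : ¬ q ∣ (cen b).relIndex D) : Commute a b := by
  have := core (H := D) (q := q) (fun g hg => by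
    rw [ix_sub]
    exact h g g.2 (by rwa [PP, orderOf_coe])) (a := ⟨a, ha⟩) (b := ⟨b, hb⟩)
    (pa.imp fun _ e => Subtype.ext e) (by rwa [ix_sub])
  exact congrArg Subtype.val this

omit [Finite H] [Fact q.Prime] in
theorem cop {u g : H} (c : Commute u g) (pu : PE q u) (pp : PP q g) :
    cen (u * g) = cen g ⊓ cen u := by
  ext x
  rw [mem_inf, cen, cen, cen, mem_centralizer_singleton_iff, mem_centralizer_singleton_iff,
    mem_centralizer_singleton_iff]
  refine ⟨fun h => ?_, fun h => Commute.mul_right (a := x) h.2 h.1⟩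
  obtain ⟨a, ha⟩ := pu
  have h1 : Commute x (g ^ q ^ a) := by
    have := Commute.pow_right (a := x) h (q ^ a)
    rwa [c.mul_pow, ha, one_mul] at this
  obtain ⟨k, hk⟩ : g ∈ zpowers (g ^ q ^ a) :=
    mem_zpowers_pow_iff.2 (Nat.Coprime.pow_left a (Nat.Coprime.symm pp))
  have h2 : Commute x g := by
    rw [← hk]
    exact h1.zpow_right k
  refine ⟨h2, ?_⟩
  have := Commute.mul_right (a := x) h h2.inv_right
  rwa [mul_inv_cancel_right] at this

end CAMx

theorem rowCAM : RowCAM := by
  intro G _ _ q hq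
  have : Fact q.Prime := ⟨hq⟩
  refine ⟨fun D h a ha b hb pa pb => CAMx.sub D h ha hb pa (h b hb pb),
    fun D h a ha b hb pa => CAMx.sub D (fun g hg _ => h g hg) ha hb pa (h b hb),
    fun h u pu hu a b ca cb pa pb => ?_⟩
  have key : ∀ g ∈ cen u, PP q g → ¬ q ∣ (cen g).relIndex (cen u) := by
    intro g hg pp hd
    refine h (u * g) ?_
    have c : Commute g u := mem_centralizer_singleton_iff.1 hg
    rw [ix, CAMx.cop c.symm pu pp, ← relIndex_mul_index inf_le_right, inf_relIndex_right, sq]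
    exact mul_dvd_mul hd hu
  have hb : b ∈ cen u := mem_centralizer_singleton_iff.2 cb.symm
  exact CAMx.sub (cen u) key (mem_centralizer_singleton_iff.2 ca.symm) hb pa (key b hb pb)

end Pool.Agent.MP_62c071_al.H57
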