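import Pool.Agent.MP_62c071_al.H57.Spec

/-! Row FA: the small `p`-elements commute. -/

set_option autoImplicit false

namespace Pool.Agent.MP_62c071_al.H57

open Subgroup

namespace FAx

variable {G : Type} [Group G]

theorem mem_cen {g h : G} : h ∈ cen g ↔ Commute h g := mem_centralizer_singleton_iff

theorem cen_le_of_cop {a b : G} (h : Commute a b) (hc : (orderOf a).Coprime (orderOf b)) :
    cen (a * b) ≤ cen a := fun g hg => by
  rw [mem_cen] at hg ⊢
  have e : (a * b) ^ orderOf b = a ^ orderOf b := by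
    rw [h.mul_pow, pow_orderOf_eq_one, mul_one]
  obtain ⟨k, hk⟩ := (mem_zpowers_pow_iff (g := a) (k := orderOf b)).2 hc.symm
  have := (hg.pow_right (orderOf b)).zpow_right k
  rw [e] at this
  exact (show (a ^ orderOf b) ^ k = a from hk) ▸ this

theorem cop {a b : G} (h : Commute a b) (hc : (orderOf a).Coprime (orderOf b)) :
    cen (a * b) = cen a ⊓ cen b := by
  refine le_antisymm (le_inf (cen_le_of_cop h hc) ?_) fun g hg => ?_
  · rw [h.eq]
    exact cen_le_of_cop h.symm hc.symm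
  · exact mem_cen.2 ((mem_cen.1 hg.1).mul_right (mem_cen.1 hg.2))

theorem pe_mem {q : ℕ} {P : Subgroup G} (h : IsPGroup q P) {g : G} (hg : g ∈ P) : PE q g := by
  obtain ⟨k, hk⟩ := h ⟨g, hg⟩
  exact ⟨k, by simpa using congrArg Subtype.val hk⟩

/-- The `p`-elements of a subgroup in which they commute. -/
def pR (p : ℕ) (D : Subgroup G) (h : ∀ a ∈ D, ∀ b ∈ D, PE p a → Commute a b) : Subgroup G where
  carrier := {a | PE p a ∧ a ∈ D}
  one_mem' := ⟨⟨0, by simp⟩, D.one_mem⟩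
  inv_mem' := fun ⟨⟨k, hk⟩, h2⟩ => ⟨⟨k, by rw [inv_pow, hk, inv_one]⟩, D.inv_mem h2⟩
  mul_mem' := by
    rintro a b ⟨⟨k, hk⟩, h2⟩ ⟨⟨l, hl⟩, h3⟩
    refine ⟨⟨k + l, ?_⟩, D.mul_mem h2 h3⟩
    rw [(h a h2 b h3 ⟨k, hk⟩).mul_pow, pow_add, pow_mul, hk, one_pow, mul_comm, pow_mul, hl,
      one_pow, one_mul]

theorem pR_p (p : ℕ) (D : Subgroup G) (h : ∀ a ∈ D, ∀ b ∈ D, PE p a → Commute a b) :
    IsPGroup p (pR p D h) := fun ⟨_, ⟨k, hk⟩, _⟩ => ⟨k, Subtype.ext (by simpa using hk)⟩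

theorem ix_conj (g a : G) : ix (g * a * g⁻¹) = ix a := by
  have : cen (g * a * g⁻¹) = (cen a).comap (MulAut.conj g⁻¹).toMonoidHom := by
    ext h
    simp only [mem_cen, mem_comap, MulEquiv.coe_toMonoidHom, MulAut.conj_apply, inv_inv]
    constructor
    · intro e
      have := e.conj g⁻¹
      simpa [mul_assoc] using this
    · intro e
      have := e.conj g
      simpa [mul_assoc] using this
  rw [ix, this, index_comap_of_surjective _ (MulAut.conj g⁻¹).surjective, ix]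

variable [Finite G]

omit [Finite G] in
theorem mem_syl {q : ℕ} (Q : Sylow q G) {g : G} (hg : PE q g)
    (hc : g ∈ centralizer (Q : Set G)) : g ∈ Q := by
  have hP : IsPGroup q (zpowers g) := by
    obtain ⟨k, hk⟩ := hg
    rintro ⟨_, n, rfl⟩
    refine ⟨k, Subtype.ext ?_⟩
    show (g ^ n) ^ q ^ k = 1
    rw [← zpow_natCast, ← zpow_mul, mul_comm, zpow_mul, zpow_natCast, hk, one_zpow]
  have := hP.inf_normalizer_sylow Q
  have h2 : g ∈ zpowers g ⊓ normalizer (Q : Set G) :=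
    ⟨mem_zpowers g, centralizer_le_normalizer _ hc⟩
  rw [this] at h2
  exact h2.2

theorem classes {q p : ℕ} (hq : q.Prime) (Q : Sylow q G) {x : G} (hx : x ∈ Q)
    (e : cen x = centralizer (Q : Set G)) (h1 : p ∣ (centralizer (Q : Set G)).index)
    (h2 : ∀ g : G, ¬ p ^ 2 ∣ ix g) :
    ∀ g ∈ centralizer (Q : Set G), ¬ p ∣ (cen g).relIndex (centralizer (Q : Set G)) := by
  intro g hg hd
  obtain ⟨a, r, hr, en⟩ := Nat.exists_eq_pow_mul_and_not_dvd (orderOf_pos g).ne' q hq.ne_one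
  have cq : (q ^ a).Coprime r := ((Nat.Prime.coprime_iff_not_dvd hq).2 hr).pow_left a
  have o1 : orderOf (g ^ q ^ a) ∣ r := orderOf_dvd_of_pow_eq_one (by
    rw [← pow_mul, ← en, pow_orderOf_eq_one])
  have m1 : g ^ r ∈ Q := mem_syl Q ⟨a, by rw [← pow_mul, mul_comm, ← en, pow_orderOf_eq_one]⟩
    (pow_mem hg r)
  obtain ⟨k, hk⟩ := pe_mem Q.isPGroup' hx
  have c1 : (orderOf x).Coprime (orderOf (g ^ q ^ a)) :=
    Nat.Coprime.coprime_dvd_left (orderOf_dvd_of_pow_eq_one hk)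
      ((((Nat.Prime.coprime_iff_not_dvd hq).2 hr).pow_left k).coprime_dvd_right o1)
  have c2 : Commute x (g ^ q ^ a) := Commute.pow_right (hg x hx) _
  have e1 : cen (g ^ q ^ a) ⊓ centralizer (Q : Set G) = cen g ⊓ centralizer (Q : Set G) := by
    refine le_antisymm (fun h hh => ⟨mem_cen.2 ?_, hh.2⟩) fun h hh =>
      ⟨mem_cen.2 ((mem_cen.1 hh.1).pow_right _), hh.2⟩
    have b1 : Commute h (g ^ q ^ a) := mem_cen.1 hh.1
    have b2 : Commute h (g ^ r) := Commute.symm (hh.2 _ m1)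
    have b3 : g = (g ^ q ^ a) ^ Nat.gcdA (q ^ a) r * (g ^ r) ^ Nat.gcdB (q ^ a) r := by
      rw [← zpow_natCast g (q ^ a), ← zpow_natCast g r, ← zpow_mul, ← zpow_mul, ← zpow_add,
        ← Nat.gcd_eq_gcd_ab, cq.gcd_eq_one]
      simp
    rw [b3]
    exact (b1.zpow_right _).mul_right (b2.zpow_right _)
  refine h2 (x * g ^ q ^ a) ?_
  rw [ix, cop c2 c1, e, inf_comm, e1, ← relIndex_mul_index (inf_le_right :
    cen g ⊓ centralizer (Q : Set G) ≤ _), inf_relIndex_right, pow_two]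
  exact mul_dvd_mul hd h1

theorem syl_le {q : ℕ} (hq : q.Prime) (W : Subgroup G) (h : ¬ q ∣ W.index) :
    ∃ Q : Sylow q G, (Q : Subgroup G) ≤ W := by
  have := Fact.mk hq
  obtain ⟨S⟩ : Nonempty (Sylow q W) := inferInstance
  refine ⟨(S.isPGroup'.map W.subtype).toSylow ?_, map_subtype_le _⟩
  rw [index_map_subtype]
  exact hq.not_dvd_mul S.not_dvd_index h

theorem card_syl {p : ℕ} (hp : p.Prime) (K R : Subgroup G) (hR : IsPGroup p R)
    (h : ∀ a, a ∈ R ↔ PE p a ∧ a ∈ K) (h1 : p ∣ K.index) (h2 : ¬ p ^ 2 ∣ K.index)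
    (P : Sylow p G) : Nat.card P = p * Nat.card R := by
  have := Fact.mk hp
  obtain ⟨S⟩ : Nonempty (Sylow p K) := inferInstance
  have hRK : R ≤ K := fun a ha => ((h a).1 ha).2
  have e : (S : Subgroup K) = R.subgroupOf K := by
    refine (S.is_maximal' (hR.comap_subtype) fun a ha => ?_).symm
    exact (h a).2 ⟨pe_mem (S.isPGroup'.map K.subtype) ⟨a, ha, rfl⟩, a.2⟩
  have c1 : Nat.card R = p ^ (Nat.card K).factorization p := by
    rw [← S.card_eq_multiplicity, e]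
    exact (Nat.card_congr (subgroupOfEquivOfLe hRK).toEquiv).symm
  have i0 : K.index ≠ 0 := FiniteIndex.index_ne_zero
  have c2 : K.index.factorization p = 1 := by
    have a1 := (hp.pow_dvd_iff_le_factorization i0 (k := 1)).1 (by rwa [pow_one])
    have a2 := mt (hp.pow_dvd_iff_le_factorization i0 (k := 2)).2 h2
    omega
  rw [P.card_eq_multiplicity, c1, ← K.card_mul_index,
    Nat.factorization_mul Nat.card_pos.ne' i0, Finsupp.add_apply, c2, pow_succ']

theorem ex_prime (B : Finset ℕ) (hB : ∀ q ∈ B, q.Prime) {N : ℕ} (h0 : N ≠ 0)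
    (h : N < 2 ^ B.card) : ∃ q ∈ B, ¬ q ∣ N := by
  by_contra hc
  push Not at hc
  have h1 := Nat.le_of_dvd (Nat.pos_of_ne_zero h0)
    (Finset.prod_primes_dvd N (fun q hq => (hB q hq).prime) hc)
  have h2 := Finset.pow_card_le_prod B (fun q => q) 2 fun q hq => (hB q hq).two_le
  omega

end FAx

open FAx in
theorem rowFA (hc : RowCAM) (h2 : RowR2) : RowFA := by
  intro G _ _ Pi p m n μ H hm B hB hU hμ
  have hp : p.Prime := (H.pr p (Finset.mem_insert_self _ _)).1
  have hq : ∀ q ∈ B, q.Prime := fun q h => (H.pr q (Finset.mem_insert_of_mem (hB h))).1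
  have sq : ∀ g : G, ¬ p ^ 2 ∣ ix g := fun g => H.sq g p (Finset.mem_insert_self _ _)
  have cm : ∀ q ∈ B, ∀ Q : Sylow q G, ∀ a ∈ centralizer (Q : Set G),
      ∀ b ∈ centralizer (Q : Set G), PE p a → Commute a b := fun q h Q => by
    obtain ⟨-, ⟨x, hx, e⟩, -⟩ := (hU q h).1 Q
    exact (hc G p hp).2.1 _ (classes (hq q h) Q hx e ((hU q h).2 Q) sq)
  have cS : ∀ a ∈ SmP G p m, ∀ b ∈ SmP G p m, Commute a b := fun a ha b hb => by
    obtain ⟨q, h, hd⟩ := ex_prime B hq (N := (cen a ⊓ cen b).index) FiniteIndex.index_ne_zero (by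
      have h1 : (cen a ⊓ cen b).index ≤ m * m :=
        index_inf_le.trans (Nat.mul_le_mul ha.2.2 hb.2.2)
      have h3 : m * m < 2 ^ μ * 2 ^ μ := Nat.mul_lt_mul'' hm hm
      rw [← pow_add] at h3
      exact (h1.trans_lt h3).trans (Nat.pow_lt_pow_right (by norm_num) (by omega)))
    obtain ⟨Q, hQ⟩ := syl_le (hq q h) _ hd
    exact cm q h Q a (fun y hy => mem_cen.1 (hQ hy).1) b (fun y hy => mem_cen.1 (hQ hy).2) ha.1
  have pg : IsPGroup p (closure (SmP G p m)) := by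
    have hD : ∀ a ∈ centralizer (centralizer (SmP G p m) : Set G),
        ∀ b ∈ centralizer (centralizer (SmP G p m) : Set G), PE p a → Commute a b :=
      fun a ha b hb _ => (ha b fun y hy => (hb y fun z hz => cS z hz y hy)).symm
    refine (pR_p p _ hD).to_le ((closure_le _).2 fun a ha => ⟨ha.1, fun y hy => (hy a ha).symm⟩)
  have nm : (closure (SmP G p m)).Normal := ⟨fun a ha g => by
    induction ha using closure_induction with
    | mem a ha =>
      obtain ⟨⟨k, hk⟩, a2, a3⟩ := ha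
      exact subset_closure ⟨⟨k, by rw [conj_pow, hk, mul_one, mul_inv_cancel]⟩,
        by rwa [ix_conj], by rwa [ix_conj]⟩
    | one => simp
    | mul a b _ _ ha hb =>
      rw [show g * (a * b) * g⁻¹ = g * a * g⁻¹ * (g * b * g⁻¹) by group]
      exact mul_mem ha hb
    | inv a _ ha =>
      rw [show g * a⁻¹ * g⁻¹ = (g * a * g⁻¹)⁻¹ by group]
      exact inv_mem ha⟩
  refine ⟨fun q h => ⟨fun Q => ?_, fun Q => ?_⟩, h2 G p _ hp nm pg (fun s hs => hs.2.1) sq, pg, nm⟩
  · obtain ⟨-, ⟨x, -, e⟩, -⟩ := (hU q h).1 Q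
    exact ⟨pR p _ (cm q h Q), pR_p _ _ _, fun a => Iff.rfl,
      fun a ha g hg => cm q h Q a ha.2 g hg ha.1,
      card_syl hp _ _ (pR_p _ _ _) (fun a => Iff.rfl) ((hU q h).2 Q) (e ▸ sq x)⟩
  · by_contra hd
    have := Fact.mk hp
    obtain ⟨P, hP⟩ := syl_le hp _ hd
    have hle : (P : Subgroup G) ≤ centralizer (Q : Set G) := fun g hg =>
      ((hU q h).1 Q).2.2 g (hP hg) (pe_mem P.isPGroup' hg)
    exact P.not_dvd_index (((hU q h).2 Q).trans (index_dvd_of_le hle))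

end Pool.Agent.MP_62c071_al.H57
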