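import Pool.Agent.MP_62c071_al.H57.R3

/-! Row FB of Lemma X: the small `p`-elements are central. -/

set_option autoImplicit false

namespace Pool.Agent.MP_62c071_al.H57

open Subgroup

namespace FBx

open R3x

/-- if every element of a coset of a transitive subgroup fixes a point, it fixes only one -/
theorem uniq {G X : Type} [Group G] [Finite G] [MulAction G X] (T : Subgroup G)
    (htr : ∀ a b : X, ∃ t ∈ T, t • a = b) (τ : G) (hfix : ∀ t ∈ T, ∃ x : X, (τ * t) • x = x)
    {t : G} (ht : t ∈ T) {x y : X} (hx : (τ * t) • x = x) (hy : (τ * t) • y = y) : x = y := by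
  choose c hc hc' using htr
  choose f hf using hfix
  let S := {s : T × X // (τ * s.1) • s.2 = s.2}
  let φ : S → T := fun s => ⟨c (τ⁻¹ • s.1.2) s.1.2 * s.1.1 * c x s.1.2,
    mul_mem (mul_mem (hc _ _) s.1.1.2) (hc _ _)⟩
  have hφ : ∀ s : S, (φ s : G) • x = s.1.2 := by
    rintro ⟨⟨t, z⟩, h⟩
    have e : (t : G) • z = τ⁻¹ • z := by
      rw [eq_inv_smul_iff, ← mul_smul]
      exact h
    change (c (τ⁻¹ • z) z * t * c x z) • x = z
    rw [mul_smul, mul_smul, hc', e, hc']
  have inj : Function.Injective φ := by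
    intro s s' e
    have e2 : s.1.2 = s'.1.2 := by rw [← hφ, ← hφ, e]
    have e1 : (φ s : G) = φ s' := congrArg _ e
    obtain ⟨⟨t, z⟩, h⟩ := s
    obtain ⟨⟨t', z'⟩, h'⟩ := s'
    obtain rfl : z = z' := e2
    obtain rfl : t = t' := Subtype.ext (mul_left_cancel (mul_right_cancel e1))
    rfl
  let ψ : T → S := fun t => ⟨(t, f t t.2), hf t t.2⟩
  have injψ : Function.Injective ψ := fun a b e => congrArg (fun s : S => s.1.1) e
  have sur : Function.Surjective (φ ∘ ψ) := Finite.injective_iff_surjective.1 (inj.comp injψ)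
  have key : ∀ z, (τ * t) • z = z → z = f t ht := by
    intro z hz
    obtain ⟨a, ha⟩ := sur (φ ⟨(⟨t, ht⟩, z), hz⟩)
    have e := inj ha
    obtain rfl : a = ⟨t, ht⟩ := congrArg (fun s : S => s.1.1) e
    exact (congrArg (fun s : S => s.1.2) e).symm
  exact (key x hx).trans (key y hy).symm

variable {G : Type} [Group G] {p : ℕ}

theorem le_of (hp : p.Prime) {A B C : Subgroup G} (h1 : A ≤ B) (h2 : B ≤ C)
    (h : A.relIndex C ∣ p) (hn : ¬ B ≤ A) : C ≤ B := by
  rw [← relIndex_mul_relIndex A B C h1 h2] at h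
  rw [← relIndex_eq_one] at hn ⊢
  have e := ((Nat.dvd_prime hp).1 (dvd_of_mul_right_dvd h)).resolve_left hn
  rw [e] at h
  exact Nat.dvd_one.1 (Nat.dvd_of_mul_dvd_mul_left hp.pos (by rwa [mul_one]))

theorem conj_pow {h a w : G} (hw : h * a = w * a * h) (hc : Commute h w) (k : ℕ) :
    h ^ k * a = w ^ k * a * h ^ k := by
  induction k with
  | zero => simp
  | succ k ih =>
    have e : h ^ k * w = w * h ^ k := (hc.pow_left k).eq
    calc h ^ (k + 1) * a = h ^ k * (h * a) := by rw [pow_succ, mul_assoc]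
      _ = h ^ k * w * (a * h) := by rw [hw]; simp only [mul_assoc]
      _ = w * (h ^ k * a) * h := by rw [e]; simp only [mul_assoc]
      _ = w ^ (k + 1) * a * h ^ (k + 1) := by rw [ih, pow_succ' w, pow_succ h]; simp only [mul_assoc]

/-- `g` acts trivially on `P` modulo `V` -/
def Tr (V : Subgroup G) [V.Normal] (P : Subgroup G) (g : G) : Prop :=
  ∀ a ∈ P, Commute (QuotientGroup.mk' V g) (QuotientGroup.mk' V a)

theorem Tr.mem {V : Subgroup G} [V.Normal] {P : Subgroup G} {g : G} (h : Tr V P g) {a : G}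
    (ha : a ∈ P) : g * a * g⁻¹ * a⁻¹ ∈ V := by
  rw [← QuotientGroup.eq_one_iff]
  change QuotientGroup.mk' V _ = 1
  rw [map_mul, map_mul, map_mul, (h a ha).eq, map_inv, map_inv, mul_inv_cancel_right,
    mul_inv_cancel]

variable [Finite G]

theorem Tr.norm {V : Subgroup G} [V.Normal] {P : Sylow p G} {g : G} (h : Tr V P g)
    (hV : V ≤ P) : g • P = P := by
  refine Sylow.smul_eq_iff_mem_normalizer.2 (mem_normalizer_fintype fun a ha => ?_)
  have e := mul_mem (hV (h.mem ha)) ha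
  rwa [inv_mul_cancel_right] at e

theorem comm (hp : p.Prime) {V : Subgroup G} [V.Normal] (hV : IsPGroup p V)
    (hP : ∀ P : Sylow p G, Nat.card P = p * Nat.card V)
    (hpe : ∀ a, PE p a → a ∈ centralizer (V : Set G)) (P : Sylow p G) {a b : G} (ha : a ∈ P)
    (hb : b ∈ P) : Commute b a := by
  have hVP : V ≤ P := hV.le_sylow_of_normal P
  by_cases h : a ∈ V
  · exact (hpe b (pe_of_mem P.isPGroup' hb) a h).symm
  have h1 : V.relIndex P = p := by
    have e := (V.subgroupOf P).index_mul_card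
    rw [Nat.card_congr (subgroupOfEquivOfLe hVP).toEquiv] at e
    exact Nat.eq_of_mul_eq_mul_right Nat.card_pos (e.trans (hP P))
  have h2 : (P : Subgroup G) ≤ V ⊔ zpowers a :=
    le_of hp le_sup_left (sup_le hVP (zpowers_le.2 ha)) h1.dvd
      fun e => h (e (mem_sup_right (mem_zpowers a)))
  have h3 : V ⊔ zpowers a ≤ cen a :=
    sup_le (fun v hv => mem_cen.2 (hpe a (pe_of_mem P.isPGroup' ha) v hv))
      (zpowers_le.2 (mem_cen.2 (Commute.refl a)))
  exact mem_cen.1 (h3 (h2 hb))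

theorem out (hp : p.Prime) {V : Subgroup G} [V.Normal] (hV : IsPGroup p V)
    (hsq : ∀ g : G, ¬ p ^ 2 ∣ ix g) (hP : ∀ P : Sylow p G, Nat.card P = p * Nat.card V)
    (hpe : ∀ a, PE p a → a ∈ centralizer (V : Set G)) {g : G}
    (hg : g ∉ centralizer (V : Set G)) : ∃ P : Sylow p G, Tr V P g := by
  have := Fact.mk hp
  obtain ⟨u, hu, h, hh, pu, -, e⟩ := part hp g
  have hT : h ∉ centralizer (V : Set G) := fun c => hg (e ▸ mul_mem (hpe u pu) c)
  have huh : zpowers u ≤ cen h := by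
    obtain ⟨i, rfl⟩ := hu
    obtain ⟨j, rfl⟩ := hh
    exact zpowers_le.2 (mem_cen.2 (Commute.zpow_zpow_self g i j))
  obtain ⟨R, r1, r2, r3, r4⟩ := syl_in hp (pe_zp pu) huh
  obtain ⟨P, r5⟩ := r3.exists_le_sylow
  have hVP : V ≤ P := hV.le_sylow_of_normal P
  have h1 : R.relIndex P ∣ p := by
    obtain ⟨k, hk⟩ := P.isPGroup'.index (R.subgroupOf P)
    have h2 : ¬ p ^ 2 ∣ R.index := by
      rw [← relIndex_mul_index r2]
      exact fun d => hsq h
        ((((Nat.Prime.coprime_iff_not_dvd hp).2 r4).pow_left 2).dvd_of_dvd_mul_left d)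
    have h3 : p ^ k ∣ R.index := hk ▸ relIndex_dvd_index_of_le r5
    have h4 : k ≤ 1 := by
      by_contra c
      exact h2 ((pow_dvd_pow p (by omega)).trans h3)
    change (R.subgroupOf P).index ∣ p
    rw [hk]
    exact (pow_dvd_pow p h4).trans (pow_one p).dvd
  have h5 : (P : Subgroup G) ≤ R ⊔ V :=
    le_of hp le_sup_left (sup_le r5 hVP) h1
      fun c => hT fun v hv => mem_cen.1 (r2 (c (mem_sup_right hv)))
  have h6 : R ⊔ V ≤ (cen (QuotientGroup.mk' V g)).comap (QuotientGroup.mk' V) := by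
    refine sup_le (fun a ha => mem_comap.2 (mem_cen.2 (Commute.map ?_ _))) fun a ha => ?_
    · rw [e]
      exact (comm hp hV hP hpe P (r5 (r1 (mem_zpowers u))) (r5 ha)).mul_right (mem_cen.1 (r2 ha))
    · have e1 : QuotientGroup.mk' V a = 1 := (QuotientGroup.eq_one_iff a).2 ha
      rw [mem_comap, e1]
      exact one_mem _
  exact ⟨P, fun a ha => (mem_cen.1 (mem_comap.1 (h6 (h5 ha)))).symm⟩

theorem cent (hp : p.Prime) {V : Subgroup G} [V.Normal] (hV : IsPGroup p V)
    (hP : ∀ P : Sylow p G, Nat.card P = p * Nat.card V)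
    (hpe : ∀ a, PE p a → a ∈ centralizer (V : Set G)) (P : Sylow p G) {g : G}
    (hg : g ∈ centralizer (V : Set G)) (ht : Tr V P g) {a : G} (ha : a ∈ P) : Commute a g := by
  obtain ⟨u, hu, h, hh, pu, ph, e⟩ := part hp g
  have hN : g ∈ normalizer (P : Set G) :=
    Sylow.smul_eq_iff_mem_normalizer.1 (ht.norm (hV.le_sylow_of_normal P))
  have h1 : u ∈ P := by
    have e1 : u ∈ zpowers u ⊓ normalizer (P : Set G) := ⟨mem_zpowers u, zpowers_le.2 hN hu⟩
    rw [(pe_zp pu).inf_normalizer_sylow P] at e1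
    exact e1.2
  have h2 : Tr V P h := by
    obtain ⟨j, rfl⟩ := hh
    intro b hb
    beta_reduce
    rw [map_zpow]
    exact (ht b hb).zpow_left j
  have h3 := h2.mem ha
  have h4 : Commute h (h * a * h⁻¹ * a⁻¹) := (zpowers_le.2 hg hh _ h3).symm
  have h5 := conj_pow (a := a) (by group) h4 (orderOf h)
  rw [pow_orderOf_eq_one, one_mul, mul_one, right_eq_mul] at h5
  have h6 : orderOf (h * a * h⁻¹ * a⁻¹) = 1 :=
    Nat.eq_one_of_dvd_coprimes (pe_cop (pe_of_mem hV h3) ph.symm) dvd_rfl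
      (orderOf_dvd_of_pow_eq_one h5)
  rw [orderOf_eq_one_iff, mul_inv_eq_one, mul_inv_eq_iff_eq_mul] at h6
  rw [e]
  exact (comm hp hV hP hpe P h1 ha).mul_right h6.symm

theorem core {q : ℕ} (hp : p.Prime) (hq : q.Prime) (hpq : q ≠ p) (V : Subgroup G) [V.Normal]
    (hV : IsPGroup p V) (hsq : ∀ g : G, ¬ p ^ 2 ∣ ix g)
    (hP : ∀ P : Sylow p G, Nat.card P = p * Nat.card V)
    (hpe : ∀ a, PE p a → a ∈ centralizer (V : Set G))
    (hqe : ∀ a, PE q a → a ∈ centralizer (V : Set G)) {τ : G}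
    (hτ : τ ∉ centralizer (V : Set G)) (Q : Sylow q G) :
    ¬ p ∣ (normalizer (Q : Set G)).index := by
  have := Fact.mk hp
  have := Fact.mk hq
  set T : Subgroup G := centralizer (V : Set G) with hT
  have hle : ∀ P : Sylow p G, (P : Subgroup G) ≤ T := fun P a ha =>
    hpe a (pe_of_mem P.isPGroup' ha)
  have htr : ∀ a b : Sylow p G, ∃ t ∈ T, t • a = b := by
    intro a b
    obtain ⟨g, rfl⟩ := MulAction.exists_smul_eq G a b
    have e : g ∈ T ⊔ normalizer (a : Set G) := by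
      rw [sup_comm, Sylow.normalizer_sup_eq_top' a (hle a)]
      trivial
    obtain ⟨t, ht, n, hn, rfl⟩ := mem_sup_of_normal_left.1 e
    exact ⟨t, ht, by rw [mul_smul, Sylow.smul_eq_iff_mem_normalizer.2 hn]⟩
  have hout : ∀ t ∈ T, ∃ P : Sylow p G, Tr V P (τ * t) := fun t ht =>
    out hp hV hsq hP hpe fun c => hτ ((mul_mem_cancel_right ht).1 c)
  obtain ⟨P, hPτ⟩ := out hp hV hsq hP hpe hτ
  have hNC : ∀ g ∈ T, g • P = P → ∀ a ∈ P, Commute a g := by
    intro g hg hgP a ha
    obtain ⟨P', h'⟩ := hout g hg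
    obtain rfl : P = P' := uniq T htr τ
      (fun t ht => (hout t ht).imp fun x hx => hx.norm (hV.le_sylow_of_normal x)) hg
      (by rw [mul_smul, hgP, hPτ.norm (hV.le_sylow_of_normal P)])
      (h'.norm (hV.le_sylow_of_normal P'))
    refine cent hp hV hP hpe P hg (fun b hb => ?_) ha
    have e := (hPτ b hb).inv_left.mul_left (h' b hb)
    rwa [map_mul, inv_mul_cancel_left] at e
  have hB : normalizer ((P.subtype (hle P) : Sylow p T) : Set T) ≤
      centralizer ((P.subtype (hle P) : Sylow p T) : Set T) := by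
    intro g hg a ha
    refine Subtype.ext (hNC g g.2 (Sylow.smul_eq_iff_mem_normalizer.2
      (mem_normalizer_fintype fun b hb => ?_)) a ha)
    exact (hg ⟨b, hle P hb⟩).1 hb
  let f := MonoidHom.transferSylow (P.subtype (hle P)) hB
  have hk : ¬ p ∣ Nat.card f.ker := MonoidHom.not_dvd_card_ker_transferSylow _ hB
  have hin : ∀ t : T, PP p (t : G) → t ∈ f.ker := by
    intro t ht
    obtain ⟨k, e⟩ := (P.subtype (hle P)).isPGroup' (f t)
    have e1 : orderOf (f t) ∣ orderOf (t : G) := by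
      rw [Subgroup.orderOf_coe]
      exact orderOf_map_dvd f t
    rw [MonoidHom.mem_ker, ← orderOf_eq_one_iff]
    exact Nat.eq_one_of_dvd_coprimes (ht.pow_right k) e1 (orderOf_dvd_of_pow_eq_one e)
  let Y : Subgroup G := f.ker.map T.subtype
  have hY : Nat.card Y = Nat.card f.ker := card_map_of_injective T.subtype_injective
  have hYn : Y.Normal := by
    refine ⟨?_⟩
    rintro _ ⟨t, ht, rfl⟩ g
    refine ⟨⟨g * t * g⁻¹, Normal.conj_mem inferInstance _ t.2 g⟩, hin _ ?_, rfl⟩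
    have e : orderOf (g * t * g⁻¹) = orderOf t := by
      rw [← Subgroup.orderOf_coe]
      exact (MulAut.conj g).orderOf_eq (t : G)
    change (orderOf (g * t * g⁻¹)).Coprime p
    rw [e]
    exact ((Nat.Prime.coprime_iff_not_dvd hp).2 hk).symm.coprime_dvd_left
      (orderOf_dvd_natCard f.ker ht)
  have hQY : (Q : Subgroup G) ≤ Y := fun a ha =>
    ⟨⟨a, hqe a (pe_of_mem Q.isPGroup' ha)⟩,
      hin _ (pe_cop (pe_of_mem Q.isPGroup' ha) ((Nat.coprime_primes hq hp).2 hpq)), rfl⟩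
  have hF := Sylow.normalizer_sup_eq_top' Q hQY
  have e1 := relIndex_mul_index (inf_le_left : normalizer (Q : Set G) ⊓ Y ≤ _)
  rw [← relIndex_mul_index (inf_le_right : normalizer (Q : Set G) ⊓ Y ≤ _), inf_relIndex_left,
    ← relIndex_sup_right, hF, relIndex_top_right, mul_comm] at e1
  rw [Nat.eq_of_mul_eq_mul_right (Nat.pos_of_ne_zero Y.index_ne_zero_of_finite) e1]
  exact fun d => hk (hY ▸ d.trans (relIndex_dvd_card _ _))

end FBx

open R3x in
theorem rowFB (h1 : RowR1) (h3 : RowR3) : RowFB := by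
  intro G _ _ Pi p m n q hx hq hPq _ hN hR hV hn
  obtain ⟨hpe, hR | ⟨v, hv, ov, nv, cv, -⟩⟩ := hR
  · exact fun a ha => hR (subset_closure ha)
  exfalso
  obtain ⟨pp, -, pn⟩ := hx.pr p (Finset.mem_insert_self _ _)
  obtain ⟨qp, qn, -⟩ := hx.pr q (Finset.mem_insert_of_mem hq)
  have lt := hx.lt q hq
  have hsq : ∀ g : G, ¬ p ^ 2 ∣ ix g := fun g => hx.sq g p (Finset.mem_insert_self _ _)
  have hc : q.Coprime (p - 1) := by
    rw [Nat.Prime.coprime_iff_not_dvd qp]
    rintro ⟨k, hk⟩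
    have h2 := qp.two_le
    have k1 : k = 1 := by
      rcases k with _ | _ | k
      · omega
      · rfl
      · have : q * 2 ≤ q * (k + 1 + 1) := Nat.mul_le_mul_left q (by omega)
        omega
    subst k1
    rcases pp.eq_two_or_odd with e | e <;> rcases qp.eq_two_or_odd with e' | e' <;> omega
  have hqe : ∀ a : G, PE q a → a ∈ centralizer (closure (SmP G p m) : Set G) := by
    intro a ha w hw
    refine ((h1 G p _ ⊤ a pp hV le_top le_normalizer_of_normal trivial ?_).2
      (pe_cop ha ((Nat.coprime_primes qp pp).2 lt.ne)) (pe_cop ha hc) w hw).symm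
    rw [relIndex_top_right]
    exact hsq a
  obtain ⟨Q⟩ : Nonempty (Sylow q G) := inferInstance
  obtain ⟨R, -, r2, -, r4⟩ := hPq Q
  have hVR : R = closure (SmP G p m) := by
    ext a
    rw [r2]
    constructor
    · rintro ⟨pa, ca⟩
      have e := (h3 G).1 p v pp hsq ov nv cv a pa
      exact subset_closure ⟨pa, e, hx.sm1 a q hq e
        (not_dvd qp (Q := Q) fun b hb => mem_cen.2 (ca b hb))⟩
    · exact fun ha => ⟨pe_of_mem hV ha, fun b hb =>
        (hqe b (pe_of_mem Q.isPGroup' hb) a ha).symm⟩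
  have hτ : ∃ τ : G, τ ∉ centralizer (closure (SmP G p m) : Set G) := by
    by_contra c
    push Not at c
    exact cv (mem_center_iff.2 fun g => (c g v hv).symm)
  obtain ⟨τ, hτ⟩ := hτ
  exact FBx.core pp qp lt.ne _ hV hsq (hVR ▸ r4) (fun a ha w hw => (hpe a ha w hw).symm) hqe hτ Q
    (hN Q)

end Pool.Agent.MP_62c071_al.H57
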