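import Pool.Agent.MP_62c071_al.H57.Spec

/-! Row GAM: few primes have a normal Sylow subgroup. -/

set_option autoImplicit false

namespace Pool.Agent.MP_62c071_al.H57

open Subgroup

namespace GAMx

variable {G : Type} [Group G] [Finite G]

theorem tau (N : ℕ) : N.divisors.card ^ 2 ≤ 4 * N := by
  have h : N.divisors ⊆ Finset.Icc 1 N.sqrt ∪ (Finset.Icc 1 N.sqrt).image (N / ·) := by
    intro d hd
    obtain ⟨⟨e, rfl⟩, h0⟩ := Nat.mem_divisors.1 hd
    have d0 := Nat.pos_of_ne_zero (left_ne_zero_of_mul h0)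
    have e0 := Nat.pos_of_ne_zero (right_ne_zero_of_mul h0)
    rw [Finset.mem_union, Finset.mem_image]
    rcases Nat.le_sqrt_of_eq_mul (rfl : d * e = d * e) with q | q
    · exact Or.inl (Finset.mem_Icc.2 ⟨d0, q⟩)
    · exact Or.inr ⟨e, Finset.mem_Icc.2 ⟨e0, q⟩, Nat.mul_div_cancel _ e0⟩
  have h1 := (Finset.card_le_card h).trans ((Finset.card_union_le _ _).trans
    (Nat.add_le_add_left Finset.card_image_le _))
  rw [Nat.card_Icc, Nat.add_sub_cancel] at h1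
  have h2 := Nat.sqrt_le' N
  nlinarith

theorem spread (B : Finset ℕ) (d n : ℕ) (hd : 0 < d)
    (h : ∀ q ∈ B, d ∣ q - 1 ∧ n + 1 < 2 * q ∧ q ≤ n) : 2 * (B.card - 1) * d ≤ n := by
  rcases B.eq_empty_or_nonempty with rfl | hB
  · simp
  have h0 := h _ (B.min'_mem hB)
  have h1 := h _ (B.max'_mem hB)
  have h2 := B.min'_le_max' hB
  obtain ⟨u, hu⟩ := h0.1
  obtain ⟨w, hw⟩ := h1.1
  have h3 : B.card ≤ (Finset.Icc u w).card := by
    refine Finset.card_le_card_of_injOn (fun q => (q - 1) / d) (fun q hq => ?_) fun q hq r hr e => ?_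
    · have a1 := B.min'_le q hq
      have a2 := B.le_max' q hq
      refine Finset.mem_coe.2 (Finset.mem_Icc.2 ⟨(Nat.le_div_iff_mul_le hd).2 ?_,
        Nat.div_le_of_le_mul ?_⟩)
      · rw [mul_comm, ← hu]; omega
      · rw [← hw]; omega
    · have a1 := Nat.div_mul_cancel (h q hq).1
      have a2 := Nat.div_mul_cancel (h r hr).1
      have a3 := (h q hq).2.1
      have a4 := (h r hr).2.1
      simp only at e
      rw [e, a2] at a1
      omega
  rw [Nat.card_Icc] at h3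
  have h4 : (B.card - 1) * d ≤ (w - u) * d := Nat.mul_le_mul_right _ (by omega)
  rw [Nat.sub_mul w, mul_comm w, mul_comm u, ← hu, ← hw] at h4
  rw [mul_assoc]
  omega

theorem count (B : Finset ℕ) (T : ℕ → Subgroup G) (A W : Subgroup G) [A.Normal]
    (hN : ∀ i ∈ B, (T i).Normal) (hW : ∀ i ∈ B, ∀ x ∈ A, x ∈ T i ↔ x ∈ W)
    (inj : ∀ i ∈ B, ∀ j ∈ B, T i ≤ T j → i = j) (g : G)
    (hg : ∀ x : G, ∃ k : ℤ, (x : G ⧸ A) = (g : G ⧸ A) ^ k) :
    B.card ≤ A.index.divisors.card * W.relIndex A := by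
  have key : ∀ i, ∃ (e : ℕ) (t : A), i ∈ B → e ∈ A.index.divisors ∧ g ^ e * (t : G)⁻¹ ∈ T i ∧
      ∀ x ∈ T i, ∃ k : ℤ, x⁻¹ * (g ^ e * (t : G)⁻¹) ^ k ∈ A := fun i => by
    by_cases hi : i ∈ B
    swap
    · exact ⟨0, 1, fun h => absurd h hi⟩
    have _i := hN i hi
    have he : ∀ k : ℤ, g ^ k ∈ T i ⊔ A ↔ (orderOf (g : G ⧸ (T i ⊔ A)) : ℤ) ∣ k := fun k => by
      rw [orderOf_dvd_iff_zpow_eq_one, ← QuotientGroup.mk_zpow, QuotientGroup.eq_one_iff]
    obtain ⟨s, hs, t, ht, e⟩ := mem_sup_of_normal_right.1 ((he _).2 dvd_rfl)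
    rw [zpow_natCast] at e
    refine ⟨orderOf (g : G ⧸ (T i ⊔ A)), ⟨t, ht⟩, fun _ => ⟨Nat.mem_divisors.2
      ⟨Int.natCast_dvd_natCast.1 ((he _).1 (mem_sup_right ?_)), A.index_ne_zero_of_finite⟩,
      by simpa [← e] using hs, fun x hx => ?_⟩⟩
    · rw [zpow_natCast]
      exact A.pow_index_mem g
    · obtain ⟨k, hk⟩ := hg x
      have : x⁻¹ * g ^ k ∈ A := QuotientGroup.eq.1 hk
      obtain ⟨l, rfl⟩ := (he k).1 (by simpa using mul_mem_sup hx this)
      refine ⟨l, QuotientGroup.eq.1 ?_⟩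
      rw [hk, zpow_mul, QuotientGroup.mk_zpow, QuotientGroup.mk_mul, QuotientGroup.mk_inv,
        (QuotientGroup.eq_one_iff t).2 ht, inv_one, mul_one, zpow_natCast, QuotientGroup.mk_pow]
  choose e t h using key
  let _i := Fintype.ofFinite (A ⧸ W.subgroupOf A)
  rw [relIndex, index, index, Nat.card_eq_fintype_card (α := A ⧸ W.subgroupOf A), ← Finset.card_univ,
    ← Finset.card_product]
  refine Finset.card_le_card_of_injOn (fun i => (e i, (t i : A ⧸ W.subgroupOf A)))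
    (fun i hi => Finset.mem_coe.2 (Finset.mem_product.2 ⟨(h i hi).1, Finset.mem_univ _⟩))
    fun i hi j hj q => inj i hi j hj fun x hx => ?_
  obtain ⟨q1, q2⟩ := Prod.mk.inj q
  obtain ⟨k, hk⟩ := (h i hi).2.2 x hx
  have a1 : ((t i : G))⁻¹ * t j ∈ T j :=
    (hW j hj _ (A.mul_mem (A.inv_mem (t i).2) (t j).2)).2 (mem_subgroupOf.1 (QuotientGroup.eq.1 q2))
  have a2 : g ^ e i * (t i : G)⁻¹ ∈ T j := by
    have := (T j).mul_mem (h j hj).2.1 ((hN j hj).mem_comm a1)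
    rwa [← q1, mul_assoc, inv_mul_cancel_left] at this
  have a3 := (hW j hj _ hk).2 ((hW i hi _ hk).1
    ((T i).mul_mem ((T i).inv_mem hx) ((T i).zpow_mem (h i hi).2.1 k)))
  exact (T j).inv_mem_iff.1 (((T j).mul_mem_cancel_right ((T j).zpow_mem a2 k)).1 a3)

theorem le_syl {q : ℕ} [Fact q.Prime] (Q : Sylow q G) (hQ : (Q : Subgroup G).Normal)
    {H : Subgroup G} (hH : IsPGroup q H) : H ≤ Q := by
  obtain ⟨R, hR⟩ := hH.exists_le_sylow
  let _i := Sylow.unique_of_normal Q hQ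
  rwa [Subsingleton.elim R Q] at hR

theorem oq_eq {q : ℕ} [Fact q.Prime] (Q : Sylow q G) (hQ : (Q : Subgroup G).Normal) :
    Oq q (⊤ : Subgroup G) = Q := by
  have : ∀ S : Sylow q (⊤ : Subgroup G), (S : Subgroup (⊤ : Subgroup G)).map (⊤ : Subgroup G).subtype
      = Q := fun S => by
    rw [← S.is_maximal' (Q.isPGroup'.comap_of_injective _ (subtype_injective _))
      (map_le_iff_le_comap.1 (le_syl Q hQ (S.isPGroup'.map _))),
      map_comap_eq_self (by rw [range_subtype]; exact le_top)]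
  simp only [Oq, this, iInf_const]

theorem syl_le {q : ℕ} [Fact q.Prime] (Q : Sylow q G) (hQ : (Q : Subgroup G).Normal)
    (H : Subgroup G) : (Q : Subgroup G) ≤ H ↔ ¬ q ∣ H.index := by
  refine ⟨fun h e => Q.not_dvd_index (e.trans (index_dvd_of_le h)), fun h y hy => ?_⟩
  obtain ⟨c, hc⟩ := Q.isPGroup'.nonempty_fixed_point_of_prime_not_dvd_card (G ⧸ H) h
  obtain ⟨g, rfl⟩ := QuotientGroup.mk_surjective c
  have : ((g * y * g⁻¹ * g : G) : G ⧸ H) = g := hc ⟨_, hQ.conj_mem y hy g⟩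
  simpa using QuotientGroup.eq.1 this.symm

theorem tq (h3 : RowR3) {Pi : Finset ℕ} {p m n q : ℕ} (h : HX G Pi p m n) (hq : q ∈ Pi)
    (Q : Sylow q G) (hQ : (Q : Subgroup G).Normal) : ∃ T : Subgroup G,
      (∀ g, g ∈ T ↔ ¬ q ∣ ix g) ∧ T.index ∣ q - 1 ∧ ∃ _ : T.Normal, ∃ g : G,
        ∀ x : G, ∃ k : ℤ, (x : G ⧸ T) = (g : G ⧸ T) ^ k := by
  have pr := (h.pr q (Finset.mem_insert_of_mem hq)).1
  have := Fact.mk pr
  obtain ⟨r1, r2⟩ := (h3 G).2 Pi p m n h
  obtain ⟨w, ⟨a, w1⟩, w2, -⟩ := r1 q (Finset.mem_insert_of_mem hq)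
  have r3 := (r2 q hq).1.2
  rw [oq_eq Q hQ] at r3
  obtain ⟨v, -, v2, v3, -, v5⟩ := r3.resolve_left fun e => w2 (e (le_syl Q hQ
    (IsPGroup.of_card_dvd_pow (n := a) (by
      rw [Nat.card_zpowers]; exact orderOf_dvd_of_pow_eq_one w1)) (mem_zpowers w)))
  have cv : Nat.card (zpowers v) = q := by rw [Nat.card_zpowers, v2]
  let χ : G →* MulAut (zpowers v) := MulAut.conjNormal
  have hk : χ.ker = centralizer ((Q : Subgroup G) : Set G) := by
    rw [← v5]
    ext g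
    rw [MonoidHom.mem_ker, cen, mem_centralizer_singleton_iff]
    refine ⟨fun e => ?_, fun e => MulEquiv.ext fun x => Subtype.ext ?_⟩
    · have := congrArg Subtype.val (DFunLike.congr_fun e ⟨v, mem_zpowers v⟩)
      exact mul_inv_eq_iff_eq_mul.1 this
    obtain ⟨_, k, rfl⟩ := x
    exact mul_inv_eq_iff_eq_mul.2 ((show Commute g v from e).zpow_right k)
  have : IsCyclic (ZMod (Nat.card (zpowers v)))ˣ := by
    rw [cv]; exact ZMod.isCyclic_units_prime pr
  have : IsCyclic (MulAut (zpowers v)) :=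
    isCyclic_of_surjective _ (IsCyclic.mulAutMulEquiv (zpowers v)).symm.surjective
  refine ⟨χ.ker, fun g => ?_, ?_, inferInstance, ?_⟩
  · rw [hk, ix, ← syl_le Q hQ]
    exact ⟨fun e y hy => mem_centralizer_singleton_iff.2 (e y hy),
      fun e y hy => mem_centralizer_singleton_iff.1 (e hy)⟩
  · rw [index_ker, ← Nat.totient_prime pr, ← cv, ← IsCyclic.card_mulAut]
    exact card_subgroup_dvd_card _
  · obtain ⟨c, hc⟩ := (isCyclic_of_injective _ (QuotientGroup.kerLift_injective χ)).exists_generator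
    obtain ⟨g, rfl⟩ := QuotientGroup.mk_surjective c
    exact ⟨g, fun x => (hc x).imp fun _ e => e.symm⟩

end GAMx

open GAMx in
theorem rowGAM (h3 : RowR3) : RowGAM := by
  intro G _ _ Pi p m n h B hB hQ
  rcases Nat.lt_or_ge B.card 3 with c | c
  · rw [show B.card - 2 = 0 by omega]
    simp
  have ne : B.Nonempty := Finset.card_pos.1 (by omega)
  have ex : ∀ q, ∃ T : Subgroup G, q ∈ B → (∀ g, g ∈ T ↔ ¬ q ∣ ix g) ∧ T.index ∣ q - 1 ∧
      ∃ _ : T.Normal, ∃ g : G, ∀ x : G, ∃ k : ℤ, (x : G ⧸ T) = (g : G ⧸ T) ^ k := fun q => by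
    by_cases hq : q ∈ B
    · obtain ⟨Q, e⟩ := hQ q hq
      obtain ⟨T, hT⟩ := tq h3 h (hB hq) Q e
      exact ⟨T, fun _ => hT⟩
    · exact ⟨⊤, fun e => absurd e hq⟩
  choose T hT using ex
  have ha := B.max'_mem ne
  generalize hm : B.max' ne = a at ha
  have lt : ∀ q ∈ B.erase a, q ∈ B ∧ q < a := fun q hq => ⟨Finset.mem_of_mem_erase hq,
    lt_of_le_of_ne (hm ▸ B.le_max' q (Finset.mem_of_mem_erase hq)) (Finset.ne_of_mem_erase hq)⟩
  have ce := Finset.card_erase_of_mem ha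
  obtain ⟨b, hb⟩ : (B.erase a).Nonempty := Finset.card_pos.1 (by omega)
  have tw : ∀ q ∈ B.erase a, ∀ r ∈ B.erase a, ∀ x ∈ T a, x ∈ T q → x ∈ T r :=
    fun q hq r hr x h1 h2 => ((hT r (lt r hr).1).1 x).2 (h.two x q (hB (lt q hq).1) a
      (Finset.mem_insert_of_mem (hB ha)) (lt q hq).2 (((hT q (lt q hq).1).1 x).1 h2)
      (((hT a ha).1 x).1 h1) r (hB (lt r hr).1) (lt r hr).2.le)
  obtain ⟨-, a2, a3, g, hg⟩ := hT a ha
  have c1 := count (B.erase a) T (T a) (T b) (fun q hq => (hT q (lt q hq).1).2.2.1)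
    (fun q hq x hx => ⟨tw q hq b hb x hx, tw b hb q hq x hx⟩) (fun q hq r hr e => by
      obtain ⟨y, y1, y2, -⟩ := h.key q (Finset.mem_insert_of_mem (hB (lt q hq).1))
      by_contra f
      exact ((hT r (lt r hr).1).1 y).1 (e (((hT q (lt q hq).1).1 y).2 y1))
        (y2 r (Finset.mem_insert_of_mem (hB (lt r hr).1)) (Ne.symm f))) g hg
  have c2 := spread (B.erase a) ((T b).relIndex (T a)) n
    (Nat.pos_of_ne_zero ((T b).subgroupOf (T a)).index_ne_zero_of_finite) fun q hq => ⟨by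
      obtain ⟨-, b2, b3, -⟩ := hT q (lt q hq).1
      have : (T b).subgroupOf (T a) = (T q).subgroupOf (T a) :=
        Subgroup.ext fun x => ⟨tw b hb q hq x x.2, tw q hq b hb x x.2⟩
      rw [relIndex, this]
      exact (relIndex_dvd_index_of_normal _ _).trans b2,
      (h.pr q (Finset.mem_insert_of_mem (hB (lt q hq).1))).2⟩
  have c3 := tau (T a).index
  obtain ⟨p1, -, p3⟩ := h.pr a (Finset.mem_insert_of_mem (hB ha))
  have c4 : (T a).index ≤ n := (Nat.le_of_dvd (by have := p1.two_le; omega) a2).trans (by omega)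
  rw [ce, show B.card - 1 - 1 = B.card - 2 by omega] at c2
  have c5 : B.card - 2 ≤ (T a).index.divisors.card * (T b).relIndex (T a) := by omega
  generalize B.card - 2 = u at c2 c5 ⊢
  generalize (T a).index.divisors.card = t at c3 c5
  generalize (T b).relIndex (T a) = d at c2 c5
  have c6 : 2 * u ^ 2 ≤ n * t := calc
    2 * u ^ 2 = 2 * u * u := by ring
    _ ≤ 2 * u * (t * d) := Nat.mul_le_mul_left _ c5
    _ = 2 * u * d * t := by ring
    _ ≤ n * t := Nat.mul_le_mul_right _ c2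
  have c7 : 4 * u ^ 4 ≤ 4 * n ^ 3 := calc
    4 * u ^ 4 = (2 * u ^ 2) ^ 2 := by ring
    _ ≤ (n * t) ^ 2 := Nat.pow_le_pow_left c6 2
    _ = n ^ 2 * t ^ 2 := by ring
    _ ≤ n ^ 2 * (4 * n) := Nat.mul_le_mul_left _ (c3.trans (by omega))
    _ = 4 * n ^ 3 := by ring
  omega

end Pool.Agent.MP_62c071_al.H57
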