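import Pool.Agent.MP_62c071_al.H57.Spec

/-! Row PB: primes whose largest normal subgroups grow on passing to `W` force a large index. -/

set_option autoImplicit false

namespace Pool.Agent.MP_62c071_al.H57

open Subgroup

namespace PBx

section basic

variable {G : Type} [Group G]

theorem mem_Oq {q : ℕ} {U : Subgroup G} {v : G} :
    v ∈ Oq q U ↔ ∀ S : Sylow q U, ∃ s ∈ (S : Subgroup U), (s : G) = v := by
  simp only [Oq, mem_iInf, mem_map, coe_subtype]

theorem oq_le (q : ℕ) (U : Subgroup G) : Oq q U ≤ U := by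
  intro v hv
  obtain ⟨S⟩ : Nonempty (Sylow q U) := inferInstance
  obtain ⟨s, -, rfl⟩ := mem_Oq.1 hv S
  exact s.2

theorem oq_pgroup (q : ℕ) (U : Subgroup G) : IsPGroup q (Oq q U) := by
  obtain ⟨S⟩ : Nonempty (Sylow q U) := inferInstance
  exact (S.isPGroup'.map U.subtype).to_le (iInf_le _ S)

theorem oq_conj_mem {q : ℕ} {U : Subgroup G} {u v : G} (hu : u ∈ U) (hv : v ∈ Oq q U) :
    u * v * u⁻¹ ∈ Oq q U := by
  rw [mem_Oq] at hv ⊢
  intro S
  obtain ⟨s, hs, rfl⟩ := hv ((⟨u, hu⟩ : U)⁻¹ • S)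
  rw [Sylow.coe_subgroup_smul, mem_pointwise_smul_iff_inv_smul_mem] at hs
  refine ⟨(⟨u, hu⟩ : U) * s * (⟨u, hu⟩ : U)⁻¹, ?_, rfl⟩
  simpa using hs

theorem le_oq {q : ℕ} {V U : Subgroup G} (hV : IsPGroup q V) (hle : V ≤ U)
    (hn : ∀ u ∈ U, ∀ v ∈ V, u * v * u⁻¹ ∈ V) : V ≤ Oq q U := by
  intro v hv
  rw [mem_Oq]
  intro S
  have : (V.subgroupOf U).Normal := ⟨fun n hn' g => by
    rw [mem_subgroupOf] at hn' ⊢
    exact hn g g.2 n hn'⟩
  have h := (hV.comap_subtype (K := U)).le_sylow_of_normal (N := V.subgroupOf U) S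
  exact ⟨⟨v, hle hv⟩, h (show (⟨v, hle hv⟩ : U) ∈ V.subgroupOf U from hv), rfl⟩

theorem pe_of_mem {q : ℕ} {N : Subgroup G} (hN : IsPGroup q N) {n : G} (hn : n ∈ N) :
    PE q n := by
  obtain ⟨k, hk⟩ := hN ⟨n, hn⟩
  exact ⟨k, congrArg Subtype.val hk⟩

theorem pe_conj {q : ℕ} {n : G} (hn : PE q n) (u : G) : PE q (u⁻¹ * n * u) := by
  obtain ⟨k, hk⟩ := hn
  refine ⟨k, ?_⟩
  have := conj_pow (i := q ^ k) (a := u⁻¹) (b := n)
  rw [inv_inv] at this
  rw [this, hk]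
  simp

theorem mem_fixed {W N : Subgroup G} {u : G} :
    (u : G ⧸ W) ∈ MulAction.fixedPoints N (G ⧸ W) ↔ ∀ n ∈ N, u⁻¹ * n * u ∈ W := by
  rw [MulAction.mem_fixedPoints]
  constructor
  · intro h n hn
    have h1 : ((n * u : G) : G ⧸ W) = (u : G ⧸ W) := h ⟨n, hn⟩
    rw [eq_comm, QuotientGroup.eq] at h1
    simpa [mul_assoc] using h1
  · intro h n
    show (((n : G) * u : G) : G ⧸ W) = (u : G ⧸ W)
    rw [eq_comm, QuotientGroup.eq]
    simpa [mul_assoc] using h n n.2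

/-- a `q`-subgroup is conjugate into a subgroup of index prime to `q` -/
theorem exists_conj_into {q : ℕ} (hq : q.Prime) {W N : Subgroup G} (hN : IsPGroup q N)
    (hW : ¬ q ∣ W.index) : ∃ u : G, ∀ n ∈ N, u⁻¹ * n * u ∈ W := by
  have := Fact.mk hq
  obtain ⟨x, hx⟩ := hN.nonempty_fixed_point_of_prime_not_dvd_card (G ⧸ W) hW
  obtain ⟨u, rfl⟩ := QuotientGroup.mk_surjective x
  exact ⟨u, mem_fixed.1 hx⟩

theorem exists_conj_rel {q : ℕ} (hq : q.Prime) {W U N : Subgroup G} (hN : IsPGroup q N)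
    (hNU : N ≤ U) (hW : ¬ q ∣ W.relIndex U) : ∃ u ∈ U, ∀ n ∈ N, u⁻¹ * n * u ∈ W := by
  obtain ⟨u, hu⟩ := exists_conj_into hq (W := W.subgroupOf U) (hN.comap_subtype (K := U)) hW
  refine ⟨u, u.2, fun n hn => ?_⟩
  have := hu ⟨n, hNU hn⟩ hn
  rwa [mem_subgroupOf] at this

theorem oq_anti {q : ℕ} (hq : q.Prime) {W U : Subgroup G} (hWU : W ≤ U)
    (hW : ¬ q ∣ W.relIndex U) : Oq q U ≤ Oq q W := by
  refine le_oq (oq_pgroup q U) ?_ fun u hu v hv => oq_conj_mem (hWU hu) hv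
  obtain ⟨u, hu, h⟩ := exists_conj_rel hq (oq_pgroup q U) (oq_le q U) hW
  intro v hv
  have := h _ (oq_conj_mem hu hv)
  simpa [mul_assoc] using this

theorem pgroup_zpowers {q : ℕ} {a : G} (ha : PE q a) : IsPGroup q (zpowers a) := by
  obtain ⟨k, hk⟩ := ha
  rintro ⟨x, i, rfl⟩
  refine ⟨k, Subtype.ext ?_⟩
  show (a ^ i) ^ q ^ k = 1
  rw [← zpow_natCast, ← zpow_mul, mul_comm, zpow_mul, zpow_natCast, hk, one_zpow]

/-- if all conjugates under `U` of `O_q(W)` lie in `W` then `O_q(W) ≤ O_q(U)` -/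
theorem oq_le_of_core {q : ℕ} {W U : Subgroup G} (hWU : W ≤ U)
    (h : ∀ u ∈ U, ∀ n ∈ Oq q W, u⁻¹ * n * u ∈ W) : Oq q W ≤ Oq q U := by
  let C : Subgroup G :=
    { carrier := {w | ∀ u ∈ U, u⁻¹ * w * u ∈ W}
      mul_mem' := fun {a b} ha hb u hu => by
        have := W.mul_mem (ha u hu) (hb u hu)
        simpa [mul_assoc] using this
      one_mem' := fun u _ => by simp
      inv_mem' := fun {a} ha u hu => by
        have := W.inv_mem (ha u hu)
        simpa [mul_assoc] using this }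
  have hC : ∀ w, w ∈ C ↔ ∀ u ∈ U, u⁻¹ * w * u ∈ W := fun _ => Iff.rfl
  have hCW : C ≤ W := fun w hw => by simpa using (hC w).1 hw 1 U.one_mem
  have hCn : ∀ u ∈ U, ∀ w ∈ C, u * w * u⁻¹ ∈ C := fun u hu w hw => (hC _).2 fun x hx => by
    have := (hC w).1 hw (u⁻¹ * x) (U.mul_mem (U.inv_mem hu) hx)
    simpa [mul_assoc] using this
  have h1 : Oq q W ≤ Oq q C :=
    le_oq (oq_pgroup q W) (fun n hn => (hC n).2 fun u hu => h u hu n hn)
      fun c hc v hv => oq_conj_mem (hCW hc) hv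
  refine h1.trans (le_oq (oq_pgroup q C) ((oq_le q C).trans (hCW.trans hWU)) fun u hu v hv => ?_)
  have h2 : (Oq q C).map (MulAut.conj u).toMonoidHom ≤ Oq q C := by
    refine le_oq ((oq_pgroup q C).map _) ?_ ?_
    · rintro _ ⟨x, hx, rfl⟩
      exact hCn u hu x (oq_le q C hx)
    · rintro c hc _ ⟨x, hx, rfl⟩
      refine ⟨(u⁻¹ * c * u⁻¹⁻¹) * x * (u⁻¹ * c * u⁻¹⁻¹)⁻¹,
        oq_conj_mem (hCn _ (U.inv_mem hu) c hc) hx, ?_⟩
      simp [mul_assoc]
  exact h2 ⟨v, hv, rfl⟩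

end basic

/-- the counting of fixed cosets -/
theorem core (H : Type) [Group H] [Finite H] (W : Subgroup H) (B : Finset ℕ)
    (N : ℕ → Subgroup H) (hp : ∀ q ∈ B, q.Prime) (hN : ∀ q ∈ B, IsPGroup q (N q))
    (hcen : ∀ q ∈ B, ∀ g : H, (∀ n ∈ N q, Commute g n) → g ∈ W)
    (hnc : ∀ q ∈ B, ∃ u : H, ∃ n ∈ N q, u⁻¹ * n * u ∉ W)
    (hcom : ∀ q ∈ B, ∀ r ∈ B, q ≠ r → ∀ a ∈ W, PE r a → ∀ v ∈ N q, Commute a v) :
    2 ^ B.card ≤ W.index := by
  classical
  rcases B.eq_empty_or_nonempty with rfl | ⟨q₀, hq₀⟩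
  · exact Nat.pos_of_ne_zero (index_ne_zero_of_finite (H := W))
  let f : ℕ → ℕ := fun q => Nat.card (MulAction.fixedPoints (N q) (H ⧸ W))
  let F : ℕ → Set H := fun q => QuotientGroup.mk ⁻¹' (MulAction.fixedPoints (N q) (H ⧸ W))
  have hF : ∀ q, Nat.card (F q) = Nat.card W * f q := fun q =>
    QuotientGroup.card_preimage_mk W _
  have hmem : ∀ q u, u ∈ F q ↔ ∀ n ∈ N q, u⁻¹ * n * u ∈ W := fun q u => mem_fixed
  have hinv : ∀ q ∈ B, ∀ r ∈ B, q ≠ r → ∀ u ∈ F q, u⁻¹ ∈ F r := by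
    intro q hq r hr hqr u hu
    rw [hmem] at hu ⊢
    intro v hv
    refine hcen q hq _ fun n hn => ?_
    have h1 := hcom r hr q hq hqr.symm _ (hu n hn) (pe_conj (pe_of_mem (hN q hq) hn) u) v hv
    have h2 := congrArg (fun x => u * x * u⁻¹) h1.eq
    simp only [Commute, SemiconjBy, inv_inv]
    simpa [mul_assoc] using h2.symm
  have hle : ∀ q ∈ B, ∀ r ∈ B, f q ≤ f r := by
    intro q hq r hr
    by_cases hqr : q = r
    · rw [hqr]
    have h1 : Nat.card (F q) ≤ Nat.card (F r) :=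
      Nat.card_le_card_of_injective (fun u : F q => (⟨(u : H)⁻¹, hinv q hq r hr hqr u u.2⟩ : F r))
        fun a b hab => Subtype.ext (inv_injective (congrArg Subtype.val hab))
    rw [hF, hF] at h1
    exact Nat.le_of_mul_le_mul_left h1 Nat.card_pos
  have hlt : f q₀ < W.index := by
    obtain ⟨u, n, hn, hu⟩ := hnc q₀ hq₀
    have hne : MulAction.fixedPoints (N q₀) (H ⧸ W) ≠ Set.univ := by
      intro h
      have : (u : H ⧸ W) ∈ MulAction.fixedPoints (N q₀) (H ⧸ W) := h ▸ Set.mem_univ _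
      exact hu (mem_fixed.1 this n hn)
    have := Set.ncard_lt_ncard (Set.ssubset_univ_iff.2 hne) Set.finite_univ
    rwa [Set.ncard_univ] at this
  have hdvd : ∀ q ∈ B, q ∣ W.index - f q₀ := by
    intro q hq
    have := Fact.mk (hp q hq)
    have h1 := (hN q hq).card_modEq_card_fixedPoints (H ⧸ W)
    have h2 : f q = f q₀ := le_antisymm (hle q hq q₀ hq₀) (hle q₀ hq₀ q hq)
    rw [← h2]
    exact (Nat.modEq_iff_dvd' (h2 ▸ hlt.le)).1 h1.symm
  have hprod : ∏ q ∈ B, q ∣ W.index - f q₀ :=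
    Finset.prod_primes_dvd _ (fun q hq => (hp q hq).prime) hdvd
  calc 2 ^ B.card ≤ ∏ q ∈ B, q :=
        Finset.pow_card_le_prod B (fun q => q) 2 fun q hq => (hp q hq).two_le
    _ ≤ W.index - f q₀ := Nat.le_of_dvd (Nat.sub_pos_of_lt hlt) hprod
    _ ≤ W.index := Nat.sub_le _ _

theorem main (G : Type) [Group G] [Finite G] : ∀ (n : ℕ) (W : Subgroup G) (B : Finset ℕ),
    W.index = n → (∀ q ∈ B, q.Prime ∧ ¬ q ∣ W.index ∧ Oq q W ≠ Oq q ⊤) →
    (∀ q ∈ B, ∀ r ∈ B, q ≠ r → ∀ a ∈ W, PE r a → ∀ v ∈ Oq q W, Commute a v) →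
    2 ^ B.card ≤ W.index := by
  classical
  intro n
  induction n using Nat.strong_induction_on with
  | _ n ih =>
  intro W B hn h1 h2
  rcases B.eq_empty_or_nonempty with rfl | ⟨q₀, hq₀⟩
  · exact Nat.pos_of_ne_zero (index_ne_zero_of_finite (H := W))
  have hW : W < ⊤ := lt_top_iff_ne_top.2 fun h => (h1 q₀ hq₀).2.2 (by rw [h])
  obtain ⟨U, hU, -⟩ := exists_covBy_le_of_lt hW
  have hWU : W ≤ U := hU.le
  have hmul : W.relIndex U * U.index = W.index := relIndex_mul_index hWU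
  have hrel : ∀ q ∈ B, ¬ q ∣ W.relIndex U := fun q hq h =>
    (h1 q hq).2.1 (hmul ▸ h.mul_right _)
  have hlt : U.index < n := hn ▸ index_strictAnti hU.lt
  have hB2 : 2 ^ (B.filter fun q => Oq q U = Oq q W).card ≤ U.index := by
    refine ih _ hlt U _ rfl (fun q hq => ?_) fun q hq r hr hqr a ha hra v hv => ?_
    · obtain ⟨hq, he⟩ := Finset.mem_filter.1 hq
      exact ⟨(h1 q hq).1, fun h => (h1 q hq).2.1 (hmul ▸ h.mul_left _), he ▸ (h1 q hq).2.2⟩
    · obtain ⟨hq, he⟩ := Finset.mem_filter.1 hq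
      obtain ⟨hr, -⟩ := Finset.mem_filter.1 hr
      obtain ⟨u, hu, h⟩ := exists_conj_rel (h1 r hr).1 (pgroup_zpowers hra)
        (zpowers_le.2 ha) (hrel r hr)
      have h3 : u⁻¹ * v * u⁻¹⁻¹ ∈ Oq q W := he ▸ oq_conj_mem (U.inv_mem hu) hv
      have h4 := h2 q hq r hr hqr _ (h a (mem_zpowers a)) (pe_conj hra u) _ h3
      have h5 := congrArg (fun x => u * x * u⁻¹) h4.eq
      simp only [Commute, SemiconjBy]
      simpa [mul_assoc] using h5
  have hB1 : 2 ^ (B.filter fun q => ¬ Oq q U = Oq q W).card ≤ W.relIndex U := by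
    refine core U (W.subgroupOf U) _ (fun q => (Oq q W).subgroupOf U) (fun q hq => ?_)
      (fun q _ => (oq_pgroup q W).comap_subtype) (fun q hq g hg => ?_) (fun q hq => ?_)
      fun q hq r hr hqr a ha hra v hv => ?_
    · exact (h1 q (Finset.mem_filter.1 hq).1).1
    · obtain ⟨hq, he⟩ := Finset.mem_filter.1 hq
      have hWM : W ≤ U ⊓ normalizer (Oq q W : Set G) := fun w hw =>
        ⟨hWU hw, mem_normalizer_iff.2 fun v => ⟨fun hv => oq_conj_mem hw hv, fun hv => by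
          have := oq_conj_mem (W.inv_mem hw) hv
          simpa [mul_assoc] using this⟩⟩
      rcases hU.eq_or_eq hWM inf_le_left with h | h
      · rw [mem_subgroupOf, ← h]
        have hc : ∀ v ∈ Oq q W, (g : G) * v = v * g := fun v hv =>
          congrArg Subtype.val (hg ⟨v, hWU (oq_le q W hv)⟩ hv).eq
        refine ⟨g.2, mem_normalizer_iff.2 fun v => ⟨fun hv => ?_, fun hv => ?_⟩⟩
        · rw [hc v hv]
          simpa using hv
        · have h3 := hc _ hv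
          have h4 : (g : G) * v * (g : G)⁻¹ = v := by
            have h5 : (g : G) * ((g : G) * v * (g : G)⁻¹) = g * v := by
              rw [h3]
              simp
            exact mul_left_cancel h5
          exact h4 ▸ hv
      · exfalso
        refine he (le_antisymm (oq_anti (h1 q hq).1 hWU (hrel q hq)) ?_)
        refine le_oq (oq_pgroup q W) ((oq_le q W).trans hWU) fun u hu v hv => ?_
        have h3 : u ∈ U ⊓ normalizer (Oq q W : Set G) := h.symm ▸ hu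
        exact (mem_normalizer_iff.1 h3.2 v).1 hv
    · obtain ⟨hq, he⟩ := Finset.mem_filter.1 hq
      by_contra hc
      push Not at hc
      refine he (le_antisymm (oq_anti (h1 q hq).1 hWU (hrel q hq)) ?_)
      refine oq_le_of_core hWU fun u hu v hv => ?_
      have := hc ⟨u, hu⟩ ⟨v, hWU (oq_le q W hv)⟩ hv
      rwa [mem_subgroupOf] at this
    · obtain ⟨k, hk⟩ := hra
      exact Subtype.ext (h2 q (Finset.mem_filter.1 hq).1 r (Finset.mem_filter.1 hr).1 hqr a ha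
        ⟨k, congrArg Subtype.val hk⟩ v hv).eq
  rw [← Finset.card_filter_add_card_filter_not (s := B) (fun q => Oq q U = Oq q W), pow_add,
    ← hmul, mul_comm]
  exact Nat.mul_le_mul hB1 hB2

end PBx

theorem rowPB : RowPB := fun G _ _ W B h1 h2 => PBx.main G _ W B rfl h1 h2

end Pool.Agent.MP_62c071_al.H57
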