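import Pool.Agent.MP_62c071_al.H57.Spec

/-! Row R1: an element that acts on a normal `q`-subgroup. -/

set_option autoImplicit false

namespace Pool.Agent.MP_62c071_al.H57

open Subgroup

namespace R1x

theorem relIndex_dvd {H : Type} [Group H] [Finite H] (C N : Subgroup H) [N.Normal] :
    C.relIndex N ∣ C.index := by
  obtain ⟨t, ht⟩ := relIndex_dvd_index_of_normal N C
  have h1 := relIndex_mul_index (inf_le_right : C ⊓ N ≤ N)
  have h2 := relIndex_mul_index (inf_le_left : C ⊓ N ≤ C)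
  rw [inf_relIndex_right, ht] at h1
  rw [inf_relIndex_left, ← h1, mul_left_comm] at h2
  exact ⟨t, Nat.eq_of_mul_eq_mul_left (Nat.pos_of_ne_zero FiniteIndex.index_ne_zero) h2⟩

theorem mem_cen {G : Type} [Group G] {g x : G} : x ∈ cen g ↔ Commute g x := by
  rw [cen, mem_centralizer_singleton_iff]
  exact eq_comm

end R1x

open R1x

theorem rowR1 : RowR1 := by
  intro G _ _ q V W g hq hV hVW hWN hg hsq
  have := Fact.mk hq
  obtain ⟨k, hk⟩ := hV.exists_card_eq
  have h1 : (cen g).relIndex V ∣ q := by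
    have := (normal_subgroupOf_iff_le_normalizer hVW).2 hWN
    have h2 := relIndex_dvd ((cen g).subgroupOf W) (V.subgroupOf W)
    rw [relIndex_subgroupOf hVW] at h2
    obtain ⟨j, -, hj⟩ := (Nat.dvd_prime_pow hq).1 (hk ▸ index_dvd_card ((cen g).subgroupOf V))
    have hj' : (cen g).relIndex V = q ^ j := hj
    rw [hj'] at h2 ⊢
    have : j ≤ 1 := by
      by_contra h
      exact hsq ((pow_dvd_pow q (by omega)).trans h2)
    simpa using pow_dvd_pow q this
  refine ⟨h1, fun hp hc v hv => ?_⟩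
  rcases (Nat.dvd_prime hq).1 h1 with h | h
  · exact mem_cen.1 (relIndex_eq_one.1 h hv)
  obtain ⟨C, hC⟩ : ∃ C : Subgroup V, C = (cen g).subgroupOf V := ⟨_, rfl⟩
  have hi : C.index = q := hC ▸ h
  have hm : ∀ x : V, x ∈ C ↔ Commute g x := fun x => by rw [hC, mem_subgroupOf, mem_cen]
  have hk0 : k ≠ 0 := by
    rintro rfl
    have := index_dvd_card C
    rw [hi, hk, pow_zero] at this
    exact hq.not_dvd_one this
  have : C.Normal := normal_of_index_eq_minFac_card (by rw [hi, hk, hq.pow_minFac hk0])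
  have : IsCyclic (V ⧸ C) := isCyclic_of_prime_card hi
  obtain ⟨e, he⟩ : ∃ e : MulAut V, e = V.normalizerMonoidHom ⟨g, hWN hg⟩ := ⟨_, rfl⟩
  have he1 : ∀ x : V, (e x : G) = g * x * g⁻¹ := fun x => by rw [he]; rfl
  have he2 : e ^ orderOf g = 1 := by
    rw [he, ← map_pow, show (⟨g, hWN hg⟩ : normalizer (V : Set G)) ^ orderOf g = 1 from
      Subtype.ext (pow_orderOf_eq_one g), map_one]
  have hf : ∀ x ∈ C, e x = x := fun x hx =>
    Subtype.ext (by rw [he1, ((hm x).1 hx).eq, mul_inv_cancel_right])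
  have hmap : C.map (e : V →* V) = C := by
    ext x
    exact ⟨fun ⟨y, hy, hx⟩ => by rw [← hx]; exact (hf y hy).symm ▸ hy, fun hx => ⟨x, hx, hf x hx⟩⟩
  obtain ⟨φ, hφ⟩ : ∃ φ : MulAut (V ⧸ C), ∀ x : V, φ x = (e x : V) :=
    ⟨QuotientGroup.congr C C e hmap, fun _ => rfl⟩
  have hφn : ∀ (n : ℕ) (x : V), (φ ^ n) x = ((e ^ n) x : V) := fun n => by
    induction n with
    | zero => exact fun _ => rfl
    | succ n ih => exact fun x => by rw [pow_succ, pow_succ, MulAut.mul_apply, hφ, ih]; rfl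
  have h2 : orderOf φ ∣ orderOf g := orderOf_dvd_of_pow_eq_one (MulEquiv.ext fun x => by
    induction x using QuotientGroup.induction_on with
    | H x => rw [hφn, he2]; rfl)
  have h3 : orderOf φ ∣ q - 1 := by
    rw [← Nat.totient_prime hq, ← hi, index_eq_card, ← IsCyclic.card_mulAut]
    exact orderOf_dvd_natCard φ
  have h4 : φ = 1 := orderOf_eq_one_iff.1 (Nat.eq_one_of_dvd_coprimes hc h2 h3)
  have h5 := hφ ⟨v, hv⟩
  rw [h4, MulAut.one_apply, QuotientGroup.eq] at h5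
  obtain ⟨c, hc'⟩ : ∃ c : V, c = (⟨v, hv⟩ : V)⁻¹ * e ⟨v, hv⟩ := ⟨_, rfl⟩
  have h6 : (c : G) * g = v⁻¹ * g * v⁻¹⁻¹ := by
    rw [hc', coe_mul, he1]
    simp [mul_assoc]
  have h7 : (c : G) ^ orderOf g = 1 := by
    have := congrArg (· ^ orderOf g) h6
    simpa only [((hm c).1 (hc' ▸ h5)).symm.mul_pow, conj_pow, pow_orderOf_eq_one, mul_one,
      mul_inv_cancel] using this
  have h8 : (c : G) ^ q ^ k = 1 := by
    rw [← hk, ← coe_pow, pow_card_eq_one', coe_one]
  have h9 : (c : G) = 1 := orderOf_eq_one_iff.1 (Nat.eq_one_of_dvd_coprimes (hp.pow_right k)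
    (orderOf_dvd_of_pow_eq_one h7) (orderOf_dvd_of_pow_eq_one h8))
  rw [h9, one_mul, inv_inv] at h6
  change g * v = v * g
  conv_rhs => rw [h6]
  simp [mul_assoc]

end Pool.Agent.MP_62c071_al.H57
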