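import Pool.Agent.MP_62c071_al.H57.Spec

/-! Row R2: the lemma on reflections. -/

set_option autoImplicit false

namespace Pool.Agent.MP_62c071_al.H57

open Subgroup

namespace R2x

section core

variable {G M : Type} [Group G] [CommGroup M] (ρ : G →* MulAut M)

/-- the map `x ↦ g x / x` -/
def ph (g : G) : M →* M := (ρ g).toMonoidHom / MonoidHom.id M

theorem ph_apply (g : G) (x : M) : ph ρ g x = ρ g x / x := rfl

theorem mem_ker_ph {g : G} {x : M} : x ∈ (ph ρ g).ker ↔ ρ g x = x := by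
  rw [MonoidHom.mem_ker, ph_apply, div_eq_one]

theorem act_eq (g : G) (x : M) : ρ g x = ph ρ g x * x := by rw [ph_apply, div_mul_cancel]

theorem act_mul (g h : G) (x : M) : ρ (g * h) x = ρ g (ρ h x) := by
  rw [map_mul, MulAut.mul_apply]

theorem act_pow {k : G} {x : M} (h : ρ k (ph ρ k x) = ph ρ k x) (j : ℕ) :
    ρ (k ^ j) x = ph ρ k x ^ j * x := by
  induction j with
  | zero => simp
  | succ j ih =>
    rw [pow_succ', act_mul, ih, map_mul, map_pow, h, act_eq ρ k x, pow_succ, mul_assoc]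

theorem act_pow' {a : G} {l : M} {i : ℕ} (h : ρ a l = l ^ i) (j : ℕ) :
    ρ (a ^ j) l = l ^ i ^ j := by
  induction j with
  | zero => simp
  | succ j ih => rw [pow_succ', act_mul, ih, map_pow, h, ← pow_mul, pow_succ']

variable {q : ℕ} [hq : Fact q.Prime]

theorem qfix {a : G} (ha : PE q a) {l : M} (hl : l ^ q = 1) {i : ℕ} (h : ρ a l = l ^ i) :
    ρ a l = l := by
  obtain ⟨n, hn⟩ := ha
  have h1 := act_pow' ρ h (q ^ n)
  rw [hn, map_one, MulAut.one_apply] at h1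
  have h2 : i ^ q ^ n ≡ i [MOD q] := by
    rw [← ZMod.natCast_eq_natCast_iff, Nat.cast_pow, ZMod.pow_card_pow]
  rw [h, ← pow_eq_pow_of_modEq h2 hl, ← h1]

theorem gen_of_card {L : Subgroup M} (hL : Nat.card L = q) {l y : M} (hl : l ∈ L) (h1 : l ≠ 1)
    (hy : y ∈ L) : ∃ i : ℕ, y = l ^ i := by
  obtain ⟨i, hi⟩ := mem_powers_of_prime_card (g := (⟨l, hl⟩ : L)) (g' := ⟨y, hy⟩) hL
    fun h => h1 (congrArg Subtype.val h)
  exact ⟨i, (congrArg Subtype.val hi).symm⟩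

theorem eq_of_card {L L' : Subgroup M} (hL : Nat.card L = q) (hL' : Nat.card L' = q) {l : M}
    (hl : l ∈ L) (hl' : l ∈ L') (h1 : l ≠ 1) : L = L' := by
  refine le_antisymm (fun y hy => ?_) fun y hy => ?_
  · obtain ⟨i, rfl⟩ := gen_of_card hL hl h1 hy
    exact pow_mem hl' i
  · obtain ⟨i, rfl⟩ := gen_of_card hL' hl' h1 hy
    exact pow_mem hl i

variable {ρ} (hf : ∀ g, (ph ρ g).ker.index ∣ q)
include hf

omit hq in
theorem ph_pow (g : G) (x : M) : ph ρ g x ^ q = 1 := by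
  obtain ⟨c, hc⟩ := hf g
  rw [index_ker] at hc
  have := pow_card_eq_one' (x := (⟨ph ρ g x, x, rfl⟩ : (ph ρ g).range))
  have h2 : ph ρ g x ^ Nat.card (ph ρ g).range = 1 := congrArg Subtype.val this
  rw [hc, pow_mul, h2, one_pow]

theorem idx {g : G} (hg : ρ g ≠ 1) : (ph ρ g).ker.index = q := by
  refine ((Nat.dvd_prime hq.1).1 (hf g)).resolve_left fun h => hg ?_
  rw [index_eq_one] at h
  ext x
  exact (mem_ker_ph ρ).1 (h ▸ mem_top x)

theorem crd {g : G} (hg : ρ g ≠ 1) : Nat.card (ph ρ g).range = q := by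
  rw [← index_ker, idx hf hg]

theorem ker_eq {g h : G} (hg : ρ g ≠ 1) (hh : ρ h ≠ 1) (hle : (ph ρ g).ker ≤ (ph ρ h).ker) :
    (ph ρ g).ker = (ph ρ h).ker := by
  have := relIndex_mul_index hle
  rw [idx hf hg, idx hf hh, mul_eq_right₀ hq.1.ne_zero, relIndex_eq_one] at this
  exact le_antisymm hle this

theorem dich {g h : G} (hg : ρ g ≠ 1) (hh : ρ h ≠ 1) (hne : (ph ρ g).ker ≠ (ph ρ h).ker) :
    (ph ρ g).range = (ph ρ h).range := by
  obtain ⟨x, hx, hx'⟩ := SetLike.not_le_iff_exists.1 fun hle => hne (ker_eq hf hh hg hle).symm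
  obtain ⟨y, hy, hy'⟩ := SetLike.not_le_iff_exists.1 fun hle => hne (ker_eq hf hg hh hle)
  have e1 : ph ρ (g * h) x = ph ρ g x := by
    rw [ph_apply, ph_apply, act_mul, (mem_ker_ph ρ).1 hx]
  have n1 : ρ (g * h) ≠ 1 := fun h0 => hx' (by
    rw [MonoidHom.mem_ker, ← e1, ph_apply, h0, MulAut.one_apply, div_self'])
  have e2 : (ph ρ (g * h)).range = (ph ρ g).range :=
    eq_of_card (crd hf n1) (crd hf hg) ⟨x, e1⟩ ⟨x, rfl⟩ hx'
  have e3 : ρ g (ph ρ h y) ∈ (ph ρ g).range := by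
    rw [← e2]
    exact ⟨y, by rw [ph_apply, ph_apply, act_mul, map_div, (mem_ker_ph ρ).1 hy]⟩
  have e4 : ph ρ h y ∈ (ph ρ g).range := by
    rw [act_eq] at e3
    exact (Subgroup.mul_mem_cancel_left _ (MonoidHom.mem_range.2 ⟨_, rfl⟩)).1 e3
  exact eq_of_card (crd hf hg) (crd hf hh) e4 ⟨y, rfl⟩ hy'

theorem nil [Finite G] (h1 : ∀ a, PE q a → ρ a = 1) {k : G} {x : M}
    (h : ρ k (ph ρ k x) = ph ρ k x) : ρ k x = x := by
  obtain ⟨e, m, hm, he⟩ := Nat.exists_eq_pow_mul_and_not_dvd (orderOf_pos k).ne' q hq.1.ne_one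
  have h2 := act_pow ρ h m
  rw [h1 (k ^ m) ⟨e, by rw [← pow_mul, mul_comm, ← he, pow_orderOf_eq_one]⟩, MulAut.one_apply,
    right_eq_mul] at h2
  have h3 : orderOf (ph ρ k x) ∣ 1 := by
    rw [← (hq.1.coprime_iff_not_dvd.2 hm).gcd_eq_one]
    exact Nat.dvd_gcd (orderOf_dvd_of_pow_eq_one (ph_pow hf k x)) (orderOf_dvd_of_pow_eq_one h2)
  exact (mem_ker_ph ρ).1 (orderOf_eq_one_iff.1 (Nat.dvd_one.1 h3))

theorem core [Finite G] (S : Set M) (hS : closure S = ⊤)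
    (hs : ∀ s ∈ S, ∀ a, PE q a → ∃ g, ρ a (ρ g s) = ρ g s) :
    (∀ a, PE q a → ρ a = 1) ∧ ((∀ g, ρ g = 1) ∨ ∃ v : M, orderOf v = q ∧
      (∀ g, ∃ i : ℕ, ρ g v = v ^ i) ∧ ∀ g, ρ g v = v → ρ g = 1) := by
  have top : ∀ g, (∀ s ∈ S, ρ g s = s) → ρ g = 1 := fun g h => by
    have : closure S ≤ (ph ρ g).ker := (closure_le _).2 fun s hs => (mem_ker_ph ρ).2 (h s hs)
    ext x
    exact (mem_ker_ph ρ).1 (this (hS ▸ mem_top x))
  by_cases hall : ∀ g, ρ g = 1
  · exact ⟨fun a _ => hall a, .inl hall⟩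
  push Not at hall
  obtain ⟨g₀, h₀⟩ := hall
  obtain ⟨x, hx⟩ : ∃ x, x ∉ (ph ρ g₀).ker := by
    by_contra! h
    exact h₀ (top _ fun s _ => (mem_ker_ph ρ).1 (h s))
  have hv : ph ρ g₀ x ≠ 1 := hx
  have hvq := ph_pow hf g₀ x
  by_cases hB : ∀ k, ρ k ≠ 1 → (ph ρ k).ker = (ph ρ g₀).ker
  · have fx : ∀ k, ∀ c ∈ (ph ρ g₀).ker, ρ k c = c := fun k c hc => by
      by_cases hk : ρ k = 1
      · rw [hk, MulAut.one_apply]
      · exact (mem_ker_ph ρ).1 (hB k hk ▸ hc)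
    have h1 : ∀ a, PE q a → ρ a = 1 := fun a ha => by
      by_contra hna
      refine h₀ (top _ fun s hs' => ?_)
      obtain ⟨g, hg⟩ := hs s hs' a ha
      have h2 : ρ g s ∈ (ph ρ g₀).ker := hB a hna ▸ (mem_ker_ph ρ).2 hg
      have h3 := fx g⁻¹ _ h2
      rw [← act_mul, inv_mul_cancel, map_one, MulAut.one_apply] at h3
      exact (mem_ker_ph ρ).1 (h3 ▸ h2)
    have hvC : ph ρ g₀ x ∉ (ph ρ g₀).ker := fun h =>
      hx ((mem_ker_ph ρ).2 (nil hf h1 ((mem_ker_ph ρ).1 h)))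
    set v := ph ρ g₀ x with hvd
    refine ⟨h1, .inr ⟨v, orderOf_eq_prime hvq hv, fun h => ?_, fun g hg => ?_⟩⟩
    · obtain ⟨i, hi⟩ : ∃ i : ℕ, ρ g₀ v = v ^ i :=
        gen_of_card (crd hf h₀) ⟨x, rfl⟩ hv (by
          rw [act_eq]
          exact mul_mem ⟨_, rfl⟩ ⟨x, rfl⟩)
      obtain ⟨j, hj⟩ := mem_powers_of_prime_card (G := M ⧸ (ph ρ g₀).ker)
        (g := (v : M ⧸ (ph ρ g₀).ker)) (g' := (ρ h v : M)) (idx hf h₀)
        fun h => hvC ((QuotientGroup.eq_one_iff v).1 h)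
      have hj' : (v ^ j)⁻¹ * ρ h v ∈ (ph ρ g₀).ker := QuotientGroup.eq.1 hj
      set c := (v ^ j)⁻¹ * ρ h v with hc
      have e0 : ρ h v = v ^ j * c := by rw [hc, mul_inv_cancel_left]
      have hcq : c ^ q = 1 := by
        rw [hc, mul_pow, ← map_pow (ρ h), hvq, map_one, inv_pow, ← pow_mul, mul_comm j, pow_mul, hvq,
          one_pow, inv_one, one_mul]
      have e1 : ρ (g₀ * h) v = v ^ (i * j) * c := by
        rw [act_mul, e0, map_mul, map_pow, hi, fx _ _ hj', pow_mul]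
      have e2 : ρ (h * g₀) v = v ^ (i * j) * c ^ i := by
        rw [act_mul, hi, map_pow, e0, mul_pow, ← pow_mul, mul_comm j]
      have hd : c / c ^ i ∈ (ph ρ g₀).ker := div_mem hj' (pow_mem hj' i)
      have e3 : ph ρ ((h * g₀)⁻¹ * (g₀ * h)) v = c / c ^ i := by
        have e4 : ρ (g₀ * h) v = ρ (h * g₀) (c / c ^ i * v) := by
          rw [map_mul (ρ (h * g₀)), fx _ _ hd, e1, e2, mul_comm (v ^ (i * j)) (c ^ i),
            ← mul_assoc (c / c ^ i), div_mul_cancel, mul_comm]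
        rw [ph_apply, act_mul, e4, ← act_mul, inv_mul_cancel, map_one, MulAut.one_apply,
          mul_div_cancel_right]
      have e5 := nil hf h1 (k := (h * g₀)⁻¹ * (g₀ * h)) (x := v) (by rw [e3, fx _ _ hd])
      have e6 : c ^ i = c ^ 1 := by
        have := (mem_ker_ph ρ).2 e5
        rw [MonoidHom.mem_ker, e3, div_eq_one] at this
        rw [pow_one, ← this]
      by_cases hc1 : c = 1
      · exact ⟨j, by rw [e0, hc1, mul_one]⟩
      · rw [pow_eq_pow_iff_modEq, orderOf_eq_prime hcq hc1] at e6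
        exact (hvC ((mem_ker_ph ρ).2 (by rw [hi, pow_eq_pow_of_modEq e6 hvq, pow_one]))).elim
    · by_contra hg1
      exact hvC (hB g hg1 ▸ (mem_ker_ph ρ).2 hg)
  · push Not at hB
    obtain ⟨h₁, n₁, k₁⟩ := hB
    have hL : ∀ k y, ph ρ k y ∈ (ph ρ g₀).range := fun k y => by
      by_cases hk : ρ k = 1
      · rw [ph_apply, hk, MulAut.one_apply, div_self']
        exact one_mem _
      · by_cases hk' : (ph ρ k).ker = (ph ρ g₀).ker
        · rw [← dich hf n₁ h₀ k₁, ← dich hf hk n₁ (hk' ▸ k₁.symm)]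
          exact ⟨y, rfl⟩
        · rw [← dich hf hk h₀ hk']
          exact ⟨y, rfl⟩
    have hpow : ∀ g, ∃ i : ℕ, ρ g (ph ρ g₀ x) = ph ρ g₀ x ^ i := fun g =>
      gen_of_card (crd hf h₀) ⟨x, rfl⟩ hv (by
        rw [act_eq]
        exact mul_mem (hL _ _) ⟨x, rfl⟩)
    have hfix : ∀ g, ρ g (ph ρ g₀ x) = ph ρ g₀ x → ∀ k y, ρ g (ph ρ k y) = ph ρ k y :=
      fun g hg k y => by
        obtain ⟨i, hi⟩ := gen_of_card (crd hf h₀) ⟨x, rfl⟩ hv (hL k y)
        rw [hi, map_pow, hg]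
    have h1 : ∀ a, PE q a → ρ a = 1 := fun a ha => top _ fun s hs' => by
      obtain ⟨g, hg⟩ := hs s hs' a ha
      obtain ⟨i, hi⟩ := hpow a
      rwa [act_eq ρ g s, map_mul, hfix a (qfix ρ ha hvq hi), mul_right_inj] at hg
    exact ⟨h1, .inr ⟨_, orderOf_eq_prime hvq hv, hpow,
      fun g hg => top _ fun s _ => nil hf h1 (hfix g hg g s)⟩⟩

end core

theorem syl_le {G : Type} [Group G] [Finite G] {q : ℕ} [Fact q.Prime] {s : G} (h : ¬ q ∣ ix s) :
    ∃ Q : Sylow q G, (Q : Subgroup G) ≤ cen s := by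
  let P : Sylow q (cen s) := default
  refine ⟨(P.isPGroup'.map (cen s).subtype).toSylow ?_, map_subtype_le _⟩
  rw [index_map_subtype]
  exact fun hd => ((Nat.Prime.dvd_mul Fact.out).1 hd).elim P.not_dvd_index h

theorem mem_cen {G : Type} [Group G] {g a : G} : a ∈ cen g ↔ a * g = g * a :=
  mem_centralizer_singleton_iff

theorem conj_fix {G : Type} [Group G] [Finite G] {q : ℕ} [Fact q.Prime] {s a : G}
    (h : ¬ q ∣ ix s) (ha : PE q a) : ∃ g : G, a * (g * s * g⁻¹) * a⁻¹ = g * s * g⁻¹ := by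
  obtain ⟨Q, hQ⟩ := syl_le h
  obtain ⟨n, hn⟩ := ha
  have hp : IsPGroup q (zpowers a) := by
    rintro ⟨_, i, rfl⟩
    refine ⟨n, Subtype.ext ?_⟩
    change (a ^ i) ^ q ^ n = 1
    rw [← zpow_natCast, ← zpow_mul, mul_comm, zpow_mul, zpow_natCast, hn, one_zpow]
  obtain ⟨Q', hQ'⟩ := hp.exists_le_sylow
  obtain ⟨g, rfl⟩ := MulAction.exists_smul_eq G Q Q'
  obtain ⟨b, hb, e⟩ := hQ' (mem_zpowers a)
  have e' : g * b * g⁻¹ = a := e
  have e2 := mem_cen.1 (hQ hb)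
  refine ⟨g, ?_⟩
  rw [← e']
  calc g * b * g⁻¹ * (g * s * g⁻¹) * (g * b * g⁻¹)⁻¹ = g * (b * s) * b⁻¹ * g⁻¹ := by group
    _ = g * s * g⁻¹ := by rw [e2]; group

end R2x

open R2x in
theorem rowR2 (h1 : RowR1) : RowR2 := by
  intro G _ _ q S hq hN hP hS hsq
  have : Fact q.Prime := ⟨hq⟩
  have hcen : ∀ s ∈ S, closure S ≤ cen s := fun s hs => by
    obtain ⟨Q, hQ⟩ := syl_le (hS s hs)
    exact (hP.le_sylow_of_normal Q).trans hQ
  have hcomm : ∀ a ∈ closure S, ∀ b ∈ closure S, a * b = b * a := fun a ha b hb => by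
    have : closure S ≤ cen a := (closure_le _).2 fun s hs =>
      mem_cen.2 (mem_cen.1 (hcen s hs ha)).symm
    exact (mem_cen.1 (this hb)).symm
  let _ : CommGroup (closure S) :=
    { (inferInstance : Group (closure S)) with
      mul_comm := fun a b => Subtype.ext (hcomm a a.2 b b.2) }
  have hap : ∀ (g : G) (x : closure S),
      (MulAut.conjNormal g : MulAut (closure S)) x = x ↔ g * x = x * g := fun g x => by
    rw [Subtype.ext_iff, MulAut.conjNormal_apply, mul_inv_eq_iff_eq_mul]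
  have hone : ∀ g : G, (MulAut.conjNormal g : MulAut (closure S)) = 1 ↔
      ∀ v ∈ closure S, g * v = v * g := fun g =>
    ⟨fun h v hv => (hap g ⟨v, hv⟩).1 (by rw [h, MulAut.one_apply]),
      fun h => MulEquiv.ext fun x => (hap g x).2 (h x x.2)⟩
  have hf : ∀ g : G, (ph (M := closure S) MulAut.conjNormal g).ker.index ∣ q := fun g => by
    have h2 := (h1 G q (closure S) ⊤ g hq hP le_top (normalizer_eq_top _).ge (mem_top g)
      (by rw [relIndex_top_right]; exact hsq g)).1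
    have h3 : (ph (M := closure S) MulAut.conjNormal g).ker = (cen g).subgroupOf (closure S) :=
      Subgroup.ext fun x => ((mem_ker_ph _).trans (hap g x)).trans
        (eq_comm.trans (mem_subgroupOf.trans mem_cen).symm)
    rw [h3]
    exact h2
  have hs : ∀ s ∈ ((↑) ⁻¹' S : Set (closure S)), ∀ a : G, PE q a → ∃ g : G,
      (MulAut.conjNormal a : MulAut (closure S)) ((MulAut.conjNormal g : MulAut (closure S)) s) =
        (MulAut.conjNormal g : MulAut (closure S)) s := fun s hs a ha => by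
    obtain ⟨g, hg⟩ := conj_fix (hS s hs) ha
    exact ⟨g, Subtype.ext (by simpa only [MulAut.conjNormal_apply] using hg)⟩
  obtain ⟨c1, c2⟩ := core hf _ (closure_preimage_eq_top S) hs
  refine ⟨fun a ha v hv => (hone a).1 (c1 a ha) v hv, ?_⟩
  by_cases hZ : closure S ≤ center G
  · exact .inl hZ
  rcases c2 with c2 | ⟨v, o, n, f⟩
  · exact (hZ fun v hv => mem_center_iff.2 fun g => (hone g).1 (c2 g) v hv).elim
  refine .inr ⟨v, v.2, by rwa [orderOf_coe], ⟨?_⟩, fun hv => hZ fun w hw => ?_, ?_⟩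
  · rintro _ ⟨i, rfl⟩ g
    obtain ⟨j, hj⟩ := n g
    have hj' : g * v * g⁻¹ = (v : G) ^ j := by
      simpa only [MulAut.conjNormal_apply, SubmonoidClass.coe_pow] using congrArg Subtype.val hj
    change g * (v : G) ^ i * g⁻¹ ∈ _
    rw [← conj_zpow, hj']
    exact zpow_mem (pow_mem (mem_zpowers _) j) i
  · exact mem_center_iff.2 fun g =>
      (hone g).1 (f g ((hap g v).2 (mem_center_iff.1 hv g))) w hw
  · refine le_antisymm (fun g hg => mem_centralizer_iff.2 fun w hw => ?_)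
      fun g hg => mem_cen.2 (mem_centralizer_iff.1 hg v v.2).symm
    exact ((hone g).1 (f g ((hap g v).2 (mem_cen.1 hg))) w hw).symm

end Pool.Agent.MP_62c071_al.H57
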