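import Pool.Agent.MP_62c071_al.H57.Spec

/-! Row R3 of Lemma X: central elements of Sylow subgroups. -/

set_option autoImplicit false

namespace Pool.Agent.MP_62c071_al.H57

open Subgroup

namespace R3x

variable {G : Type} [Group G] {q : ℕ}

theorem mem_cen {g a : G} : a ∈ cen g ↔ Commute a g := mem_centralizer_singleton_iff

theorem ix_dvd {a b : G} (h : cen a ≤ cen b) : ix b ∣ ix a := index_dvd_of_le h

theorem ix_conj (g u : G) : ix (g * u * g⁻¹) = ix u := by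
  have h : cen u = (cen (g * u * g⁻¹)).comap (MulAut.conj g).toMonoidHom := by
    ext a
    rw [mem_comap, mem_cen, mem_cen]
    exact (commute_map_iff (f := MulAut.conj g) (MulAut.conj g).injective).symm
  rw [ix, ix, h, index_comap_of_surjective _ (MulAut.conj g).surjective]

theorem zp_le {a b : G} (h : b ∈ zpowers a) : cen a ≤ cen b := by
  obtain ⟨i, rfl⟩ := h
  exact fun x hx => mem_cen.2 ((mem_cen.1 hx).zpow_right i)

theorem cop {a b : G} {n : ℕ} (h : Commute a b) (ha : a ^ n = 1) (hn : n.Coprime (orderOf b)) :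
    cen (a * b) ≤ cen b := by
  have h1 : b ^ n ∈ zpowers (a * b) := by
    rw [← one_mul (b ^ n), ← ha, ← h.mul_pow]
    exact npow_mem_zpowers _ _
  exact (zp_le h1).trans (zp_le (mem_zpowers_pow_iff.2 hn))

theorem pe_of_mem {P : Subgroup G} (hP : IsPGroup q P) {a : G} (ha : a ∈ P) : PE q a := by
  obtain ⟨k, hk⟩ := hP ⟨a, ha⟩
  exact ⟨k, congrArg Subtype.val hk⟩

theorem pe_zp {a : G} (ha : PE q a) : IsPGroup q (zpowers a) := by
  obtain ⟨k, hk⟩ := ha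
  rintro ⟨_, i, rfl⟩
  refine ⟨k, Subtype.ext ?_⟩
  change (a ^ i) ^ q ^ k = 1
  rw [← zpow_natCast, ← zpow_mul, mul_comm, zpow_mul, zpow_natCast, hk, one_zpow]

theorem pe_cop {a : G} (ha : PE q a) {n : ℕ} (h : q.Coprime n) : (orderOf a).Coprime n := by
  obtain ⟨k, hk⟩ := ha
  exact (h.pow_left k).coprime_dvd_left (orderOf_dvd_of_pow_eq_one hk)

theorem mem_Oq {v : G} : v ∈ Oq q (⊤ : Subgroup G) ↔ ∀ Q : Sylow q G, v ∈ Q := by
  rw [Oq, mem_iInf]
  constructor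
  · intro h Q
    obtain ⟨x, hx, rfl⟩ := h (Q.subtype le_top)
    exact hx
  · intro h S
    obtain ⟨Q, hQ⟩ := S.exists_comap_subtype_eq
    exact ⟨⟨v, trivial⟩, by rw [← hQ]; exact h Q, rfl⟩

theorem mem_smul (g x : G) (Q : Sylow q G) : g * x * g⁻¹ ∈ g • Q ↔ x ∈ Q := by
  change MulAut.conj g • x ∈ ((g • Q : Sylow q G) : Subgroup G) ↔ x ∈ (Q : Subgroup G)
  rw [Sylow.coe_subgroup_smul, smul_mem_pointwise_smul_iff]

theorem Oq_normal : (Oq q (⊤ : Subgroup G)).Normal :=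
  ⟨fun v hv g => mem_Oq.2 fun Q => by
    rw [← smul_inv_smul g Q, mem_smul]
    exact mem_Oq.1 hv _⟩

theorem Oq_pg : IsPGroup q (Oq q (⊤ : Subgroup G)) :=
  (default : Sylow q G).isPGroup'.to_le fun _ hv => mem_Oq.1 hv _

variable [Finite G]

theorem part (hq : q.Prime) (y : G) : ∃ u ∈ zpowers y, ∃ h ∈ zpowers y, PE q u ∧ PP q h ∧
    y = u * h := by
  obtain ⟨k, m, h1, h2⟩ := Nat.exists_eq_pow_mul_and_not_dvd (orderOf_pos y).ne' q hq.ne_one
  have h3 : (q ^ k).Coprime m := ((Nat.Prime.coprime_iff_not_dvd hq).2 h1).pow_left k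
  obtain ⟨a, b, h4⟩ := Nat.isCoprime_iff_coprime.2 h3
  have h5 : y ^ ((q ^ k : ℕ) * (m : ℤ)) = 1 := by
    rw [← Nat.cast_mul, ← h2, zpow_natCast, pow_orderOf_eq_one]
  refine ⟨y ^ (b * m), ⟨_, rfl⟩, y ^ (a * (q ^ k : ℕ)), ⟨_, rfl⟩, ⟨k, ?_⟩, ?_, ?_⟩
  · rw [← zpow_natCast, ← zpow_mul, mul_assoc, mul_comm b, mul_comm (m : ℤ), zpow_mul, h5, one_zpow]
  · refine (((Nat.Prime.coprime_iff_not_dvd hq).2 h1).symm).coprime_dvd_left
      (orderOf_dvd_of_pow_eq_one ?_)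
    rw [← zpow_natCast, ← zpow_mul, mul_assoc, mul_comm a, zpow_mul, h5, one_zpow]
  · rw [← zpow_add, add_comm, h4, zpow_one]

theorem syl_in (hq : q.Prime) {P H : Subgroup G} (hP : IsPGroup q P) (h : P ≤ H) :
    ∃ R : Subgroup G, P ≤ R ∧ R ≤ H ∧ IsPGroup q R ∧ ¬ q ∣ R.relIndex H := by
  have := Fact.mk hq
  obtain ⟨S, hS⟩ := (hP.comap_subtype (K := H)).exists_le_sylow
  refine ⟨(S : Subgroup H).map H.subtype, fun x hx => ⟨⟨x, h hx⟩, hS hx, rfl⟩,
    map_subtype_le _, S.isPGroup'.map _, ?_⟩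
  rw [relIndex, subgroupOf, comap_map_eq_self_of_injective H.subtype_injective]
  exact S.not_dvd_index

theorem syl (hq : q.Prime) {P H : Subgroup G} (hP : IsPGroup q P) (h : P ≤ H)
    (hH : ¬ q ∣ H.index) : ∃ Q : Sylow q G, P ≤ Q ∧ (Q : Subgroup G) ≤ H := by
  have := Fact.mk hq
  obtain ⟨R, h1, h2, h3, h4⟩ := syl_in hq hP h
  refine ⟨h3.toSylow ?_, h1, h2⟩
  rw [← relIndex_mul_index h2]
  exact fun e => (hq.dvd_mul.1 e).elim h4 hH

theorem not_dvd (hq : q.Prime) {Q : Sylow q G} {g : G} (h : (Q : Subgroup G) ≤ cen g) :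
    ¬ q ∣ ix g := by
  have := Fact.mk hq
  exact fun e => Q.not_dvd_index (e.trans (index_dvd_of_le h))

theorem zq (hq : q.Prime) {w : G} (hw : PE q w) (h : ¬ q ∣ ix w) (Q : Sylow q G) :
    ∃ g : G, g * w * g⁻¹ ∈ Q ∧ ∀ a ∈ Q, Commute a (g * w * g⁻¹) := by
  have := Fact.mk hq
  obtain ⟨Q', h1, h2⟩ := syl hq (pe_zp hw) (H := cen w)
    (zpowers_le.2 (mem_cen.2 (Commute.refl w))) h
  obtain ⟨g, rfl⟩ := MulAction.exists_smul_eq G Q' Q
  refine ⟨g, (mem_smul g w Q').2 (h1 (mem_zpowers w)), fun a ha => ?_⟩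
  rw [show a = g * (g⁻¹ * a * g) * g⁻¹ by group] at ha ⊢
  exact (mem_cen.1 (h2 ((mem_smul _ _ _).1 ha))).map (MulAut.conj g)

theorem comm_v (hq : q.Prime) {v : G} (hv : orderOf v = q) (hn : (zpowers v).Normal) {a : G}
    (ha : PE q a) : Commute a v := by
  have h1 : Nat.card (MulAut (zpowers v)) = q - 1 := by
    rw [IsCyclic.card_mulAut, Nat.card_zpowers, hv, Nat.totient_prime hq]
  have h2 : orderOf (MulAut.conjNormal a : MulAut (zpowers v)) = 1 :=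
    Nat.eq_one_of_dvd_coprimes
      (pe_cop ha ((Nat.coprime_self_sub_right hq.one_le).2 (Nat.coprime_one_right q)))
      (orderOf_map_dvd _ a) (h1 ▸ orderOf_dvd_natCard _)
  have h3 := MulAut.conjNormal_apply a (⟨v, mem_zpowers v⟩ : zpowers v)
  rw [orderOf_eq_one_iff.1 h2] at h3
  exact mul_inv_eq_iff_eq_mul.1 h3.symm

theorem one (hc : RowCAM) (hq : q.Prime) {v : G} (hs : ∀ g : G, ¬ q ^ 2 ∣ ix g)
    (hv : orderOf v = q) (hn : (zpowers v).Normal) (hz : v ∉ center G) {u : G} (hu : PE q u) :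
    ¬ q ∣ ix u := by
  have := Fact.mk hq
  have pv : PE q v := ⟨1, by rw [pow_one, ← hv, pow_orderOf_eq_one]⟩
  obtain ⟨τ, t1, t2⟩ : ∃ τ : G, PP q τ ∧ ¬ Commute v τ := by
    by_contra! h
    refine hz (mem_center_iff.2 fun g => ?_)
    obtain ⟨a, -, b, -, h1, h2, rfl⟩ := part hq g
    exact (comm_v hq hv hn h1).mul_left (h b h2).symm
  obtain ⟨R, -, r1, r2, r3⟩ := syl_in hq (IsPGroup.of_bot (p := q) (G := G)) (H := cen τ) bot_le
  have h1 : IsPGroup q (R ⊔ zpowers v : Subgroup G) := r2.to_sup_of_normal_right (pe_zp pv)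
  have h2 : q ∣ R.relIndex (R ⊔ zpowers v) := by
    obtain ⟨k, hk⟩ := h1.index (R.subgroupOf (R ⊔ zpowers v))
    rw [relIndex, hk]
    refine dvd_pow_self q fun e => t2 (mem_cen.1 (r1 ?_))
    rw [e, pow_zero] at hk
    exact relIndex_eq_one.1 hk (mem_sup_right (mem_zpowers v))
  have h3 : ¬ q ∣ (R ⊔ zpowers v).index := fun e => by
    have h4 : q ^ 2 ∣ R.relIndex (cen τ) * ix τ := by
      rw [ix, relIndex_mul_index r1, ← relIndex_mul_index (le_sup_left (a := R) (b := zpowers v)),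
        sq]
      exact mul_dvd_mul h2 e
    exact hs τ ((((Nat.Prime.coprime_iff_not_dvd hq).2 r3).pow_left 2).dvd_of_dvd_mul_left h4)
  obtain ⟨Q, hQ⟩ := (pe_zp hu).exists_le_sylow
  obtain ⟨g, hg⟩ := MulAction.exists_smul_eq G Q (h1.toSylow h3)
  have h4 : g * u * g⁻¹ ∈ R ⊔ zpowers v := by
    have h5 := (mem_smul g u Q).2 (hQ (mem_zpowers u))
    rw [hg] at h5
    exact h5
  rw [← ix_conj g u]
  rw [← SetLike.mem_coe, mul_normal] at h4
  obtain ⟨a, ha, b, hb, e⟩ := h4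
  have pa := pe_of_mem r2 ha
  have h5 : ¬ q ∣ ix a := fun e => t2 ((hc G q hq).2.2 hs a pa e v τ (comm_v hq hv hn pa)
    (mem_cen.1 (r1 ha)) pv t1)
  obtain ⟨Q', -, h6⟩ := syl hq (IsPGroup.of_bot (p := q) (G := G)) bot_le h5
  rw [← show a * b = g * u * g⁻¹ from e]
  exact not_dvd hq (Q := Q') fun x hx => mem_cen.2 ((mem_cen.1 (h6 hx)).mul_right
    (mem_cen.1 (zp_le hb (mem_cen.2 (comm_v hq hv hn (pe_of_mem Q'.isPGroup' hx))))))

variable {Pi : Finset ℕ} {p m n : ℕ}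

theorem key (h : HX G Pi p m n) (hq : q ∈ insert p Pi) :
    ∃ w : G, PE q w ∧ w ∉ center G ∧ ¬ q ∣ ix w := by
  have qp := (h.pr q hq).1
  obtain ⟨y, y1, -, y3⟩ := h.key q hq
  obtain ⟨u, u1, b, b1, u2, b2, e⟩ := part qp y
  by_cases hu : u ∈ center G
  · have h1 : cen b ≤ cen y := fun x hx => by
      rw [e]
      exact mem_cen.2 (Commute.mul_right (mem_center_iff.1 hu x) (mem_cen.1 hx))
    obtain ⟨Q, -, h2⟩ := syl qp (IsPGroup.of_bot (p := q) (G := G)) bot_le y1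
    obtain ⟨r, hr, hrq⟩ := Finset.exists_mem_ne (lt_of_lt_of_le one_lt_two h.two_le) q
    obtain ⟨y', -, y4, -⟩ := h.key r (Finset.mem_insert_of_mem hr)
    obtain ⟨a, ha, a1⟩ : ∃ a ∈ Q, a ∉ center G := by
      by_contra! h3
      exact not_dvd qp (Q := Q) (fun x hx => mem_cen.2 (mem_center_iff.1 (h3 x hx) y').symm)
        (y4 q hq hrq.symm)
    have pa := pe_of_mem Q.isPGroup' ha
    have h3 : Commute a b := mem_cen.1 (zp_le b1 (h2 ha))
    refine ⟨a, pa, a1, fun e1 => y1 (e1.trans (ix_dvd ?_))⟩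
    obtain ⟨k, hk⟩ := id pa
    refine (y3 (a * b) ((cop h3 hk (b2.symm.pow_left k)).trans h1)).trans ?_
    rw [h3.eq]
    exact cop h3.symm (pow_orderOf_eq_one b) (pe_cop pa b2.symm).symm
  · exact ⟨u, u2, hu, fun e1 => y1 (e1.trans (ix_dvd (zp_le u1)))⟩

theorem other (h1 : RowR1) (h : HX G Pi p m n) (hq : q ∈ insert p Pi) {r : ℕ}
    (hr : r ∈ insert p Pi) (hne : r ≠ q) {a : G} (ha : PE r a) :
    ∀ v ∈ Oq q (⊤ : Subgroup G), Commute a v := by
  obtain ⟨q1, q2, q3⟩ := h.pr q hq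
  obtain ⟨r1, r2, r3⟩ := h.pr r hr
  have := Oq_normal (q := q) (G := G)
  refine (h1 G q _ ⊤ a q1 Oq_pg le_top (normalizer_eq_top _).ge trivial
    (by rw [relIndex_top_right]; exact h.sq a q hq)).2
    (pe_cop ha ((Nat.coprime_primes r1 q1).2 hne))
    (pe_cop ha ((Nat.Prime.coprime_iff_not_dvd r1).2 ?_))
  rintro ⟨t, ht⟩
  have q4 := q1.two_le
  have r4 := r1.two_le
  have t1 : t = 1 := by
    rcases t with _ | _ | t
    · omega
    · rfl
    · nlinarith [Nat.zero_le (r * t), Nat.sub_le q 1]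
  rw [t1, mul_one] at ht
  rcases q1.eq_two_or_odd with h2 | h2
  · omega
  · rcases r1.eq_two_or_odd with h3 | h3 <;> omega

end R3x

open R3x in
theorem rowR3 (hc : RowCAM) (h1 : RowR1) (h2 : RowR2) : RowR3 := by
  intro G _ _
  refine ⟨fun q v hq hs hv hn hz u hu => one hc hq hs hv hn hz hu, fun Pi p m n h =>
    ⟨fun q hq => key h hq, fun q hq => ?_⟩⟩
  have hq' := Finset.mem_insert_of_mem (b := p) hq
  have qp := (h.pr q hq').1
  have hp := Finset.mem_insert_self p Pi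
  have nd : ∀ r ∈ insert p Pi, r ≠ q → ∀ v ∈ Oq q (⊤ : Subgroup G), ¬ r ∣ ix v :=
    fun r hr hne v hv => not_dvd (h.pr r hr).1 (Q := default) fun x hx =>
      mem_cen.2 (other h1 h hq' hr hne (pe_of_mem (default : Sylow r G).isPGroup' hx) v hv)
  have rf : Refl q (Oq q (⊤ : Subgroup G)) := by
    obtain ⟨r, hr, hrq⟩ := Finset.exists_mem_ne (lt_of_lt_of_le one_lt_two h.two_le) q
    have h3 := h2 G q (Oq q (⊤ : Subgroup G) : Set G) qp (by rw [closure_eq]; exact Oq_normal)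
      (by rw [closure_eq]; exact Oq_pg) (fun v hv => h.two v r hr p hp (h.lt r hr)
        (nd r (Finset.mem_insert_of_mem hr) hrq v hv) (nd p hp (h.lt q hq).ne' v hv) q hq
        (h.lt q hq).le) fun g => h.sq g q hq'
    rwa [closure_eq] at h3
  refine ⟨rf, fun a ha => other h1 h hq' hp (h.lt q hq).ne' ha, fun Q hQ => ?_⟩
  obtain ⟨w, w1, w2, w3⟩ : ∃ w : G, PE q w ∧ w ∉ Oq q (⊤ : Subgroup G) ∧ ¬ q ∣ ix w := by
    rcases rf.2 with h3 | ⟨v, -, v1, v2, v3, -⟩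
    · obtain ⟨w, w1, w2, w3⟩ := key h hq'
      exact ⟨w, w1, fun e => w2 (h3 e), w3⟩
    · obtain ⟨w, w1, w2⟩ : ∃ w ∈ Q, w ∉ Oq q (⊤ : Subgroup G) := by
        by_contra! h3
        refine hQ ?_
        rw [show (Q : Subgroup G) = Oq q ⊤ from le_antisymm h3 fun x hx => mem_Oq.1 hx Q]
        exact Oq_normal
      have pw := pe_of_mem Q.isPGroup' w1
      exact ⟨w, pw, w2, one hc qp (fun g => h.sq g q hq') v1 v2 v3 pw⟩
  obtain ⟨g, g1, g2⟩ := zq qp w1 w3 Q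
  refine ⟨_, g1, g2, fun e => w2 ?_⟩
  have h3 := Oq_normal.conj_mem _ e g⁻¹
  rwa [show g⁻¹ * (g * w * g⁻¹) * g⁻¹⁻¹ = w by group] at h3

end Pool.Agent.MP_62c071_al.H57
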