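import Pool.Agent.MP_62c071_al.H57.Spec

/-! Row TM: tame primes. -/

set_option autoImplicit false

namespace Pool.Agent.MP_62c071_al.H57

open Subgroup

namespace TMx

variable {G : Type} [Group G] {q : ℕ}

theorem mem_cen' {g x : G} : g ∈ cen x ↔ Commute x g := by
  rw [cen, mem_centralizer_iff]
  exact ⟨fun h => h x rfl, fun h _ hy => hy ▸ h⟩

theorem O_le (Q : Sylow q G) : Oq q (⊤ : Subgroup G) ≤ Q := by
  refine (iInf_le _ (Q.subtype le_top)).trans ?_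
  rw [Sylow.coe_subtype, subgroupOf_map_subtype]
  exact inf_le_left

theorem pe (Q : Sylow q G) {a : G} (ha : a ∈ Q) : PE q a :=
  (Q.isPGroup' ⟨a, ha⟩).imp fun _ h => congrArg Subtype.val h

theorem rel_dvd [Finite G] (hq : q.Prime) (Q : Sylow q G) {O : Subgroup G} (hO : O ≤ Q)
    (h : Nat.card Q ≤ q * Nat.card O) : O.relIndex Q ∣ q := by
  have := Fact.mk hq
  obtain ⟨k, hk⟩ := Q.isPGroup'.index (O.subgroupOf Q)
  have e := card_mul_index (O.subgroupOf (Q : Subgroup G))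
  rw [Nat.card_congr (subgroupOfEquivOfLe hO).toEquiv, hk] at e
  have h1 : q ^ k ≤ q ^ 1 := by
    refine Nat.le_of_mul_le_mul_left ?_ (Nat.card_pos (α := O))
    rw [e, pow_one, mul_comm]
    exact h
  rw [relIndex, hk]
  exact (pow_dvd_pow q ((Nat.pow_le_pow_iff_right hq.one_lt).1 h1)).trans (pow_one q).dvd

theorem le_of {O Q H : Subgroup G} (hq : q.Prime) (hO : O ≤ Q) (h : O.relIndex Q ∣ q) {u : G}
    (hu : u ∈ Q) (hu' : u ∉ O) (h1 : O ≤ H) (h2 : u ∈ H) : Q ≤ H := by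
  have e := relIndex_mul_relIndex O (H ⊓ Q) Q (le_inf h1 hO) inf_le_right
  have h3 : O.relIndex (H ⊓ Q) ≠ 1 := fun h0 => hu' (relIndex_eq_one.1 h0 ⟨h2, hu⟩)
  have h4 := (hq.eq_one_or_self_of_dvd _ ((Dvd.intro _ e).trans h)).resolve_left h3
  rw [← e, h4] at h
  have h5 : (H ⊓ Q).relIndex Q = 1 :=
    Nat.eq_one_of_dvd_one (Nat.dvd_of_mul_dvd_mul_left hq.pos (by rwa [mul_one]))
  exact (relIndex_eq_one.1 h5).trans inf_le_left

/-- an element that centralises `O` and moves `u` by an element of order `q` -/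
theorem fix [Finite G] (hq : q.Prime) (Q : Sylow q G) {O : Subgroup G} (hO : O ≤ Q)
    (h : O.relIndex Q ∣ q) {u t w : G} (hu : u ∈ Q) (hu' : u ∉ O)
    (hab : ∀ a ∈ Q, ∀ b ∈ Q, Commute a b) (hw : w ∈ O) (hwq : w ^ q = 1)
    (ht : ∀ v ∈ O, Commute t v) (e : t * u * t⁻¹ = u * w) : w = 1 := by
  obtain ⟨a, M, hM, e1⟩ := Nat.exists_eq_pow_mul_and_not_dvd (orderOf_pos t).ne' q hq.ne_one
  have h1 : ∀ k : ℕ, t ^ k * u * (t ^ k)⁻¹ = u * w ^ k := fun k => by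
    induction k with
    | zero => simp
    | succ k ih =>
      have h2 := ((ht w hw).pow_left k).eq
      calc t ^ (k + 1) * u * (t ^ (k + 1))⁻¹ = t ^ k * (t * u * t⁻¹) * (t ^ k)⁻¹ := by
            rw [pow_succ]; group
        _ = t ^ k * u * (t ^ k)⁻¹ * (t ^ k * w * (t ^ k)⁻¹) := by rw [e]; group
        _ = u * w ^ (k + 1) := by rw [ih, h2, mul_inv_cancel_right, pow_succ, mul_assoc]
  have h2 : t ^ M ∈ normalizer (Q : Set G) := by
    refine mem_normalizer_fintype fun x hx => ?_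
    refine le_of (H := (Q : Subgroup G).comap (MulAut.conj (t ^ M)).toMonoidHom) hq hO h hu hu'
      (fun v hv => ?_) ?_ hx
    · show t ^ M * v * (t ^ M)⁻¹ ∈ (Q : Subgroup G)
      rw [((ht v hv).pow_left M).eq, mul_inv_cancel_right]
      exact hO hv
    · show t ^ M * u * (t ^ M)⁻¹ ∈ (Q : Subgroup G)
      rw [h1]
      exact mul_mem hu (pow_mem (hO hw) M)
  have h3 : IsPGroup q (zpowers (t ^ M)) := by
    rintro ⟨_, k, rfl⟩
    refine ⟨a, Subtype.ext ?_⟩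
    show ((t ^ M) ^ k) ^ q ^ a = 1
    rw [← zpow_natCast, ← zpow_mul, mul_comm, zpow_mul, zpow_natCast, ← pow_mul, mul_comm M, ← e1,
      pow_orderOf_eq_one, one_zpow]
  have h4 : t ^ M ∈ Q := ((h3.inf_normalizer_sylow Q).le ⟨mem_zpowers _, h2⟩).2
  have h5 := h1 M
  rw [(hab _ h4 u hu).eq, mul_inv_cancel_right, left_eq_mul] at h5
  have h6 := Nat.dvd_gcd (orderOf_dvd_of_pow_eq_one hwq) (orderOf_dvd_of_pow_eq_one h5)
  rwa [(hq.coprime_iff_not_dvd.2 hM : q.gcd M = 1), Nat.dvd_one, orderOf_eq_one_iff] at h6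

theorem pick [Finite G] (hq : q.Prime) (Q : Sylow q G) {O : Subgroup G} (hO : O ≤ Q)
    (h : O.relIndex Q ∣ q) {u v : G} (hu : u ∈ Q) (hu' : u ∉ O)
    (hab : ∀ a ∈ Q, ∀ b ∈ Q, Commute a b) (hv : v ∈ O) (hvq : orderOf v = q)
    (hn : (zpowers v).Normal) (hc : cen v = centralizer (O : Set G)) :
    ∃ z ∈ zpowers v, cen (u * z) ≤ cen v := by
  have := Fact.mk hq
  by_contra h0
  have h1 : ∀ z : zpowers v, ∃ t, Commute (u * z) t ∧ ¬ Commute v t := fun z => by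
    by_contra h2
    exact h0 ⟨z, z.2, fun t ht => mem_cen'.2 (by_contra fun h3 => h2 ⟨t, mem_cen'.1 ht, h3⟩)⟩
  choose t h2 h3 using h1
  have hvO : zpowers v ≤ O := zpowers_le.2 hv
  have hinj : Function.Injective fun z : zpowers v =>
      (⟨t z * v * (t z)⁻¹, hn.conj_mem v (mem_zpowers v) _⟩ : zpowers v) := by
    intro z z' e
    have e1 : t z * v * (t z)⁻¹ = t z' * v * (t z')⁻¹ := congrArg Subtype.val e
    have h4 : Commute v ((t z')⁻¹ * t z) := by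
      show v * ((t z')⁻¹ * t z) = (t z')⁻¹ * t z * v
      calc v * ((t z')⁻¹ * t z) = (t z')⁻¹ * (t z' * v * (t z')⁻¹) * t z := by group
        _ = (t z')⁻¹ * t z * v := by rw [← e1]; group
    have h5 : ∀ o ∈ O, Commute ((t z')⁻¹ * t z) o := fun o ho =>
      (mem_centralizer_iff.1 (hc ▸ mem_cen'.2 h4) o ho).symm
    have h6 : (t z')⁻¹ * ((z' : G)⁻¹ * z) * (t z')⁻¹⁻¹ ∈ zpowers v :=
      hn.conj_mem _ (mul_mem (inv_mem z'.2) z.2) _
    have h7 : z' * ((t z')⁻¹ * ((z' : G)⁻¹ * z) * (t z')⁻¹⁻¹) * (z : G)⁻¹ ∈ zpowers v :=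
      mul_mem (mul_mem z'.2 h6) (inv_mem z.2)
    have h8 := fix hq Q hO h hu hu' hab (hvO h7) (by
      obtain ⟨k, hk⟩ := h7
      rw [← hk, ← hvq, ← zpow_natCast, ← zpow_mul, mul_comm, zpow_mul, zpow_natCast,
        pow_orderOf_eq_one, one_zpow]) h5 (by
      have a1 : t z * (u * z) * (t z)⁻¹ = u * z := by rw [← (h2 z).eq, mul_inv_cancel_right]
      have a2 : (t z')⁻¹ * (u * z') * t z' = u * z' := by
        rw [mul_assoc, (h2 z').eq, inv_mul_cancel_left]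
      have a3 : (t z')⁻¹ * t z * (z : G)⁻¹ * ((t z')⁻¹ * t z)⁻¹ = (z : G)⁻¹ := by
        rw [(h5 _ (hvO (inv_mem z.2))).eq, mul_inv_cancel_right]
      calc (t z')⁻¹ * t z * u * ((t z')⁻¹ * t z)⁻¹
          = (t z')⁻¹ * (t z * (u * z) * (t z)⁻¹) * t z' *
            ((t z')⁻¹ * t z * (z : G)⁻¹ * ((t z')⁻¹ * t z)⁻¹) := by group
        _ = (t z')⁻¹ * (u * z') * t z' * ((t z')⁻¹ * ((z' : G)⁻¹ * z) * (t z')⁻¹⁻¹) * (z : G)⁻¹ := by
            rw [a1, a3]; group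
        _ = _ := by rw [a2]; group)
    by_contra hne
    have h9 : z'⁻¹ * z ≠ 1 := fun h9 => hne (inv_mul_eq_one.1 h9).symm
    obtain ⟨k, hk⟩ := mem_zpowers_of_prime_card (G := zpowers v)
      ((Nat.card_zpowers v).trans hvq) h9 (g' := ⟨v, mem_zpowers v⟩)
    have h10 : ((z' : G)⁻¹ * z) ^ k = v := congrArg Subtype.val hk
    refine h3 z' (h10 ▸ Commute.zpow_left ?_ k)
    show (z' : G)⁻¹ * z * t z' = t z' * ((z' : G)⁻¹ * z)
    calc (z' : G)⁻¹ * z * t z' = t z' * (z' : G)⁻¹ *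
          (z' * ((t z')⁻¹ * ((z' : G)⁻¹ * z) * (t z')⁻¹⁻¹) * (z : G)⁻¹) * z := by group
      _ = t z' * ((z' : G)⁻¹ * z) := by rw [h8]; group
  obtain ⟨z, hz⟩ := Finite.surjective_of_injective hinj ⟨v, mem_zpowers v⟩
  exact h3 z (mul_inv_eq_iff_eq_mul.1 (congrArg Subtype.val hz)).symm

end TMx

open TMx in
theorem rowTM (h1 : RowR1) (h3 : RowR3) : RowTM := by
  intro G _ _ Pi p m n hX q hq hT Q
  have hqp := (hX.pr q (Finset.mem_insert_of_mem hq)).1
  have hpp := (hX.pr p (Finset.mem_insert_self _ _)).1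
  have hlt := hX.lt q hq
  obtain ⟨⟨r1, r2⟩, r3, -⟩ := ((h3 G).2 Pi p m n hX).2 q hq
  have hO := O_le Q
  have hr := rel_dvd hqp Q hO (hT Q)
  have hab : ∀ a ∈ Q, ∀ b ∈ Q, Commute a b := fun a ha b hb => by
    by_cases hbO : b ∈ Oq q (⊤ : Subgroup G)
    · exact r1 a (pe Q ha) b hbO
    · exact (mem_cen'.1 (le_of hqp hO hr hb hbO (fun v hv => mem_cen'.2 (r1 b (pe Q hb) v hv))
        (mem_cen'.2 (Commute.refl b)) ha)).symm
  have hge : ∀ x ∈ Q, centralizer (Q : Set G) ≤ cen x := fun x hx =>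
    centralizer_le (Set.singleton_subset_iff.2 hx)
  have hle : ∀ u ∈ Q, u ∉ Oq q (⊤ : Subgroup G) → ∀ g, Commute g u →
      (∀ v ∈ Oq q (⊤ : Subgroup G), Commute g v) → g ∈ centralizer (Q : Set G) :=
    fun u hu hu' g a1 a2 x hx => (mem_cen'.1 (le_of hqp hO hr hu hu'
      (fun v hv => mem_cen'.2 (a2 v hv)) (mem_cen'.2 a1) hx)).symm
  refine ⟨hab, ?_, fun g hg hp => ?_⟩
  · by_cases hQ : (Q : Subgroup G) ≤ Oq q ⊤
    · rcases r2 with r2 | ⟨v, hv, -, -, -, hc⟩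
      · exact ⟨1, one_mem _, le_antisymm (fun g _ x hx => (mem_center_iff.1 (r2 (hQ hx)) g).symm)
          (hge 1 (one_mem _))⟩
      · exact ⟨v, hO hv, le_antisymm (hc.le.trans (centralizer_le hQ)) (hge v (hO hv))⟩
    · obtain ⟨u, hu, hu'⟩ := SetLike.not_le_iff_exists.1 hQ
      rcases r2 with r2 | ⟨v, hv, hvq, hn, -, hc⟩
      · exact ⟨u, hu, le_antisymm (fun g hg => hle u hu hu' g (mem_cen'.1 hg).symm
          fun v hv => mem_center_iff.1 (r2 hv) g) (hge u hu)⟩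
      · obtain ⟨z, hz, h4⟩ := pick hqp Q hO hr hu hu' hab hv hvq hn hc
        have hzO := zpowers_le.2 hv hz
        have h5 : u * z ∈ Q := mul_mem hu (hO hzO)
        exact ⟨u * z, h5, le_antisymm (fun g hg => hle _ h5
          (fun h6 => hu' ((mul_mem_cancel_right hzO).1 h6)) g (mem_cen'.1 hg).symm
          fun o ho => (mem_centralizer_iff.1 (hc ▸ h4 hg) o ho).symm) (hge _ h5)⟩
  · have := Fact.mk hqp
    have := Fact.mk hpp
    obtain ⟨a, ha⟩ := hp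
    have h4 : ∀ k, 0 < k → k < p → (orderOf g).Coprime k := fun k h0 hk =>
      Nat.Coprime.coprime_dvd_left (orderOf_dvd_of_pow_eq_one ha) (Nat.Coprime.pow_left a
        (hpp.coprime_iff_not_dvd.2 (Nat.not_dvd_of_pos_of_lt h0 hk)))
    have h5 : ¬ q ^ 2 ∣ (cen g).relIndex (normalizer (Q : Set G)) := fun h6 => by
      have h7 := h6.trans (relIndex_dvd_of_le_left (normalizer (Q : Set G))
        (fun v hv => mem_cen'.2 (r3 g ⟨a, ha⟩ v hv) : Oq q (⊤ : Subgroup G) ≤ cen g))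
      have h8 := (h7.trans (relIndex_mul_relIndex _ _ _ hO le_normalizer).symm.dvd).trans
        (Nat.mul_dvd_mul hr (relIndex_dvd_index_of_le le_normalizer))
      rw [pow_two] at h8
      exact Q.not_dvd_index (Nat.dvd_of_mul_dvd_mul_left hqp.pos h8)
    have h2 := hqp.two_le
    exact fun x hx => ((h1 G q Q _ g hqp Q.isPGroup' le_normalizer le_rfl hg h5).2
      (h4 q hqp.pos hlt) (h4 _ (by omega) (by omega)) x hx).symm

end Pool.Agent.MP_62c071_al.H57
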