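import Pool.Agent.MP_62c071_al.H57.SMHX
import Pool.Agent.MP_62c071_al.H57.CAM
import Pool.Agent.MP_62c071_al.H57.R1
import Pool.Agent.MP_62c071_al.H57.R2
import Pool.Agent.MP_62c071_al.H57.R3
import Pool.Agent.MP_62c071_al.H57.TM
import Pool.Agent.MP_62c071_al.H57.PB
import Pool.Agent.MP_62c071_al.H57.ALPHA
import Pool.Agent.MP_62c071_al.H57.BETA
import Pool.Agent.MP_62c071_al.H57.GAM
import Pool.Agent.MP_62c071_al.H57.FA
import Pool.Agent.MP_62c071_al.H57.FB
import Pool.Agent.MP_62c071_al.H57.FC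

/-! Lemma X. -/

set_option autoImplicit false

namespace Pool.Agent.MP_62c071_al.H57

open Subgroup

theorem rowLX (ht : RowTM) (ha : RowALPHA) (hb : RowBETA) (hg : RowGAM) (fa : RowFA)
    (fb : RowFB) (fc : RowFC) : RowLX := by
  intro G _ _ Pi p m n μ γ h hm hγ hc
  classical
  have a1 := ha G Pi p m n μ h hm (Pi.filter fun q => ¬ Tame G q) (Finset.filter_subset _ _)
    fun q hq => (Finset.mem_filter.1 hq).2
  have a2 := hb G Pi p m n μ h hm (Pi.filter fun q => Tm G q p ∧ ∃ Q : Sylow q G,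
      ¬ p ∣ (centralizer (Q : Set G)).index ∧ ¬ (Q : Subgroup G).Normal)
    (Finset.filter_subset _ _) fun q hq => (Finset.mem_filter.1 hq).2
  have a3 := hg G Pi p m n h (Pi.filter fun q => ∃ Q : Sylow q G, (Q : Subgroup G).Normal)
    (Finset.filter_subset _ _) fun q hq => (Finset.mem_filter.1 hq).2
  have a4 := (Nat.pow_le_pow_iff_left (by norm_num)).1 (a3.trans hγ)
  have cover : Pi ⊆ (Pi.filter fun q => ¬ Tame G q) ∪ (Pi.filter fun q => Tm G q p ∧
      ∃ Q : Sylow q G, ¬ p ∣ (centralizer (Q : Set G)).index ∧ ¬ (Q : Subgroup G).Normal) ∪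
      (Pi.filter fun q => ∃ Q : Sylow q G, (Q : Subgroup G).Normal) ∪
      Pi.filter fun q => Useful G q p := by
    intro q hq
    simp only [Finset.mem_union, Finset.mem_filter, hq, true_and]
    by_cases h1 : Tame G q
    · have h2 := ht G Pi p m n h q hq h1
      by_cases h3 : ∀ Q : Sylow q G, p ∣ (centralizer (Q : Set G)).index
      · exact Or.inr ⟨h2, h3⟩
      · obtain ⟨Q, hQ⟩ := not_forall.1 h3
        by_cases h4 : (Q : Subgroup G).Normal
        · exact Or.inl (Or.inr ⟨Q, h4⟩)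
        · exact Or.inl (Or.inl (Or.inr ⟨h2, Q, hQ, h4⟩))
    · exact Or.inl (Or.inl (Or.inl h1))
  have a5 := (Finset.card_le_card cover).trans ((Finset.card_union_le _ _).trans
    (Nat.add_le_add_right ((Finset.card_union_le _ _).trans
      (Nat.add_le_add_right (Finset.card_union_le _ _) _)) _))
  have a6 : 2 * μ < (Pi.filter fun q => Useful G q p).card := by omega
  obtain ⟨b1, b2, b3, b4⟩ := fa G Pi p m n μ h hm _ (Finset.filter_subset _ _)
    (fun q hq => (Finset.mem_filter.1 hq).2) a6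
  obtain ⟨q, hq⟩ := Finset.card_pos.1 (lt_of_le_of_lt (Nat.zero_le _) a6)
  obtain ⟨hq1, hq2⟩ := Finset.mem_filter.1 hq
  have ab := fun Q => (hq2.1 Q).1
  exact ⟨fc G Pi p m n q h hq1 (b1 q hq).1 ab
    (fb G Pi p m n q h hq1 (b1 q hq).1 ab (b1 q hq).2 b2 b3 b4), q, hq1, (b1 q hq).2⟩

theorem rowR2' : RowR2 := rowR2 rowR1

theorem rowR3' : RowR3 := rowR3 rowCAM rowR1 rowR2'

theorem rowLX' : RowLX :=
  rowLX (rowTM rowR1 rowR3') (rowALPHA rowCAM rowR1 rowR3' rowPB) (rowBETA rowCAM rowPB)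
    (rowGAM rowR3') (rowFA rowCAM rowR2') (rowFB rowR1 rowR3') (rowFC rowCAM rowR3')

theorem rowSM' (hs : RowSH) (h2 : RowA2) : RowSM := rowSM hs h2

theorem rowHX' (hs : RowSH) (h2 : RowA2) : RowHX := rowHX hs h2

end Pool.Agent.MP_62c071_al.H57
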