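import Pool.Agent.MP_62c071_al.H57.Spec
import Pool.Agent.MP_807c24_nt.H13.Pnt
import Pool.Agent.MP_807c24_nt.H13.Newman

/-! Row NUM: the numerical parameters. -/

set_option autoImplicit false

namespace Pool.Agent.MP_62c071_al.H57

open Filter Topology Finset
open scoped Nat

namespace NUM

/-- the primes between `3 k / 4` and `7 k / 8` -/
def RR (k : ℕ) : Finset ℕ := (Ioc (3 * k / 4) (7 * k / 8)).filter Nat.Prime

theorem mem_RR {k r : ℕ} (h : r ∈ RR k) : r.Prime ∧ 3 * k < 4 * r ∧ 8 * r ≤ 7 * k := by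
  simp only [RR, mem_filter, mem_Ioc] at h
  exact ⟨h.2, by omega, by omega⟩

theorem log_le (k : ℕ) (hk : 0 < k) : Real.log k ≤ Nat.log 2 k + 1 := by
  have h1 : (k : ℝ) ≤ 2 ^ (Nat.log 2 k + 1) := by
    exact_mod_cast (Nat.lt_pow_succ_log_self one_lt_two k).le
  have h2 := Real.log_le_log (by exact_mod_cast hk) h1
  rw [Real.log_pow] at h2
  have h3 := Real.log_two_lt_d9
  push_cast at h2
  nlinarith [(Nat.cast_nonneg (Nat.log 2 k) : (0 : ℝ) ≤ _)]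

theorem theta_diff (k : ℕ) (hk : 0 < k) :
    Chebyshev.theta (7 / 8 * k) ≤
      Chebyshev.theta (3 / 4 * k) + (RR k).card * (Nat.log 2 k + 1 : ℝ) := by
  have e1 : ⌊(7 / 8 * k : ℝ)⌋₊ = 7 * k / 8 := by
    rw [← Nat.floor_div_eq_div (K := ℝ)]
    congr 1
    push_cast
    ring
  have e2 : ⌊(3 / 4 * k : ℝ)⌋₊ = 3 * k / 4 := by
    rw [← Nat.floor_div_eq_div (K := ℝ)]
    congr 1
    push_cast
    ring
  rw [Chebyshev.theta, Chebyshev.theta, e1, e2, sum_filter, sum_filter,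
    ← sum_Ioc_consecutive _ (Nat.zero_le (3 * k / 4)) (by omega),
    ← sum_filter (s := Ioc (3 * k / 4) _)]
  refine add_le_add le_rfl ?_
  rw [← nsmul_eq_mul]
  refine sum_le_card_nsmul _ _ _ fun r hr => ?_
  have h := mem_RR hr
  refine (Real.log_le_log (by exact_mod_cast h.1.pos) ?_).trans (log_le k hk)
  exact_mod_cast (by omega : r ≤ k)

theorem cnt : ∀ᶠ k : ℕ in atTop, k ≤ 16 * (Nat.log 2 k + 1) * (RR k).card := by
  have h := MP_807c24_nt.H13.pnt_of_newman MP_807c24_nt.H13.newman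
  have t : ∀ a : ℝ, 0 < a →
      Tendsto (fun k : ℕ => Chebyshev.theta (a * k) / (a * k)) atTop (𝓝 1) := fun a ha =>
    h.comp (tendsto_natCast_atTop_atTop.const_mul_atTop ha)
  filter_upwards [(t (7 / 8) (by norm_num)).eventually
      (lt_mem_nhds (by norm_num : (29 / 30 : ℝ) < 1)),
    (t (3 / 4) (by norm_num)).eventually (gt_mem_nhds (by norm_num : (1 : ℝ) < 31 / 30)),
    eventually_gt_atTop 0] with k h1 h2 hk
  have hk' : (0 : ℝ) < k := by exact_mod_cast hk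
  rw [lt_div_iff₀ (by positivity)] at h1
  rw [div_lt_iff₀ (by positivity)] at h2
  have h3 := theta_diff k hk
  have h4 : (k : ℝ) ≤ 16 * (Nat.log 2 k + 1) * (RR k).card := by linarith
  exact_mod_cast h4

theorem piB : ∀ᶠ k : ℕ in atTop, Nat.primeCounting (3 * k) * Nat.log 2 k ≤ 12 * k := by
  have h := (tendsto_natCast_atTop_atTop.const_mul_atTop (by norm_num : (0 : ℝ) < 3)).eventually
    (Chebyshev.eventually_primeCounting_le one_pos)
  filter_upwards [h, eventually_gt_atTop 0] with k h1 hk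
  have hk' : (1 : ℝ) ≤ k := by exact_mod_cast hk
  have e : ⌊(3 * k : ℝ)⌋₊ = 3 * k := by exact_mod_cast Nat.floor_natCast (R := ℝ) (3 * k)
  rw [e, le_div_iff₀ (Real.log_pos (by linarith))] at h1
  have h2 : (2 : ℝ) ^ Nat.log 2 k ≤ 3 * k := by
    have : ((2 ^ Nat.log 2 k : ℕ) : ℝ) ≤ k := by exact_mod_cast Nat.pow_log_le_self 2 hk.ne'
    push_cast at this
    linarith
  have h3 := Real.log_le_log (by positivity) h2
  rw [Real.log_pow] at h3
  have h4 : Real.log 4 = 2 * Real.log 2 := by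
    rw [show (4 : ℝ) = 2 ^ 2 by norm_num, Real.log_pow]
    norm_num
  have h5 := Real.log_two_lt_d9
  have h6 := Real.log_two_gt_d9
  have h7 := mul_le_mul_of_nonneg_left h3 (Nat.cast_nonneg (α := ℝ) (Nat.primeCounting (3 * k)))
  have h8 : (0 : ℝ) ≤ (Nat.primeCounting (3 * k) : ℝ) * Nat.log 2 k := by positivity
  have h9 : (Nat.primeCounting (3 * k) : ℝ) * Nat.log 2 k ≤ 12 * k := by
    rw [h4] at h1
    nlinarith
  exact_mod_cast h9

theorem pow20 : ∀ᶠ L : ℕ in atTop, L ^ 20 ≤ 2 ^ L := by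
  filter_upwards [(tendsto_pow_const_div_const_pow_of_one_lt 20
    (by norm_num : (1 : ℝ) < 2)).eventually (gt_mem_nhds one_pos)] with L h
  rw [div_lt_one (by positivity)] at h
  exact_mod_cast h.le

theorem log_tend : Tendsto (Nat.log 2) atTop atTop :=
  tendsto_atTop_atTop.2 fun b => ⟨2 ^ b, fun _ ha => Nat.le_log_of_pow_le one_lt_two ha⟩

theorem fac (m : ℕ) : m ^ m ≤ 4 ^ m * m ! := by
  have h := Real.pow_div_factorial_le_exp (m : ℝ) (Nat.cast_nonneg m) m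
  rw [div_le_iff₀ (by positivity), ← Real.exp_one_pow] at h
  have h1 : Real.exp 1 ^ m ≤ 4 ^ m :=
    pow_le_pow_left₀ (Real.exp_pos 1).le (by linarith [Real.exp_one_lt_d9]) m
  have h2 : (m : ℝ) ^ m ≤ 4 ^ m * m ! := h.trans (by gcongr)
  exact_mod_cast h2

theorem cJ {n p k L t : ℕ} (hn : n = p + k) (h3 : 3 * k ≤ p) (hL : n ≤ 2 ^ (L + 1))
    (ht : 2 * ((L + 2) * t) ≤ k) (hk : 0 < k) : n ^ k < (2 * p) ^ (k - t) := by
  have htk : t ≤ k := by nlinarith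
  have a1 : (2 * p) ^ t ≤ 2 ^ ((L + 2) * t) := by
    rw [pow_mul]
    exact Nat.pow_le_pow_left (by rw [pow_succ]; omega) t
  have a2 : 2 ^ ((L + 2) * t) * 2 ^ k < 3 ^ k := by
    refine lt_of_pow_lt_pow_left₀ 2 (by positivity) ?_
    calc (2 ^ ((L + 2) * t) * 2 ^ k) ^ 2 = 2 ^ (2 * ((L + 2) * t) + 2 * k) := by ring
      _ ≤ 2 ^ (3 * k) := Nat.pow_le_pow_right two_pos (by omega)
      _ = 8 ^ k := pow_mul 2 3 k
      _ < 9 ^ k := Nat.pow_lt_pow_left (by norm_num) hk.ne'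
      _ = (3 ^ k) ^ 2 := by rw [← pow_mul, mul_comm]; exact (pow_mul 3 2 k).symm
  have a3 : n ^ k * 3 ^ k ≤ (2 * p) ^ k * 2 ^ k := by
    rw [← mul_pow, ← mul_pow]
    exact Nat.pow_le_pow_left (by omega) k
  have hn0 : 0 < n ^ k := Nat.pow_pos (by omega)
  refine lt_of_mul_lt_mul_right (a := (2 * p) ^ t * 2 ^ k) ?_ (Nat.zero_le _)
  calc n ^ k * ((2 * p) ^ t * 2 ^ k) ≤ n ^ k * (2 ^ ((L + 2) * t) * 2 ^ k) := by gcongr
    _ < n ^ k * 3 ^ k := by gcongr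
    _ ≤ (2 * p) ^ k * 2 ^ k := a3
    _ = (2 * p) ^ (k - t) * ((2 * p) ^ t * 2 ^ k) := by
      rw [← mul_assoc, ← pow_add, Nat.sub_add_cancel htk]

theorem cAr {n p k L a π d : ℕ} (hL : n ≤ 2 ^ (L + 1)) (hp : 2 ^ a * k ≤ p) (hk : 0 < k)
    (hd : (L + 1) * π < a * (d + 1)) : n ^ π * k ^ (d + 1) < p ^ (d + 1) :=
  calc n ^ π * k ^ (d + 1) ≤ (2 ^ (L + 1)) ^ π * k ^ (d + 1) := by gcongr
    _ < 2 ^ (a * (d + 1)) * k ^ (d + 1) := by
      rw [← pow_mul]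
      gcongr
      norm_num
    _ = (2 ^ a * k) ^ (d + 1) := by rw [mul_pow, pow_mul]
    _ ≤ p ^ (d + 1) := by gcongr

theorem cBig {n k L M d m : ℕ} (hL : n ≤ 2 ^ (L + 1)) (hM : 2 ^ M ≤ k) (h1 : k ≤ 2 * m)
    (h2 : m ≤ k) (h3 : 6 * k + 4 + (L + 1) * (2 * d) < M * (2 * m - k)) :
    16 * n ^ (2 * d) * k ^ k < m ! ^ 2 := by
  have hk : 0 < k := lt_of_lt_of_le (by positivity) hM
  have a1 : k ^ m ≤ 8 ^ k * m ! :=
    calc k ^ m ≤ (2 * m) ^ m := by gcongr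
      _ = 2 ^ m * m ^ m := mul_pow _ _ _
      _ ≤ 2 ^ m * (4 ^ m * m !) := Nat.mul_le_mul_left _ (fac m)
      _ = 8 ^ m * m ! := by rw [← mul_assoc, ← mul_pow 2 4 m]; rfl
      _ ≤ 8 ^ k * m ! := by gcongr; norm_num
  refine lt_of_mul_lt_mul_left (a := 2 ^ (6 * k)) ?_ (Nat.zero_le _)
  calc 2 ^ (6 * k) * (16 * n ^ (2 * d) * k ^ k)
      ≤ 2 ^ (6 * k) * (16 * (2 ^ (L + 1)) ^ (2 * d) * k ^ k) := by gcongr
    _ = 2 ^ (6 * k + 4 + (L + 1) * (2 * d)) * k ^ k := by rw [← pow_mul]; ring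
    _ < 2 ^ (M * (2 * m - k)) * k ^ k := by gcongr; norm_num
    _ ≤ k ^ (2 * m - k) * k ^ k := by rw [pow_mul]; gcongr
    _ = (k ^ m) ^ 2 := by rw [← pow_add, Nat.sub_add_cancel h1, ← pow_mul, mul_comm]
    _ ≤ (8 ^ k * m !) ^ 2 := by gcongr
    _ = 2 ^ (6 * k) * m ! ^ 2 := by
      rw [mul_pow, ← pow_mul, show 8 = 2 ^ 3 from rfl, ← pow_mul]
      ring_nf

theorem cIneq {k L M a d j : ℕ} (ha : 4096 ≤ a) (hM : 64 ≤ M) (hL : L ≤ 2 * M + 1) (hk : 4 ≤ k)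
    (hd : d * a ≤ 48 * k) (hj : k ≤ 4 * j) : 6 * k + 4 + (L + 1) * (2 * d) < M * j := by
  have a1 : d * 4096 ≤ 48 * k := (Nat.mul_le_mul_left d ha).trans hd
  have a2 : (L + 1) * (2 * d) ≤ 4 * M * (2 * d) := Nat.mul_le_mul_right _ (by omega)
  have a3 : M * (d * 4096) ≤ M * (48 * k) := Nat.mul_le_mul_left M a1
  have a4 : M * k ≤ M * (4 * j) := Nat.mul_le_mul_left M hj
  have a5 : 64 * k ≤ M * k := Nat.mul_le_mul_right k hM
  nlinarith

theorem main {n p k L a N : ℕ} (c1 : ∀ m, N ≤ m → m ≤ 16 * (Nat.log 2 m + 1) * (RR m).card)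
    (c2 : ∀ m, N ≤ m → Nat.primeCounting (3 * m) * Nat.log 2 m ≤ 12 * m) (hN : N ≤ L)
    (ha : 4096 ≤ a) (haL : 2 ^ a ≤ L) (h20 : L ^ 20 ≤ 2 ^ L) (hL : L = Nat.log 2 n)
    (hn : n = p + k) (h1 : n ≤ k ^ 2) (h2 : k * L ^ 4 ≤ n) : Num p k := by
  have L0 : 4096 ≤ L := ha.trans ((Nat.lt_two_pow_self).le.trans haL)
  have n0 : n ≠ 0 := by
    rintro rfl
    simp at hL
    omega
  have n1 : 2 ^ L ≤ n := hL ▸ Nat.pow_log_le_self 2 n0
  have n2 : n < 2 ^ (L + 1) := hL ▸ Nat.lt_pow_succ_log_self one_lt_two n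
  have k1 : L ^ 10 ≤ k := by
    refine le_of_pow_le_pow_left₀ two_ne_zero (Nat.zero_le _) ?_
    rw [← pow_mul]
    exact h20.trans (n1.trans h1)
  have pw : ∀ i j, i ≤ j → L ^ i ≤ L ^ j := fun i j h => Nat.pow_le_pow_right (by omega) h
  have pw' : ∀ i, 4096 * L ^ i ≤ L ^ (i + 1) := fun i => by
    rw [pow_succ']
    exact Nat.mul_le_mul_right _ L0
  have kL : L ≤ k := by simpa using (pw 1 10 (by norm_num)).trans k1
  have k0 : 0 < k := by omega
  have p1 : L * k ≤ p := by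
    have b1 : 2 * L ≤ L ^ 4 := by
      have b1 : 4096 * L ^ 1 ≤ L ^ 2 := pw' 1
      have := pw 2 4 (by norm_num)
      rw [pow_one] at b1
      omega
    have b2 := Nat.mul_le_mul_left k b1
    nlinarith
  have p2 : 3 * k ≤ p := (Nat.mul_le_mul_right k (by omega)).trans p1
  obtain ⟨M, hM⟩ : ∃ M, M = Nat.log 2 k := ⟨_, rfl⟩
  have m1 : 2 ^ M ≤ k := hM ▸ Nat.pow_log_le_self 2 k0.ne'
  have m2 : k < 2 ^ (M + 1) := hM ▸ Nat.lt_pow_succ_log_self one_lt_two k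
  have m3 : M ≤ L := by
    rw [hM, hL]
    exact Nat.log_mono_right (by omega)
  have m4 : L ≤ 2 * M + 1 := by
    have b1 : 2 ^ L < (2 ^ (M + 1)) ^ 2 :=
      (n1.trans h1).trans_lt (Nat.pow_lt_pow_left m2 two_ne_zero)
    rw [← pow_mul] at b1
    have := (Nat.pow_lt_pow_iff_right one_lt_two).1 b1
    omega
  -- the set `S`
  have y1 : L ≤ L ^ 5 := by simpa using pw 1 5 (by norm_num)
  have s1 : 2 * L ^ 3 ≤ (RR (L ^ 5)).card := by
    have b1 := c1 (L ^ 5) (hN.trans y1)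
    have b2 : Nat.log 2 (L ^ 5) < 5 * L := by
      refine Nat.log_lt_of_lt_pow (by positivity) ?_
      rw [mul_comm, pow_mul]
      exact Nat.pow_lt_pow_left Nat.lt_two_pow_self (by norm_num)
    have b3 : L * L ^ 4 ≤ L * (80 * (RR (L ^ 5)).card) :=
      calc L * L ^ 4 = L ^ 5 := by ring
        _ ≤ 16 * (5 * L) * (RR (L ^ 5)).card := b1.trans (by gcongr; omega)
        _ = L * (80 * (RR (L ^ 5)).card) := by ring
    have b4 := Nat.le_of_mul_le_mul_left b3 (by omega)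
    have : 4096 * L ^ 3 ≤ L ^ 4 := pw' 3
    omega
  obtain ⟨S, hS, cS⟩ := exists_subset_card_eq s1
  have s2 : ∀ r ∈ S, r.Prime ∧ 3 < r ∧ r ≤ L ^ 5 := fun r hr => by
    have := mem_RR (hS hr)
    exact ⟨this.1, by omega, by omega⟩
  obtain ⟨σ, hσ⟩ : ∃ σ, σ = ∑ r ∈ S, r := ⟨_, rfl⟩
  have s3 : σ ≤ 2 * L ^ 8 := by
    have := sum_le_card_nsmul S (fun r => r) (L ^ 5) fun r hr => (s2 r hr).2.2
    rw [cS, smul_eq_mul, ← hσ] at this
    exact this.trans (le_of_eq (by ring))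
  obtain ⟨e, he⟩ : ∃ e, e = k / L ^ 2 := ⟨_, rfl⟩
  have e1 : L ^ 2 * e ≤ k := he ▸ Nat.mul_div_le k _
  have e2 : k < L ^ 2 * (e + 1) := he ▸ Nat.lt_mul_div_succ k (by positivity)
  have e3 : 1 ≤ e := by
    rw [he]
    exact Nat.div_pos ((pw 2 10 (by norm_num)).trans k1) (by positivity)
  have r1 : (4 + e + σ) * (4 * L) ≤ k := by
    have b1 : 8 * L * e ≤ L ^ 2 * e := Nat.mul_le_mul_right e (by nlinarith)
    have b2 : L * σ ≤ 2 * L ^ 9 := (Nat.mul_le_mul_left L s3).trans (le_of_eq (by ring))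
    have b3 : 4096 * L ^ 9 ≤ L ^ 10 := pw' 9
    have b4 : L ≤ L ^ 9 := by simpa using pw 1 9 (by norm_num)
    nlinarith
  have r2 : (4 + e + σ) * 8 ≤ k := (Nat.mul_le_mul_left _ (by omega)).trans r1
  obtain ⟨t, ht⟩ : ∃ t, t = k / (4 * L) := ⟨_, rfl⟩
  have t1 : 4 * L * t ≤ k := ht ▸ Nat.mul_div_le k _
  have t2 : 4 + e + σ ≤ t := ht ▸ (Nat.le_div_iff_mul_le (by omega)).2 r1
  have t3 : 2 * ((L + 2) * t) ≤ k := by
    have : 2 * (L + 2) * t ≤ 4 * L * t := Nat.mul_le_mul_right t (by omega)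
    rw [← mul_assoc]
    omega
  have t4 : t ≤ k := ht ▸ Nat.div_le_self _ _
  have many : e < (RR k).card := by
    have b1 := c1 k (hN.trans kL)
    rw [← hM] at b1
    by_contra hc
    have b2 : L * (L * e) ≤ L * (32 * e) :=
      calc L * (L * e) = L ^ 2 * e := by ring
        _ ≤ 16 * (2 * L) * e := (e1.trans b1).trans (by gcongr <;> omega)
        _ = L * (32 * e) := by ring
    have b3 := Nat.le_of_mul_le_mul_right (Nat.le_of_mul_le_mul_left b2 (by omega)) e3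
    omega
  obtain ⟨l, hl⟩ := card_pos.1 (lt_of_le_of_lt (Nat.zero_le _) many)
  have l1 := mem_RR hl
  have sn : S.Nonempty := card_pos.1 (by rw [cS]; positivity)
  have s4 : 3 ≤ σ := by
    obtain ⟨r, hr⟩ := sn
    have := single_le_sum (f := fun r => r) (fun _ _ => Nat.zero_le _) hr
    have := (s2 r hr).2.1
    omega
  obtain ⟨d, hd⟩ : ∃ d, d = (L + 1) * Nat.primeCounting (3 * k) / a := ⟨_, rfl⟩
  have d1 : d * a ≤ 48 * k := by
    have b1 := c2 k (hN.trans kL)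
    rw [← hM] at b1
    have b2 : (L + 1) * Nat.primeCounting (3 * k) ≤ 4 * M * Nat.primeCounting (3 * k) :=
      Nat.mul_le_mul_right _ (by omega)
    have b3 := Nat.div_mul_le_self ((L + 1) * Nat.primeCounting (3 * k)) a
    rw [← hd] at b3
    nlinarith
  have d2 : (L + 1) * Nat.primeCounting (3 * k) < a * (d + 1) :=
    hd ▸ Nat.lt_mul_div_succ _ (by omega)
  refine ⟨by omega, k - t + 4, e, l, d, S, RR k, by omega, by omega, ?_, fun r hr => ?_, sn, l1.1,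
    by omega, e3, ?_, by omega, fun r hr => ?_, many, ?_, ?_⟩
  · rw [← hn, Nat.add_sub_cancel]
    exact cJ hn p2 n2.le t3 k0
  · have b1 := s2 r hr
    have b2 : 4096 * L ^ 5 ≤ L ^ 6 := pw' 5
    have b3 := pw 6 10 (by norm_num)
    exact ⟨b1.1, b1.2.1, by omega⟩
  · rw [← hn, cS]
    refine (Nat.pow_lt_pow_left n2 k0.ne').trans_le ?_
    rw [← pow_mul]
    refine Nat.pow_le_pow_right two_pos ?_
    calc (L + 1) * k ≤ 2 * L * (L ^ 2 * (e + 1)) := by gcongr; omega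
      _ = (e + 1) * (2 * L ^ 3) := by ring
  · have := mem_RR hr
    exact ⟨this.1, by omega, by omega⟩
  · rw [← hn]
    exact cAr n2.le ((Nat.mul_le_mul_right k haL).trans p1) k0 d2
  · rw [← hn]
    exact cBig n2.le m1 (by omega) (by omega)
      (cIneq ha (by omega) m4 (by omega) d1 (by omega))

end NUM

theorem rowNUM : RowNUM := by
  obtain ⟨N₁, c1⟩ := eventually_atTop.1 NUM.cnt
  obtain ⟨N₂, c2⟩ := eventually_atTop.1 NUM.piB
  filter_upwards [NUM.log_tend.eventually NUM.pow20,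
    NUM.log_tend.eventually (eventually_ge_atTop (max N₁ N₂)),
    (NUM.log_tend.comp NUM.log_tend).eventually (eventually_ge_atTop 4096),
    NUM.log_tend.eventually (eventually_gt_atTop 0)] with n h1 h2 h3 h4 p k hn h5 h6
  exact NUM.main (fun m hm => c1 m ((le_max_left _ _).trans hm))
    (fun m hm => c2 m ((le_max_right _ _).trans hm)) h2 h3 (Nat.pow_log_le_self 2 h4.ne') h1 rfl
    hn h5 h6

end Pool.Agent.MP_62c071_al.H57
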