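import Pool.Agent.MP_62c071_al.H57.Spec

/-! Row ORB: orbits under conjugation. -/

set_option autoImplicit false

namespace Pool.Agent.MP_62c071_al.H57

open Subgroup

namespace ORB

variable {G : Type} [Group G]

theorem orbit (B : Subgroup G) (u : G) : (orb B u).ncard = (cen u).relIndex B := by
  let inst : MulAction B G := MulAction.compHom G (MulAut.conj.comp B.subtype)
  have h := @MulAction.index_stabilizer B G _ inst u
  have h1 : @MulAction.stabilizer B G _ inst u = (cen u).subgroupOf B := by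
    ext b
    change (b : G) * u * (b : G)⁻¹ = u ↔ (b : G) ∈ centralizer {u}
    rw [mem_centralizer_singleton_iff, mul_inv_eq_iff_eq_mul]
  have h2 : @MulAction.orbit B G inst.toSMul u = orb B u := by
    ext v
    exact ⟨fun ⟨b, hb⟩ => ⟨b, b.2, hb.symm⟩, fun ⟨b, hb, h⟩ => ⟨⟨b, hb⟩, h.symm⟩⟩
  rw [h1, h2] at h
  exact h.symm

theorem iter (x u : G) (i : ℕ) : (fun v => x * v * x⁻¹)^[i] u = x ^ i * u * (x ^ i)⁻¹ := by
  induction i with
  | zero => simp
  | succ i ih => rw [Function.iterate_succ_apply', ih, pow_succ']; group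

theorem per {p : ℕ} {x : G} (h : x ^ p ∈ center G) (u : G) : x ^ p * u * (x ^ p)⁻¹ = u := by
  rw [← mem_center_iff.1 h u, mul_inv_cancel_right]

theorem fix (x v : G) : x * v * x⁻¹ = v ↔ Commute x v := mul_inv_eq_iff_eq_mul

theorem count [Finite G] {p : ℕ} {x : G} (hp : p.Prime) (h : x ^ p ∈ center G) (X : Set G)
    (hX : ∀ v ∈ X, x * v * x⁻¹ ∈ X) : ∃ b : ℕ, X.ncard = {v ∈ X | Commute x v}.ncard + b * p := by
  classical
  have := Fact.mk hp
  have := Fintype.ofFinite X
  let f : Function.End X := fun v => ⟨x * v * x⁻¹, hX v v.2⟩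
  have h1 : ∀ (i : ℕ) (v : X), ((f ^ i) v : G) = x ^ i * v * (x ^ i)⁻¹ := by
    intro i v
    induction i with
    | zero => rw [pow_zero, pow_zero, one_mul, inv_one, mul_one]; rfl
    | succ i ih =>
      rw [pow_succ']
      change x * ((f ^ i) v : G) * x⁻¹ = _
      rw [ih, pow_succ']
      group
  have h2 : f ^ p ^ 1 = 1 := by
    funext v
    refine Subtype.ext ?_
    rw [pow_one, h1, per h]
    rfl
  have h3 := Equiv.Perm.card_fixedPoints_modEq h2
  have h4 : Subtype.val '' f.fixedPoints = {v ∈ X | Commute x v} := by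
    ext v
    constructor
    · rintro ⟨w, hw, rfl⟩
      exact ⟨w.2, (fix x w).1 (congrArg Subtype.val hw)⟩
    · rintro ⟨hv, hc⟩
      exact ⟨⟨v, hv⟩, Subtype.ext ((fix x v).2 hc), rfl⟩
  rw [← Nat.card_eq_fintype_card, ← Nat.card_eq_fintype_card, Nat.card_coe_set_eq,
    Nat.card_coe_set_eq, ← Set.ncard_image_of_injective _ Subtype.val_injective, h4] at h3
  have h5 : {v ∈ X | Commute x v}.ncard ≤ X.ncard := Set.ncard_le_ncard fun v hv => hv.1
  obtain ⟨b, hb⟩ := (Nat.modEq_iff_dvd' h5).1 h3.symm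
  exact ⟨b, by rw [mul_comm, ← hb]; omega⟩

theorem cyc {p : ℕ} {x : G} (hp : p.Prime) (h : x ^ p ∈ center G) (u : G) (hu : ¬ Commute x u) :
    {v | ∃ i : ℕ, v = x ^ i * u * (x ^ i)⁻¹}.ncard = p := by
  have := Fact.mk hp
  have h1 : Function.minimalPeriod (fun v => x * v * x⁻¹) u = p :=
    Function.minimalPeriod_eq_prime ((iter x u p).trans (per h u)) fun h => hu ((fix x u).1 h)
  have h2 : {v | ∃ i : ℕ, v = x ^ i * u * (x ^ i)⁻¹} =
      ((fun v => x * v * x⁻¹)^[·] u) '' Set.Iio p := by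
    ext v
    constructor
    · rintro ⟨i, rfl⟩
      refine ⟨i % p, Nat.mod_lt _ hp.pos, ?_⟩
      rw [← iter, ← h1]
      exact Function.iterate_mod_minimalPeriod_eq
    · rintro ⟨i, -, rfl⟩
      exact ⟨i, iter x u i⟩
  have h3 := Function.iterate_injOn_Iio_minimalPeriod (f := fun v => x * v * x⁻¹) (x := u)
  rw [h1] at h3
  rw [h2, h3.ncard_image]
  simp

end ORB

theorem rowORB : RowORB := fun _ _ _ _ _ hp h =>
  ⟨ORB.orbit, ORB.count hp h, ORB.cyc hp h⟩

end Pool.Agent.MP_62c071_al.H57
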