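import Pool.Agent.MP_62c071_al.H57.Spec

/-! The row SAFE: a centraliser order dividing `r q m` forces a shape of the cycle type. -/

set_option autoImplicit false

namespace Pool.Agent.MP_62c071_al.H57

open Subgroup Filter
open scoped Nat

namespace SAFE

theorem zf_cons_dvd (f l : ℕ) (M : Multiset ℕ) : l * zf f M ∣ zf f (l ::ₘ M) := by
  unfold zf
  have h1 : ∏ x ∈ M.toFinset, (M.count x)! ∣ ∏ x ∈ M.toFinset, ((l ::ₘ M).count x)! :=
    Finset.prod_dvd_prod_of_dvd _ _ fun x _ =>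
      Nat.factorial_dvd_factorial (Multiset.count_le_count_cons x l M)
  have h2 : ∏ x ∈ M.toFinset, ((l ::ₘ M).count x)! ∣
      ∏ x ∈ (l ::ₘ M).toFinset, ((l ::ₘ M).count x)! := by
    apply Finset.prod_dvd_prod_of_subset
    intro x hx
    rw [Multiset.mem_toFinset] at hx ⊢
    exact Multiset.mem_cons_of_mem hx
  rw [Multiset.prod_cons]
  have h3 := mul_dvd_mul_left (f ! * (l * M.prod)) (h1.trans h2)
  have h4 : l * (f ! * M.prod * ∏ x ∈ M.toFinset, (M.count x)!) =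
      f ! * (l * M.prod) * ∏ x ∈ M.toFinset, (M.count x)! := by ring
  rw [h4]
  exact h3

theorem not_dvd_zf {s q f : ℕ} {M : Multiset ℕ} (hs : s.Prime) (hq : q ≤ s)
    (hM : ∀ l ∈ M, ¬ s ∣ l) (hf : ¬ q ! ∣ zf f M) : ¬ s ∣ zf f M := by
  intro hd
  apply hf
  unfold zf at hd ⊢
  rcases (Nat.Prime.dvd_mul hs).1 hd with hd | hd
  · rcases (Nat.Prime.dvd_mul hs).1 hd with hd | hd
    · have h1 : s ≤ f := (Nat.Prime.dvd_factorial hs).1 hd
      exact Dvd.dvd.mul_right (Dvd.dvd.mul_right (Nat.factorial_dvd_factorial (hq.trans h1)) _) _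
    · obtain ⟨l, hl, hsl⟩ := Prime.exists_mem_multiset_dvd (Nat.prime_iff.1 hs) hd
      exact absurd hsl (hM l hl)
  · obtain ⟨l, hl, hsl⟩ := (Prime.dvd_finsetProd_iff (Nat.prime_iff.1 hs) _).1 hd
    have h1 : s ≤ M.count l := (Nat.Prime.dvd_factorial hs).1 hsl
    exact Dvd.dvd.mul_left ((Nat.factorial_dvd_factorial (hq.trans h1)).trans
      (Finset.dvd_prod_of_mem (fun x => (M.count x)!) hl)) _

theorem strip {s q f a K : ℕ} {M : Multiset ℕ} (hs : s.Prime) (hq : q ≤ s) (ha : ¬ s ∣ a)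
    (hM : ∀ l ∈ M, 2 ≤ l) (hf : ¬ q ! ∣ s * K) (hd : a * zf f M ∣ s * K) :
    ∃ (d : ℕ) (M' : Multiset ℕ), (∀ l ∈ M', 2 ≤ l) ∧ M.sum = s * d + M'.sum ∧
      a * max d 1 * zf f M' ∣ K := by
  by_cases hex : ∃ l ∈ M, s ∣ l
  · obtain ⟨l, hl, d, rfl⟩ := hex
    obtain ⟨M', rfl⟩ := Multiset.exists_cons_of_mem hl
    have hd0 : 1 ≤ d := by
      have h2 := hM _ hl
      rcases Nat.eq_zero_or_pos d with h0 | h0
      · subst h0
        simp at h2
      · exact h0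
    refine ⟨d, M', fun l hl' => hM l (Multiset.mem_cons_of_mem hl'), by rw [Multiset.sum_cons], ?_⟩
    rw [max_eq_left hd0]
    have h1 := (mul_dvd_mul_left a (zf_cons_dvd f (s * d) M')).trans hd
    have h2 : a * (s * d * zf f M') = s * (a * d * zf f M') := by ring
    rw [h2] at h1
    exact Nat.dvd_of_mul_dvd_mul_left hs.pos h1
  · have hM' : ∀ l ∈ M, ¬ s ∣ l := fun l hl hsl => hex ⟨l, hl, hsl⟩
    have hz : ¬ s ∣ zf f M :=
      not_dvd_zf hs hq hM' fun h => hf (h.trans ((Dvd.intro_left a rfl).trans hd))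
    have hc : Nat.Coprime (a * zf f M) s := by
      apply Nat.Coprime.symm
      rw [Nat.Prime.coprime_iff_not_dvd hs]
      intro h
      rcases (Nat.Prime.dvd_mul hs).1 h with h | h
      · exact ha h
      · exact hz h
    refine ⟨0, M, hM, by simp, ?_⟩
    have h1 := hc.dvd_of_dvd_mul_left hd
    simpa using h1

theorem not_fact_dvd {r q m : ℕ} (hr : r.Prime) (h5 : 5 ≤ q) (hqr : q < r) (hm : 0 < m)
    (hmq : m < q) : ¬ q ! ∣ r * (q * (2 * m)) := by
  intro h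
  obtain ⟨t, rfl⟩ : ∃ t, q = t + 2 := ⟨q - 2, by omega⟩
  have hc : Nat.Coprime (t + 2)! r := by
    apply Nat.Coprime.symm
    rw [Nat.Prime.coprime_iff_not_dvd hr, Nat.Prime.dvd_factorial hr]
    omega
  have h1 := hc.dvd_of_dvd_mul_left h
  rw [Nat.factorial_succ] at h1
  have h2 := Nat.dvd_of_mul_dvd_mul_left (by omega) h1
  have h3 := Nat.le_of_dvd (by omega) h2
  rw [Nat.factorial_succ] at h3
  have h4 : 3 ! ≤ t ! := Nat.factorial_le (by omega)
  have h6 : 3 ! = 6 := rfl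
  rw [h6] at h4
  nlinarith

end SAFE

theorem rowSAFE (h : RowSH) : RowSAFE := by
  intro N r q m c hr hq h5 hqr hN hm hmq hc hdiv
  obtain ⟨h1, h2, -⟩ := h
  obtain ⟨f, M, hM, hsum, -, hz, -⟩ := h1 N c hc
  have hzd : 1 * zf f M ∣ r * (q * (2 * m)) := by
    have e : r * (q * (2 * m)) = 2 * (r * q * m) := by ring
    rw [one_mul, e]
    rcases hz with hz | hz
    · rw [← hz]
      exact Dvd.dvd.mul_left hdiv 2
    · rw [← hz]
      exact mul_dvd_mul_left 2 hdiv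
  have hnf := SAFE.not_fact_dvd hr h5 hqr hm hmq
  obtain ⟨d₁, M₁, hM₁, hs₁, hd₁⟩ := SAFE.strip hr hqr.le (a := 1)
    (by rw [Nat.dvd_one]; exact hr.one_lt.ne') hM hnf hzd
  have hd₁q : d₁ < q := by
    by_contra hcon
    have h3 : q ≤ d₁ := not_lt.1 hcon
    have h4 : q * q ≤ r * d₁ := Nat.mul_le_mul hqr.le h3
    have h6 : q ^ 2 = q * q := by ring
    omega
  have ha : ¬ q ∣ 1 * max d₁ 1 := by
    rw [one_mul]
    apply Nat.not_dvd_of_pos_of_lt
    · exact lt_of_lt_of_le Nat.one_pos (le_max_right _ _)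
    · exact max_lt hd₁q (by omega)
  obtain ⟨d₂, M₂, hM₂, hs₂, hd₂⟩ := SAFE.strip hq le_rfl ha hM₁
    (fun h => hnf (Dvd.dvd.mul_left h r)) hd₁
  rw [one_mul] at hd₂
  have hpos : 0 < 2 * m := by omega
  have hle := Nat.le_of_dvd hpos hd₂
  have hR := (h2 f M₂ hM₂).1
  have hA : max d₁ 1 ∣ 2 * m :=
    (Dvd.dvd.mul_right (Dvd.intro _ rfl) _).trans hd₂
  have hB : max d₂ 1 ∣ 2 * m :=
    (Dvd.dvd.mul_right (Dvd.intro_left _ rfl) _).trans hd₂
  refine ⟨d₁, d₂, M₂.sum + f, by omega, ?_, ?_, ?_, ?_⟩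
  · exact le_trans (Nat.mul_le_mul_left _ (by omega)) hle
  · exact (le_max_left _ _).trans (Nat.le_of_dvd hpos hA)
  · exact (le_max_left _ _).trans (Nat.le_of_dvd hpos hB)
  · rcases Nat.eq_zero_or_pos d₁ with h0 | h0
    · exact Or.inl h0
    · right
      rwa [max_eq_left h0] at hA

end Pool.Agent.MP_62c071_al.H57
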