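import Pool.Agent.MP_62c071_al.H57.Spec

/-! Row SH: the orders of the centralisers in the alternating group. -/

set_option autoImplicit false

namespace Pool.Agent.MP_62c071_al.H57

open Subgroup Equiv Equiv.Perm
open scoped Nat

namespace SH

theorem sum_le_prod (M : Multiset ℕ) (h : ∀ l ∈ M, 2 ≤ l) :
    M.sum ≤ M.prod ∧ 2 * M.card ≤ M.sum ∧ (M = 0 ∨ 2 ≤ M.prod) := by
  induction M using Multiset.induction_on with
  | empty => simp
  | cons a M ih =>
    have ha := h a (Multiset.mem_cons_self _ _)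
    obtain ⟨h1, h2, h3⟩ := ih fun l hl => h l (Multiset.mem_cons_of_mem hl)
    simp only [Multiset.sum_cons, Multiset.prod_cons, Multiset.card_cons]
    rcases h3 with rfl | h3
    · simpa using ha
    · exact ⟨by nlinarith, by omega, Or.inr (by nlinarith)⟩

theorem two_a (f : ℕ) (M : Multiset ℕ) (h : ∀ l ∈ M, 2 ≤ l) : M.sum + f ≤ zf f M + 1 := by
  obtain ⟨h1, -, h3⟩ := sum_le_prod M h
  have h4 : 1 ≤ M.prod := by
    rcases h3 with rfl | h3
    · simp
    · omega
  have h5 : 0 < ∏ l ∈ M.toFinset, (M.count l)! := Finset.prod_pos fun _ _ => Nat.factorial_pos _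
  have h6 : f ! * M.prod ≤ zf f M := Nat.le_mul_of_pos_right _ h5
  have h7 := Nat.self_le_factorial f
  have h8 : 1 ≤ f ! := Nat.factorial_pos f
  nlinarith

theorem two_b (f : ℕ) (M : Multiset ℕ) (h : ∀ l ∈ M, 2 ≤ l) : zf f M ∣ (M.sum + f)! := by
  have := card_of_cycleType_mul_eq (Fin (M.sum + f)) M
  rw [Fintype.card_fin, if_pos ⟨by omega, h⟩, Nat.add_sub_cancel_left] at this
  exact Dvd.intro_left _ this

theorem two_c (M : Multiset ℕ) (h : ∀ l ∈ M, 2 ≤ l) : zf 0 M ^ 2 ≤ M.sum ^ M.sum := by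
  obtain ⟨-, h2, -⟩ := sum_le_prod M h
  have h1 : zf 0 M ≤ M.sum ^ M.card := by
    rw [zf, Nat.factorial_zero, one_mul, Finset.prod_multiset_count, ← Finset.prod_mul_distrib,
      ← Multiset.toFinset_sum_count_eq M, ← Finset.prod_pow_eq_pow_sum]
    refine Finset.prod_le_prod' fun l hl => ?_
    refine (Nat.mul_le_mul_left _ (Nat.factorial_le_pow _)).trans ?_
    rw [← mul_pow]
    refine Nat.pow_le_pow_left ?_ _
    rw [Finset.sum_multiset_count, mul_comm]
    exact Finset.single_le_sum (f := fun l => M.count l • l) (fun _ _ => Nat.zero_le _) hl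
  refine (Nat.pow_le_pow_left h1 2).trans ?_
  rw [← pow_mul]
  rcases Nat.eq_zero_or_pos M.sum with h0 | h0
  · rw [show M.card = 0 by omega, h0]
  · exact Nat.pow_le_pow_right h0 (by omega)

theorem one (n c : ℕ) (hc : c ∈ Cz n) : ∃ (f : ℕ) (M : Multiset ℕ), (∀ l ∈ M, 2 ≤ l) ∧
    M.sum + f = n ∧ Even (M.sum + M.card) ∧ (c = zf f M ∨ 2 * c = zf f M) ∧
    (2 ≤ f → 2 * c = zf f M) := by
  obtain ⟨⟨s, hs⟩, rfl⟩ := hc
  have h1 : s.cycleType.sum ≤ n := by
    rw [sum_cycleType]
    simpa using Finset.card_le_univ s.support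
  have h2 := nat_card_centralizer s
  rw [Fintype.card_fin] at h2
  change _ = zf _ _ at h2
  let sg : centralizer ({s} : Set (Perm (Fin n))) →* ℤˣ := sign.comp (Subgroup.subtype _)
  have h3 : Nat.card (cen (⟨s, hs⟩ : An n)) = Nat.card sg.ker :=
    Nat.card_congr
      { toFun := fun x => ⟨⟨x.1.1, mem_centralizer_singleton_iff.2
          (congrArg Subtype.val (mem_centralizer_singleton_iff.1 x.2))⟩, x.1.2⟩
        invFun := fun x => ⟨⟨x.1.1, x.2⟩, mem_centralizer_singleton_iff.2
          (Subtype.ext (mem_centralizer_singleton_iff.1 x.1.2))⟩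
        left_inv := fun _ => rfl
        right_inv := fun _ => rfl }
  have h4 := sg.ker.card_mul_index
  have h5 : sg.ker.index ∣ 2 := by
    rw [index_ker]
    simpa using card_subgroup_dvd_card sg.range
  rw [h2, ← h3] at h4
  have h6 := (Nat.dvd_prime Nat.prime_two).1 h5
  refine ⟨n - s.cycleType.sum, s.cycleType, fun l hl => two_le_of_mem_cycleType hl, by omega,
    ?_, h6.imp (fun e => by rw [← h4, e, mul_one]) fun e => by rw [← h4, e, mul_comm],
    fun hf => ?_⟩
  · have := sign_of_cycleType s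
    rw [mem_alternatingGroup.1 hs] at this
    exact (neg_one_pow_eq_one_iff_even (by decide)).1 this.symm
  · rcases h6 with e | e
    · obtain ⟨a, ha, b, hb, hab⟩ := Finset.one_lt_card.1 (show 1 < s.supportᶜ.card by
        rw [Finset.card_compl, Fintype.card_fin, ← sum_cycleType]
        omega)
      have ha' : s a = a := by simpa using ha
      have hb' : s b = b := by simpa using hb
      have h7 : (⟨swap a b, mem_centralizer_singleton_iff.2 (by
          rw [mul_swap_eq_swap_mul, ha', hb'])⟩ : centralizer ({s} : Set (Perm (Fin n)))) ∈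
          sg.ker := by
        rw [index_eq_one.1 e]
        trivial
      have h8 : sign (swap a b) = 1 := h7
      rw [sign_swap hab] at h8
      exact absurd h8 (by decide)
    · rw [← h4, e, mul_comm]

end SH

/-- Row SH. -/
theorem rowSH : RowSH := by
  refine ⟨SH.one, fun f M h => ⟨SH.two_a f M h, SH.two_b f M h, SH.two_c M h⟩, fun n c hc => ?_⟩
  obtain ⟨f, M, h1, h2, -, h3, -⟩ := SH.one n c hc
  have h4 := SH.two_a f M h1
  have h5 := SH.two_b f M h1
  rw [h2] at h4 h5
  obtain ⟨s, rfl⟩ := hc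
  refine ⟨Nat.card_pos, ?_, fun hn => ?_, by omega⟩
  · rcases h3 with e | e
    · exact e ▸ h5
    · exact Dvd.dvd.trans (Dvd.intro_left 2 e) h5
  · have : Nontrivial (Fin n) := Fin.nontrivial_iff_two_le.2 hn
    have e := two_mul_nat_card_alternatingGroup (α := Fin n)
    rw [Nat.card_perm, Nat.card_fin] at e
    rw [← e]
    exact Nat.mul_dvd_mul_left 2 (card_subgroup_dvd_card _)

end Pool.Agent.MP_62c071_al.H57
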