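import Pool.Agent.MP_62c071_al.H57.Spec

/-! Row SYL2: the alternating factor of the centraliser consists of small elements. -/

set_option autoImplicit false

namespace Pool.Agent.MP_62c071_al.H57

open Subgroup
open scoped Nat commutatorElement

namespace SYL2

theorem ex_d8 {k : ℕ} (hk : 6 ≤ k) :
    ∃ a r : An k, a ^ 2 = 1 ∧ r ^ 4 = 1 ∧ a * r * a⁻¹ = r⁻¹ ∧ a * r ≠ r * a := by
  classical
  let f := Equiv.Perm.extendDomainHom (Equiv.ofInjective _ (Fin.castLE_injective hk))
  have hf : Function.Injective f := Equiv.Perm.extendDomainHom_injective _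
  have hs : ∀ e, Equiv.Perm.sign e = 1 → f e ∈ alternatingGroup (Fin k) := fun e he => by
    rw [Equiv.Perm.mem_alternatingGroup, ← he]
    exact Equiv.Perm.sign_extendDomain e _
  let a : Equiv.Perm (Fin 6) := Equiv.swap 0 2 * Equiv.swap 4 5
  let r : Equiv.Perm (Fin 6) := a * (Equiv.swap 0 1 * Equiv.swap 2 3)
  refine ⟨⟨f a, hs a (by decide)⟩, ⟨f r, hs r (by decide)⟩, Subtype.ext ?_, Subtype.ext ?_,
    Subtype.ext ?_, fun h => ?_⟩
  · change f a ^ 2 = 1
    rw [← map_pow, show a ^ 2 = 1 by decide, map_one]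
  · change f r ^ 4 = 1
    rw [← map_pow, show r ^ 4 = 1 by decide, map_one]
  · change f a * f r * (f a)⁻¹ = (f r)⁻¹
    rw [← map_inv, ← map_inv, ← map_mul, ← map_mul, show a * r * a⁻¹ = r⁻¹ by decide]
  · have h1 : f a * f r = f r * f a := congrArg Subtype.val h
    rw [← map_mul, ← map_mul] at h1
    exact absurd (hf h1) (by decide)

variable {G : Type} [Group G]

theorem pg_zpowers {g : G} {n : ℕ} (h : g ^ 2 ^ n = 1) : IsPGroup 2 (zpowers g) := by
  rintro ⟨_, i, rfl⟩
  refine ⟨n, Subtype.ext ?_⟩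
  change (g ^ i) ^ 2 ^ n = 1
  rw [← zpow_natCast, ← zpow_mul, mul_comm, zpow_mul, zpow_natCast, h, one_zpow]

theorem mem_cen {g h : G} : h ∈ cen g ↔ Commute g h := by
  rw [cen, mem_centralizer_iff]
  simp only [Set.mem_singleton_iff, forall_eq]
  rfl

variable [Finite G]

theorem pg_d8 {a r : G} (ha : a ^ 2 = 1) (hr : r ^ 4 = 1) (h : a * r * a⁻¹ = r⁻¹) :
    IsPGroup 2 (zpowers a ⊔ zpowers r : Subgroup G) := by
  refine IsPGroup.to_sup_of_normal_right' (pg_zpowers (n := 1) ha) (pg_zpowers (n := 2) hr)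
    (zpowers_le_of_mem (mem_normalizer_fintype ?_))
  rintro _ ⟨i, rfl⟩
  refine ⟨-i, ?_⟩
  change r ^ (-i) = a * r ^ i * a⁻¹
  rw [← conj_zpow, h, inv_zpow, zpow_neg]

theorem central {p : ℕ} [Fact p.Prime] (h : IsPGroup p G) (N : Subgroup G) [N.Normal]
    (hN : N ≠ ⊥) : ∃ l ∈ N, l ≠ 1 ∧ ∀ g, Commute l g := by
  have h1 : IsPGroup p (ConjAct G) := h.of_equiv ConjAct.toConjAct
  have h2 : p ∣ Nat.card N := by
    obtain ⟨n, hn⟩ := IsPGroup.iff_card.1 (h.to_subgroup N)
    rcases n with _ | n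
    · exact absurd (N.eq_bot_of_card_eq (by simpa using hn)) hN
    · rw [hn]
      exact dvd_pow_self p n.succ_ne_zero
  obtain ⟨b, hb, hne⟩ := h1.exists_fixed_point_of_prime_dvd_card_of_fixed_point N h2
    (a := 1) fun g => smul_one g
  refine ⟨b, b.2, fun e => hne (Subtype.ext e.symm), fun g => ?_⟩
  have : g * b * g⁻¹ = b := congrArg Subtype.val (hb (ConjAct.toConjAct g))
  exact (mul_inv_eq_iff_eq_mul.1 this).symm

/-- A nontrivial element of `L` whose centraliser has more powers of two than `K`. -/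
theorem ex_l (K L : Subgroup G) (hK : 2 ∣ K.index)
    (hL : ∀ g ∈ K, ∀ h ∈ K, ⁅g, h⁆ ∈ L) {a r : G} (ha : a ∈ K) (hr : r ∈ K)
    (hD : IsPGroup 2 (zpowers a ⊔ zpowers r : Subgroup G)) (hne : a * r ≠ r * a) :
    ∃ l ∈ L, l ≠ 1 ∧ ¬ Nat.card (cen l) ∣ Nat.card K := by
  have hDK : (zpowers a ⊔ zpowers r : Subgroup G) ≤ K :=
    sup_le (zpowers_le_of_mem ha) (zpowers_le_of_mem hr)
  obtain ⟨Q, hQ⟩ := (hD.of_equiv (subgroupOfEquivOfLe hDK).symm).exists_le_sylow
  set R : Subgroup G := (Q : Subgroup K).map K.subtype with hR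
  have hRK : R ≤ K := map_subtype_le _
  have haR : a ∈ R := ⟨⟨a, ha⟩, hQ (mem_sup_left (mem_zpowers a)), rfl⟩
  have hrR : r ∈ R := ⟨⟨r, hr⟩, hQ (mem_sup_right (mem_zpowers r)), rfl⟩
  have hc : Nat.card R = 2 ^ (Nat.card K).factorization 2 := by
    rw [hR, card_map_of_injective K.subtype_injective, Q.card_eq_multiplicity]
  obtain ⟨U, hU, hRU⟩ := Sylow.exists_subgroup_card_pow_succ (p := 2) (by
    rw [← K.card_mul_index, pow_succ]
    exact mul_dvd_mul (Nat.ordProj_dvd _ _) hK) hc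
  have hi : (R.subgroupOf U).index = 2 := by
    have := (R.subgroupOf U).card_mul_index
    rw [Nat.card_congr (subgroupOfEquivOfLe hRU).toEquiv, hc, hU, pow_succ] at this
    exact Nat.eq_of_mul_eq_mul_left (by positivity) this
  have := normal_of_index_eq_two hi
  obtain ⟨l, hl, hl1, hlc⟩ := central (IsPGroup.of_card hU) ⁅R.subgroupOf U, R.subgroupOf U⁆
    (fun e => by
      have h1 := commutator_mem_commutator (H₁ := R.subgroupOf U) (H₂ := R.subgroupOf U)
        (g₁ := ⟨a, hRU haR⟩) (g₂ := ⟨r, hRU hrR⟩) haR hrR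
      rw [e, mem_bot, commutatorElement_eq_one_iff_mul_comm] at h1
      exact hne (congrArg Subtype.val h1))
  have hle : ⁅R.subgroupOf U, R.subgroupOf U⁆ ≤ L.subgroupOf U :=
    commutator_le.2 fun g hg h hh => hL _ (hRK hg) _ (hRK hh)
  refine ⟨l, hle hl, fun e => hl1 (Subtype.ext e), fun hd => ?_⟩
  have h1 : U ≤ cen (l : G) := fun g hg => mem_cen.2 (congrArg Subtype.val (hlc ⟨g, hg⟩).eq)
  have h2 := (card_dvd_of_le h1).trans hd
  rw [hU] at h2
  exact Nat.pow_succ_factorization_not_dvd Nat.card_pos.ne' Nat.prime_two h2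

omit [Finite G] in
theorem ix_conj (u g : G) : ix (u * g * u⁻¹) = ix g := by
  have : cen (u * g * u⁻¹) = (cen g).map (MulAut.conj u).toMonoidHom := by
    ext h
    rw [mem_map_equiv, mem_cen, mem_cen]
    refine ⟨fun e => ?_, fun e => ?_⟩
    · simpa [mul_assoc] using e.map (MulAut.conj u).symm
    · simpa [mul_assoc] using e.map (MulAut.conj u)
  rw [ix, this]
  exact index_map_equiv _ (MulAut.conj u)

omit [Finite G] in
theorem ix_inv (g : G) : ix g⁻¹ = ix g := by
  have : cen g⁻¹ = cen g := by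
    ext h
    rw [mem_cen, mem_cen, Commute.inv_left_iff]
  rw [ix, this, ix]

theorem ix_mul (g h : G) : ix (g * h) ≤ ix g * ix h := by
  refine (Nat.le_of_dvd (Nat.pos_of_ne_zero index_ne_zero_of_finite)
    (index_dvd_of_le (H := cen g ⊓ cen h) fun u hu => ?_)).trans index_inf_le
  exact mem_cen.2 ((mem_cen.1 hu.1).mul_left (mem_cen.1 hu.2))

end SYL2

open SYL2 in
theorem rowSYL2 (h : RowSH) (h2 : RowA2) (hs : RowSM) : RowSYL2 := by
  intro G _ _ p k ζ c x ψ C hk
  have hlt := C.lt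
  have := Fact.mk C.pr
  obtain ⟨s1, s2, s3, s4⟩ := hs G p k ζ c C.pr (by omega) (by omega) C.ch C.big C.dich
  have hp : ∀ g, Commute x g → p ∣ c g := fun g hg => by
    obtain ⟨P, -, hP, -⟩ := C.xc.syl
    have h1 : (P : Subgroup G) ≤ cen g := fun u hu => mem_cen.2 (by
      have : g ∈ centralizer (P : Set G) := hP ▸ mem_cen.2 hg
      exact (this u hu).symm)
    exact (s2 g).2 fun hd => P.not_dvd_index (hd.trans (index_dvd_of_le h1))
  have hc : ∀ g g', ix g = ix g' → c g = c g' := fun g g' e => by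
    have h1 := (s1 g).symm.trans (s1 g')
    rw [e] at h1
    exact Nat.eq_of_mul_eq_mul_left (Nat.pos_of_ne_zero index_ne_zero_of_finite) h1
  let N : Subgroup (An k) :=
    { carrier := {s | Big p (c (ψ s))}
      one_mem' := by simpa using C.big
      mul_mem' := fun {s t} h1 h2 => s4 _ (hp _ (C.com _)) (by
        rw [map_mul, two_mul, pow_add]
        exact (ix_mul _ _).trans (Nat.mul_le_mul (s3 _ h1) (s3 _ h2)))
      inv_mem' := fun {s} h1 => by
        change Big p (c (ψ s⁻¹))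
        rw [map_inv, hc _ _ (ix_inv _)]
        exact h1 }
  have hN : N.Normal := ⟨fun s h1 u => by
    change Big p (c (ψ (u * s * u⁻¹)))
    rw [map_mul, map_mul, map_inv, hc _ _ (ix_conj _ _)]
    exact h1⟩
  have hev : 2 ∣ (cen x).index := by
    have h1 : p ! ∣ ix x * (p * k !) := by
      rw [← C.cx, mul_left_comm, ← s1]
      exact C.big
    obtain ⟨q, rfl⟩ : ∃ q, p = q + 1 := ⟨p - 1, by omega⟩
    rw [Nat.factorial_succ, mul_left_comm] at h1
    have h3 := (Nat.factorial_dvd_factorial (show k + 2 ≤ q by omega)).trans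
      (Nat.dvd_of_mul_dvd_mul_left q.succ_pos h1)
    rw [Nat.factorial_succ, Nat.factorial_succ, ← mul_assoc] at h3
    have h4 := Nat.dvd_of_mul_dvd_mul_right k.factorial_pos h3
    refine Dvd.dvd.trans ?_ h4
    rw [mul_comm]
    exact (Nat.even_mul_succ_self (k + 1)).two_dvd
  obtain ⟨a, r, d1, d2, d3, d4⟩ := ex_d8 hk
  obtain ⟨_, ⟨l, rfl⟩, hl1, hl⟩ := ex_l (cen x) ψ.range hev (fun g hg g' hg' => by
      obtain ⟨s, u, hu, rfl⟩ := C.dec g (mem_cen.1 hg)
      obtain ⟨s', u', hu', rfl⟩ := C.dec g' (mem_cen.1 hg')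
      have c1 : Commute (ψ s' * u') u := hu _ hg'
      have c2 : Commute (ψ s) u' := hu' _ (mem_cen.2 (C.com s))
      refine ⟨⁅s, s'⁆, ?_⟩
      rw [map_commutatorElement, commutatorElement_def, commutatorElement_def, mul_inv_rev,
        mul_inv_rev, mul_assoc (ψ s) u, ← c1.eq]
      simp only [mul_assoc, mul_inv_cancel_left]
      rw [← mul_assoc u', c2.inv_left.symm.eq, mul_assoc, mul_inv_cancel_left])
    (mem_cen.2 (C.com a)) (mem_cen.2 (C.com r))
    (pg_d8 (by rw [← map_pow, d1, map_one]) (by rw [← map_pow, d2, map_one])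
      (by rw [← map_inv, ← map_mul, ← map_mul, d3, map_inv]))
    fun e => d4 (C.inj (by rw [map_mul, map_mul, e]))
  have hlN : l ∈ N := by
    refine ((h2 p k C.pr (by omega) (by omega)).1 _ (C.ch.mem _) (hp _ (C.com l))).resolve_right ?_
    rintro ⟨κ, hκ, e⟩
    refine hl ?_
    rw [C.ch.card, C.ch.card, e]
    refine Nat.mul_dvd_mul_left _ (Nat.dvd_of_mul_dvd_mul_left two_pos ?_)
    rw [C.cx, mul_left_comm]
    exact Nat.mul_dvd_mul_left _ ((h.2.2 k κ hκ).2.2.1 (by omega))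
  have := alternatingGroup.isSimpleGroup (α := Fin k) (by simp; omega)
  rcases hN.eq_bot_or_eq_top with e | e
  · rw [e, mem_bot] at hlN
    exact absurd (by rw [hlN, map_one]) hl1
  · intro s
    have : s ∈ N := e ▸ mem_top s
    exact this

end Pool.Agent.MP_62c071_al.H57
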