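import Pool.Agent.MP_62c071_al.H57.Spec

/-! Row T5A: groups with the centraliser orders of the alternating group of degree five. -/

set_option autoImplicit false

namespace Pool.Agent.MP_62c071_al.H57

open Subgroup

namespace T5A

variable {G : Type} [Group G]

theorem mem_cen {g x : G} : x ∈ cen g ↔ Commute g x := by
  rw [cen, mem_centralizer_singleton_iff]
  exact ⟨fun h => h.symm, fun h => h.symm⟩

theorem comm_of_center {z : G} (h : z ∈ center G) (g : G) : Commute g z := mem_center_iff.1 h g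

theorem center_le (g : G) : center G ≤ cen g := fun _ h => mem_cen.2 (comm_of_center h g)

theorem cen_pow (g : G) (i : ℕ) : cen g ≤ cen (g ^ i) := fun _ h =>
  mem_cen.2 ((mem_cen.1 h).pow_left i)

theorem pow_mod {g : G} {m i j : ℕ} (h : g ^ m = 1) (e : i ≡ j [MOD m]) : g ^ i = g ^ j :=
  pow_eq_pow_iff_modEq.2 (e.of_dvd (orderOf_dvd_of_pow_eq_one h))

theorem cop {a b : G} {m n : ℕ} (h : Commute a b) (ha : a ^ m = 1) (hb : b ^ n = 1)
    (c : m.Coprime n) : cen (a * b) ≤ cen a := by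
  obtain ⟨k, h1, h2⟩ := Nat.chineseRemainder c 1 0
  have h3 := cen_pow (a * b) k
  rwa [h.mul_pow, pow_mod ha h1, pow_mod hb h2, pow_one, pow_zero, mul_one] at h3

theorem split {g : G} {m n : ℕ} (h : g ^ (m * n) = 1) (c : m.Coprime n) :
    ∃ i j : ℕ, g = g ^ i * g ^ j ∧ (g ^ i) ^ m = 1 ∧ (g ^ j) ^ n = 1 := by
  obtain ⟨i, h1, h2⟩ := Nat.chineseRemainder c 1 0
  obtain ⟨j, h3, h4⟩ := Nat.chineseRemainder c 0 1
  obtain ⟨i', rfl⟩ := (Nat.modEq_zero_iff_dvd).1 h2
  obtain ⟨j', rfl⟩ := (Nat.modEq_zero_iff_dvd).1 h3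
  refine ⟨n * i', m * j', ?_, ?_, ?_⟩
  · rw [← pow_add, pow_mod h ((Nat.modEq_and_modEq_iff_modEq_mul c).1 ⟨h1.add h3, h2.add h4⟩),
      pow_one]
  · rw [← pow_mul, show n * i' * m = m * n * i' by ring, pow_mul, h, one_pow]
  · rw [← pow_mul, show m * j' * n = m * n * j' by ring, pow_mul, h, one_pow]

theorem parts (H : Subgroup G) (N : ℕ) : ∀ g : G, N ≠ 0 → g ^ N = 1 →
    (∀ r i : ℕ, r.Prime → r ∣ N → PE r (g ^ i) → g ^ i ∈ H) → g ∈ H := by
  induction N using Nat.recOnPosPrimePosCoprime with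
  | prime_pow r k hr hk =>
    intro g _ h1 h2
    simpa using h2 r 1 hr (dvd_pow_self r hk.ne') ⟨k, by rwa [pow_one]⟩
  | zero => exact fun _ h => (h rfl).elim
  | one =>
    intro g _ h1 _
    rw [← pow_one g, h1]
    exact one_mem _
  | coprime a b ha hb c iha ihb =>
    intro g _ h1 h2
    obtain ⟨i, j, e, h3, h4⟩ := split h1 c
    rw [e]
    refine mul_mem (iha _ (by omega) h3 fun r l hr hd hp => ?_)
      (ihb _ (by omega) h4 fun r l hr hd hp => ?_)
    · rw [← pow_mul] at hp ⊢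
      exact h2 r _ hr (hd.mul_right _) hp
    · rw [← pow_mul] at hp ⊢
      exact h2 r _ hr (hd.mul_left _) hp

theorem ix_conj (g w : G) : ix (g⁻¹ * w * g) = ix w := by
  have e : cen (g⁻¹ * w * g) = (cen w).comap (MulAut.conj g).toMonoidHom := by
    ext x
    rw [mem_comap, mem_cen, mem_cen]
    change g⁻¹ * w * g * x = x * (g⁻¹ * w * g) ↔ w * (g * x * g⁻¹) = g * x * g⁻¹ * w
    constructor
    · intro h
      calc w * (g * x * g⁻¹) = g * (g⁻¹ * w * g * x) * g⁻¹ := by group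
        _ = _ := by rw [h]; group
    · intro h
      calc g⁻¹ * w * g * x = g⁻¹ * (w * (g * x * g⁻¹)) * g := by group
        _ = _ := by rw [h]; group
  rw [ix, e, index_comap_of_surjective _ (MulAut.conj g).surjective, ix]

variable [Finite G]

theorem syl_le {r : ℕ} [Fact r.Prime] (H : Subgroup G) (h : ¬ r ∣ H.index) :
    ∃ S : Sylow r G, (S : Subgroup G) ≤ H := by
  obtain ⟨P⟩ : Nonempty (Sylow r H) := inferInstance
  refine ⟨(P.2.map H.subtype).toSylow ?_, map_subtype_le _⟩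
  rw [index_map_subtype]
  exact fun g => ((Fact.out : r.Prime).dvd_mul.1 g).elim P.not_dvd_index h

theorem syl_conj {r : ℕ} [Fact r.Prime] (H : Subgroup G) (h : ¬ r ∣ H.index) (S : Sylow r G) :
    ∃ g : G, ∀ a ∈ S, g * a * g⁻¹ ∈ H := by
  obtain ⟨S', h1⟩ := syl_le H h
  obtain ⟨g, rfl⟩ := MulAction.exists_smul_eq G S S'
  exact ⟨g, fun a ha => h1 ⟨a, ha, rfl⟩⟩

/-- Proper centralisers are not contained in each other. -/
def Anti (G : Type) [Group G] : Prop := ∀ a b : G, b ∉ center G → cen a ≤ cen b → cen b ≤ cen a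

omit [Finite G] in
theorem Anti.l1 (hA : Anti G) {r s : ℕ} (hr : r.Prime) (hs : s.Prime) (h : r ≠ s) {w x : G}
    (h1 : PE r w) (h2 : w ∉ center G) (h3 : PE s x) (h4 : Commute w x) : cen w ≤ cen x := by
  obtain ⟨a, ha⟩ := h1
  obtain ⟨b, hb⟩ := h3
  have c := Nat.coprime_pow_primes a b hr hs h
  refine (hA _ _ h2 (cop h4 ha hb c)).trans ?_
  rw [h4.eq]
  exact cop h4.symm hb ha c.symm

theorem Anti.l2 (hA : Anti G) {r : ℕ} (hr : r.Prime) {y y' : G} (h1 : y ∉ center G)
    (h2 : ¬ r ∣ ix y) (h3 : r ∣ ix y') : ∃ w, PE r w ∧ w ∉ center G ∧ ix w = ix y := by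
  have := Fact.mk hr
  obtain ⟨s, i, hs, h4, h5⟩ : ∃ s i : ℕ, s.Prime ∧ PE s (y ^ i) ∧ y ^ i ∉ center G := by
    by_contra g
    refine h1 (parts _ _ y (orderOf_pos y).ne' (pow_orderOf_eq_one y) fun s i hs _ hp => ?_)
    by_contra g'
    exact g ⟨s, i, hs, hp, g'⟩
  have e : cen (y ^ i) = cen y := le_antisymm (hA _ _ h5 (cen_pow y i)) (cen_pow y i)
  by_cases h : s = r
  · exact ⟨_, h ▸ h4, h5, by rw [ix, e, ix]⟩
  obtain ⟨S, hS⟩ := syl_le (cen y) h2
  obtain ⟨w, w1, w2⟩ : ∃ w ∈ (S : Subgroup G), w ∉ center G := by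
    by_contra g
    push Not at g
    exact S.not_dvd_index (h3.trans (index_dvd_of_le fun w hw => center_le y' (g w hw)))
  have w3 : PE r w := (S.2 ⟨w, w1⟩).imp fun _ g => congrArg Subtype.val g
  have w4 := hA.l1 hs hr h h4 h5 w3 (mem_cen.1 (e.ge (hS w1)))
  exact ⟨w, w3, w2, by rw [ix, le_antisymm (hA _ _ w2 w4) w4, e, ix]⟩

theorem Anti.l3 (hA : Anti G) {r s t : ℕ} (hr : r.Prime) (hs : s.Prime) (ht : t.Prime)
    (h1 : s ≠ r) (h2 : s ≠ t) {v w u : G} (v1 : PE s v) (v2 : v ∉ center G) (w1 : PE t w)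
    (w2 : w ∉ center G) (h3 : ix v ≠ ix w) (h4 : ¬ r ∣ ix w) (u1 : PE r u) (u2 : Commute v u) :
    u ∈ center G := by
  have := Fact.mk hr
  by_contra u3
  have h5 := hA _ _ u3 (hA.l1 hs hr h1 v1 v2 u1 u2)
  have h6 : IsPGroup r (zpowers u) := by
    obtain ⟨a, ha⟩ := u1
    rintro ⟨_, i, rfl⟩
    exact ⟨a, Subtype.ext (by
      change (u ^ i) ^ r ^ a = 1
      rw [← zpow_natCast, ← zpow_mul, mul_comm, zpow_mul, zpow_natCast, ha, one_zpow])⟩
  obtain ⟨S, hS⟩ := h6.exists_le_sylow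
  obtain ⟨g, hg⟩ := syl_conj (cen w) h4 S
  have h7 : w * (g * u * g⁻¹) = g * u * g⁻¹ * w := mem_cen.1 (hg u (hS (mem_zpowers u)))
  have h8 : Commute u (g⁻¹ * w * g) :=
    calc u * (g⁻¹ * w * g) = g⁻¹ * (g * u * g⁻¹ * w) * g := by group
      _ = _ := by rw [← h7]; group
  have h9 : PE t (g⁻¹ * w * g) := w1.imp fun a ha => by
    have := conj_pow (a := g⁻¹) (b := w) (i := t ^ a)
    rw [inv_inv] at this
    rw [this, ha, mul_one, inv_mul_cancel]
  have h10 : g⁻¹ * w * g ∉ center G := fun k => w2 (by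
    have := (inferInstance : (center G).Normal).conj_mem _ k g
    rwa [show g * (g⁻¹ * w * g) * g⁻¹ = w by group] at this)
  have h11 := hA.l1 hs ht h2 v1 v2 h9 (mem_cen.1 (h5 (mem_cen.2 h8)))
  refine h3 ?_
  rw [← ix_conj g w, ix, ix, le_antisymm h11 (hA _ _ h10 h11)]

theorem l4 {s : ℕ} (hs : s.Prime) {v : G}
    (h : ∀ (r : ℕ) (u : G), r.Prime → s ≠ r → PE r u → Commute v u → u ∈ center G) :
    ∃ a : ℕ, (center G).index = s ^ a * ix v := by
  have := Fact.mk hs
  have h1 : IsPGroup s (cen v ⧸ (center G).subgroupOf (cen v)) := by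
    intro x
    obtain ⟨⟨x, hx⟩, rfl⟩ := QuotientGroup.mk_surjective x
    obtain ⟨k, m, h2, h3⟩ := Nat.exists_eq_pow_mul_and_not_dvd (orderOf_pos x).ne' s hs.ne_one
    obtain ⟨i, j, e, h4, h5⟩ := split (h3 ▸ pow_orderOf_eq_one x)
      ((hs.coprime_iff_not_dvd.2 h2).pow_left k)
    have h6 : x ^ j ∈ center G := parts _ m _ (fun g => h2 (g ▸ dvd_zero s)) h5
      fun r l hr hd hp => h r _ hr (fun g => h2 (g ▸ hd)) hp
        (((mem_cen.1 hx).pow_right j).pow_right l)
    refine ⟨k, ?_⟩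
    rw [← QuotientGroup.mk_pow, QuotientGroup.eq_one_iff, mem_subgroupOf]
    change x ^ s ^ k ∈ center G
    rw [e, (comm_of_center h6 _).mul_pow, h4, one_mul]
    exact pow_mem h6 _
  obtain ⟨a, ha⟩ := IsPGroup.iff_card.1 h1
  exact ⟨a, by rw [← ha, ← relIndex_mul_index (center_le v)]; rfl⟩

omit [Finite G] in
theorem ab {g : G} (h1 : g ∉ center G) (h2 : (center G).relIndex (cen g) ∈ ({3, 4, 5} : Set ℕ))
    (a b : G) (ha : Commute g a) (hb : Commute g b) : Commute a b := by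
  by_contra h
  have h3 := relIndex_mul_relIndex (center G) (cen g ⊓ cen a) (cen g)
    (le_inf (center_le g) (center_le a)) inf_le_left
  have g1 : g ∈ cen g ⊓ cen a := ⟨mem_cen.2 (Commute.refl g), mem_cen.2 ha.symm⟩
  have a1 : a ∈ cen g ⊓ cen a := ⟨mem_cen.2 ha, mem_cen.2 (Commute.refl a)⟩
  have h4 : (center G).relIndex (cen g ⊓ cen a) ≠ 1 := fun k => h1 (relIndex_eq_one.1 k g1)
  have h5 : (cen g ⊓ cen a).relIndex (cen g) ≠ 1 := fun k =>
    h (mem_cen.1 (relIndex_eq_one.1 k (mem_cen.2 hb)).2)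
  have h6 : (center G).relIndex (cen g ⊓ cen a) = 2 := by
    rw [← h3] at h2
    generalize (center G).relIndex (cen g ⊓ cen a) = x at h2 h4
    generalize (cen g ⊓ cen a).relIndex (cen g) = y at h2 h5
    have hx : x ≤ 5 := by
      rcases h2 with k | k | k <;> exact (Nat.le_of_dvd (by decide) ⟨y, k.symm⟩).trans (by decide)
    simp only [Set.mem_insert_iff, Set.mem_singleton_iff] at h2
    interval_cases x <;> omega
  have h7 := (mul_mem_iff_of_index_two h6 (a := ⟨g, g1⟩) (b := ⟨a, a1⟩)).2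
    ⟨fun k => (h1 k).elim, fun k => (h (comm_of_center k b).symm).elim⟩
  have h8 : Commute b (g * a) := comm_of_center h7 b
  refine h ?_
  have h9 := hb.symm.inv_right.mul_right h8
  rw [inv_mul_cancel_left] at h9
  exact h9.symm

end T5A

open T5A in
theorem rowT5A : RowT5A := by
  intro G _ _ ζ c hζ h1 h2 h3
  simp only [Set.mem_insert_iff, Set.mem_singleton_iff] at h1
  have val : ∀ κ ∈ ({3, 4, 5} : Set ℕ), ∃ y, c y = κ := fun κ hκ => by
    obtain ⟨y, hy⟩ := h3 κ hκ
    refine ⟨y, ?_⟩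
    rcases hκ with rfl | rfl | rfl <;> rcases h1 y with k | k | k | k <;> rw [k] at hy ⊢ <;>
      omega
  obtain ⟨y3, e3⟩ := val 3 (by simp)
  obtain ⟨y4, e4⟩ := val 4 (by simp)
  obtain ⟨y5, e5⟩ := val 5 (by simp)
  have dv : ∀ a b : G, cen a ≤ cen b → c a ∣ c b := fun a b h => by
    have := card_dvd_of_le h
    rw [h2, h2] at this
    exact Nat.dvd_of_mul_dvd_mul_left hζ this
  have top : ∀ g : G, g ∈ center G → cen g = ⊤ := fun g hg =>
    eq_top_iff.2 fun x _ => mem_cen.2 (comm_of_center hg x).symm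
  have c1 : c 1 = 60 := by
    have a3 := dv y3 1 (by rw [top 1 (one_mem _)]; exact le_top)
    have a4 := dv y4 1 (by rw [top 1 (one_mem _)]; exact le_top)
    rw [e3] at a3
    rw [e4] at a4
    rcases h1 1 with k | k | k | k <;> omega
  have cG : Nat.card G = ζ * 60 := by rw [← c1, ← h2, top 1 (one_mem _), card_top]
  have hix : ∀ g : G, c g * ix g = 60 := fun g => by
    have := card_mul_index (cen g)
    rw [h2, cG, mul_assoc] at this
    exact Nat.eq_of_mul_eq_mul_left hζ this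
  have nc : ∀ g : G, g ∉ center G ↔ c g ≠ 60 := fun g => by
    refine not_congr ⟨fun k => ?_, fun k => ?_⟩
    · have := hix g
      rwa [ix, top g k, index_top, mul_one] at this
    · have := hix g
      rw [k] at this
      have e : cen g = ⊤ := index_eq_one.1 (show ix g = 1 by omega)
      exact mem_center_iff.2 fun x => (mem_cen.1 (e.ge (mem_top x))).symm
  have hA : Anti G := fun a b hb h => by
    have a1 := dv a b h
    have a2 := (nc b).1 hb
    refine (eq_of_le_of_card_ge h ?_).ge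
    rw [h2, h2]
    refine Nat.mul_le_mul_left _ ?_
    rcases h1 a with k | k | k | k <;> rcases h1 b with l | l | l | l <;> rw [k, l] at a1 ⊢ <;>
      omega
  have i3 : ix y3 = 20 := by have := hix y3; rw [e3] at this; omega
  have i4 : ix y4 = 15 := by have := hix y4; rw [e4] at this; omega
  have i5 : ix y5 = 12 := by have := hix y5; rw [e5] at this; omega
  have n3 := (nc y3).2 (by omega)
  have n4 := (nc y4).2 (by omega)
  have n5 := (nc y5).2 (by omega)
  obtain ⟨w3, a1, a2, a3⟩ := hA.l2 Nat.prime_three n3 (by omega) (y' := y4) (by omega)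
  obtain ⟨w2, b1, b2, b3⟩ := hA.l2 Nat.prime_two n4 (by omega) (y' := y3) (by omega)
  obtain ⟨w5, d1, d2, d3⟩ := hA.l2 Nat.prime_five n5 (by omega) (y' := y3) (by omega)
  have pr : ∀ r : ℕ, r.Prime → (r ∣ 20 → r = 2 ∨ r = 5) ∧ (r ∣ 15 → r = 3 ∨ r = 5) := fun r hr => by
    have := hr.two_le
    constructor <;> intro k <;> have := Nat.le_of_dvd (by decide) k <;> interval_cases r <;>
      first | omega | exact absurd hr (by decide)
  obtain ⟨a, ha⟩ := l4 Nat.prime_three (v := w3) fun r u hr h u1 u2 => by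
    by_cases k : r = 5
    · exact hA.l3 hr Nat.prime_three Nat.prime_five h (by decide) a1 a2 d1 d2 (by omega)
        (by rw [k, d3, i5]; decide) u1 u2
    · exact hA.l3 hr Nat.prime_three Nat.prime_two h (by decide) a1 a2 b1 b2 (by omega)
        (fun g => by have := (pr r hr).2 (by rwa [b3, i4] at g); omega) u1 u2
  obtain ⟨b, hb⟩ := l4 Nat.prime_two (v := w2) fun r u hr h u1 u2 => by
    by_cases k : r = 5
    · exact hA.l3 hr Nat.prime_two Nat.prime_five h (by decide) b1 b2 d1 d2 (by omega)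
        (by rw [k, d3, i5]; decide) u1 u2
    · exact hA.l3 hr Nat.prime_two Nat.prime_three h (by decide) b1 b2 a1 a2 (by omega)
        (fun g => by have := (pr r hr).1 (by rwa [a3, i3] at g); omega) u1 u2
  have hZ : (center G).index = 60 := by
    rw [a3, i3] at ha
    rw [b3, i4] at hb
    rcases a with _ | _ | a
    · omega
    · omega
    · have : 3 ∣ 2 ^ b := by
        rw [pow_succ, pow_succ] at ha
        omega
      exact absurd (Nat.prime_three.dvd_of_dvd_pow this) (by decide)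
  have hab : ∀ g : G, g ∉ center G → ∀ a b, Commute g a → Commute g b → Commute a b :=
    fun g hg => ab hg (by
      have k1 := relIndex_mul_index (center_le g)
      have k2 := hix g
      have k3 := (nc g).1 hg
      change _ * ix g = _ at k1
      rw [hZ, ← k2] at k1
      have k4 := Nat.eq_of_mul_eq_mul_right (Nat.pos_of_ne_zero index_ne_zero_of_finite) k1
      rw [k4]
      rcases h1 g with k | k | k | k <;> simp [k] at k3 ⊢)
  refine ⟨by rw [← card_mul_index (center G), hZ, mul_comm], hab, fun g hg => ?_,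
    fun r hr S a ha b hb => ?_⟩
  · have k2 := hix g
    have k3 := (nc g).1 hg
    rcases h1 g with k | k | k | k <;> rw [k] at k2 <;> omega
  · have := Fact.mk hr
    obtain ⟨y, y1, y2⟩ : ∃ y : G, y ∉ center G ∧ ¬ r ∣ ix y := by
      by_cases k : r = 5
      · exact ⟨y5, n5, by rw [k, i5]; decide⟩
      by_cases k' : r = 2
      · exact ⟨y4, n4, by rw [k', i4]; decide⟩
      · exact ⟨y3, n3, fun g => by have := (pr r hr).1 (by rwa [i3] at g); omega⟩
    obtain ⟨g, hg⟩ := syl_conj (cen y) y2 S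
    have k : g * a * g⁻¹ * (g * b * g⁻¹) = g * b * g⁻¹ * (g * a * g⁻¹) :=
      hab y y1 _ _ (mem_cen.1 (hg a ha)) (mem_cen.1 (hg b hb))
    calc a * b = g⁻¹ * (g * a * g⁻¹ * (g * b * g⁻¹)) * g := by group
      _ = b * a := by rw [k]; group

end Pool.Agent.MP_62c071_al.H57
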