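import Pool.Agent.MP_62c071_al.H57.Spec

/-! Rows T5B and T5C: recognition of the alternating group of degree five. -/

set_option autoImplicit false

namespace Pool.Agent.MP_62c071_al.H57

open Subgroup

namespace T5B

/-- Sylow subgroups that meet are equal. -/
def TI (H : Type) [Group H] (p : ℕ) : Prop :=
  ∀ S S' : Sylow p H, ∀ h : H, h ≠ 1 → h ∈ S → h ∈ S' → S = S'

/-- The non-trivial elements of the Sylow subgroups. -/
def E (H : Type) [Group H] (p : ℕ) : Set H := {h | h ≠ 1 ∧ ∃ S : Sylow p H, h ∈ S}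

variable {H : Type} [Group H] [Finite H]

theorem ncard_E (p q : ℕ) [Fact p.Prime] (ti : TI H p) (hq : ∀ S : Sylow p H, Nat.card S = q + 1) :
    (E H p).ncard = Nat.card (Sylow p H) * q := by
  classical
  have := Fintype.ofFinite (Sylow p H)
  have h1 : E H p = ⋃ S : Sylow p H, ((S : Subgroup H) : Set H) \ {1} := by
    ext h
    simp only [E, Set.mem_ofPred_eq, Set.mem_iUnion, Set.mem_sdiff, Set.mem_singleton_iff]
    exact ⟨fun ⟨a, S, b⟩ => ⟨S, b, a⟩, fun ⟨S, b, a⟩ => ⟨a, S, b⟩⟩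
  rw [h1, Set.ncard_iUnion_of_finite (fun _ => Set.toFinite _), finsum_eq_sum_of_fintype,
    Finset.sum_congr rfl (g := fun _ => q), Finset.sum_const, Finset.card_univ, smul_eq_mul,
    Nat.card_eq_fintype_card]
  · intro S _
    rw [Set.ncard_sdiff_singleton_of_mem (one_mem (S : Subgroup H)), ← Nat.card_coe_set_eq]
    exact congrArg (· - 1) (hq S)
  · intro S S' hne
    exact Set.disjoint_left.2 fun h a b => hne (ti S S' h a.2 a.1 b.1)

omit [Finite H] in
theorem dvd_order {p : ℕ} [hp : Fact p.Prime] {h : H} (a : h ∈ E H p) :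
    ∃ k, orderOf h = p ^ (k + 1) := by
  obtain ⟨h1, S, hS⟩ := a
  obtain ⟨k, hk⟩ := IsPGroup.iff_orderOf.1 S.isPGroup' ⟨h, hS⟩
  rw [← Subgroup.orderOf_coe] at hk
  cases k with
  | zero => exact absurd (orderOf_eq_one_iff.1 hk) h1
  | succ k => exact ⟨k, hk⟩

omit [Finite H] in
theorem disj {p q : ℕ} [hp : Fact p.Prime] [hq : Fact q.Prime] (hne : p ≠ q) :
    Disjoint (E H p) (E H q) := by
  refine Set.disjoint_left.2 fun h a b => hne ?_
  obtain ⟨k, hk⟩ := dvd_order a
  obtain ⟨l, hl⟩ := dvd_order b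
  refine (Nat.prime_dvd_prime_iff_eq hp.out hq.out).1 (hp.out.dvd_of_dvd_pow (n := l + 1) ?_)
  rw [← hl, hk]
  exact dvd_pow_self _ (by omega)

theorem card_syl (h60 : Nat.card H = 60) (p q : ℕ) [Fact p.Prime]
    (h : p ^ (Nat.primeFactorsList 60).count p = q) (S : Sylow p H) :
    Nat.card S = q ∧ Nat.card (Sylow p H) * q ∣ 60 := by
  have h1 : Nat.card S = q := by
    rw [S.card_eq_multiplicity, h60, ← Nat.primeFactorsList_count_eq, h]
  refine ⟨h1, ?_⟩
  rw [← h60, ← (S : Subgroup H).index_mul_card, h1]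
  exact Nat.mul_dvd_mul_right S.card_dvd_index _

omit [Finite H] in
theorem one_of_all {p : ℕ} (ti : TI H p) {h : H} (a : ∀ S : Sylow p H, h ∈ S)
    (hc : Nat.card (Sylow p H) ≠ 1) : h = 1 := by
  by_contra h1
  exact hc (Nat.card_eq_one_iff_unique.2 ⟨⟨fun S S' => ti S S' h h1 (a S) (a S')⟩, inferInstance⟩)

theorem recog (h60 : Nat.card H = 60) (t2 : TI H 2) (t3 : TI H 3) (t5 : TI H 5)
    (hc : ∀ h : H, h ≠ 1 → h ∈ E H 2 ∨ h ∈ E H 3 ∨ h ∈ E H 5) :
    ∃ f : H →* An 5, Function.Bijective f := by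
  have : Fact (Nat.Prime 5) := ⟨by norm_num⟩
  have c2 := card_syl h60 2 4 (by simp)
  have c3 := card_syl h60 3 3 (by simp)
  have c5 := card_syl h60 5 5 (by simp)
  have e2 := ncard_E 2 3 t2 fun S => (c2 S).1
  have e3 := ncard_E 3 2 t3 fun S => (c3 S).1
  have e5 := ncard_E 5 4 t5 fun S => (c5 S).1
  have hu : E H 2 ∪ (E H 3 ∪ E H 5) = Set.univ \ {1} := by
    ext h
    simp only [Set.mem_union, Set.mem_sdiff, Set.mem_univ, true_and, Set.mem_singleton_iff]
    exact ⟨fun a => a.elim (·.1) fun a => a.elim (·.1) (·.1), hc h⟩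
  have hs := congrArg Set.ncard hu
  rw [Set.ncard_union_eq (Set.disjoint_union_right.2 ⟨disj (by norm_num), disj (by norm_num)⟩),
    Set.ncard_union_eq (disj (by norm_num)), Set.ncard_sdiff_singleton_of_mem (Set.mem_univ _),
    Set.ncard_univ, h60, e2, e3, e5] at hs
  have d2 := (c2 default).2
  have d3 := (c3 default).2
  have d5 := (c5 default).2
  have m3 : Nat.card (Sylow 3 H) % 3 = 1 := card_sylow_modEq_one 3 H
  have m5 : Nat.card (Sylow 5 H) % 5 = 1 := card_sylow_modEq_one 5 H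
  have n2 : Nat.card (Sylow 2 H) = 5 ∧ Nat.card (Sylow 3 H) = 10 := by
    generalize Nat.card (Sylow 2 H) = a at *
    generalize Nat.card (Sylow 3 H) = b at *
    generalize Nat.card (Sylow 5 H) = c at *
    have ha : a ∈ Nat.divisors 15 := Nat.mem_divisors.2
      ⟨Nat.dvd_of_mul_dvd_mul_right (by norm_num : 0 < 4) d2, by norm_num⟩
    have hb : b ∈ Nat.divisors 20 := Nat.mem_divisors.2
      ⟨Nat.dvd_of_mul_dvd_mul_right (by norm_num : 0 < 3) d3, by norm_num⟩
    have hc : c ∈ Nat.divisors 12 := Nat.mem_divisors.2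
      ⟨Nat.dvd_of_mul_dvd_mul_right (by norm_num : 0 < 5) d5, by norm_num⟩
    rw [show Nat.divisors 15 = {1, 3, 5, 15} by decide] at ha
    rw [show Nat.divisors 20 = {1, 2, 4, 5, 10, 20} by decide] at hb
    rw [show Nat.divisors 12 = {1, 2, 3, 4, 6, 12} by decide] at hc
    simp only [Finset.mem_insert, Finset.mem_singleton] at ha hb hc
    clear d2 d3 d5
    omega
  have hk : ∀ h ∈ (MulAction.toPermHom H (Sylow 2 H)).ker, ∀ S : Sylow 2 H,
      h ∈ normalizer (S : Set H) := fun h hh S =>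
    Sylow.smul_eq_iff_mem_normalizer.1 (congrArg (fun π : Equiv.Perm (Sylow 2 H) => π S) hh)
  have hp : IsPGroup 3 (MulAction.toPermHom H (Sylow 2 H)).ker := by
    refine IsPGroup.iff_orderOf.2 fun h => ?_
    rw [← Subgroup.orderOf_coe]
    by_cases h1 : (h : H) = 1
    · exact ⟨0, by rw [h1, orderOf_one, pow_zero]⟩
    rcases hc h h1 with a | a | a
    · refine absurd (one_of_all t2 (fun S => ?_) (by omega)) h1
      obtain ⟨-, S', hS'⟩ := a
      have := (S'.isPGroup'.inf_normalizer_sylow S).le ⟨hS', hk h h.2 S⟩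
      exact this.2
    · exact (dvd_order a).elim fun k hk => ⟨_, hk⟩
    · obtain ⟨k, hk'⟩ := dvd_order a
      have h2 := Subgroup.orderOf_dvd_natCard _ (hk h h.2 default)
      have h3 := (normalizer ((default : Sylow 2 H) : Set H)).index_mul_card
      rw [← Sylow.card_eq_index_normalizer, n2.1, h60] at h3
      rw [hk', pow_succ] at h2
      have := dvd_of_mul_left_dvd h2
      omega
  have hi : Function.Injective (MulAction.toPermHom H (Sylow 2 H)) :=
    (injective_iff_map_eq_one _).2 fun h hh =>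
      one_of_all t3 (fun S => hp.le_sylow_of_normal S hh) (by omega)
  let e : Sylow 2 H ≃ Fin 5 := Finite.equivFinOfCardEq n2.1
  let φ : H →* Equiv.Perm (Fin 5) :=
    e.permCongrHom.toMonoidHom.comp (MulAction.toPermHom H (Sylow 2 H))
  have hφ : Function.Injective φ := e.permCongrHom.injective.comp hi
  have hr : φ.range = alternatingGroup (Fin 5) := by
    refine Equiv.Perm.eq_alternatingGroup_of_index_eq_two ?_
    have h1 := φ.range.index_mul_card
    rw [← Nat.card_congr (MonoidHom.ofInjective hφ).toEquiv, h60, Nat.card_perm] at h1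
    simp only [Nat.card_eq_fintype_card, Fintype.card_fin, Nat.factorial] at h1
    omega
  exact ⟨((MonoidHom.ofInjective hφ).trans (MulEquiv.subgroupCongr hr)).toMonoidHom,
    MulEquiv.bijective _⟩

theorem key {G : Type} [Group G] [Finite G] (h : T5C G) (h60 : Nat.card (G ⧸ center G) = 60)
    (x : G ⧸ center G) (hx : x ≠ 1) : ∃ p, (p = 2 ∨ p = 3 ∨ p = 5) ∧
      ∃ A : Subgroup (G ⧸ center G), IsPGroup p A ∧ x ∈ A ∧
        ∀ r : ℕ, r.Prime → ∀ S : Sylow r (G ⧸ center G), x ∈ S → (S : Subgroup _) ≤ A := by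
  obtain ⟨g, rfl⟩ := QuotientGroup.mk'_surjective (center G) x
  have hg : g ∉ center G := fun a => hx ((QuotientGroup.eq_one_iff g).2 a)
  have hi : ((cen g).map (QuotientGroup.mk' (center G))).index = ix g := by
    refine index_map_eq _ (QuotientGroup.mk'_surjective _) ?_
    rw [QuotientGroup.ker_mk']
    exact center_le_centralizer _
  have hc := ((cen g).map (QuotientGroup.mk' (center G))).index_mul_card
  rw [hi, h60] at hc
  have hA : ∃ p, (p = 2 ∨ p = 3 ∨ p = 5) ∧
      IsPGroup p ((cen g).map (QuotientGroup.mk' (center G))) := by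
    rcases h.cl g hg with a | a | a <;> rw [a] at hc
    · exact ⟨3, by simp, IsPGroup.of_card (n := 1) (by omega)⟩
    · exact ⟨2, by simp, IsPGroup.of_card (n := 2) (by omega)⟩
    · exact ⟨5, by simp, IsPGroup.of_card (n := 1) (by omega)⟩
  obtain ⟨p, hp, hA⟩ := hA
  refine ⟨p, hp, _, hA, mem_map_of_mem _ (mem_centralizer_singleton_iff.2 rfl), ?_⟩
  intro r hr S hS
  have : Fact r.Prime := ⟨hr⟩
  obtain ⟨T, rfl⟩ := Sylow.mapSurjective_surjective (QuotientGroup.mk'_surjective (center G)) r S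
  obtain ⟨s, hs, e⟩ := hS
  obtain ⟨z, hz, rfl⟩ := (QuotientGroup.mk'_eq_mk' _).1 e
  refine map_mono fun a ha => mem_centralizer_singleton_iff.2 ?_
  exact ((h.syl r hr T a ha s hs).mul_right (mem_center_iff.1 hz a)).eq

theorem comm_center {G : Type} [Group G] [Finite G]
    (h : ∀ r : ℕ, r.Prime → ∀ S : Sylow r G, ∀ a ∈ S, ∀ b ∈ S, Commute a b) {z : G}
    (h1 : z ∈ commutator G) (h2 : z ∈ center G) : z = 1 := by
  by_contra hz
  obtain ⟨r, hr, hd⟩ := Nat.exists_prime_and_dvd (mt orderOf_eq_one_iff.1 hz)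
  have : Fact r.Prime := ⟨hr⟩
  have ho : orderOf (z ^ (orderOf z / r)) = r := orderOf_pow_orderOf_div (orderOf_pos z).ne' hd
  have h1' := pow_mem h1 (orderOf z / r)
  have h2' := pow_mem h2 (orderOf z / r)
  generalize z ^ (orderOf z / r) = w at *
  obtain ⟨P⟩ : Nonempty (Sylow r G) := inferInstance
  let : CommGroup (P : Subgroup G) :=
    { (inferInstance : Group (P : Subgroup G)) with
      mul_comm := fun a b => Subtype.ext (h r hr P a a.2 b b.2).eq }
  have h3 := MonoidHom.transfer_eq_pow (MonoidHom.id (P : Subgroup G)) w fun k g _ => by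
    rw [mul_assoc, ← mem_center_iff.1 (pow_mem h2' k) g, inv_mul_cancel_left]
  have h4 := Abelianization.commutator_subset_ker
    (MonoidHom.transfer (MonoidHom.id (P : Subgroup G))) h1'
  rw [MonoidHom.mem_ker, h3] at h4
  have h5 : w ^ (P : Subgroup G).index = 1 := congrArg Subtype.val h4
  exact P.not_dvd_index (ho.symm.dvd.trans (orderOf_dvd_of_pow_eq_one h5))

end T5B

theorem rowT5B : RowT5B := by
  intro G _ _ h
  have h60 : Nat.card (G ⧸ center G) = 60 := by
    have h1 := (center G).index_mul_card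
    rw [h.card] at h1
    exact Nat.eq_of_mul_eq_mul_right Nat.card_pos h1
  have ti : ∀ r : ℕ, r.Prime → T5B.TI (G ⧸ center G) r := by
    intro r hr S S' x hx a b
    have : Fact r.Prime := ⟨hr⟩
    obtain ⟨p, hp, A, hA, hxA, hl⟩ := T5B.key h h60 x hx
    have hp' : p.Prime := by rcases hp with rfl | rfl | rfl <;> norm_num
    have : Fact p.Prime := ⟨hp'⟩
    obtain ⟨Q, hQ⟩ := hA.exists_le_sylow
    obtain rfl : r = p := by
      by_contra hne
      exact Set.disjoint_left.1 (T5B.disj hne) ⟨hx, S, a⟩ ⟨hx, Q, hQ hxA⟩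
    exact Sylow.ext ((S.is_maximal' hA (hl r hr S a)).symm.trans (S'.is_maximal' hA (hl r hr S' b)))
  obtain ⟨f, hf⟩ := T5B.recog h60 (ti 2 (by norm_num)) (ti 3 (by norm_num)) (ti 5 (by norm_num))
    fun x hx => by
      obtain ⟨p, hp, A, hA, hxA, -⟩ := T5B.key h h60 x hx
      obtain ⟨Q, hQ⟩ := hA.exists_le_sylow
      rcases hp with rfl | rfl | rfl
      · exact Or.inl ⟨hx, Q, hQ hxA⟩
      · exact Or.inr (Or.inl ⟨hx, Q, hQ hxA⟩)
      · exact Or.inr (Or.inr ⟨hx, Q, hQ hxA⟩)
  refine ⟨f.comp (QuotientGroup.mk' _), hf.2.comp (QuotientGroup.mk'_surjective _), ?_⟩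
  rw [← MonoidHom.comap_ker, (MonoidHom.ker_eq_bot_iff f).2 hf.1, MonoidHom.comap_bot,
    QuotientGroup.ker_mk']

theorem rowT5C : RowT5C := by
  intro G _ _ f hf hk h
  have hb : Function.Bijective (f.comp (commutator G).subtype) := by
    refine ⟨(injective_iff_map_eq_one _).2 fun a ha =>
      Subtype.ext (T5B.comm_center h a.2 (hk ▸ ha)), fun s => ?_⟩
    have h1 : (commutator G).map f = ⊤ := by
      rw [map_commutator_eq, MonoidHom.range_eq_top.2 hf]
      exact commutator_alternatingGroup_eq_top (by simp)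
    obtain ⟨a, ha, e⟩ : s ∈ (commutator G).map f := h1 ▸ mem_top s
    exact ⟨⟨a, ha⟩, e⟩
  let e := MulEquiv.ofBijective _ hb
  refine ⟨(commutator G).subtype.comp e.symm.toMonoidHom,
    (commutator G).subtype_injective.comp e.symm.injective, fun g => ⟨f g,
      ((e.symm (f g) : commutator G) : G)⁻¹ * g, ?_, (mul_inv_cancel_left _ _).symm⟩⟩
  have h2 : f (e.symm (f g) : commutator G) = f g := e.apply_symm_apply (f g)
  rw [← hk, MonoidHom.mem_ker, map_mul, map_inv, h2, inv_mul_cancel]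

end Pool.Agent.MP_62c071_al.H57
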