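import Pool.Agent.MP_62c071_al.H57.Spec

/-! Row TOP: from class sizes to the hypothesis, and from the conclusion to a direct product. -/

set_option autoImplicit false

namespace Pool.Agent.MP_62c071_al.H57

open Subgroup

namespace TOP

theorem card_class {G : Type} [Group G] (x : G) : Nat.card {y : G // IsConj x y} = ix x := by
  have e : ix x = (MulAction.stabilizer (ConjAct G) x).index :=
    (congrArg Subgroup.index (Subgroup.centralizer_eq_comap_stabilizer x)).trans
      (Subgroup.index_comap_of_surjective (MulAction.stabilizer (ConjAct G) x)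
        (f := (ConjAct.toConjAct (G := G)).toMonoidHom) ConjAct.toConjAct.surjective)
  rw [e, MulAction.index_stabilizer, ← Nat.card_coe_set_eq]
  exact Nat.card_congr (Equiv.subtypeEquivRight fun y =>
    isConj_comm.trans ConjAct.mem_orbit_conjAct.symm)

end TOP

open TOP in
theorem rowTOP (_h : RowSH) (h3 : RowA3) : RowTOP := by
  refine ⟨fun n G _ _ hn e => ?_, fun n G _ _ hn ⟨ψ, hψ, hs⟩ => ?_⟩
  · simp only [card_class] at e
    have h1 : ∀ g : G, ∃ s : An n, ix s = ix g := fun g => (Set.ext_iff.1 e _).1 ⟨g, rfl⟩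
    have h2 : ∀ s : An n, ∃ g : G, ix g = ix s := fun s => (Set.ext_iff.1 e _).2 ⟨s, rfl⟩
    have h4 : ∀ s : An n, Nat.card (An n) / ix s = Nat.card (cen s) := fun s =>
      Nat.div_eq_of_eq_mul_left (Nat.pos_of_ne_zero index_ne_zero_of_finite)
        (card_mul_index _).symm
    have h5 : ∀ κ ∈ Cz n, Nat.card (An n) ∣ κ * Nat.card G := by
      rintro _ ⟨s, rfl⟩
      obtain ⟨g, hg⟩ := h2 s
      rw [← card_mul_index (cen s)]
      exact Nat.mul_dvd_mul_left _ (hg.symm.dvd.trans (index_dvd_card (cen g)))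
    obtain ⟨κ, hκ, hc⟩ := h3.2.1 n hn
    have h6 := Nat.dvd_gcd (h5 κ hκ) (h5 _ (h3.1 n (by omega)))
    rw [Nat.gcd_mul_right, hc, one_mul] at h6
    obtain ⟨ζ, hζ⟩ := h6
    refine ⟨ζ, fun g => Nat.card (An n) / ix g, ⟨Nat.pos_of_ne_zero fun h0 => ?_, fun g => ?_,
      fun g => ?_⟩, ?_⟩
    · rw [h0, mul_zero] at hζ
      exact Nat.card_pos.ne' hζ
    · obtain ⟨s, hs⟩ := h1 g
      exact ⟨s, by rw [← hs, h4]⟩
    · obtain ⟨s, hs⟩ := h1 g
      refine Nat.eq_of_mul_eq_mul_right (Nat.pos_of_ne_zero (index_ne_zero_of_finite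
        (H := cen g))) ?_
      rw [card_mul_index, hζ, ← hs, h4, ← ix, ← hs, mul_assoc, ix, card_mul_index, mul_comm]
    · rintro _ ⟨s, rfl⟩
      obtain ⟨g, hg⟩ := h2 s
      exact ⟨g, (congrArg (Nat.card (An n) / ·) hg).trans (h4 s)⟩
  · refine ⟨center G, { (inferInstance : Group (center G)) with mul_comm := mul_comm' }, ⟨(MulEquiv.ofBijective
      (ψ.noncommCoprod (center G).subtype fun s z => mem_center_iff.1 z.2 (ψ s))
      ⟨(injective_iff_map_eq_one _).2 ?_, fun g => ?_⟩).symm⟩⟩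
    · rintro ⟨s, z⟩ h0
      have h1 : ψ s = (z : G)⁻¹ := eq_inv_of_mul_eq_one_left h0
      have h2 : s ∈ center (An n) := mem_center_iff.2 fun t => hψ (by
        rw [map_mul, map_mul, h1]
        exact mem_center_iff.1 (inv_mem z.2) _)
      rw [alternatingGroup.center_eq_bot (by simpa using by omega), mem_bot] at h2
      rw [h2, map_one, eq_comm, inv_eq_one] at h1
      exact Prod.ext h2 (Subtype.ext h1)
    · obtain ⟨s, z, hz, rfl⟩ := hs g
      exact ⟨(s, ⟨z, hz⟩), rfl⟩

end Pool.Agent.MP_62c071_al.H57
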