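import Pool.Agent.MP_62c071_al.H57.Spec

/-! Rows UP1 and END2: fixed points of `x` on the classes of three-cycles; the last step. -/

set_option autoImplicit false

namespace Pool.Agent.MP_62c071_al.H57

open Subgroup
open scoped Nat

namespace UP1

variable {G : Type} [Group G] {p k ζ : ℕ} {c : G → ℕ} {x : G} {ψ : An k →* G}

theorem mem_cen {g u : G} : u ∈ cen g ↔ Commute g u := by
  rw [cen, mem_centralizer_singleton_iff]
  exact ⟨fun h => h.symm, fun h => h.symm⟩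

theorem mem_BB {j : ℕ} {b : G} : b ∈ BB ψ j ↔ ∀ i, i < j → Commute (ψ (tt k i)) b := by
  rw [BB, mem_centralizer_iff]
  exact ⟨fun h i hi => h _ ⟨i, hi, rfl⟩, by rintro h _ ⟨i, hi, rfl⟩; exact h i hi⟩

theorem comA {a g : G} (ha : a ∈ centralizer (cen x : Set G)) (hg : Commute x g) : Commute g a :=
  ha g (mem_cen.2 hg)

theorem conj_orb {B : Subgroup G} {u v b : G} (hb : b ∈ B) (hv : v ∈ orb B u) :
    b * v * b⁻¹ ∈ orb B u := by
  obtain ⟨b', hb', rfl⟩ := hv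
  exact ⟨b * b', B.mul_mem hb hb', by group⟩

theorem mul_conj {b t u : G} (h : Commute t b) : b * u * b⁻¹ * t = b * (u * t) * b⁻¹ := by
  rw [mul_assoc (b * u), ← h.inv_right.eq]; group

theorem conj_mul' {b t u : G} (h : Commute t b) : t * (b * u * b⁻¹) = b * (t * u) * b⁻¹ := by
  rw [← mul_assoc, ← mul_assoc, h.eq]; group

theorem cube (hx : RowX3) {j : ℕ} (h2 : 2 ≤ j) (hj : j < k) {B : Subgroup G} {u : G}
    (hu : u ∈ orb B (ψ (tt k j))) : u ^ 3 = 1 := by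
  obtain ⟨b, -, rfl⟩ := hu
  rw [conj_pow, ← map_pow, ← (hx.2.2.1 k j h2 hj).1, pow_orderOf_eq_one, map_one]
  group

theorem pair (hx : RowX3) (hi : Function.Injective ψ) {i j : ℕ} (h2 : 2 ≤ i) (hij : i < j)
    (hj : j < k) {u : G} (hu : u ∈ orb (BB ψ j) (ψ (tt k j))) :
    (u * ψ (tt k i)) ^ 2 = 1 ∧ u * ψ (tt k i) ≠ 1 ∧ (ψ (tt k i) * u) ^ 2 = 1 ∧
      u ≠ ψ (tt k i) := by
  obtain ⟨b, hb, rfl⟩ := hu
  have hc := mem_BB.1 hb i hij
  have h1 := (hx.2.2.1 k j (by omega) hj).2 i h2 (by omega) (by omega)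
  have h3 := (hx.2.2.1 k i h2 (by omega)).2 j (by omega) hj (by omega)
  refine ⟨?_, ?_, ?_, fun e => h1.1 (hi ?_)⟩
  · rw [mul_conj hc, conj_pow, ← map_mul, ← map_pow, h1.2.1, map_one]; group
  · rw [mul_conj hc, ← map_mul]
    intro e
    exact h1.2.2 (hi (by rw [map_one]; exact conj_eq_one_iff.1 e))
  · rw [conj_mul' hc, conj_pow, ← map_mul, ← map_pow, h3.2.1, map_one]; group
  · have e1 : b * ψ (tt k i) * b⁻¹ = ψ (tt k i) := by rw [← hc.eq]; group
    exact mul_left_cancel (mul_right_cancel (e.trans e1.symm))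

theorem ncard_tt (hx : RowX3) (hi : Function.Injective ψ) {a b : ℕ} (h2 : 2 ≤ a) (hb : b ≤ k) :
    {u | ∃ i, a ≤ i ∧ i < b ∧ u = ψ (tt k i)}.ncard = b - a := by
  have e : {u | ∃ i, a ≤ i ∧ i < b ∧ u = ψ (tt k i)} = (fun i => ψ (tt k i)) '' Set.Ico a b := by
    ext u
    exact ⟨fun ⟨i, h1, h2, h3⟩ => ⟨i, ⟨h1, h2⟩, h3.symm⟩, fun ⟨i, h, h3⟩ => ⟨i, h.1, h.2, h3.symm⟩⟩
  rw [e, Set.InjOn.ncard_image, Set.ncard_Ico_nat]
  intro i h i' h' e
  by_contra hne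
  exact ((hx.2.2.1 k i (h2.trans h.1) (h.2.trans_le hb)).2 i' (h2.trans h'.1) (h'.2.trans_le hb)
    hne).1 (hi e)

theorem x_mem (h : Cfg p k ζ c x ψ) (j : ℕ) : x ∈ BB ψ j := mem_BB.2 fun _ _ => (h.com _).symm

end UP1

open UP1 in
theorem rowUP1 (ho : RowORB) (hx : RowX3) : RowUP1 := by
  intro G _ _ p k ζ c x ψ h
  obtain ⟨o1, o2, -⟩ := ho G p x h.pr h.xc.xp
  have h1 : ∀ (u : G) (s : An k), Commute x u → u ^ 3 = 1 → (u * ψ s) ^ 2 = 1 → u ∈ ψ.range := by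
    intro u s hu h3 h2
    obtain ⟨r, a, ha, rfl⟩ := h.dec u hu
    have hc : ∀ s, Commute (ψ s) a := fun s => comA ha (h.com s)
    rw [(hc r).mul_pow, ← map_pow] at h3
    rw [mul_assoc, ← (hc s).eq, ← mul_assoc, ← map_mul, (hc _).mul_pow, ← map_pow] at h2
    have e : a = (ψ (r ^ 3))⁻¹ * ψ ((r * s) ^ 2) := by
      rw [← eq_inv_of_mul_eq_one_right h3, eq_inv_of_mul_eq_one_left h2]
      group
    rw [e]
    exact mul_mem ⟨r, rfl⟩ (mul_mem (inv_mem ⟨_, rfl⟩) ⟨_, rfl⟩)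
  have h2 : ∀ j, 4 ≤ j → j < k → ∀ u ∈ orb (BB ψ j) (ψ (tt k j)), Commute x u →
      ∃ i, j ≤ i ∧ i < k ∧ u = ψ (tt k i) := by
    intro j h4 hj u hu hc
    have h3 := cube hx (by omega) hj hu
    obtain ⟨r, rfl⟩ := h1 u (tt k 2) hc h3 (pair hx h.inj le_rfl (by omega) hj hu).1
    obtain ⟨i, a, b, e⟩ := hx.2.1 k j r h4 hj.le (h.inj (by rw [map_pow, h3, map_one]))
      fun i hi hij => ⟨h.inj (by rw [map_pow, map_mul, (pair hx h.inj hi hij hj hu).1, map_one]),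
        fun e => (pair hx h.inj hi hij hj hu).2.1 (by rw [← map_mul, e, map_one])⟩
    exact ⟨i, a, b, congrArg ψ e⟩
  refine ⟨h1, h2, fun j => ?_, fun j h4 hj => ?_⟩
  · have e : BB ψ (j + 1) = BB ψ j ⊓ cen (ψ (tt k j)) := by
      ext b
      simp only [mem_inf, mem_BB, mem_cen, Nat.lt_succ_iff_lt_or_eq, or_imp, forall_and, forall_eq]
    rw [o1, e, inf_relIndex_left]
  · have h3 : ∀ i, j ≤ i → i < k → ψ (tt k i) ∈ orb (BB ψ j) (ψ (tt k j)) := fun i a b => by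
      obtain ⟨s, e, hs, -⟩ := hx.2.2.2 k j i (by omega) hj a b
      exact ⟨ψ s, mem_BB.2 fun l hl => ((hs l hl).map ψ).symm, by
        rw [← e, map_mul, map_mul, map_inv]⟩
    refine ⟨h3, ?_⟩
    obtain ⟨b, hb⟩ := o2 (orb (BB ψ j) (ψ (tt k j))) fun v hv => conj_orb (x_mem h j) hv
    refine ⟨b, ?_⟩
    rw [hb, ← ncard_tt hx h.inj (by omega : 2 ≤ j) le_rfl]
    congr 2
    ext u
    exact ⟨fun hu => h2 j h4 (by omega) u hu.1 hu.2, by
      rintro ⟨i, a, b, rfl⟩; exact ⟨h3 i a b, h.com _⟩⟩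

open UP1 in
theorem rowEND2 (ho : RowORB) (hx : RowX3) (h1 : RowUP1) (he : RowEND) (hs : RowSH) :
    RowEND2 := by
  intro G _ _ p k ζ c x ψ j h h4 hj hcard hmem hpair
  obtain ⟨o1, -, o3⟩ := ho G p x h.pr h.xc.xp
  obtain ⟨-, u2, -⟩ := h1 G p k ζ c x ψ h
  have hp := h.pr.pos
  have h5 := h.five
  set X := orb (BB ψ j) (ψ (tt k j)) with hX
  have hF : {v ∈ X | Commute x v}.ncard = k - j := by
    rw [← ncard_tt hx h.inj (by omega : 2 ≤ j) le_rfl]
    congr 1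
    ext u
    exact ⟨fun hu => u2 j h4 hj u hu.1 hu.2, by
      rintro ⟨i, a, b, rfl⟩; exact ⟨hmem i a b, h.com _⟩⟩
  have hN : {v ∈ X | ¬ Commute x v}.ncard = p := by
    have e : X = {v ∈ X | Commute x v} ∪ {v ∈ X | ¬ Commute x v} := by
      ext v
      simp only [Set.mem_union, Set.mem_ofPred_eq]
      tauto
    have e1 := Set.ncard_union_eq (s := {v ∈ X | Commute x v}) (t := {v ∈ X | ¬ Commute x v})
      (Set.disjoint_left.2 fun v a b => b.2 a.2)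
    rw [← e, hcard, hF] at e1
    omega
  obtain ⟨u, hu, hxu⟩ := (Set.ncard_pos (s := {v ∈ X | ¬ Commute x v})).1 (hN ▸ hp)
  have hconj : ∀ a ∈ BB ψ j, Commute x a → a * u * a⁻¹ ∈ {v ∈ X | ¬ Commute x v} := by
    intro a ha hc
    refine ⟨conj_orb ha hu, fun e => hxu ?_⟩
    have e1 := (hc.inv_right.mul_right e).mul_right hc
    simpa [mul_assoc] using e1
  have hO : {v | ∃ i : ℕ, v = x ^ i * u * (x ^ i)⁻¹} = {v ∈ X | ¬ Commute x v} := by
    refine Set.eq_of_subset_of_ncard_le ?_ (by rw [hN, o3 u hxu])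
    rintro _ ⟨i, rfl⟩
    exact hconj _ (pow_mem (x_mem h j) i) (Commute.self_pow x i)
  set A := centralizer (cen x : Set G) with hA
  have hxA : ∀ a ∈ A, Commute x a := fun a ha => comA ha (Commute.refl x)
  have hidx : (cen u).relIndex A ≤ p := by
    rw [← o1, ← hN]
    refine Set.ncard_le_ncard ?_
    rintro _ ⟨a, ha, rfl⟩
    exact hconj a (mem_BB.2 fun i _ => comA ha (h.com _)) (hxA a ha)
  have hζ : ζ ≤ Nat.card ↥(cen u ⊓ A) := by
    have e := ((cen u).subgroupOf A).index_mul_card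
    rw [h.cardA, ← card_map_of_injective A.subtype_injective, subgroupOf_map_subtype] at e
    have e1 : ζ * p ≤ Nat.card ↥(cen u ⊓ A) * p := by
      rw [← e, mul_comm]
      exact Nat.mul_le_mul_left _ hidx
    exact Nat.le_of_mul_le_mul_right e1 hp
  refine he G (p + k) ({u | ∃ i, 2 ≤ i ∧ i < j ∧ u = ψ (tt k i)} ∪ X) (cen u ⊓ A) (by omega)
    ⟨?_, ?_⟩ ?_ (fun a ha b hb => (comA ha.2 (hxA b hb.2)).symm) ?_ ?_
  · rintro t (⟨i, a, b, rfl⟩ | ht)
    · have e := (hx.2.2.1 k i a (by omega)).1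
      refine ⟨fun e1 => ?_, by rw [← map_pow, ← e, pow_orderOf_eq_one, map_one]⟩
      rw [h.inj (e1.trans (map_one ψ).symm), orderOf_one] at e
      omega
    · refine ⟨?_, cube hx (by omega) hj ht⟩
      obtain ⟨b, -, rfl⟩ := ht
      intro e1
      have e := (hx.2.2.1 k j (by omega) hj).1
      rw [h.inj ((conj_eq_one_iff.1 e1).trans (map_one ψ).symm), orderOf_one] at e
      omega
  · rintro t (⟨i, a, b, rfl⟩ | ht) v (⟨i', a', b', rfl⟩ | hv) hne
    · rw [← map_mul, ← map_pow, ((hx.2.2.1 k i a (by omega)).2 i' a' (by omega)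
        (by rintro rfl; exact hne rfl)).2.1, map_one]
    · exact (pair hx h.inj a b hj hv).2.2.1
    · exact (pair hx h.inj a' b' hj ht).1
    · exact hpair t ht v hv hne
  · rw [Set.ncard_union_eq, ncard_tt hx h.inj le_rfl hj.le, hcard]
    · omega
    · rw [Set.disjoint_left]
      rintro _ ⟨i, a, b, rfl⟩ ht
      exact (pair hx h.inj a b hj ht).2.2.2 rfl
  · rintro a ha t (⟨i, -, -, rfl⟩ | ht)
    · exact (comA ha.2 (h.com _)).symm
    · by_cases e : Commute x t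
      · exact (comA ha.2 e).symm
      · obtain ⟨i, rfl⟩ : t ∈ {v | ∃ i : ℕ, v = x ^ i * u * (x ^ i)⁻¹} := hO ▸ ⟨ht, e⟩
        have e1 := (hxA a ha.2).symm.pow_right i
        exact (e1.mul_right (mem_cen.1 ha.1).symm).mul_right e1.inv_right
  · have e : Nat.card G = ζ * c 1 := by
      rw [← h.ch.card 1, show cen (1 : G) = ⊤ from eq_top_iff.2 fun g _ =>
        mem_cen.2 (Commute.one_left g), card_top]
    have e1 := Nat.le_of_dvd (Nat.factorial_pos _)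
      ((hs.2.2 (p + k) (c 1) (h.ch.mem 1)).2.2.1 (by omega))
    rw [e, mul_left_comm]
    exact Nat.mul_le_mul hζ e1

end Pool.Agent.MP_62c071_al.H57
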