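import Pool.Agent.MP_62c071_al.H57.Spec

/-! Rows UP2 and UP3: the chain of centralisers of three-cycles. -/

set_option autoImplicit false

namespace Pool.Agent.MP_62c071_al.H57

open Subgroup

namespace UP2

theorem tt_apply (k i : ℕ) (h : 2 ≤ i ∧ i < k) :
    ((tt k i : An k) : Equiv.Perm (Fin k)) ⟨1, by omega⟩ = ⟨i, h.2⟩ := by
  have h1 : (⟨0, by omega⟩ : Fin k) ≠ ⟨1, by omega⟩ := by
    intro e; simp [Fin.ext_iff] at e
  have h2 : (⟨0, by omega⟩ : Fin k) ≠ ⟨i, h.2⟩ := by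
    intro e; simp only [Fin.ext_iff] at e; omega
  unfold tt
  rw [dif_pos h]
  unfold cy3
  rw [dif_pos ⟨h1, h2⟩]
  simp only [Equiv.Perm.coe_mul, Function.comp_apply, Equiv.swap_apply_right,
    Equiv.swap_apply_left]

theorem tt_inj {k i j : ℕ} (hi : 2 ≤ i ∧ i < k) (hj : 2 ≤ j ∧ j < k) (e : tt k i = tt k j) :
    i = j := by
  have h1 := tt_apply k i hi
  have h2 := tt_apply k j hj
  rw [e, h2] at h1
  simpa [Fin.ext_iff, eq_comm] using h1

variable {G : Type} [Group G] {k : ℕ}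

theorem mem_BB (ψ : An k →* G) (j : ℕ) (b : G) :
    b ∈ BB ψ j ↔ ∀ i, i < j → ψ (tt k i) * b = b * ψ (tt k i) := by
  unfold BB
  rw [mem_centralizer_iff]
  constructor
  · intro h i hi
    exact h _ ⟨i, hi, rfl⟩
  · rintro h _ ⟨i, hi, rfl⟩
    exact h i hi

theorem mem_cen' (g b : G) : b ∈ cen g ↔ g * b = b * g := by
  unfold cen
  rw [mem_centralizer_iff]
  simp

theorem BB_anti (ψ : An k →* G) {i j : ℕ} (h : i ≤ j) : BB ψ j ≤ BB ψ i := by
  intro b hb
  rw [mem_BB] at hb ⊢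
  intro l hl
  exact hb l (by omega)

theorem BB_succ (ψ : An k →* G) (j : ℕ) : BB ψ (j + 1) = cen (ψ (tt k j)) ⊓ BB ψ j := by
  ext b
  rw [mem_inf, mem_BB, mem_BB, mem_cen']
  constructor
  · intro h
    exact ⟨h j (by omega), fun i hi => h i (by omega)⟩
  · rintro ⟨h1, h2⟩ i hi
    rcases Nat.lt_succ_iff_lt_or_eq.mp hi with h | rfl
    · exact h2 i h
    · exact h1

theorem orb_conj {B : Subgroup G} {u v b : G} (hb : b ∈ B) (hv : v ∈ orb B u) :
    b * v * b⁻¹ ∈ orb B u := by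
  obtain ⟨c, hc, rfl⟩ := hv
  exact ⟨b * c, B.mul_mem hb hc, by group⟩

/-- the three-cycles with index at least `j` -/
def TT (ψ : An k →* G) (j : ℕ) : Set G := (fun i => ψ (tt k i)) '' (Finset.Ico j k : Set ℕ)

theorem mem_TT (ψ : An k →* G) (j : ℕ) (v : G) :
    v ∈ TT ψ j ↔ ∃ i, j ≤ i ∧ i < k ∧ v = ψ (tt k i) := by
  unfold TT
  constructor
  · rintro ⟨i, hi, rfl⟩
    rw [Finset.mem_coe, Finset.mem_Ico] at hi
    exact ⟨i, hi.1, hi.2, rfl⟩
  · rintro ⟨i, h1, h2, rfl⟩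
    exact ⟨i, by rw [Finset.mem_coe, Finset.mem_Ico]; exact ⟨h1, h2⟩, rfl⟩

theorem ncard_TT (ψ : An k →* G) (hψ : Function.Injective ψ) {j : ℕ} (hj : 2 ≤ j) :
    (TT ψ j).ncard = k - j := by
  unfold TT
  rw [Set.InjOn.ncard_image, Set.ncard_coe_finset, Nat.card_Ico]
  intro a ha b hb e
  rw [Finset.mem_coe, Finset.mem_Ico] at ha hb
  exact tt_inj ⟨by omega, ha.2⟩ ⟨by omega, hb.2⟩ (hψ e)

theorem orb_eq_TT [Finite G] (ψ : An k →* G) (hψ : Function.Injective ψ) {j : ℕ} (hj : 2 ≤ j)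
    (X : Set G) (h1 : ∀ i, j ≤ i → i < k → ψ (tt k i) ∈ X) (h2 : X.ncard = k - j) :
    X = TT ψ j := by
  symm
  apply Set.eq_of_subset_of_ncard_le
  · intro v hv
    obtain ⟨i, a, b, rfl⟩ := (mem_TT ψ j v).mp hv
    exact h1 i a b
  · rw [h2, ncard_TT ψ hψ hj]
  · exact Set.toFinite _

theorem chain [Finite G] (ψ : An k →* G) (m : ℕ) (d : ℕ)
    (h : ∀ j, 4 ≤ j → j < 4 + d → m ≤ (BB ψ (j + 1)).relIndex (BB ψ j)) :
    m ^ d ≤ (BB ψ (4 + d)).relIndex (BB ψ 4) := by
  induction d with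
  | zero => simp
  | succ d ih =>
    have h1 := ih fun j a b => h j a (by omega)
    have h2 := h (4 + d) (by omega) (by omega)
    have h3 := relIndex_mul_relIndex (BB ψ (4 + d + 1)) (BB ψ (4 + d)) (BB ψ 4)
      (BB_anti ψ (by omega)) (BB_anti ψ (by omega))
    rw [show 4 + (d + 1) = 4 + d + 1 by omega, ← h3, pow_succ, mul_comm]
    exact Nat.mul_le_mul h2 h1

end UP2

open UP2

theorem rowUP2 (hg : RowGEN) (h1 : RowUP1) : RowUP2 := by
  intro G _ _ p k ζ c x ψ J cfg hix hJ4 hJk hpow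
  obtain ⟨-, -, hrel, horb⟩ := h1 G p k ζ c x ψ cfg
  obtain ⟨-, hcl, hcyc⟩ := hg
  obtain ⟨g, hgen⟩ := hcyc k cfg.five
  -- the total index is small
  have hle : cen (ψ g) ⊓ BB ψ 4 ≤ BB ψ J := by
    intro b hb
    rw [mem_inf, mem_cen', mem_BB] at hb
    rw [mem_BB]
    intro i hi
    by_cases h3 : i < 4
    · exact hb.2 i h3
    · obtain ⟨e, he⟩ := hgen i (by omega) (by omega)
      have c1 : Commute (ψ g) b := hb.1
      have c2 : Commute (ψ (tt k 3)) b := hb.2 3 (by omega)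
      rw [← he, map_mul, map_mul, map_inv, map_pow]
      exact (((c1.pow_left e).mul_left c2).mul_left (c1.pow_left e).inv_left).eq
  have hsmall : (BB ψ J).relIndex (BB ψ 4) ≤ (p + k) ^ k := by
    have a1 : (BB ψ J).relIndex (BB ψ 4) ≤ (cen (ψ g) ⊓ BB ψ 4).relIndex (BB ψ 4) :=
      relIndex_le_of_le_left hle index_ne_zero_of_finite
    rw [inf_relIndex_right] at a1
    have a2 : (cen (ψ g)).relIndex (BB ψ 4) ≤ (cen (ψ g)).relIndex ⊤ :=
      relIndex_le_of_le_right le_top index_ne_zero_of_finite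
    rw [relIndex_top_right] at a2
    exact a1.trans (a2.trans (hix g))
  -- some step is small
  have hex : ∃ j, 4 ≤ j ∧ j < J ∧ (BB ψ (j + 1)).relIndex (BB ψ j) < 2 * p := by
    by_contra hno
    push Not at hno
    have := chain ψ (2 * p) (J - 4) fun j a b => hno j a (by omega)
    rw [show 4 + (J - 4) = J by omega] at this
    omega
  obtain ⟨j, hj4, hjJ, hj⟩ := hex
  obtain ⟨hmem, b, hb⟩ := horb j hj4 (by omega)
  rw [hrel j, hb] at hj
  have hb1 : b < 2 := by
    by_contra hb2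
    have : 2 * p ≤ b * p := Nat.mul_le_mul_right p (by omega)
    omega
  rcases (by omega : b = 0 ∨ b = 1) with rfl | rfl
  · left
    have hT := orb_eq_TT ψ cfg.inj (by omega : 2 ≤ j) _ hmem (by simpa using hb)
    intro u hu
    have huj : u ∈ BB ψ j := BB_anti ψ hjJ.le hu
    apply mem_normalizer_fintype
    rintro _ ⟨s, rfl⟩
    have hs : s ∈ closure {u | ∃ i, i < k ∧ u = tt k i} := by rw [hcl k]; trivial
    induction hs using closure_induction with
    | mem t ht =>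
      obtain ⟨i, hi, rfl⟩ := ht
      by_cases hij : i < j
      · have := (mem_BB ψ j u).mp huj i hij
        rw [← this, mul_inv_cancel_right]
        exact ⟨_, rfl⟩
      · have := orb_conj huj (hmem i (by omega) hi)
        rw [hT, mem_TT] at this
        obtain ⟨l, -, -, hl⟩ := this
        rw [hl]
        exact ⟨_, rfl⟩
    | one => rw [map_one, mul_one, mul_inv_cancel]; exact ψ.range.one_mem
    | mul s t _ _ hs ht =>
      have : u * ψ (s * t) * u⁻¹ = (u * ψ s * u⁻¹) * (u * ψ t * u⁻¹) := by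
        rw [map_mul]; group
      rw [this]
      exact ψ.range.mul_mem hs ht
    | inv s _ hs =>
      have : u * ψ s⁻¹ * u⁻¹ = (u * ψ s * u⁻¹)⁻¹ := by
        rw [map_inv]; group
      rw [this]
      exact ψ.range.inv_mem hs
  · right
    exact ⟨j, hj4, by omega, by simpa using hb⟩

theorem rowUP3 (ho : RowORB) (hx : RowX3) (h1 : RowUP1) (he : RowEND2) : RowUP3 := by
  intro G _ _ p k ζ c x ψ j cfg hj4 hjk hcard
  obtain ⟨-, -, hrel, horb⟩ := h1 G p k ζ c x ψ cfg
  obtain ⟨hob, -, -⟩ := ho G p x cfg.pr cfg.xc.xp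
  obtain ⟨-, -, hx3, hx4⟩ := hx
  obtain ⟨hmem, -⟩ := horb j hj4 (by omega)
  obtain ⟨hmem', b, hb⟩ := horb (j + 1) (by omega) (by omega)
  have hp := cfg.pr.pos
  have hlt := cfg.lt
  have hfix : ∀ u ∈ BB ψ (j + 1), u * ψ (tt k j) * u⁻¹ = ψ (tt k j) := by
    intro u hu
    rw [← (mem_BB ψ (j + 1) u).mp hu j (by omega), mul_inv_cancel_right]
  have hsub : orb (BB ψ (j + 1)) (ψ (tt k (j + 1))) ⊆
      orb (BB ψ j) (ψ (tt k j)) \ {ψ (tt k j)} := by
    rintro _ ⟨u, hu, rfl⟩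
    refine ⟨orb_conj (BB_anti ψ (by omega) hu) (hmem (j + 1) (by omega) (by omega)), ?_⟩
    intro e
    rw [Set.mem_singleton_iff] at e
    have e2 : ψ (tt k (j + 1)) = ψ (tt k j) := by
      have := e.trans (hfix u hu).symm
      simpa using this
    have := tt_inj ⟨by omega, by omega⟩ ⟨by omega, by omega⟩ (cfg.inj e2)
    omega
  have hdiff : (orb (BB ψ j) (ψ (tt k j)) \ {ψ (tt k j)}).ncard = k - j + p - 1 := by
    rw [Set.ncard_diff_singleton_of_mem (hmem j le_rfl (by omega)), hcard]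
  have hle := Set.ncard_le_ncard hsub (Set.toFinite _)
  rw [hdiff, hb] at hle
  have hb1 : b < 2 := by
    by_contra hb2
    have : 2 * p ≤ b * p := Nat.mul_le_mul_right p (by omega)
    omega
  rcases (by omega : b = 0 ∨ b = 1) with rfl | rfl
  · exfalso
    have hT := orb_eq_TT ψ cfg.inj (by omega : 2 ≤ j + 1) _ hmem' (by simpa using hb)
    set S : Subgroup G := BB ψ j ⊓ normalizer (TT ψ j) with hS
    have hS1 : BB ψ (j + 1) ≤ S := by
      intro u hu
      refine ⟨BB_anti ψ (by omega) hu, ?_⟩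
      apply mem_normalizer_fintype
      intro v hv
      obtain ⟨i, a1, a2, rfl⟩ := (mem_TT ψ j v).mp hv
      rcases Nat.eq_or_lt_of_le a1 with rfl | a3
      · rw [hfix u hu]; exact hv
      · have := orb_conj hu (hmem' i a3 a2)
        rw [hT, mem_TT] at this
        obtain ⟨l, b1, b2, hl⟩ := this
        rw [mem_TT]
        exact ⟨l, by omega, b2, hl⟩
    have hS2 : S ≤ BB ψ j := inf_le_left
    have hoS : orb S (ψ (tt k j)) = TT ψ j := by
      ext v
      constructor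
      · rintro ⟨u, hu, rfl⟩
        exact (mem_set_normalizer_iff.mp hu.2 _).mp
          ((mem_TT ψ j _).mpr ⟨j, le_rfl, by omega, rfl⟩)
      · intro hv
        obtain ⟨i, a1, a2, rfl⟩ := (mem_TT ψ j v).mp hv
        obtain ⟨s, s1, s2, s3⟩ := hx4 k j i (by omega) (by omega) a1 a2
        refine ⟨ψ s, ⟨?_, ?_⟩, ?_⟩
        · change ψ s ∈ BB ψ j
          rw [mem_BB]
          intro l hl
          rw [← map_mul, ← map_mul, (s2 l hl).eq]
        · apply mem_normalizer_fintype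
          intro w hw
          obtain ⟨l, b1, b2, rfl⟩ := (mem_TT ψ j w).mp hw
          obtain ⟨l', c1, c2, c3⟩ := s3 l b1 b2
          rw [mem_TT]
          exact ⟨l', c1, c2, by rw [← c3, map_mul, map_mul, map_inv]⟩
        · rw [← s1, map_mul, map_mul, map_inv]
    have r1 : (BB ψ (j + 1)).relIndex S = k - j := by
      have : (BB ψ (j + 1)).relIndex S = (cen (ψ (tt k j))).relIndex S := by
        rw [← inf_relIndex_right (BB ψ (j + 1)), ← inf_relIndex_right (cen (ψ (tt k j))),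
          BB_succ, inf_assoc, inf_eq_right.mpr hS2]
      rw [this, ← hob, hoS, ncard_TT ψ cfg.inj (by omega)]
    have r2 := relIndex_mul_relIndex (BB ψ (j + 1)) S (BB ψ j) hS1 hS2
    rw [r1, hrel j, hcard] at r2
    have r3 : k - j ∣ p := by
      have : k - j ∣ k - j + p := Dvd.intro _ r2
      exact (Nat.dvd_add_right (dvd_refl _)).mp this
    rcases (Nat.dvd_prime cfg.pr).mp r3 with r4 | r4 <;> omega
  · have heq : orb (BB ψ (j + 1)) (ψ (tt k (j + 1))) =
        orb (BB ψ j) (ψ (tt k j)) \ {ψ (tt k j)} := by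
      apply Set.eq_of_subset_of_ncard_le hsub _ (Set.toFinite _)
      rw [hdiff, hb]
      omega
    refine he G p k ζ c x ψ j cfg hj4 (by omega) hcard hmem ?_
    rintro _ ⟨u, hu, rfl⟩ v hv hne
    have hv' : u⁻¹ * v * u⁻¹⁻¹ ∈ orb (BB ψ (j + 1)) (ψ (tt k (j + 1))) := by
      rw [heq]
      refine ⟨orb_conj ((BB ψ j).inv_mem hu) hv, ?_⟩
      intro e
      rw [Set.mem_singleton_iff] at e
      apply hne
      rw [← e]; group
    obtain ⟨w, hw, hw2⟩ := hv'
    have hsq : (ψ (tt k j) * ψ (tt k (j + 1))) ^ 2 = 1 := by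
      rw [← map_mul, ← map_pow,
        ((hx3 k j (by omega) (by omega)).2 (j + 1) (by omega) (by omega) (by omega)).2.1, map_one]
    have hv2 : v = u * (w * ψ (tt k (j + 1)) * w⁻¹) * u⁻¹ := by
      rw [← hw2]; group
    have : u * ψ (tt k j) * u⁻¹ * v =
        (u * w) * (ψ (tt k j) * ψ (tt k (j + 1))) * (u * w)⁻¹ := by
      rw [hv2]
      conv_lhs => rw [← hfix w hw]
      group
    rw [this, conj_pow, hsq]
    group

end Pool.Agent.MP_62c071_al.H57
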