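import Pool.Agent.MP_62c071_al.H57.Spec

/-! Row X3: three-cycles whose product with a given three-cycle is an involution. -/

set_option autoImplicit false

namespace Pool.Agent.MP_62c071_al.H57

open Equiv

namespace X3

section gen

variable {α : Type} [Fintype α] [DecidableEq α] {a b c : α}

theorem cy_apply (hab : a ≠ b) (hac : a ≠ c) (x : α) :
    (cy3 a b c : Perm α) x = swap a c (swap a b x) := by
  rw [cy3, dif_pos ⟨hab, hac⟩]; rfl

theorem cy_a (hab : a ≠ b) (hac : a ≠ c) (hbc : b ≠ c) : (cy3 a b c : Perm α) a = b := by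
  rw [cy_apply hab hac, swap_apply_left, swap_apply_of_ne_of_ne hab.symm hbc]

theorem cy_b (hab : a ≠ b) (hac : a ≠ c) : (cy3 a b c : Perm α) b = c := by
  rw [cy_apply hab hac, swap_apply_right, swap_apply_left]

theorem cy_c (hab : a ≠ b) (hac : a ≠ c) (hbc : b ≠ c) : (cy3 a b c : Perm α) c = a := by
  rw [cy_apply hab hac, swap_apply_of_ne_of_ne hac.symm hbc.symm, swap_apply_right]

theorem cy_o (hab : a ≠ b) (hac : a ≠ c) {x : α} (ha : x ≠ a) (hb : x ≠ b) (hc : x ≠ c) :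
    (cy3 a b c : Perm α) x = x := by
  rw [cy_apply hab hac, swap_apply_of_ne_of_ne ha hb, swap_apply_of_ne_of_ne ha hc]

theorem eq_cy (hab : a ≠ b) (hac : a ≠ c) (hbc : b ≠ c) {u : alternatingGroup α}
    (ha : (u : Perm α) a = b) (hb : (u : Perm α) b = c) (hc : (u : Perm α) c = a)
    (ho : ∀ x, x ≠ a → x ≠ b → x ≠ c → (u : Perm α) x = x) : u = cy3 a b c := by
  refine Subtype.ext (Equiv.ext fun x => ?_)
  by_cases h1 : x = a
  · rw [h1, ha, cy_a hab hac hbc]
  by_cases h2 : x = b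
  · rw [h2, hb, cy_b hab hac]
  by_cases h3 : x = c
  · rw [h3, hc, cy_c hab hac hbc]
  rw [ho x h1 h2 h3, cy_o hab hac h1 h2 h3]

theorem cy_rot (hab : a ≠ b) (hac : a ≠ c) (hbc : b ≠ c) : cy3 a b c = cy3 b c a :=
  eq_cy hbc hab.symm hac.symm (cy_b hab hac) (cy_c hab hac hbc) (cy_a hab hac hbc)
    fun _ h1 h2 h3 => cy_o hab hac h3 h1 h2

theorem cy_conj (hab : a ≠ b) (hac : a ≠ c) (hbc : b ≠ c) (s : alternatingGroup α) :
    s * cy3 a b c * s⁻¹ = cy3 ((s : Perm α) a) ((s : Perm α) b) ((s : Perm α) c) := by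
  refine eq_cy (s.1.injective.ne hab) (s.1.injective.ne hac) (s.1.injective.ne hbc) ?_ ?_ ?_
    fun x h1 h2 h3 => ?_
  · simp [cy_a hab hac hbc]
  · simp [cy_b hab hac]
  · simp [cy_c hab hac hbc]
  · obtain ⟨y, rfl⟩ := s.1.surjective x
    simp [cy_o hab hac (x := y) (fun e => h1 (by rw [e])) (fun e => h2 (by rw [e]))
      fun e => h3 (by rw [e])]

theorem cy_cube (hab : a ≠ b) (hac : a ≠ c) (hbc : b ≠ c) : cy3 a b c ^ 3 = 1 := by
  refine Subtype.ext (Equiv.ext fun x => ?_)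
  change (cy3 a b c : Perm α) ((cy3 a b c : Perm α) ((cy3 a b c : Perm α) x)) = x
  by_cases h1 : x = a
  · rw [h1, cy_a hab hac hbc, cy_b hab hac, cy_c hab hac hbc]
  by_cases h2 : x = b
  · rw [h2, cy_b hab hac, cy_c hab hac hbc, cy_a hab hac hbc]
  by_cases h3 : x = c
  · rw [h3, cy_c hab hac hbc, cy_a hab hac hbc, cy_b hab hac]
  simp only [cy_o hab hac h1 h2 h3]

theorem cy_ne (hab : a ≠ b) (hac : a ≠ c) (hbc : b ≠ c) : cy3 a b c ≠ 1 := fun e => by
  have := cy_a hab hac hbc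
  rw [e] at this
  exact hab this

theorem cy_sq (hab : a ≠ b) (hac : a ≠ c) (hbc : b ≠ c) {d : α} (had : a ≠ d) (hbd : b ≠ d)
    (hcd : c ≠ d) : (cy3 a b c * cy3 a b d) ^ 2 = 1 := by
  refine Subtype.ext (Equiv.ext fun x => ?_)
  change (cy3 a b c : Perm α) ((cy3 a b d : Perm α) ((cy3 a b c : Perm α)
    ((cy3 a b d : Perm α) x))) = x
  have c1 := cy_o hab hac had.symm hbd.symm hcd.symm
  have c2 := cy_o hab had hac.symm hbc.symm hcd
  by_cases h1 : x = a
  · rw [h1, cy_a hab had hbd, cy_b hab hac, c2, cy_c hab hac hbc]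
  by_cases h2 : x = b
  · rw [h2, cy_b hab had, c1, cy_c hab had hbd, cy_a hab hac hbc]
  by_cases h3 : x = c
  · rw [h3, c2, cy_c hab hac hbc, cy_a hab had hbd, cy_b hab hac]
  by_cases h4 : x = d
  · rw [h4, cy_c hab had hbd, cy_a hab hac hbc, cy_b hab had, c1]
  simp only [cy_o hab hac h1 h2 h3, cy_o hab had h1 h2 h4]

theorem out (hab : a ≠ b) (hac : a ≠ c) {u : alternatingGroup α} (h3 : u ^ 3 = 1)
    (h2 : (u * cy3 a b c) ^ 2 = 1) {y : α} (ha : y ≠ a) (hb : y ≠ b) (hc : y ≠ c) :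
    (u : Perm α) y = y ∨ (u : Perm α) y = a ∨ (u : Perm α) y = b ∨ (u : Perm α) y = c := by
  by_contra h
  simp only [not_or] at h
  have e3 : (u : Perm α) ((u : Perm α) ((u : Perm α) y)) = y :=
    congrArg (fun s : alternatingGroup α => (s : Perm α) y) h3
  have e2 : (u : Perm α) ((cy3 a b c : Perm α) ((u : Perm α) ((cy3 a b c : Perm α) y))) = y :=
    congrArg (fun s : alternatingGroup α => (s : Perm α) y) h2
  rw [cy_o hab hac ha hb hc, cy_o hab hac h.2.1 h.2.2.1 h.2.2.2] at e2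
  rw [e2] at e3
  exact h.1 e3

theorem hit (hab : a ≠ b) (hac : a ≠ c) (hbc : b ≠ c) {u : alternatingGroup α} (h3 : u ^ 3 = 1)
    (h2 : (u * cy3 a b c) ^ 2 = 1) {y : α} (ha : y ≠ a) (hb : y ≠ b) (hc : y ≠ c)
    (h : (u : Perm α) y = a) : u = cy3 a b y := by
  have e3 : ∀ x, (u : Perm α) ((u : Perm α) ((u : Perm α) x)) = x := fun x =>
    congrArg (fun s : alternatingGroup α => (s : Perm α) x) h3
  have e2 : ∀ x, (u : Perm α) ((cy3 a b c : Perm α) ((u : Perm α) ((cy3 a b c : Perm α) x))) = x :=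
    fun x => congrArg (fun s : alternatingGroup α => (s : Perm α) x) h2
  have f1 := e2 y
  rw [cy_o hab hac ha hb hc, h, cy_a hab hac hbc] at f1
  have f2 := e3 b
  rw [f1, h] at f2
  have f3 := e2 c
  rw [cy_c hab hac hbc, f2, cy_b hab hac] at f3
  refine eq_cy hab ha.symm hb.symm f2 f1 h fun x h1 h4 h5 => ?_
  by_cases h6 : x = c
  · rw [h6, f3]
  rcases out hab hac h3 h2 h1 h4 h6 with e | e | e | e
  · exact e
  · exact absurd (u.1.injective (e.trans h.symm)) h5
  · exact absurd (u.1.injective (e.trans f2.symm)) h1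
  · exact absurd (u.1.injective (e.trans f3.symm)) h6

theorem one (hab : a ≠ b) (hac : a ≠ c) (hbc : b ≠ c) {u : alternatingGroup α} (h3 : u ^ 3 = 1)
    (h2 : (u * cy3 a b c) ^ 2 = 1) (h1 : u * cy3 a b c ≠ 1) :
    ∃ i, i ≠ a ∧ i ≠ b ∧ i ≠ c ∧ (u = cy3 a b i ∨ u = cy3 b c i ∨ u = cy3 c a i) := by
  by_cases h : ∀ y, y ≠ a → y ≠ b → y ≠ c → (u : Perm α) y = y
  · exfalso
    have e3 : ∀ x, (u : Perm α) ((u : Perm α) ((u : Perm α) x)) = x := fun x =>
      congrArg (fun s : alternatingGroup α => (s : Perm α) x) h3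
    have e2 : ∀ x,
        (u : Perm α) ((cy3 a b c : Perm α) ((u : Perm α) ((cy3 a b c : Perm α) x))) = x :=
      fun x => congrArg (fun s : alternatingGroup α => (s : Perm α) x) h2
    have ta := cy_a hab hac hbc
    have tb := cy_b hab hac
    have tc := cy_c hab hac hbc
    have m : ∀ x, x = a ∨ x = b ∨ x = c →
        (u : Perm α) x = a ∨ (u : Perm α) x = b ∨ (u : Perm α) x = c := fun x hx => by
      by_contra e
      simp only [not_or] at e
      have := u.1.injective (h _ e.1 e.2.1 e.2.2)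
      rw [this] at e
      tauto
    have k : (u : Perm α) a = c ∧ (u : Perm α) b = a ∧ (u : Perm α) c = b := by
      have a2 := e2 a
      have b2 := e2 b
      have c2 := e2 c
      have a3 := e3 a
      have b3 := e3 b
      have c3 := e3 c
      rw [ta] at a2
      rw [tb] at b2
      rw [tc] at c2
      rcases m a (by simp) with p | p | p <;> rcases m b (by simp) with q | q | q <;>
        rcases m c (by simp) with r | r | r <;>
        simp only [p, q, r, ta, tb, tc] at a2 b2 c2 a3 b3 c3 <;>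
        first
          | exact ⟨p, q, r⟩
          | (exfalso; grind)
    refine h1 (Subtype.ext (Equiv.ext fun x => ?_))
    change (u : Perm α) ((cy3 a b c : Perm α) x) = x
    by_cases h1 : x = a
    · rw [h1, ta, k.2.1]
    by_cases h2 : x = b
    · rw [h2, tb, k.2.2]
    by_cases h3 : x = c
    · rw [h3, tc, k.1]
    rw [cy_o hab hac h1 h2 h3, h x h1 h2 h3]
  · simp only [not_forall] at h
    obtain ⟨y, ha, hb, hc, h⟩ := h
    refine ⟨y, ha, hb, hc, ?_⟩
    rcases out hab hac h3 h2 ha hb hc with e | e | e | e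
    · exact absurd e h
    · exact Or.inl (hit hab hac hbc h3 h2 ha hb hc e)
    · rw [cy_rot hab hac hbc] at h2
      exact Or.inr (Or.inl (hit hbc hab.symm hac.symm h3 h2 hb hc ha e))
    · rw [cy_rot hab hac hbc, cy_rot hbc hab.symm hac.symm] at h2
      exact Or.inr (Or.inr (hit hac.symm hbc.symm hab h3 h2 hc ha hb e))

end gen

variable {k : ℕ}

theorem tt_eq {i : ℕ} (h2 : 2 ≤ i) (hi : i < k) :
    tt k i = cy3 ⟨0, by omega⟩ ⟨1, by omega⟩ ⟨i, hi⟩ := dif_pos ⟨h2, hi⟩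

theorem fne {i j : ℕ} {hi : i < k} {hj : j < k} (h : i ≠ j) : (⟨i, hi⟩ : Fin k) ≠ ⟨j, hj⟩ :=
  fun e => h (congrArg Fin.val e)

theorem two {j : ℕ} {u : An k} (h4 : 4 ≤ j) (hj : j ≤ k) (h3 : u ^ 3 = 1)
    (h : ∀ i, 2 ≤ i → i < j → (u * tt k i) ^ 2 = 1 ∧ u * tt k i ≠ 1) :
    ∃ i, j ≤ i ∧ i < k ∧ u = tt k i := by
  have k0 : 0 < k := by omega
  have k1 : 1 < k := by omega
  have k2 : 2 < k := by omega
  have k3 : 3 < k := by omega
  obtain ⟨a1, a2⟩ := h 2 le_rfl (by omega)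
  obtain ⟨b1, b2⟩ := h 3 (by omega) (by omega)
  rw [tt_eq le_rfl (by omega)] at a1 a2
  rw [tt_eq (by omega) (by omega)] at b1 b2
  obtain ⟨m, m0, m1, m2, hm⟩ := one (fne (by omega)) (fne (by omega)) (fne (by omega)) h3 a1 a2
  obtain ⟨n, n0, n1, n2, hn⟩ := one (fne (by omega)) (fne (by omega)) (fne (by omega)) h3 b1 b2
  rcases hm with hm | hm | hm
  · have c0 : m.1 ≠ 0 := fun e => m0 (Fin.ext e)
    have c1 : m.1 ≠ 1 := fun e => m1 (Fin.ext e)
    have e : u = tt k m := by rw [tt_eq (by omega) m.2]; exact hm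
    refine ⟨m, not_lt.1 fun hlt => ?_, m.2, e⟩
    have := (h m (by omega) hlt).1
    rw [← e, ← sq, ← pow_mul, pow_succ, h3, one_mul, hm] at this
    exact cy_ne (fne (by omega)) m0.symm m1.symm this
  · exfalso
    have d0 : (u : Perm (Fin k)) ⟨0, k0⟩ = ⟨0, k0⟩ := by
      rw [hm]
      exact cy_o (fne (by omega)) m1.symm (fne (by omega)) (fne (by omega)) m0.symm
    have d1 : (u : Perm (Fin k)) ⟨1, k1⟩ = ⟨2, k2⟩ := by
      rw [hm]
      exact cy_a (fne (by omega)) m1.symm m2.symm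
    rcases hn with hn | hn | hn
    · rw [hn, cy_a (fne (by omega)) n0.symm n1.symm] at d0
      exact fne (by omega) d0
    · rw [hn, cy_a (fne (by omega)) n1.symm n2.symm] at d1
      exact fne (by omega) d1
    · rw [hn, cy_b (fne (by omega)) n2.symm] at d0
      exact n0 d0
  · exfalso
    have d1 : (u : Perm (Fin k)) ⟨1, k1⟩ = ⟨1, k1⟩ := by
      rw [hm]
      exact cy_o (fne (by omega)) m2.symm (fne (by omega)) (fne (by omega)) m1.symm
    have d2 : (u : Perm (Fin k)) ⟨2, k2⟩ = ⟨0, k0⟩ := by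
      rw [hm]
      exact cy_a (fne (by omega)) m2.symm m0.symm
    rcases hn with hn | hn | hn
    · rw [hn, cy_b (fne (by omega)) n0.symm] at d1
      exact n1 d1
    · rw [hn, cy_a (fne (by omega)) n1.symm n2.symm] at d1
      exact fne (by omega) d1
    · have d3 : (u : Perm (Fin k)) ⟨3, k3⟩ = ⟨0, k0⟩ := by
        rw [hn]
        exact cy_a (fne (by omega)) n2.symm n0.symm
      exact fne (by omega) (u.1.injective (d2.trans d3.symm))

theorem three {i : ℕ} (h2 : 2 ≤ i) (hi : i < k) : orderOf (tt k i) = 3 ∧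
    ∀ j, 2 ≤ j → j < k → i ≠ j → tt k i ≠ tt k j ∧ (tt k i * tt k j) ^ 2 = 1 ∧
      tt k i * tt k j ≠ 1 := by
  rw [tt_eq h2 hi]
  have : Fact (Nat.Prime 3) := ⟨Nat.prime_three⟩
  refine ⟨orderOf_eq_prime (cy_cube (fne (by omega)) (fne (by omega)) (fne (by omega)))
    (cy_ne (fne (by omega)) (fne (by omega)) (fne (by omega))), fun j j2 hj hij => ?_⟩
  rw [tt_eq j2 hj]
  refine ⟨fun e => ?_, cy_sq (fne (by omega)) (fne (by omega)) (fne (by omega)) (fne (by omega))
    (fne (by omega)) (fne hij), fun e => ?_⟩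
  · have := cy_b (a := (⟨0, by omega⟩ : Fin k)) (b := ⟨1, by omega⟩) (c := ⟨i, hi⟩)
      (fne (by omega)) (fne (by omega))
    rw [e, cy_b (fne (by omega)) (fne (by omega))] at this
    exact fne hij this.symm
  · have := congrArg (fun s : An k => (s : Perm (Fin k)) ⟨0, by omega⟩) e
    simp only [Subgroup.coe_mul, Perm.mul_apply, OneMemClass.coe_one, Perm.one_apply] at this
    rw [cy_a (fne (by omega)) (fne (by omega)) (fne (by omega)),
      cy_b (fne (by omega)) (fne (by omega))] at this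
    exact fne (by omega) this

theorem four {j i : ℕ} (h2 : 2 ≤ j) (hk : j + 3 ≤ k) (hj : j ≤ i) (hi : i < k) :
    ∃ s : An k, s * tt k j * s⁻¹ = tt k i ∧ (∀ l, l < j → Commute s (tt k l)) ∧
      ∀ l, j ≤ l → l < k → ∃ l', j ≤ l' ∧ l' < k ∧ s * tt k l * s⁻¹ = tt k l' := by
  obtain ⟨s, h1, h3⟩ : ∃ s : An k, (s : Perm (Fin k)) ⟨j, by omega⟩ = ⟨i, hi⟩ ∧
      ∀ x : Fin k, x.1 < j → (s : Perm (Fin k)) x = x := by
    by_cases e : i = j
    · exact ⟨1, Fin.ext e.symm, fun _ _ => rfl⟩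
    obtain ⟨m, m1, m2, m3⟩ : ∃ m, j < m ∧ m < k ∧ m ≠ i := by
      by_cases e' : i = j + 1
      · exact ⟨j + 2, by omega, by omega, by omega⟩
      · exact ⟨j + 1, by omega, by omega, by omega⟩
    exact ⟨cy3 ⟨j, by omega⟩ ⟨i, hi⟩ ⟨m, m2⟩,
      cy_a (fne (by omega)) (fne (by omega)) (fne (by omega)), fun x hx =>
      cy_o (fne (by omega)) (fne (by omega)) (fne (by omega)) (fne (by omega)) (fne (by omega))⟩
  have h4 : ∀ (l : ℕ) (hl : l < k), 2 ≤ l → s * tt k l * s⁻¹ =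
      cy3 ⟨0, by omega⟩ ⟨1, by omega⟩ ((s : Perm (Fin k)) ⟨l, hl⟩) := fun l hl l2 => by
    rw [tt_eq l2 hl, cy_conj (fne (by omega)) (fne (by omega)) (fne (by omega)),
      h3 _ (show 0 < j by omega), h3 _ (show 1 < j by omega)]
  refine ⟨s, by rw [h4 j (by omega) h2, h1, tt_eq (by omega) hi], fun l hl => ?_,
    fun l hl hlk => ?_⟩
  · by_cases l2 : 2 ≤ l
    · have := h4 l (by omega) l2
      rw [h3 _ hl, ← tt_eq l2 (by omega), mul_inv_eq_iff_eq_mul] at this
      exact this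
    · rw [tt, dif_neg fun h => l2 h.1]
      exact Commute.one_right s
  · have h5 : j ≤ ((s : Perm (Fin k)) ⟨l, hlk⟩).1 := not_lt.1 fun h => by
      have := congrArg Fin.val (s.1.injective (h3 _ h))
      simp only at this
      omega
    exact ⟨_, h5, Fin.is_lt _, by rw [h4 l hlk (by omega), tt_eq (by omega) (Fin.is_lt _)]⟩

end X3

theorem rowX3 : RowX3 :=
  ⟨fun _ _ _ _ _ _ _ h1 h2 h3 => X3.one h1 h2 h3, fun _ _ _ => X3.two, fun _ _ => X3.three,
    fun _ _ _ => X3.four⟩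

end Pool.Agent.MP_62c071_al.H57
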