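import Pool.Agent.MP_62c071_al.H57.Spec

/-! Row ZS2: conjugates of a partial alternating group stay inside the alternating group. -/

set_option autoImplicit false

namespace Pool.Agent.MP_62c071_al.H57

open Subgroup Equiv

namespace ZS2

/-- Even permutations of a subset as even permutations of the whole set. -/
def io {k : ℕ} (Γ : Finset (Fin k)) : alternatingGroup {x // x ∈ Γ} →* An k :=
  (Perm.ofSubtype.comp (alternatingGroup {x // x ∈ Γ}).subtype).codRestrict _ fun s =>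
    Perm.mem_alternatingGroup.2 ((Perm.sign_ofSubtype s.1).trans (Perm.mem_alternatingGroup.1 s.2))

theorem sp_io {k : ℕ} (Γ : Finset (Fin k)) (s : alternatingGroup {x // x ∈ Γ}) :
    sp (io Γ s) = (sp s).map (Function.Embedding.subtype _) := by
  ext x
  rw [Finset.mem_map]
  refine (Perm.mem_support_ofSubtype x s.1).trans ⟨fun ⟨hx, h⟩ => ⟨⟨x, hx⟩, ?_, rfl⟩, ?_⟩
  · exact Perm.mem_support.2 (by simpa using h)
  · rintro ⟨z, hz, rfl⟩
    exact ⟨z.2, by simpa using Perm.mem_support.1 hz⟩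

theorem sp_io_le {k : ℕ} (Γ : Finset (Fin k)) (s : alternatingGroup {x // x ∈ Γ}) :
    sp (io Γ s) ⊆ Γ := by
  intro x hx
  rw [sp_io] at hx
  obtain ⟨z, -, rfl⟩ := Finset.mem_map.1 hx
  exact z.2

theorem io_surj {k : ℕ} (Γ : Finset (Fin k)) (s : An k) (h : sp s ⊆ Γ) : ∃ s', io Γ s' = s := by
  have h2 : ∀ x, s.1 x ≠ x → x ∈ Γ := fun x hx => h (Perm.mem_support.2 hx)
  have h1 : ∀ x, s.1 x ∈ Γ ↔ x ∈ Γ := fun x => by
    by_cases e : s.1 x = x
    · rw [e]
    · exact ⟨fun _ => h2 x e, fun _ => h2 _ fun e' => e (s.1.injective e')⟩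
  refine ⟨⟨s.1.subtypePerm h1, Perm.mem_alternatingGroup.2 ?_⟩,
    Subtype.ext (Perm.ofSubtype_subtypePerm h1 h2)⟩
  rw [← Perm.sign_ofSubtype, Perm.ofSubtype_subtypePerm h1 h2]
  exact Perm.mem_alternatingGroup.1 s.2

theorem sp_tt (k i J : ℕ) (h : i < J) : ∀ x ∈ sp (tt k i), (x : ℕ) < J := by
  intro x hx
  by_contra hJ
  refine Perm.mem_support.1 hx ?_
  unfold tt
  split_ifs with h1
  · unfold cy3
    split_ifs with h2
    · change swap _ _ (swap _ _ x) = x
      have n : ∀ (a : ℕ) (ha : a < k), a ≤ i → x ≠ ⟨a, ha⟩ := fun a ha h3 e => by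
        subst e
        exact hJ (lt_of_le_of_lt h3 h)
      rw [swap_apply_of_ne_of_ne (n 0 _ (by omega)) (n 1 _ (by omega)),
        swap_apply_of_ne_of_ne (n 0 _ (by omega)) (n i _ le_rfl)]
    · rfl
  · rfl

theorem move (k J : ℕ) (hJ : J + 2 ≤ k) (O : Finset (Fin k)) (hO : J ≤ O.card) :
    ∃ σ : An k, ∀ i < J, sp (σ * tt k i * σ⁻¹) ⊆ O := by
  have := alternatingGroup.isMultiplyPretransitive (Fin k)
  have : MulAction.IsMultiplyPretransitive (An k) (Fin k) J :=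
    MulAction.isMultiplyPretransitive_of_le (n := Nat.card (Fin k) - 2)
      (by rw [Nat.card_fin]; omega) (Nat.sub_le _ _)
  obtain ⟨σ, hσ⟩ := MulAction.isMultiplyPretransitive_iff.1 this
    (Fin.castLEEmb (by omega : J ≤ k)) (O.orderEmbOfCardLe hO).toEmbedding
  refine ⟨σ, fun i hi x hx => ?_⟩
  have e : sp (σ * tt k i * σ⁻¹) = (sp (tt k i)).map σ.1.toEmbedding := Perm.support_conj
  rw [e] at hx
  obtain ⟨z, hz, rfl⟩ := Finset.mem_map.1 hx
  have h1 := DFunLike.congr_fun hσ ⟨z, sp_tt k i J hi z hz⟩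
  have h2 : σ.1.toEmbedding z = O.orderEmbOfCardLe hO ⟨z, sp_tt k i J hi z hz⟩ := h1
  rw [h2]
  exact O.orderEmbOfCardLe_mem hO _

theorem rel_conj {G : Type} [Group G] (D : Subgroup G) (g u : G) (hu : u ∈ D) :
    (cen (u * g * u⁻¹)).relIndex D = (cen g).relIndex D := by
  have e1 : cen g = (cen (u * g * u⁻¹)).comap (MulAut.conj u : G →* G) := by
    ext x
    simp only [cen, mem_comap, mem_centralizer_singleton_iff, MonoidHom.coe_coe, MulAut.conj_apply]
    constructor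
    · intro h
      calc u * x * u⁻¹ * (u * g * u⁻¹) = u * (x * g) * u⁻¹ := by group
        _ = u * g * u⁻¹ * (u * x * u⁻¹) := by rw [h]; group
    · intro h
      calc x * g = u⁻¹ * (u * x * u⁻¹ * (u * g * u⁻¹)) * u := by group
        _ = g * x := by rw [h]; group
  rw [e1, relIndex_comap, mem_normalizer_iff_map_conj_eq.1 (le_normalizer hu)]

theorem miss {n e : ℕ} (h0 : n ≠ 0) (hn : n < 2 ^ (e + 1)) (R : Finset ℕ) (hR : ∀ r ∈ R, r.Prime)
    (he : e < R.card) : ∃ r ∈ R, ¬ r ∣ n := by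
  by_contra h
  push Not at h
  have h1 := Nat.le_of_dvd (Nat.pos_of_ne_zero h0)
    (Finset.prod_primes_dvd n (fun r hr => (hR r hr).prime) h)
  have h2 := Finset.pow_card_le_prod R (fun r => r) 2 fun r hr => (hR r hr).two_le
  have h3 : 2 ^ (e + 1) ≤ 2 ^ R.card := Nat.pow_le_pow_right (by norm_num) he
  omega

end ZS2

open ZS2 in
theorem rowZS2 (hn : RowNAT) : RowZS2 := by
  intro G _ _ k J e ψ D Γ y R _ hZ hJ he hy hyΓ hΓ hD hix hR hc u hu hcom s hs
  have step : ∀ u ∈ D, u * ψ y * u⁻¹ ∈ normalizer (ψ.range : Set G) := by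
    intro u hu
    let U := (cen (u * ψ y * u⁻¹)).comap (ψ.comp (io Γ))
    have h1 : U.index < 2 ^ (e + 1) := by
      rw [index_comap, ← rel_conj D _ u hu] at *
      refine lt_of_le_of_lt (relIndex_le_of_le_right ?_ index_ne_zero_of_finite) hix
      rintro _ ⟨s, rfl⟩
      exact hD _ (sp_io_le Γ s)
    obtain ⟨r, hr, h2⟩ := miss index_ne_zero_of_finite h1 R (fun r hr => (hR r hr).1) hc
    obtain ⟨O, h3, h4⟩ := hn _ U r e (hR r hr).1 he (by simpa using (hR r hr).2.1)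
      (by simpa using (hR r hr).2.2) h2 h1
    rw [Fintype.card_coe] at h3
    obtain ⟨σ, hσ⟩ := move k J hJ (O.map (Function.Embedding.subtype _))
      (by rw [Finset.card_map]; omega)
    have h5 : (ψ σ)⁻¹ * (u * ψ y * u⁻¹) * ψ σ ∈ BB ψ J := by
      rintro _ ⟨i, hi, rfl⟩
      obtain ⟨s', hs'⟩ := io_surj Γ _ ((hσ i hi).trans fun x hx => by
        obtain ⟨z, -, rfl⟩ := Finset.mem_map.1 hx
        exact z.2)
      have h6 := h4 s' (Finset.map_subset_map.1 (by rw [← sp_io, hs']; exact hσ i hi))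
      have h7 : ψ (io Γ s') * (u * ψ y * u⁻¹) = u * ψ y * u⁻¹ * ψ (io Γ s') :=
        mem_centralizer_singleton_iff.1 h6
      rw [hs', map_mul, map_mul, map_inv] at h7
      generalize u * ψ y * u⁻¹ = v at h7
      calc ψ (tt k i) * ((ψ σ)⁻¹ * v * ψ σ)
          = (ψ σ)⁻¹ * (ψ σ * ψ (tt k i) * (ψ σ)⁻¹ * v) * ψ σ := by group
        _ = (ψ σ)⁻¹ * v * ψ σ * ψ (tt k i) := by rw [h7]; group
    have h8 : ψ σ ∈ normalizer (ψ.range : Set G) := le_normalizer ⟨σ, rfl⟩
    have h9 := mul_mem (mul_mem h8 (hZ h5)) (inv_mem h8)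
    have e9 : ψ σ * ((ψ σ)⁻¹ * (u * ψ y * u⁻¹) * ψ σ) * (ψ σ)⁻¹ = u * ψ y * u⁻¹ := by group
    rwa [e9] at h9
  obtain ⟨y', rfl⟩ := io_surj Γ y hyΓ
  obtain ⟨s', rfl⟩ := io_surj Γ s hs
  have hy' : y' ≠ 1 := fun h => hy (by rw [h, map_one])
  have h5 : 5 ≤ Nat.card {x // x ∈ Γ} := by
    obtain ⟨r, hr⟩ := Finset.card_pos.1 (lt_of_le_of_lt (Nat.zero_le _) hc)
    have := (hR r hr).1.two_le
    have := (hR r hr).2.2
    rw [Nat.card_eq_fintype_card, Fintype.card_coe]
    omega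
  have top : ∀ N : Subgroup (alternatingGroup {x // x ∈ Γ}), N.Normal → y' ∈ N → N = ⊤ :=
    fun N _ h => (alternatingGroup.normal_subgroup_eq_bot_or_eq_top h5).resolve_left fun e =>
      hy' (by rwa [e, mem_bot] at h)
  let θ : alternatingGroup {x // x ∈ Γ} →* G := (MulAut.conj u : G →* G).comp (ψ.comp (io Γ))
  have hθ : ∀ t, θ t = u * ψ (io Γ t) * u⁻¹ := fun _ => rfl
  have hN : ∀ t, θ t ∈ normalizer (ψ.range : Set G) := by
    have : normalClosure {y'} ≤ (normalizer (ψ.range : Set G)).comap θ := by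
      refine (closure_le _).2 fun x hx => ?_
      obtain ⟨a, rfl, ha⟩ := Group.mem_conjugatesOfSet_iff.1 hx
      obtain ⟨c, rfl⟩ := isConj_iff.1 ha
      have h1 := step (u * ψ (io Γ c)) (mul_mem hu (hD _ (sp_io_le Γ c)))
      change θ _ ∈ normalizer (ψ.range : Set G)
      rw [hθ, map_mul, map_mul, map_inv, map_mul, map_mul, map_inv]
      simpa only [mul_inv_rev, mul_assoc] using h1
    rw [top (normalClosure {y'}) inferInstance (subset_normalClosure rfl)] at this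
    exact fun t => this (mem_top t)
  have hK : (ψ.range.comap θ).Normal := ⟨fun n hn g => by
    change θ _ ∈ ψ.range
    rw [map_mul, map_mul, map_inv]
    exact (mem_normalizer_iff.1 (hN g) _).1 hn⟩
  have := top _ hK (by
    change θ _ ∈ ψ.range
    rw [hθ, hcom.eq, mul_inv_cancel_right]
    exact ⟨_, rfl⟩)
  have h6 : s' ∈ ψ.range.comap θ := by rw [this]; exact mem_top _
  exact h6

end Pool.Agent.MP_62c071_al.H57
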