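import Pool.Agent.MP_62c071_al.H57.Spec

/-! Row ZS3: large primes do not divide the relative index. -/

set_option autoImplicit false

namespace Pool.Agent.MP_62c071_al.H57

open Subgroup Equiv

namespace ZS3

section Perm

variable {α : Type} [Fintype α] [DecidableEq α]

theorem cy3_coe {a b c : α} (h1 : a ≠ b) (h2 : a ≠ c) :
    (cy3 a b c : Perm α) = swap a c * swap a b := by
  rw [cy3, dif_pos ⟨h1, h2⟩]

theorem exists_cy3 (t : alternatingGroup α) (h : (sp t).card = 3) :
    ∃ a b c : α, a ≠ b ∧ a ≠ c ∧ b ≠ c ∧ a ∈ sp t ∧ b ∈ sp t ∧ t = cy3 a b c := by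
  have h3 : (t : Perm α).IsThreeCycle := card_support_eq_three_iff.1 h
  obtain ⟨a, ha⟩ : (sp t).Nonempty := Finset.card_pos.1 (by omega)
  have h4 := h3.nodup_iff_mem_support.2 ha
  have h5 := h3.eq_swap_mul_swap_iff_mem_support.2 ha
  have hb : (t : Perm α) a ∈ sp t := Perm.apply_mem_support.2 ha
  generalize (t : Perm α) ((t : Perm α) a) = c at h4 h5
  generalize (t : Perm α) a = b at h4 h5 hb
  have hab : a ≠ b := by grind
  have hac : a ≠ c := by grind
  have hbc : b ≠ c := by grind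
  refine ⟨a, b, c, hab, hac, hbc, ha, hb, Subtype.ext ?_⟩
  rw [cy3_coe hab hac, h5]
  ext x
  simp only [Perm.coe_mul, Function.comp_apply, swap_apply_def]
  grind

theorem cube {a b c : α} (h1 : a ≠ b) (h2 : a ≠ c) (h3 : b ≠ c) : cy3 a b c ^ 3 = 1 := by
  refine Subtype.ext ?_
  rw [SubgroupClass.coe_pow, cy3_coe h1 h2]
  ext x
  simp only [pow_succ, pow_zero, Perm.coe_mul, Function.comp_apply, swap_apply_def,
    OneMemClass.coe_one, Perm.coe_one, id_eq]
  grind

theorem sq {a b c i : α} (h1 : a ≠ b) (h2 : a ≠ c) (h3 : b ≠ c) (h4 : a ≠ i) (h5 : b ≠ i)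
    (h6 : c ≠ i) : (cy3 a b i * cy3 a b c) ^ 2 = 1 ∧ cy3 a b i * cy3 a b c ≠ 1 := by
  have e : ((cy3 a b i * cy3 a b c : alternatingGroup α) : Perm α) = swap a i * swap b c := by
    rw [Subgroup.coe_mul, cy3_coe h1 h2, cy3_coe h1 h4]
    ext x
    simp only [Perm.coe_mul, Function.comp_apply, swap_apply_def]
    grind
  refine ⟨Subtype.ext ?_, fun h => ?_⟩
  · rw [SubgroupClass.coe_pow, e]
    ext x
    simp only [pow_succ, pow_zero, Perm.coe_mul, Function.comp_apply, swap_apply_def,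
      OneMemClass.coe_one, Perm.coe_one, id_eq]
    grind
  · rw [h] at e
    have h7 := congrArg (fun f : Perm α => f a) e
    simp only [Perm.coe_mul, Function.comp_apply, swap_apply_def,
      OneMemClass.coe_one, Perm.coe_one, id_eq] at h7
    grind

theorem sp_sub {a b c : α} (h1 : a ≠ b) (h2 : a ≠ c) {Γ : Finset α} (ha : a ∈ Γ) (hb : b ∈ Γ)
    (hc : c ∈ Γ) : sp (cy3 a b c) ⊆ Γ := by
  intro x hx
  rw [sp, cy3_coe h1 h2, Perm.mem_support] at hx
  simp only [Perm.coe_mul, Function.comp_apply, swap_apply_def] at hx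
  grind

end Perm

variable {G : Type} [Group G]

theorem mem_cen {g u : G} : u ∈ cen g ↔ u * g = g * u := by
  rw [cen, mem_centralizer_singleton_iff]

theorem rel_le {β : Type} [Finite β] (U : Subgroup G) (v : G) (F : β → G)
    (h : ∀ u ∈ U, ∃ x, u * v * u⁻¹ = F x) : (cen v).relIndex U ≤ Nat.card β := by
  choose φ hφ using h
  refine Nat.card_le_card_of_injective
    (fun q : U ⧸ (cen v).subgroupOf U => φ q.out q.out.2) fun q q' e => ?_
  rw [← q.out_eq, ← q'.out_eq]
  refine QuotientGroup.eq.2 (mem_subgroupOf.2 (mem_cen.2 ?_))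
  have h1 := hφ q.out q.out.2
  have h2 := hφ q'.out q'.out.2
  have e' : φ q.out q.out.2 = φ q'.out q'.out.2 := e
  rw [e', ← h2] at h1
  rw [Subgroup.coe_mul, Subgroup.coe_inv]
  generalize ((q.out : U) : G) = x at h1 ⊢
  generalize ((q'.out : U) : G) = y at h1 ⊢
  calc x⁻¹ * y * v = x⁻¹ * (y * v * y⁻¹) * y := by group
    _ = x⁻¹ * (x * v * x⁻¹) * y := by rw [h1]
    _ = v * (x⁻¹ * y) := by group

theorem inf_nd [Finite G] {β : Type} [DecidableEq β] (U : Subgroup G) (H : β → Subgroup G) (l : ℕ)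
    (hl : l.Prime) (S : Finset β) (h : ∀ i ∈ S, (H i).relIndex U < l) :
    ¬ l ∣ (S.inf H).relIndex U := by
  induction S using Finset.induction_on with
  | empty => simpa using hl.one_lt.ne'
  | insert i S hi ih =>
    rw [Finset.inf_insert, ← relIndex_inf_mul_relIndex, hl.dvd_mul]
    rintro (h1 | h1)
    · have h2 : (H i).relIndex (S.inf H ⊓ U) ≤ (H i).relIndex U :=
        relIndex_le_of_le_right inf_le_right index_ne_zero_of_finite
      have h3 := h i (Finset.mem_insert_self _ _)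
      have h4 := Nat.le_of_dvd (Nat.pos_of_ne_zero index_ne_zero_of_finite) h1
      have h5 : (H i).relIndex (S.inf H ⊓ U) = ((H i).subgroupOf (S.inf H ⊓ U)).index := rfl
      omega
    · exact ih (fun j hj => h j (Finset.mem_insert_of_mem hj)) h1

end ZS3

open ZS3 in
theorem rowZS3 (hx : RowX3) (hg : RowGEN) : RowZS3 := by
  intro G _ _ k ψ U Γ t inj ht h3 hc hU w hw l hl hk
  obtain ⟨a, b, c, hab, hac, hbc, ha, hb, rfl⟩ := exists_cy3 t h3
  have key : ∀ i ∈ Γ.filter fun i => i ≠ a ∧ i ≠ b, (cen (ψ (cy3 a b i))).relIndex U < l := by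
    intro i hi
    obtain ⟨hi, hia, hib⟩ := Finset.mem_filter.1 hi
    by_cases hic : i = c
    · subst hic
      rw [relIndex_eq_one.2 fun u hu => mem_cen.2 (hc u hu)]
      exact hl.one_lt
    have h1 := rel_le U (ψ (cy3 a b i))
      (fun x : Fin 3 × Fin k => ψ (![cy3 a b x.2, cy3 b c x.2, cy3 c a x.2] x.1)) (by
        intro u hu
        obtain ⟨s, hs⟩ := hU u hu _ (sp_sub hab hia.symm (ht ha) (ht hb) hi)
        obtain ⟨q1, q2⟩ := sq hab hac hbc hia.symm hib.symm (Ne.symm hic)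
        have e1 : ψ (s * cy3 a b c) = u * ψ (cy3 a b i * cy3 a b c) * u⁻¹ := by
          rw [map_mul, map_mul, hs, mul_assoc _ u⁻¹, (hc u hu).inv_left.eq]
          group
        have e2 : s ^ 3 = 1 := inj (by
          rw [map_pow, hs, conj_pow, ← map_pow, cube hab hia.symm hib.symm]
          simp)
        have e3 : (s * cy3 a b c) ^ 2 = 1 := inj (by
          rw [map_pow, e1, conj_pow, ← map_pow, q1]
          simp)
        have e4 : s * cy3 a b c ≠ 1 := fun h => q2 (inj (by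
          rw [h, map_one] at e1
          rw [map_one]
          exact conj_eq_one_iff.1 e1.symm))
        obtain ⟨j, -, -, -, h | h | h⟩ := hx.1 (Fin k) a b c s hab hac hbc e2 e3 e4
        · exact ⟨(0, j), by rw [← hs, h]; rfl⟩
        · exact ⟨(1, j), by rw [← hs, h]; rfl⟩
        · exact ⟨(2, j), by rw [← hs, h]; rfl⟩)
    simp only [Nat.card_eq_fintype_card, Fintype.card_prod, Fintype.card_fin] at h1
    omega
  intro hd
  refine inf_nd U (fun i => cen (ψ (cy3 a b i))) l hl _ key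
    (hd.trans (relIndex_dvd_of_le_left U fun g hg' => ?_))
  have h1 := hg.1 (Fin k) Γ a b hab (ht ha) (ht hb) w hw
  have h2 : closure {u | ∃ i ∈ Γ, i ≠ a ∧ i ≠ b ∧ u = cy3 a b i} ≤ (cen g).comap ψ := by
    rw [closure_le]
    rintro _ ⟨i, hi, hia, hib, rfl⟩
    have h4 : g ∈ cen (ψ (cy3 a b i)) :=
      (Finset.inf_le (f := fun i => cen (ψ (cy3 a b i)))
        (Finset.mem_filter.2 ⟨hi, hia, hib⟩ : i ∈ Γ.filter fun i => i ≠ a ∧ i ≠ b)) hg'
    exact mem_cen.2 (mem_cen.1 h4).symm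
  exact mem_cen.2 (mem_cen.1 (h2 h1)).symm

end Pool.Agent.MP_62c071_al.H57
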