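import Pool.Agent.MP_62c071_al.H57.Spec

/-! Row ZSC: scenario Z is impossible. -/

set_option autoImplicit false

namespace Pool.Agent.MP_62c071_al.H57

open Subgroup
open scoped Nat

namespace ZSC

variable {G : Type} [Group G]

theorem mem_cen {g u : G} : u ∈ cen g ↔ Commute u g := by
  unfold cen
  rw [mem_centralizer_singleton_iff]
  rfl

theorem cop1 {a b u : G} (h : Commute a b) (hc : (orderOf a).Coprime (orderOf b))
    (hu : Commute u (a * b)) : Commute u a := by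
  obtain ⟨m, hm⟩ := exists_pow_eq_self_of_coprime (x := a) hc.symm
  have h1 : (a * b) ^ orderOf b = a ^ orderOf b := by
    rw [h.mul_pow, pow_orderOf_eq_one, mul_one]
  rw [← hm, ← h1]
  exact (hu.pow_right _).pow_right _

theorem cop {a b : G} (h : Commute a b) (hc : (orderOf a).Coprime (orderOf b)) :
    cen (a * b) = cen b ⊓ cen a := by
  ext u
  rw [mem_inf, mem_cen, mem_cen, mem_cen]
  exact ⟨fun hu => ⟨cop1 h.symm hc.symm (h.eq ▸ hu), cop1 h hc hu⟩, fun hu => hu.2.mul_right hu.1⟩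

theorem ix_mul {a b : G} (h : Commute a b) (hc : (orderOf a).Coprime (orderOf b)) :
    ix (a * b) = (cen b).relIndex (cen a) * ix a := by
  unfold ix
  rw [cop h hc, ← inf_relIndex_right, relIndex_mul_index inf_le_right]

variable {k : ℕ}

theorem com {Γ : Finset (Fin k)} {a b : An k} (ha : sp a ⊆ Γᶜ) (hb : sp b ⊆ Γ) : Commute a b := by
  have h1 : (a : Equiv.Perm (Fin k)).Disjoint b := by
    rw [Equiv.Perm.disjoint_iff_disjoint_support]
    exact Finset.disjoint_left.2 fun i h1 h2 => Finset.mem_compl.1 (ha h1) (hb h2)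
  exact Subtype.ext h1.commute.eq

theorem com' {a b : An k} (hb : sp b ⊆ (sp a)ᶜ) : Commute a b := com (by simp) hb

theorem sp_mul (a b : An k) : sp (a * b) ⊆ sp a ∪ sp b := Equiv.Perm.support_mul_le _ _

theorem card_sp_mul (a b : An k) : (sp (a * b)).card ≤ (sp a).card + (sp b).card :=
  (Finset.card_le_card (sp_mul a b)).trans (Finset.card_union_le _ _)

/-- the primes of the order lie in `T` -/
def On (T : Finset ℕ) (g : An k) : Prop := ∀ q : ℕ, q.Prime → q ∣ orderOf g → q ∈ T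

theorem On.mul {T : Finset ℕ} {g y : An k} {r : ℕ} (hg : On T g) (h : Commute g y) (hr : r.Prime)
    (hy : orderOf y = r) : On (insert r T) (g * y) := fun q hq hd => by
  rcases (Nat.Prime.dvd_mul hq).1 (hd.trans h.orderOf_mul_dvd_mul_orderOf) with h1 | h1
  · exact Finset.mem_insert_of_mem (hg q hq h1)
  · rw [hy] at h1
    rw [(Nat.prime_dvd_prime_iff_eq hq hr).1 h1]
    exact Finset.mem_insert_self _ _

theorem On.cp {T : Finset ℕ} {g y : An k} {r : ℕ} (hg : On T g) (hr : r.Prime) (hT : r ∉ T)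
    (hy : orderOf y = r) {ψ : An k →* G} (hψ : Function.Injective ψ) :
    (orderOf (ψ g)).Coprime (orderOf (ψ y)) := by
  rw [orderOf_injective ψ hψ, orderOf_injective ψ hψ, hy]
  exact ((Nat.Prime.coprime_iff_not_dvd hr).2 fun h => hT (hg r hr h)).symm

theorem card_compl (s : Finset (Fin k)) : sᶜ.card + s.card = k := by
  rw [Finset.card_compl_add_card, Fintype.card_fin]

theorem chain [Finite G] (h3 : RowA3) {ψ : An k →* G} (hψ : Function.Injective ψ) (S : Finset ℕ)
    (hS : ∀ r ∈ S, r.Prime ∧ 3 < r) (hk : ∑ r ∈ S, r ≤ k) (e : ℕ) :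
    (∃ (T : Finset ℕ) (r : ℕ) (g y : An k), insert r T ⊆ S ∧ r ∉ T ∧ On T g ∧ orderOf y = r ∧
      sp y ⊆ (sp g)ᶜ ∧ (sp g).card + (sp y).card ≤ ∑ r ∈ S, r ∧
      (cen (ψ y)).relIndex (cen (ψ g)) < 2 ^ (e + 1)) ∨
    ∃ g : An k, On S g ∧ (sp g).card ≤ ∑ r ∈ S, r ∧ 2 ^ ((e + 1) * S.card) ≤ ix (ψ g) := by
  induction S using Finset.induction_on with
  | empty =>
    refine Or.inr ⟨1, fun q hq hd => ?_, by simp [sp], ?_⟩
    · rw [orderOf_one, Nat.dvd_one] at hd
      exact absurd hd hq.ne_one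
    · rw [Finset.card_empty, mul_zero, pow_zero]
      exact Nat.pos_of_ne_zero index_ne_zero_of_finite
  | insert r S hr ih =>
    rw [Finset.sum_insert hr] at hk ⊢
    rcases ih (fun q hq => hS q (Finset.mem_insert_of_mem hq)) (by omega) with
      ⟨T, q, g, y, h1, h2, h4, h5, h6, h7, h8⟩ | ⟨g, h1, h2, h4⟩
    · exact Or.inl ⟨T, q, g, y, h1.trans (Finset.subset_insert _ _), h2, h4, h5, h6, by omega, h8⟩
    · obtain ⟨hp, hr3⟩ := hS r (Finset.mem_insert_self _ _)
      have h5 := card_compl (sp g)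
      obtain ⟨y, hy1, hy2, hy3, -⟩ := h3.2.2 (Fin k) (sp g)ᶜ r (hp.odd_of_ne_two (by omega))
        hr3.le (by omega)
      by_cases h6 : (cen (ψ y)).relIndex (cen (ψ g)) < 2 ^ (e + 1)
      · exact Or.inl ⟨S, r, g, y, Finset.Subset.refl _, hr, h1, hy3, hy1, by omega, h6⟩
      · refine Or.inr ⟨g * y, h1.mul (com' hy1) hp hy3, ?_, ?_⟩
        · have := card_sp_mul g y
          omega
        · rw [map_mul, ix_mul ((com' hy1).map ψ) (h1.cp hp hr hy3 hψ),
            Finset.card_insert_of_notMem hr, mul_add, mul_one, pow_add, mul_comm]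
          exact Nat.mul_le_mul (not_lt.1 h6) h4

theorem orbit_le [Finite G] {ψ : An k →* G} (hψ : Function.Injective ψ) (U : Subgroup G)
    (w : An k) (hU : ∀ s, sp s ⊆ sp w → ψ s ∈ U) :
    {v : An k | ∃ s, sp s ⊆ sp w ∧ v = s * w * s⁻¹}.ncard ≤ (cen (ψ w)).relIndex U := by
  let X := {v : An k | ∃ s, sp s ⊆ sp w ∧ v = s * w * s⁻¹}
  have h1 : ∀ v : X, ∃ s, sp s ⊆ sp w ∧ (v : An k) = s * w * s⁻¹ := fun v => v.2
  choose f hf hf' using h1
  let F : X → U ⧸ (cen (ψ w)).subgroupOf U := fun v => QuotientGroup.mk ⟨ψ (f v), hU _ (hf v)⟩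
  have hF : Function.Injective F := by
    intro v v' h
    have h2 := QuotientGroup.eq.1 h
    rw [mem_subgroupOf, mem_cen] at h2
    have h3 : (f v)⁻¹ * f v' * w = w * ((f v)⁻¹ * f v') := hψ (by simpa using h2.eq)
    apply Subtype.ext
    rw [hf' v, hf' v']
    calc f v * w * (f v)⁻¹ = f v * (w * ((f v)⁻¹ * f v')) * (f v')⁻¹ := by group
      _ = f v' * w * (f v')⁻¹ := by rw [← h3]; group
  exact Nat.card_le_card_of_injective F hF

end ZSC

open ZSC in
theorem rowZSC (h3 : RowA3) (hs : RowSM) (ha : RowAR) (h2 : RowZS2) (hz : RowZS3) : RowZSC := by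
  intro G _ _ p k ζ c x ψ J e l d S R cfg hbig hJ zp hZ
  have hk5 := cfg.five
  have hkp := cfg.lt
  have hfit := zp.fit
  have hroom := zp.room
  obtain ⟨s1, -, s3, -⟩ := hs G p k ζ c cfg.pr (by omega) (by omega) cfg.ch cfg.big cfg.dich
  rcases chain h3 cfg.inj S (fun r hr => ⟨(zp.prS r hr).1, (zp.prS r hr).2.1⟩) (by omega) e with
    ⟨T, r, g, y, hT, hr, hg, hy, hyg, hcard, hlt⟩ | ⟨g, -, -, h4⟩
  swap
  · have := s3 _ (hbig g)
    have := zp.pow
    omega
  obtain ⟨hrp, hr3, hrl⟩ := zp.prS r (hT (Finset.mem_insert_self _ _))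
  have hΓ := card_compl (sp g)
  have hy1 : y ≠ 1 := fun h => by
    rw [h, orderOf_one] at hy
    omega
  have hN := h2 G k J e ψ (cen (ψ g)) (sp g)ᶜ y R cfg.inj hZ hJ zp.he hy1 hyg (by omega)
    (fun s hs => mem_cen.2 ((com' hs).symm.map ψ)) hlt (fun q hq => by
      obtain ⟨q1, q2, q3⟩ := zp.prR q hq
      exact ⟨q1, by omega, by omega⟩) zp.many
  have c1 := card_compl (sp g ∪ sp y)
  have c2 := Finset.card_union_le (sp g) (sp y)
  obtain ⟨t, ht1, ht2, ht3, -⟩ := h3.2.2 (Fin k) (sp g ∪ sp y)ᶜ 3 (by decide) le_rfl (by omega)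
  have c3 := card_compl (sp g ∪ sp y ∪ sp t)
  have c4 := Finset.card_union_le (sp g ∪ sp y) (sp t)
  obtain ⟨w, hw1, -, hw3, hw4⟩ := h3.2.2 (Fin k) (sp g ∪ sp y ∪ sp t)ᶜ l
    (zp.prl.odd_of_ne_two (by omega)) (by omega) (by omega)
  have cgy : Commute g y := com' hyg
  have o1 : On (insert r T) (g * y) := hg.mul cgy hrp hy
  have cgt : Commute (g * y) t := com (by simpa using sp_mul g y) ht1
  have n3 : 3 ∉ insert r T := fun h => by
    have := (zp.prS 3 (hT h)).2.1
    omega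
  have o2 : On (insert 3 (insert r T)) (g * y * t) := o1.mul cgt Nat.prime_three ht3
  have hsp : sp (g * y * t) ⊆ sp g ∪ sp y ∪ sp t :=
    (sp_mul _ _).trans (Finset.union_subset_union_left (sp_mul g y))
  have cw : ∀ s, sp s ⊆ sp w → Commute (g * y * t) s := fun s hs =>
    com (by simpa using hsp) (hs.trans hw1)
  have nl : l ∉ insert 3 (insert r T) := fun h => by
    rcases Finset.mem_insert.1 h with h | h
    · omega
    · have := (zp.prS l (hT h)).2.2
      omega
  have hU : cen (ψ (g * y * t)) = cen (ψ t) ⊓ (cen (ψ y) ⊓ cen (ψ g)) := by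
    rw [map_mul, cop (cgt.map ψ) (o1.cp Nat.prime_three n3 ht3 cfg.inj), map_mul,
      cop (cgy.map ψ) (hg.cp hrp hr hy cfg.inj)]
  have hsm := hz G k ψ (cen (ψ (g * y * t))) (sp g)ᶜ t cfg.inj
    (ht1.trans (Finset.compl_subset_compl.2 Finset.subset_union_left)) ht2
    (fun u hu => mem_cen.1 (hU.le hu).1)
    (fun u hu => hN u (hU.le hu).2.2 (mem_cen.1 (hU.le hu).2.1)) w
    (hw1.trans (Finset.compl_subset_compl.2
      (Finset.subset_union_left.trans Finset.subset_union_left)))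
  have hix := ix_mul ((cw w (Finset.Subset.refl _)).map ψ) (o2.cp zp.prl nl hw3 cfg.inj)
  rw [← map_mul] at hix
  have hlow := orbit_le cfg.inj (cen (ψ (g * y * t))) w fun s hs =>
    mem_cen.2 ((cw s hs).symm.map ψ)
  generalize (cen (ψ w)).relIndex (cen (ψ (g * y * t))) = ρ at hsm hix hlow
  have hc : c (ψ (g * y * t)) = ρ * c (ψ (g * y * t * w)) := by
    have e1 := (s1 (ψ (g * y * t))).symm.trans (s1 (ψ (g * y * t * w)))
    rw [hix, mul_comm ρ, Nat.mul_assoc] at e1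
    exact Nat.eq_of_mul_eq_mul_left (Nat.pos_of_ne_zero index_ne_zero_of_finite) e1
  have hd : 2 * p * k ! < p ! := by
    have e1 : 2 ≤ (p + k) ^ (2 * k) := le_trans (by omega) (Nat.le_self_pow (by omega) (p + k))
    have e2 : p * k ! * (p + k) ^ (2 * k) < p ! := cfg.dich
    calc 2 * p * k ! = p * k ! * 2 := by ring
      _ ≤ p * k ! * (p + k) ^ (2 * k) := Nat.mul_le_mul_left _ e1
      _ < p ! := e2
  have hup := ha p k (3 * k) d _ _ ρ cfg.pr (by omega) (by omega) hd (cfg.ch.mem _) (cfg.ch.mem _)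
    (hbig _) (hbig _) hc (fun q hq hd => not_lt.1 fun h => hsm q hq h hd) (by omega) zp.ar
  have e1 : (l - 1)! ^ 2 ≤ (2 * ρ) ^ 2 :=
    Nat.pow_le_pow_left (hw4.trans (Nat.mul_le_mul_left 2 hlow)) 2
  have e2 := zp.big
  rw [mul_pow] at e1
  rw [mul_assoc] at hup e2
  omega

end Pool.Agent.MP_62c071_al.H57
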