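import Pool.Agent.MP_62c071_al.H57.STEP
import Pool.Agent.MP_62c071_al.H57.CHAIN
import Pool.Agent.MP_62c071_al.H57.SH
import Pool.Agent.MP_62c071_al.H57.A2
import Pool.Agent.MP_62c071_al.H57.A3
import Pool.Agent.MP_62c071_al.H57.AR
import Pool.Agent.MP_62c071_al.H57.SAFE
import Pool.Agent.MP_62c071_al.H57.EXC
import Pool.Agent.MP_62c071_al.H57.EXS
import Pool.Agent.MP_62c071_al.H57.CZ5
import Pool.Agent.MP_62c071_al.H57.TOP
import Pool.Agent.MP_62c071_al.H57.DOWN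
import Pool.Agent.MP_62c071_al.H57.ORB
import Pool.Agent.MP_62c071_al.H57.X3
import Pool.Agent.MP_62c071_al.H57.GEN
import Pool.Agent.MP_62c071_al.H57.JNC
import Pool.Agent.MP_62c071_al.H57.UP1
import Pool.Agent.MP_62c071_al.H57.UP2
import Pool.Agent.MP_62c071_al.H57.SYL2
import Pool.Agent.MP_62c071_al.H57.ZS2
import Pool.Agent.MP_62c071_al.H57.ZS3
import Pool.Agent.MP_62c071_al.H57.ZSC
import Pool.Agent.MP_62c071_al.H57.NUM
import Pool.Agent.MP_62c071_al.H57.PI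
import Pool.Agent.MP_62c071_al.H57.T5A
import Pool.Agent.MP_62c071_al.H57.T5B
import Pool.Agent.MP_62c071_al.H57.FUS
import Pool.Agent.MP_62c071_al.H57.K5B
import Pool.Agent.MP_62c071_al.H57.K5C
import Pool.Agent.MP_62c071_al.H57.K5E
import Pool.Agent.MP_62c071_al.H57.LXAll

/-! All rows of the group theoretic part put together. -/

set_option autoImplicit false

namespace Pool.Agent.MP_62c071_al.H57

open Filter

theorem allSM : RowSM := rowSM' rowSH (rowA2 rowSH)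

theorem allHX : RowHX := rowHX' rowSH (rowA2 rowSH)

theorem allUP1 : RowUP1 := rowUP1 rowORB rowX3

theorem allEND2 : RowEND2 := rowEND2 rowORB rowX3 allUP1 rowEND rowSH

theorem allFUS : RowFUS := rowFUS rowORB

theorem allSTEP : RowSTEP :=
  rowSTEP rowPI rowNUM allHX rowLX' (rowDOWN rowSH (rowA2 rowSH) allSM) allSM
    (rowSYL2 rowSH (rowA2 rowSH) allSM) (rowUP2 rowGEN allUP1)
    (rowUP3 rowORB rowX3 allUP1 allEND2)
    (rowZSC (rowA3 rowSH) allSM (rowAR rowSH) (rowZS2 rowNAT) (rowZS3 rowX3 rowGEN))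
    (rowK5A (rowA2 rowSH) allSM (rowCZ5 rowSH) allFUS) (rowK5B rowORB rowGEN allUP1 allSM)
    (rowK5C rowORB rowJOR allSM) (rowK5D allFUS) (rowK5E rowORB rowX3 allUP1 allEND2)

theorem allLEV : RowLEV := rowLEV rowSH (rowA2 rowSH) (rowA3 rowSH) rowPI allSTEP

theorem allCHAIN : RowCHAIN :=
  rowCHAIN rowSH (rowCZ5 rowSH) (lev5 (rowCZ5 rowSH) rowT5A rowT5B rowT5C) allLEV
    (rowEXS rowSH (rowSAFE rowSH) rowEXC)

theorem allMain (hV : RowV3) : ∀ᶠ n : ℕ in atTop, Rec n :=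
  main_of (rowTOP rowSH (rowA3 rowSH)) allLEV allCHAIN hV

end Pool.Agent.MP_62c071_al.H57
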