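import Pool.Agent.MP_62c071_al.H57.Spec

/-! The descent: the centraliser of `x` satisfies the hypothesis one level lower. -/

set_option autoImplicit false

namespace Pool.Agent.MP_62c071_al.H57

open Subgroup Filter
open scoped Nat

namespace DOWN

theorem mem_cen {G : Type} [Group G] {g h : G} : h ∈ cen g ↔ Commute g h := by
  unfold cen
  rw [mem_centralizer_singleton_iff]
  exact eq_comm

/-- the `p`-part and the `p'`-part of an element -/
theorem part {G : Type} [Group G] [Finite G] {p : ℕ} (hp : p.Prime) (g : G) :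
    ∃ t : ℕ, PE p (g ^ t) ∧ (orderOf ((g ^ t)⁻¹ * g)).Coprime p := by
  obtain ⟨e, m, hm, hn⟩ :=
    Nat.exists_eq_pow_mul_and_not_dvd (orderOf_pos g).ne' p hp.ne_one
  have hc : m.Coprime p := ((Nat.Prime.coprime_iff_not_dvd hp).2 hm).symm
  have hce : (p ^ e).Coprime m := (Nat.Coprime.pow_right e hc).symm
  obtain ⟨t, h1, h2⟩ := Nat.chineseRemainder hce 1 0
  have hmt : m ∣ t := (Nat.modEq_zero_iff_dvd).1 h2
  refine ⟨t, ⟨e, ?_⟩, ?_⟩
  · rw [← pow_mul, ← orderOf_dvd_iff_pow_eq_one, hn, mul_comm]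
    exact Nat.mul_dvd_mul_right hmt _
  · have hcm : Commute (g ^ t)⁻¹ g := ((Commute.refl g).pow_left t).inv_left
    have : ((g ^ t)⁻¹ * g) ^ m = 1 := by
      rw [hcm.mul_pow, inv_pow, ← pow_mul, inv_mul_eq_one, pow_eq_pow_iff_modEq, hn]
      simpa using h1.mul_right' m
    exact Nat.Coprime.coprime_dvd_left (orderOf_dvd_of_pow_eq_one this) hc

/-- the centraliser of a product of commuting elements of coprime orders -/
theorem cop {G : Type} [Group G] [Finite G] {x h : G} (hc : Commute x h)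
    (ho : (orderOf x).Coprime (orderOf h)) (u : G) :
    Commute (x * h) u ↔ Commute x u ∧ Commute h u := by
  refine ⟨fun hu => ?_, fun hu => hu.1.mul_left hu.2⟩
  obtain ⟨t, h1, h2⟩ := Nat.chineseRemainder ho 1 0
  have e : (x * h) ^ t = x := by
    rw [hc.mul_pow, (pow_eq_pow_iff_modEq.2 h1 : x ^ t = x ^ 1),
      (pow_eq_pow_iff_modEq.2 h2 : h ^ t = h ^ 0)]
    simp
  have hx : Commute x u := e ▸ hu.pow_left t
  refine ⟨hx, ?_⟩
  have := hx.inv_left.mul_left hu
  simpa using this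

/-- a `p`-element that centralises a Sylow subgroup lies in it -/
theorem mem_syl {G : Type} [Group G] {p : ℕ} (P : Sylow p G) {a : G} (ha : PE p a)
    (hc : a ∈ centralizer (P : Set G)) : a ∈ P := by
  obtain ⟨e, he⟩ := ha
  have h1 : IsPGroup p (zpowers a) := by
    rintro ⟨_, i, rfl⟩
    refine ⟨e, Subtype.ext ?_⟩
    simp only [SubmonoidClass.coe_pow, OneMemClass.coe_one]
    rw [← zpow_natCast, ← zpow_mul, mul_comm, zpow_mul, zpow_natCast, he, one_zpow]
  have h2 : zpowers a ≤ normalizer ((P : Subgroup G) : Set G) :=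
    (zpowers_le.2 hc).trans (centralizer_le_normalizer _)
  have h3 := P.is_maximal' (h1.to_sup_of_normal_right' P.isPGroup' h2) le_sup_right
  have h4 : a ∈ zpowers a ⊔ (P : Subgroup G) := mem_sup_left (mem_zpowers a)
  rw [h3] at h4
  exact h4

/-- an element whose class has size prime to `p` has a conjugate that centralises `P` -/
theorem conj_cen {G : Type} [Group G] [Finite G] {p : ℕ} (hp : p.Prime) (P : Sylow p G) {g : G}
    (hg : ¬ p ∣ ix g) : ∃ u : G, u * g * u⁻¹ ∈ centralizer (P : Set G) := by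
  have : Fact p.Prime := ⟨hp⟩
  obtain ⟨R⟩ : Nonempty (Sylow p (cen g)) := inferInstance
  have h1 : IsPGroup p ((R : Subgroup (cen g)).map (cen g).subtype) := R.isPGroup'.map _
  have h2 : ¬ p ∣ ((R : Subgroup (cen g)).map (cen g).subtype).index := by
    rw [index_map_subtype]
    intro h
    rcases (Nat.Prime.dvd_mul hp).1 h with h | h
    · exact R.not_dvd_index h
    · exact hg h
  obtain ⟨u, hu⟩ := MulAction.exists_smul_eq G (h1.toSylow h2) P
  refine ⟨u, fun a ha => ?_⟩
  have ha' : a ∈ ((u • h1.toSylow h2 : Sylow p G) : Subgroup G) := by rw [hu]; exact ha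
  rw [Sylow.coe_subgroup_smul, mem_pointwise_smul_iff_inv_smul_mem] at ha'
  have h3 : u⁻¹ * a * u ∈ cen g := by
    have : ((h1.toSylow h2 : Sylow p G) : Subgroup G) ≤ cen g := map_subtype_le _
    simpa using this ha'
  have h4 := (mem_cen.1 h3).eq
  calc a * (u * g * u⁻¹) = u * (u⁻¹ * a * u * g) * u⁻¹ := by group
    _ = u * (g * (u⁻¹ * a * u)) * u⁻¹ := by rw [h4]
    _ = u * g * u⁻¹ * a := by group

/-- centralisers in a group that splits -/
theorem card_split {H : Type} [Group H] {k : ℕ} (hk : 5 ≤ k) (ψ : An k →* H)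
    (hi : Function.Injective ψ) (hd : ∀ g, ∃ s, ∃ z ∈ center H, g = ψ s * z) (s : An k) :
    Nat.card (cen (ψ s)) = Nat.card (cen s) * Nat.card (center H) := by
  rw [← Nat.card_prod]
  symm
  have hm : ∀ (t : cen s) (z : center H), ψ t * z ∈ cen (ψ s) := fun t z =>
    mem_cen.2 (((mem_cen.1 t.2).map ψ).mul_right (mem_center_iff.1 z.2 _))
  refine Nat.card_congr (Equiv.ofBijective
    (fun q : cen s × center H => (⟨ψ q.1 * q.2, hm q.1 q.2⟩ : cen (ψ s))) ⟨?_, ?_⟩)
  · rintro ⟨t, z⟩ ⟨t', z'⟩ h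
    have h1 : ψ t * z = ψ t' * z' := congrArg Subtype.val h
    have h2 : ψ ((t' : An k)⁻¹ * t) = z' * (z : H)⁻¹ := by
      rw [map_mul, map_inv, inv_mul_eq_iff_eq_mul, ← mul_assoc, ← h1]
      simp
    have h3 : (t' : An k)⁻¹ * t ∈ center (An k) := by
      rw [mem_center_iff]
      intro v
      apply hi
      rw [map_mul, map_mul ψ _ v, h2]
      exact mem_center_iff.1 (mul_mem z'.2 (inv_mem z.2)) _
    rw [alternatingGroup.center_eq_bot (by simp; omega), Subgroup.mem_bot, inv_mul_eq_one] at h3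
    have h4 : t = t' := Subtype.ext h3.symm
    subst h4
    have h5 : z = z' := Subtype.ext (mul_left_cancel h1)
    rw [h5]
  · rintro ⟨g, hg⟩
    obtain ⟨t, z, hz, rfl⟩ := hd g
    have h1 : Commute (ψ s) (ψ t) := by
      have hz' : Commute (ψ s) z := mem_center_iff.1 hz _
      simpa using (mem_cen.1 hg).mul_right hz'.inv_right
    have h2 : Commute s t := by
      apply hi
      rw [map_mul, map_mul]
      exact h1
    exact ⟨(⟨t, mem_cen.2 h2⟩, ⟨z, hz⟩), rfl⟩

/-- the centralisers in `K = C(x)` -/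
theorem card_K {G : Type} [Group G] [Finite G] {p : ℕ} (hp : p.Prime) {x : G} (P : Sylow p G)
    (hx : x ∈ P) (hP : centralizer (P : Set G) = cen x) (hle : (P : Subgroup G) ≤ cen x)
    (g : cen x) :
    ∃ y : G, (P : Subgroup G) ≤ cen y ∧ cen y ≤ cen x ∧ Nat.card (cen g) = Nat.card (cen y) := by
  obtain ⟨t, ha, hh⟩ := part hp (g : G)
  set a : G := (g : G) ^ t with ha_def
  set h : G := a⁻¹ * g with hh_def
  have haK : a ∈ cen x := pow_mem g.2 t
  have haP : a ∈ P := mem_syl P ha (hP ▸ haK)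
  have hhK : h ∈ cen x := mul_mem (inv_mem haK) g.2
  have hcen : ∀ u ∈ cen x, ∀ b ∈ P, Commute b u := fun u hu b hb => by
    rw [← hP] at hu
    exact hu b hb
  have hox : (orderOf x).Coprime (orderOf h) := by
    obtain ⟨e, he⟩ := P.isPGroup' ⟨x, hx⟩
    have he' : x ^ p ^ e = 1 := congrArg Subtype.val he
    exact Nat.Coprime.coprime_dvd_left (orderOf_dvd_of_pow_eq_one he')
      (Nat.Coprime.pow_left e hh.symm)
  have hc := cop (mem_cen.1 hhK) hox
  have hle2 : cen (x * h) ≤ cen x := fun u hu => mem_cen.2 ((hc u).1 (mem_cen.1 hu)).1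
  refine ⟨x * h, fun b hb => mem_cen.2 ((hc b).2
    ⟨mem_cen.1 (hle hb), (hcen h hhK b hb).symm⟩), hle2, ?_⟩
  have e : cen g = (cen (x * h)).subgroupOf (cen x) := by
    ext u
    rw [mem_subgroupOf, mem_cen, mem_cen, hc]
    have hau : Commute a (u : G) := hcen u u.2 a haP
    constructor
    · intro hu
      have hu' : Commute (g : G) (u : G) := congrArg Subtype.val hu.eq
      exact ⟨mem_cen.1 u.2, hau.inv_left.mul_left hu'⟩
    · intro hu
      have := hau.mul_left hu.2
      have hg : a * h = g := by rw [hh_def]; simp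
      rw [hg] at this
      exact Subtype.ext this.eq
  rw [e]
  exact Nat.card_congr (subgroupOfEquivOfLe hle2).toEquiv

/-- the centraliser in `K` of a conjugate embeds in the centraliser -/
theorem card_dvd {G : Type} [Group G] (K : Subgroup G) (g u : G) (h : u * g * u⁻¹ ∈ K) :
    Nat.card (cen (⟨u * g * u⁻¹, h⟩ : K)) ∣ Nat.card (cen g) := by
  let f : cen (⟨u * g * u⁻¹, h⟩ : K) →* G :=
    (MulAut.conj u⁻¹).toMonoidHom.comp (K.subtype.comp (cen (⟨u * g * u⁻¹, h⟩ : K)).subtype)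
  have hf : ∀ v, f v = u⁻¹ * ((v : K) : G) * u := fun v => by simp [f]
  have hm : ∀ v, f v ∈ cen g := fun v => by
    rw [hf, mem_cen]
    have h1 : u * g * u⁻¹ * ((v : K) : G) = ((v : K) : G) * (u * g * u⁻¹) :=
      congrArg Subtype.val (mem_cen.1 v.2).eq
    calc g * (u⁻¹ * ((v : K) : G) * u) = u⁻¹ * (u * g * u⁻¹ * ((v : K) : G)) * u := by group
      _ = u⁻¹ * (((v : K) : G) * (u * g * u⁻¹)) * u := by rw [h1]
      _ = u⁻¹ * ((v : K) : G) * u * g := by group
  refine card_dvd_of_injective (f.codRestrict (cen g) hm) fun v w hvw => ?_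
  have h1 : f v = f w := congrArg Subtype.val hvw
  rw [hf, hf] at h1
  exact Subtype.ext (Subtype.ext (mul_left_cancel (mul_right_cancel h1)))

end DOWN

open DOWN in
theorem rowDOWN (_h : RowSH) (h2 : RowA2) (hs : RowSM) : RowDOWN := by
  intro G _ _ p k ζ c x S hp h5 hlt hch hbig hdich hxc hix hlev hS
  have : Fact p.Prime := ⟨hp⟩
  obtain ⟨-, s2, s3, -⟩ := hs G p k ζ c hp (by omega) (by omega) hch hbig hdich
  obtain ⟨a1, -⟩ := h2 p k hp (by omega) (by omega)
  obtain ⟨P, hx, hP, hg⟩ := hxc.syl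
  have hle : (P : Subgroup G) ≤ cen x := fun g hgP => by
    obtain ⟨i, z, hz, rfl⟩ := hg g hgP
    exact mem_cen.2 (((Commute.refl x).pow_right i).mul_right (mem_center_iff.1 hz _))
  have key : ∀ g : cen x, ∃ κ ∈ Cz k, Nat.card (cen g) = ζ * p * κ := fun g => by
    obtain ⟨y, hy1, hy2, hy3⟩ := card_K hp P hx hP hle g
    have h1 : p ∣ c y := (s2 y).2 fun h => P.not_dvd_index (h.trans (index_dvd_of_le hy1))
    rcases a1 _ (hch.mem y) h1 with hb | ⟨κ, hκ, e⟩
    · have h3 := s3 y hb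
      have h4 : ix x ≤ ix y :=
        Nat.le_of_dvd (Nat.pos_of_ne_zero index_ne_zero_of_finite) (index_dvd_of_le hy2)
      omega
    · exact ⟨κ, hκ, by rw [hy3, hch.card, e, mul_assoc]⟩
  choose c' hc1 hc2 using key
  have hpos : 0 < ζ * p := Nat.mul_pos hch.pos hp.pos
  have hch' : CH k (ζ * p) c' := ⟨hpos, hc1, hc2⟩
  have hwh : WH S c' := fun κ hκ => by
    obtain ⟨g, hg1, hg2⟩ := hS κ hκ
    obtain ⟨u, hu⟩ := conj_cen hp P ((s2 g).1 hg1)
    rw [hP] at hu
    refine ⟨⟨u * g * u⁻¹, hu⟩, ?_⟩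
    have h1 := card_dvd (cen x) g u hu
    rw [hc2, hch.card] at h1
    have h3 : ζ * p * c' ⟨u * g * u⁻¹, hu⟩ ∣ ζ * p * κ := by
      rw [mul_assoc ζ p κ]
      exact h1.trans (Nat.mul_dvd_mul_left ζ hg2)
    exact Nat.dvd_of_mul_dvd_mul_left hpos h3
  obtain ⟨ψ, hi, hd⟩ := hlev (cen x) (ζ * p) c' hch' hwh
  have hsp := card_split h5 ψ hi hd
  have hfpos : ∀ s : An k, 0 < Nat.card (cen s) := fun s => Nat.card_pos
  have hZ : Nat.card (center (cen x)) = ζ * p := by
    obtain ⟨s₁, h1⟩ := Finite.exists_max fun s : An k => Nat.card (cen s)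
    obtain ⟨s₀, h0⟩ := Finite.exists_min fun s : An k => Nat.card (cen s)
    apply le_antisymm
    · obtain ⟨t, ht⟩ := hc1 (ψ s₁)
      have e := hsp s₁
      rw [hc2, ← ht] at e
      refine Nat.le_of_mul_le_mul_left ?_ (hfpos s₁)
      rw [← e, mul_comm]
      exact Nat.mul_le_mul_right _ (h1 t)
    · obtain ⟨t, ht⟩ := hc1 (ψ s₀)
      have e := hsp s₀
      rw [hc2, ← ht] at e
      refine Nat.le_of_mul_le_mul_left ?_ (hfpos s₀)
      rw [← e, mul_comm]
      exact Nat.mul_le_mul_left _ (h0 t)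
  have hAle : centralizer (cen x : Set G) ≤ cen x := fun a ha =>
    mem_cen.2 (ha x (mem_cen.2 (Commute.refl x)))
  have hA : (centralizer (cen x : Set G)).subgroupOf (cen x) = center (cen x) := by
    ext z
    rw [mem_subgroupOf, mem_center_iff]
    exact ⟨fun hz g => Subtype.ext (hz g g.2), fun hz g hg => congrArg Subtype.val (hz ⟨g, hg⟩)⟩
  refine ⟨(cen x).subtype.comp ψ, hch, hp, h5, hlt, hbig, hdich, hxc,
    (cen x).subtype_injective.comp hi, fun s => mem_cen.1 (ψ s).2, fun g hg => ?_, ?_, ?_⟩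
  · obtain ⟨s, z, hz, e⟩ := hd ⟨g, mem_cen.2 hg⟩
    rw [← hA] at hz
    exact ⟨s, z, hz, congrArg Subtype.val e⟩
  · rw [← hZ, ← hA]
    exact (Nat.card_congr (subgroupOfEquivOfLe hAle).toEquiv).symm
  · have e := hsp 1
    have t1 : cen (ψ 1) = ⊤ := by
      rw [eq_top_iff, map_one]
      exact fun g _ => mem_cen.2 (Commute.one_left g)
    have t2 : cen (1 : An k) = ⊤ := by
      rw [eq_top_iff]
      exact fun g _ => mem_cen.2 (Commute.one_left g)
    rw [t1, t2, card_top, card_top, hZ, hch.card] at e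
    have : Nontrivial (Fin k) := Fin.nontrivial_iff_two_le.2 (by omega)
    have t3 : 2 * Nat.card (An k) = k ! := by
      rw [two_mul_nat_card_alternatingGroup, Nat.card_perm]
      simp
    refine Nat.eq_of_mul_eq_mul_left hch.pos ?_
    calc ζ * (2 * c x) = 2 * (ζ * c x) := by ring
      _ = 2 * Nat.card (An k) * (ζ * p) := by rw [e]; ring
      _ = ζ * (p * k !) := by rw [t3]; ring

end Pool.Agent.MP_62c071_al.H57
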