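import Pool.Agent.MP_62c071_al.H57.Spec

/-! Row FC: a Sylow subgroup that is cyclic of order `p` over the centre. -/

set_option autoImplicit false

namespace Pool.Agent.MP_62c071_al.H57

open Subgroup

namespace FCx

variable {G : Type} [Group G]

lemma mem_cen {a g : G} : a ∈ cen g ↔ Commute a g := by
  rw [cen, mem_centralizer_singleton_iff]
  rfl

lemma not_dvd [Finite G] {q : ℕ} (hq : q.Prime) (Q : Sylow q G) {g : G}
    (h : (Q : Subgroup G) ≤ cen g) : ¬ q ∣ ix g := by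
  have := Fact.mk hq
  intro hd
  exact Q.not_dvd_index (hd.trans (index_dvd_of_le h))

lemma exists_le [Finite G] {q : ℕ} (hq : q.Prime) (H : Subgroup G) (h : ¬ q ∣ H.index) :
    ∃ Q : Sylow q G, (Q : Subgroup G) ≤ H := by
  have := Fact.mk hq
  obtain ⟨P⟩ : Nonempty (Sylow q H) := inferInstance
  have h1 : IsPGroup q ((P : Subgroup H).map H.subtype) := P.isPGroup'.map _
  have h2 : ¬ q ∣ ((P : Subgroup H).map H.subtype).index := by
    rw [index_map_subtype]
    intro hd
    rcases (Nat.Prime.dvd_mul hq).1 hd with h3 | h3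
    · exact P.not_dvd_index h3
    · exact h h3
  exact ⟨h1.toSylow h2, map_subtype_le _⟩

lemma pe_of_mem {q : ℕ} {R : Subgroup G} (hR : IsPGroup q R) {a : G} (ha : a ∈ R) : PE q a := by
  obtain ⟨k, hk⟩ := hR ⟨a, ha⟩
  exact ⟨k, by simpa using congrArg Subtype.val hk⟩

lemma pp_of_pe {p q : ℕ} (hp : p.Prime) (hq : q.Prime) (hne : q ≠ p) {a : G} (ha : PE q a) :
    PP p a := by
  obtain ⟨k, hk⟩ := ha
  exact Nat.Coprime.coprime_dvd_left (orderOf_dvd_of_pow_eq_one hk)
    (Nat.Coprime.pow_left k ((Nat.coprime_primes hq hp).2 hne))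

/-- a non-central `p`-element in the centre of a given Sylow subgroup -/
lemma move [Finite G] {p : ℕ} (hp : p.Prime) {w : G} (h1 : PE p w) (h2 : w ∉ center G)
    (h3 : ¬ p ∣ ix w) (P : Sylow p G) :
    ∃ v : G, PE p v ∧ v ∉ center G ∧ (P : Subgroup G) ≤ cen v := by
  have := Fact.mk hp
  obtain ⟨P0, hP0⟩ := exists_le hp (cen w) h3
  obtain ⟨g, rfl⟩ := MulAction.exists_smul_eq G P0 P
  refine ⟨g * w * g⁻¹, ?_, ?_, ?_⟩
  · obtain ⟨k, hk⟩ := h1
    exact ⟨k, by rw [conj_pow, hk]; simp⟩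
  · intro hc
    apply h2
    have := (inferInstance : (center G).Normal).conj_mem _ hc g⁻¹
    simpa [mul_assoc] using this
  · intro a ha
    rw [Sylow.coe_subgroup_smul, mem_smul_pointwise_iff_exists] at ha
    obtain ⟨b, hb, rfl⟩ := ha
    have hc : Commute b w := mem_cen.1 (hP0 hb)
    rw [mem_cen]
    have := hc.map (MulAut.conj g)
    simpa using this

end FCx

open FCx in
theorem rowFC (hc : RowCAM) (h3 : RowR3) : RowFC := by
  intro G _ _ Pi p m n q hx hq hP _ hS
  have hp : p.Prime := (hx.pr p (Finset.mem_insert_self _ _)).1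
  have hqp : q.Prime := (hx.pr q (Finset.mem_insert_of_mem hq)).1
  have hne : q ≠ p := (hx.lt q hq).ne
  have := Fact.mk hp
  have := Fact.mk hqp
  obtain ⟨Q⟩ : Nonempty (Sylow q G) := inferInstance
  obtain ⟨R, hR, hmem, -, hcard⟩ := hP Q
  obtain ⟨P, hRP⟩ := hR.exists_le_sylow
  have small : ∀ a : G, PE p a → ¬ p ∣ ix a → (Q : Subgroup G) ≤ cen a → a ∈ center G :=
    fun a h1 h2 h4 => hS ⟨h1, h2, hx.sm1 a q hq h2 (not_dvd hqp Q h4)⟩
  have hRZ : R ≤ center G := by
    intro b hb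
    obtain ⟨hb1, hb2⟩ := (hmem b).1 hb
    have hbQ : ∀ y ∈ (Q : Subgroup G), Commute y b := fun y hy => mem_centralizer_iff.1 hb2 y hy
    by_contra hnc
    have hd : p ∣ ix b := by
      by_contra hd
      exact hnc (small b hb1 hd fun y hy => mem_cen.2 (hbQ y hy))
    obtain ⟨w, hw1, hw2, hw3⟩ := ((h3 G).2 Pi p m n hx).1 p (Finset.mem_insert_self _ _)
    obtain ⟨v, hv1, hv2, hv3⟩ := move hp hw1 hw2 hw3 P
    refine hv2 (small v hv1 (not_dvd hp P hv3) fun y hy => mem_cen.2 ?_)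
    exact ((hc G p hp).2.2 (fun g => hx.sq g p (Finset.mem_insert_self _ _)) b hb1 hd v y
      (mem_cen.1 (hv3 (hRP hb))) (hbQ y hy).symm hv1
      (pp_of_pe hp hqp hne (pe_of_mem Q.isPGroup' hy))).symm
  have hrel : R.relIndex P = p := by
    have h1 : (R.subgroupOf P).index * Nat.card (R.subgroupOf P) = Nat.card P :=
      index_mul_card _
    rw [Nat.card_congr (subgroupOfEquivOfLe hRP).toEquiv] at h1
    have h2 := hcard P
    exact Nat.eq_of_mul_eq_mul_right (Nat.card_pos (α := R)) (h1.trans h2)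
  have hnle : ¬ (P : Subgroup G) ≤ R := by
    intro h
    rw [← relIndex_eq_one, hrel] at h
    exact hp.one_lt.ne' h
  obtain ⟨x, hxP, hxR⟩ := SetLike.not_le_iff_exists.1 hnle
  have hxe : PE p x := pe_of_mem P.isPGroup' hxP
  have hxZ : x ∉ center G := fun h =>
    hxR ((hmem x).2 ⟨hxe, center_le_centralizer _ h⟩)
  have hRn : R.Normal := ⟨fun a ha g => by
    have : g * a * g⁻¹ = a := by rw [mem_center_iff.1 (hRZ ha) g]; simp
    rwa [this]⟩
  have hxp : x ^ p ∈ R := by
    have := (R.subgroupOf P).pow_index_mem ⟨x, hxP⟩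
    rw [mem_subgroupOf] at this
    rw [← hrel]
    simpa [relIndex] using this
  have hgen : ∀ g ∈ (P : Subgroup G), ∃ i : ℕ, ∃ z ∈ center G, g = x ^ i * z := by
    have hK : zpowers x ⊔ R ≤ P := sup_le (zpowers_le.2 hxP) hRP
    have h1 := relIndex_mul_relIndex R (zpowers x ⊔ R) P le_sup_right hK
    rw [hrel] at h1
    have h2 : (P : Subgroup G) ≤ zpowers x ⊔ R := by
      rw [← relIndex_eq_one]
      rcases (Nat.dvd_prime hp).1 (Dvd.intro _ h1) with h | h
      · exact absurd (relIndex_eq_one.1 h (mem_sup_left (mem_zpowers x))) hxR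
      · rw [h] at h1
        exact Nat.eq_of_mul_eq_mul_left hp.pos (h1.trans (mul_one p).symm)
    intro g hg
    obtain ⟨y, hy, z, hz, rfl⟩ := mem_sup_of_normal_right.1 (h2 hg)
    obtain ⟨i, rfl⟩ := mem_powers_iff_mem_zpowers.2 hy
    exact ⟨i, z, hRZ hz, rfl⟩
  have hPx : (P : Subgroup G) ≤ cen x := by
    intro g hg
    obtain ⟨i, z, hz, rfl⟩ := hgen g hg
    exact mem_cen.2 (((Commute.refl x).pow_left i).mul_left (mem_center_iff.1 hz x).symm)
  refine ⟨x, ⟨hxZ, hRZ hxp, P, hxP, ?_, hgen⟩, ?_⟩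
  · ext a
    rw [mem_cen, mem_centralizer_iff]
    constructor
    · intro h
      exact (h x hxP).symm
    · intro h g hg
      obtain ⟨i, z, hz, rfl⟩ := hgen g hg
      exact (h.symm.pow_left i).mul_left (mem_center_iff.1 hz a).symm
  · by_contra h
    exact hxZ (hS ⟨hxe, not_dvd hp P hPx, not_lt.1 h⟩)

end Pool.Agent.MP_62c071_al.H57
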