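import Pool.Agent.MP_62c071_al.H57.Spec

/-! Row K5C, first part: a group acting on the orbit of one point. -/

set_option autoImplicit false

namespace Pool.Agent.MP_62c071_al.H57.K5C

open Subgroup MulAction
open scoped Nat

section groups
variable {Γ : Type} [Group Γ] [Finite Γ]

theorem rel_mul (T N : Subgroup Γ) [N.Normal] : T.relIndex N * (T ⊔ N).index = T.index := by
  have h1 : (N ⊓ T).relIndex T * T.index = (N ⊓ T).index := relIndex_mul_index inf_le_right
  have h2 : (T ⊓ N).relIndex N * N.index = (T ⊓ N).index := relIndex_mul_index inf_le_right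
  have h3 : N.relIndex (T ⊔ N) * (T ⊔ N).index = N.index := relIndex_mul_index le_sup_right
  rw [inf_relIndex_right] at h1 h2
  rw [relIndex_sup_right] at h3
  have h0 : N.relIndex T ≠ 0 := index_ne_zero_of_finite
  apply Nat.eq_of_mul_eq_mul_left (Nat.pos_of_ne_zero h0)
  rw [h1, inf_comm, ← h2, ← h3]
  ring

theorem le_of_not_dvd {q : ℕ} [Fact q.Prime] (Q N : Subgroup Γ) [N.Normal] (hQ : IsPGroup q Q)
    (h : ¬ q ∣ N.index) : Q ≤ N := by
  have h1 : N.relIndex Q ∣ N.index := relIndex_dvd_index_of_normal N Q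
  obtain ⟨a, ha⟩ := hQ.index (N.subgroupOf Q)
  have ha' : N.relIndex Q = q ^ a := ha
  rcases Nat.eq_zero_or_pos a with rfl | hp
  · exact relIndex_eq_one.1 (by simpa using ha')
  · exact absurd ((dvd_pow_self q hp.ne').trans (ha' ▸ h1)) h

/-- the argument of Frattini -/
theorem frat {p q : ℕ} [Fact p.Prime] [Fact q.Prime] (M : Subgroup Γ) (N : Subgroup M) [N.Normal]
    (P : Sylow p Γ) (hPM : (P : Subgroup Γ) ≤ M)
    (hc : ∀ g : M, g ∈ N → (g : Γ) ∈ P → (g : Γ) ∈ center Γ)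
    (hqN : ¬ q ∣ N.index) (hqM : ¬ q ∣ M.index) (hpM : ¬ p ∣ M.index) :
    ∃ Q : Sylow q Γ, ¬ p ∣ (normalizer (Q : Set Γ)).index := by
  obtain ⟨Q1⟩ : Nonempty (Sylow q M) := inferInstance
  have hle : (Q1 : Subgroup M) ≤ N := le_of_not_dvd _ _ Q1.2 hqN
  have hF := Sylow.normalizer_sup_eq_top' Q1 hle
  set T : Subgroup M := normalizer (Q1 : Set M) with hT
  have hTi : T.relIndex N = T.index := by
    have := rel_mul T N
    rwa [hF, index_top, mul_one] at this
  have hP' : ¬ p ∣ ((P.subtype hPM : Sylow p M) : Subgroup M).relIndex N := fun h =>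
    (P.subtype hPM).not_dvd_index (h.trans ⟨_, (rel_mul _ N).symm⟩)
  have hPT : ((P.subtype hPM : Sylow p M) : Subgroup M) ⊓ N ≤ T := by
    intro g hg
    have hg' : (g : Γ) ∈ center Γ := hc g hg.2 hg.1
    have : g ∈ center M := mem_center_iff.2 fun m => Subtype.ext (mem_center_iff.1 hg' m)
    exact center_le_normalizer _ this
  have hpT : ¬ p ∣ T.index := fun h => hP' (by
    rw [← inf_relIndex_right]
    exact (hTi ▸ h).trans (relIndex_dvd_of_le_left N hPT))
  have hq1 : ¬ q ∣ ((Q1 : Subgroup M).map M.subtype).index := by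
    rw [index_map_subtype]
    intro h
    rcases (Nat.Prime.dvd_mul Fact.out).1 h with h | h
    · exact Q1.not_dvd_index h
    · exact hqM h
  refine ⟨(Q1.2.map M.subtype).toSylow hq1, fun h => ?_⟩
  have hle2 : T.map M.subtype ≤ normalizer ((Q1 : Subgroup M).map M.subtype : Set Γ) :=
    le_normalizer_map _
  have h2 : p ∣ (T.map M.subtype).index := h.trans (index_dvd_of_le hle2)
  rw [index_map_subtype] at h2
  rcases (Nat.Prime.dvd_mul Fact.out).1 h2 with h | h
  · exact hpT h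
  · exact hpM h

end groups

section action
variable {G Ω : Type} [Group G] [MulAction G Ω]

theorem fix_of_pow {p d : ℕ} {x : G} {X : Ω} (hp : p.Prime) (hxp : x ^ p • X = X)
    (hd : x ^ d • X = X) (h : ¬ p ∣ d) : x • X = X := by
  have h1 : x ^ p ∈ stabilizer G X := hxp
  have h2 : x ^ d ∈ stabilizer G X := hd
  obtain ⟨a, -, ha⟩ := Nat.exists_mul_mod_eq_one_of_coprime
    ((Nat.Prime.coprime_iff_not_dvd hp).2 h).symm hp.one_lt
  have e : d * a = p * (d * a / p) + 1 := by rw [← ha]; exact (Nat.div_add_mod _ _).symm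
  have h3 : x ^ (d * a) ∈ stabilizer G X := by rw [pow_mul]; exact pow_mem h2 _
  rw [e, pow_succ, pow_mul] at h3
  exact (mul_mem_cancel_left (pow_mem h1 _)).1 h3

theorem pow_dvd_fix {p d : ℕ} {x : G} {X : Ω} (hxp : x ^ p • X = X) (h : p ∣ d) :
    x ^ d • X = X := by
  obtain ⟨a, rfl⟩ := h
  have h1 : x ^ p ∈ stabilizer G X := hxp
  rw [pow_mul]
  exact pow_mem h1 a

theorem mem_orb {M : Subgroup G} {L X : Ω} : X ∈ orbit M L ↔ ∃ m ∈ M, m • L = X :=
  ⟨fun ⟨m, h⟩ => ⟨m, m.2, h⟩, fun ⟨m, hm, h⟩ => ⟨⟨m, hm⟩, h⟩⟩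

theorem rel_orb (M : Subgroup G) (L : Ω) : (stabilizer G L).relIndex M = (orbit M L).ncard := by
  rw [← index_stabilizer]
  rfl

theorem orb_smul {M : Subgroup G} {L X : Ω} {m : G} (hm : m ∈ M) (hX : X ∈ orbit M L) :
    m • X ∈ orbit M L := by
  obtain ⟨m', h', rfl⟩ := mem_orb.1 hX
  exact mem_orb.2 ⟨m * m', mul_mem hm h', mul_smul _ _ _⟩

theorem orb_fin [Finite G] (M : Subgroup G) (L : Ω) : (orbit M L).Finite := Set.finite_range _

theorem modp [Finite G] {p : ℕ} (hp : p.Prime) {M : Subgroup G} {L : Ω} {x : G} (hx : x ∈ M)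
    (hPE : ∃ a, x ^ p ^ a = 1) (hxL : x • L = L)
    (hfix : ∀ X ∈ orbit M L, x • X = X → X = L) : (orbit M L).ncard ≡ 1 [MOD p] := by
  have : Fact p.Prime := ⟨hp⟩
  have : Finite (orbit M L) := orb_fin M L
  obtain ⟨a, ha⟩ := hPE
  have hP : IsPGroup p (zpowers (⟨x, hx⟩ : M)) := by
    rintro ⟨g, i, rfl⟩
    refine ⟨a, Subtype.ext (Subtype.ext ?_)⟩
    simp only [SubmonoidClass.coe_pow, SubgroupClass.coe_zpow, OneMemClass.coe_one]
    rw [← zpow_natCast, ← zpow_mul, mul_comm, zpow_mul, zpow_natCast, ha, one_zpow]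
  have h := hP.card_modEq_card_fixedPoints (orbit M L)
  have h1 : fixedPoints (zpowers (⟨x, hx⟩ : M)) (orbit M L) = {⟨L, mem_orbit_self L⟩} := by
    ext X
    rw [Set.mem_singleton_iff, mem_fixedPoints]
    constructor
    · intro hX
      exact Subtype.ext (hfix X X.2 (congrArg Subtype.val (hX ⟨_, mem_zpowers _⟩)))
    · rintro rfl ⟨g, i, rfl⟩
      apply Subtype.ext
      have : x ^ i ∈ stabilizer G L := zpow_mem (show x ∈ stabilizer G L from hxL) i
      exact this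
  rw [h1] at h
  simpa using h

/-- the points other than `L` form one cycle -/
theorem cyc [Finite G] {p : ℕ} (hp : p.Prime) {M : Subgroup G} {L : Ω} {x : G} (hx : x ∈ M)
    (hxp : ∀ X : Ω, x ^ p • X = X) (hxL : x • L = L)
    (hfix : ∀ X ∈ orbit M L, x • X = X → X = L) (hc : (orbit M L).ncard = p + 1)
    {X Y : Ω} (hX : X ∈ orbit M L) (hX' : X ≠ L) (hY : Y ∈ orbit M L) (hY' : Y ≠ L) :
    ∃ i, i < p ∧ Y = x ^ i • X := by
  have hinj : Set.InjOn (fun i : ℕ => x ^ i • X) (Set.Iio p) := by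
    have key : ∀ i j : ℕ, i < j → j < p → x ^ i • X ≠ x ^ j • X := by
      intro i j hij hj e
      obtain ⟨d, rfl⟩ := Nat.exists_eq_add_of_lt hij
      rw [add_assoc, pow_add, mul_smul, smul_left_cancel_iff] at e
      refine hX' (hfix X hX (fix_of_pow hp (hxp X) e.symm fun h => ?_))
      have := Nat.le_of_dvd (by omega) h
      omega
    intro i hi j hj e
    rcases lt_trichotomy i j with h | h | h
    · exact absurd e (key i j h hj)
    · exact h
    · exact absurd e.symm (key j i h hi)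
  have hsub : (fun i : ℕ => x ^ i • X) '' Set.Iio p ⊆ orbit M L \ {L} := by
    rintro _ ⟨i, -, rfl⟩
    refine ⟨orb_smul (pow_mem hx i) hX, fun e => hX' ?_⟩
    have h1 : x ^ i • L = L := pow_mem (show x ∈ stabilizer G L from hxL) i
    have e' : x ^ i • X = L := e
    exact smul_left_cancel _ (e'.trans h1.symm)
  have hcard : (orbit M L \ {L}).ncard ≤ ((fun i : ℕ => x ^ i • X) '' Set.Iio p).ncard := by
    rw [hinj.ncard_image, Set.ncard_sdiff_singleton_of_mem (mem_orbit_self L), hc]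
    simp
  have := Set.eq_of_subset_of_ncard_le hsub hcard ((orb_fin M L).subset Set.sdiff_subset)
  have hm : Y ∈ (fun i : ℕ => x ^ i • X) '' Set.Iio p := this ▸ ⟨hY, hY'⟩
  obtain ⟨i, hi, e⟩ := hm
  exact ⟨i, hi, e.symm⟩

/-- the standing hypotheses -/
structure Hy (p : ℕ) (M : Subgroup G) (L : Ω) (x : G) : Prop where
  hp : p.Prime
  hx : x ∈ M
  hxp : x ^ p ∈ center G
  hz : ∀ z ∈ center G, ∀ X : Ω, z • X = X
  hKL : ∀ g, Commute x g → g • L = L
  hfix : ∀ X ∈ orbit M L, x • X = X → X = L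
  hc : (orbit M L).ncard = p + 1

variable [Finite G] {p : ℕ} {M : Subgroup G} {L : Ω} {x : G}

theorem Hy.cyc (h : Hy p M L x) {X Y : Ω} (hX : X ∈ orbit M L) (hX' : X ≠ L)
    (hY : Y ∈ orbit M L) (hY' : Y ≠ L) : ∃ i, i < p ∧ Y = x ^ i • X :=
  K5C.cyc h.hp h.hx (h.hz _ h.hxp) (h.hKL x (Commute.refl x)) h.hfix h.hc hX hX' hY hY'

theorem Hy.other (h : Hy p M L x) : ∃ X ∈ orbit M L, X ≠ L :=
  Set.exists_ne_of_one_lt_ncard (by have := h.hp.pos; have := h.hc; omega) L

theorem Hy.onePt (h : Hy p M L x) {y : G} (hy : Commute x y) {X : Ω} (hX : X ∈ orbit M L)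
    (hX' : X ≠ L) (e : y • X = X) : ∀ Y ∈ orbit M L, y • Y = Y := by
  intro Y hY
  by_cases hY' : Y = L
  · rw [hY']; exact h.hKL y hy
  obtain ⟨i, -, rfl⟩ := h.cyc hX hX' hY hY'
  rw [← mul_smul, ← (hy.pow_left i).eq, mul_smul, e]

theorem Hy.triv (h : Hy p M L x) {y : G} (hy : Commute x y)
    (hm : ∀ X ∈ orbit M L, y • X ∈ orbit M L) {e : ℕ} (he : y ^ e = 1) (hpe : ¬ p ∣ e) :
    ∀ X ∈ orbit M L, y • X = X := by
  obtain ⟨X, hX, hX'⟩ := h.other
  refine h.onePt hy hX hX' ?_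
  have hne : y • X ≠ L := fun e => hX' (smul_left_cancel y (e.trans (h.hKL y hy).symm))
  obtain ⟨i, -, hi⟩ := h.cyc hX hX' (hm X hX) hne
  have hj : ∀ j : ℕ, y ^ j • X = x ^ (i * j) • X := by
    intro j
    induction j with
    | zero => simp
    | succ j ih =>
      rw [pow_succ', mul_smul, ih, ← mul_smul, ← (hy.pow_left _).eq, mul_smul, hi, ← mul_smul,
        ← pow_add, Nat.mul_succ]
  have h1 := hj e
  rw [he, one_smul] at h1
  have h2 : p ∣ i * e := by
    by_contra hn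
    exact hX' (h.hfix X hX (fix_of_pow h.hp (h.hz _ h.hxp X) h1.symm hn))
  rw [hi]
  exact pow_dvd_fix (h.hz _ h.hxp X) (((Nat.Prime.dvd_mul h.hp).1 h2).resolve_right hpe)

theorem Hy.trans (h : Hy p M L x) {D : Subgroup G} (hD : ∀ m ∈ M, m * x * m⁻¹ ∈ D) :
    orbit M L ⊆ orbit D L := by
  intro X hX
  by_cases hX' : X = L
  · rw [hX']; exact mem_orbit_self L
  obtain ⟨m, hm, rfl⟩ := mem_orb.1 hX
  have hxD : x ∈ D := by simpa using hD 1 (one_mem _)
  have hy : m * x * m⁻¹ ∈ M := mul_mem (mul_mem hm h.hx) (inv_mem hm)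
  have hne : (m * x * m⁻¹) • L ≠ L := by
    intro e
    have h1 : x • m⁻¹ • L = m⁻¹ • L := by
      rw [mul_smul, mul_smul] at e
      exact eq_inv_smul_iff.2 e
    have h2 := h.hfix _ (orb_smul (inv_mem hm) (mem_orbit_self L)) h1
    exact hX' (inv_smul_eq_iff.1 h2).symm
  obtain ⟨i, -, hi⟩ := h.cyc (orb_smul hy (mem_orbit_self L)) hne hX hX'
  exact mem_orb.2 ⟨x ^ i * (m * x * m⁻¹), mul_mem (pow_mem hxD i) (hD m hm),
    by rw [mul_smul, ← hi]⟩

/-- the kernel of the action on the orbit -/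
def Nk (M : Subgroup G) (L : Ω) : Subgroup M := (toPermHom M (orbit M L)).ker

instance (M : Subgroup G) (L : Ω) : (Nk M L).Normal := MonoidHom.normal_ker _

omit [Finite G] in
theorem mem_Nk {n : M} : n ∈ Nk M L ↔ ∀ X ∈ orbit M L, (n : G) • X = X := by
  rw [Nk, MonoidHom.mem_ker, Equiv.ext_iff]
  exact ⟨fun h X hX => congrArg Subtype.val (h ⟨X, hX⟩), fun h X => Subtype.ext (h X X.2)⟩

theorem Hy.cardN (h : Hy p M L x) (hj : RowJOR) {q : ℕ} (hq : q.Prime) (h1 : p + 1 < 2 * q)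
    (h2 : q + 3 ≤ p + 1) (hd : q ∣ (Nk M L).index) :
    (p + 1)! * Nat.card (Nk M L) ≤ 2 * Nat.card M := by
  classical
  have : Finite (orbit M L) := orb_fin M L
  have : Fintype (orbit M L) := Fintype.ofFinite _
  have : Fact q.Prime := ⟨hq⟩
  have hc : Nat.card (orbit M L) = p + 1 := h.hc
  have hc' : Fintype.card (orbit M L) = p + 1 := by rw [← Nat.card_eq_fintype_card, hc]
  have hi : (Nk M L).index = Nat.card (toPermHom M (orbit M L)).range := index_ker _
  rw [hi] at hd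
  obtain ⟨g, hg⟩ := exists_prime_orderOf_dvd_card' q hd
  have hA := hj (orbit M L) (toPermHom M (orbit M L)).range q g hq (by omega) (by omega)
    (fun a b => by
      obtain ⟨m, hm⟩ := exists_smul_eq M a b
      exact ⟨_, ⟨m, rfl⟩, hm⟩) g.2 (by rw [← hg, Subgroup.orderOf_coe])
  have : Nontrivial (orbit M L) := by
    rw [← Fintype.one_lt_card_iff_nontrivial]
    have := h.hp.pos
    omega
  have h3 := two_mul_nat_card_alternatingGroup (α := orbit M L)
  rw [Nat.card_perm, hc] at h3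
  have h4 := card_le_of_le hA
  rw [← h3, ← (Nk M L).index_mul_card, hi, mul_assoc]
  exact Nat.mul_le_mul_left _ (Nat.mul_le_mul_right _ h4)

theorem Hy.cent (h : Hy p M L x) {g z : G} {i : ℕ} (hz : z ∈ center G) (e : g = x ^ i * z)
    (hg : ∀ X ∈ orbit M L, g • X = X) : g ∈ center G := by
  obtain ⟨X, hX, hX'⟩ := h.other
  have h1 := hg X hX
  rw [e, mul_smul, h.hz z hz] at h1
  have h2 : p ∣ i := by
    by_contra hn
    exact hX' (h.hfix X hX (fix_of_pow h.hp (h.hz _ h.hxp X) h1 hn))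
  obtain ⟨a, rfl⟩ := h2
  rw [e, pow_mul]
  exact mul_mem (pow_mem h.hxp a) hz

theorem Hy.cardN0 (h : Hy p M L x) {a : ℕ} (hK : p * a ≤ Nat.card (cen x ⊓ M : Subgroup G)) :
    a ≤ Nat.card (((cen x).subgroupOf M).subgroupOf (Nk M L)) := by
  obtain ⟨X, hX, hX'⟩ := h.other
  set W : Subgroup G := cen x ⊓ M with hW
  have hcom : ∀ g ∈ W, Commute x g := fun g hg => mem_centralizer_iff.1 hg.1 x rfl
  have h1 : (stabilizer G X).relIndex W ≤ p := by
    rw [rel_orb]
    have hsub : orbit W X ⊆ orbit M L \ {L} := by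
      intro Y hY
      obtain ⟨g, hg, rfl⟩ := mem_orb.1 hY
      exact ⟨orb_smul hg.2 hX, fun e =>
        hX' (smul_left_cancel g ((show g • X = L from e).trans (h.hKL g (hcom g hg)).symm))⟩
    have := Set.ncard_le_ncard hsub ((orb_fin M L).subset Set.sdiff_subset)
    rw [Set.ncard_sdiff_singleton_of_mem (mem_orbit_self L), h.hc] at this
    simpa using this
  have h2 : (stabilizer G X).relIndex W * Nat.card ((stabilizer G X).subgroupOf W) = Nat.card W :=
    index_mul_card _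
  have h3 : Nat.card ((stabilizer G X).subgroupOf W) ≤
      Nat.card (((cen x).subgroupOf M).subgroupOf (Nk M L)) := by
    refine Nat.card_le_card_of_injective (fun g => ⟨⟨⟨g.1.1, g.1.2.2⟩,
      mem_Nk.2 (h.onePt (hcom _ g.1.2) hX hX' g.2)⟩, g.1.2.1⟩) fun g g' e => ?_
    exact Subtype.ext (Subtype.ext (congrArg (fun t => t.1.1.1) e))
  apply Nat.le_of_mul_le_mul_left _ h.hp.pos
  calc p * a ≤ _ := hK
    _ = _ := h2.symm
    _ ≤ _ := Nat.mul_le_mul h1 h3

theorem Hy.comm (h : Hy p M L x) (hp2 : 2 < p) {a : ℕ} (ha : 0 < a)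
    (hK : p * a ≤ Nat.card (cen x ⊓ M : Subgroup G)) (hN : Nat.card (Nk M L) ≤ 2 * a)
    (hP : ∀ g, Commute x g → g ^ p = 1 → ∃ i : ℕ, ∃ z ∈ center G, g = x ^ i * z)
    (u : M) (hu : u ∈ Nk M L) : Commute x u := by
  have h0 := h.cardN0 hK
  set N0 := ((cen x).subgroupOf M).subgroupOf (Nk M L) with hN0
  have hm : ∀ w : Nk M L, w ∈ N0 ↔ Commute x w := fun w =>
    ⟨fun hw => mem_centralizer_iff.1 hw x rfl, fun hw =>
      mem_centralizer_iff.2 fun y hy => (show y = x from hy) ▸ hw⟩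
  have h1 := N0.index_mul_card
  have h2 : N0.index ≤ 2 := by
    by_contra hn
    have : 3 * a ≤ N0.index * Nat.card N0 := Nat.mul_le_mul (by omega) h0
    omega
  have h3 : N0.index ≠ 0 := index_ne_zero_of_finite
  rcases (by omega : N0.index = 1 ∨ N0.index = 2) with h4 | h4
  · exact (hm ⟨u, hu⟩).1 (by rw [index_eq_one.1 h4]; trivial)
  have hu' : (⟨x, h.hx⟩ : M) * u * (⟨x, h.hx⟩ : M)⁻¹ ∈ Nk M L := Normal.conj_mem inferInstance u hu _
  have hc0 : (⟨u, hu⟩ : Nk M L)⁻¹ * ⟨_, hu'⟩ ∈ N0 := by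
    rw [mul_mem_iff_of_index_two h4, inv_mem_iff, hm, hm]
    change Commute x u ↔ Commute x (x * u * x⁻¹)
    constructor
    · intro hh
      exact ((Commute.refl x).mul_right hh).mul_right (Commute.refl x).inv_right
    · intro hh
      have := ((Commute.refl x).inv_right.mul_right hh).mul_right (Commute.refl x)
      simpa [mul_assoc] using this
  have hcN : ∀ X ∈ orbit M L, ((u : G)⁻¹ * (x * u * x⁻¹)) • X = X :=
    mem_Nk.1 ((⟨u, hu⟩ : Nk M L)⁻¹ * ⟨_, hu'⟩).2
  have hcx : Commute x ((u : G)⁻¹ * (x * u * x⁻¹)) := (hm _).1 hc0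
  have hsq : Commute x ((u : G) ^ 2) := (hm _).1 (sq_mem_of_index_two h4 ⟨u, hu⟩)
  generalize (u : G) = w at *
  obtain ⟨c, hc⟩ : ∃ c, c = w⁻¹ * (x * w * x⁻¹) := ⟨_, rfl⟩
  rw [← hc] at hcN hcx
  have e1 : x * w = w * c * x := by rw [hc]; group
  have hj : ∀ j : ℕ, x ^ j * w = w * c ^ j * x ^ j := by
    intro j
    induction j with
    | zero => simp
    | succ j ih =>
      rw [pow_succ' x, mul_assoc, ih, ← mul_assoc, ← mul_assoc, e1, mul_assoc (w * c),
        (hcx.pow_right j).eq, pow_succ' c]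
      simp only [mul_assoc]
  have hcp : c ^ p = 1 := by
    have := hj p
    rw [← mem_center_iff.1 h.hxp w] at this
    simpa using this
  obtain ⟨i, z, hz, e⟩ := hP c hcx hcp
  have hcc := mem_center_iff.1 (h.cent hz e hcN)
  have hc2 : c ^ 2 = 1 := by
    have e2 : x * w ^ 2 = w ^ 2 * c ^ 2 * x := by
      rw [sq, sq, ← mul_assoc, e1, mul_assoc _ x, e1]
      simp only [mul_assoc]
      rw [← mul_assoc c w, ← hcc w, mul_assoc]
    rw [hsq.eq] at e2
    simpa using e2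
  have hc1 : c = 1 := by
    have hd := Nat.dvd_gcd (orderOf_dvd_of_pow_eq_one hcp) (orderOf_dvd_of_pow_eq_one hc2)
    rw [((Nat.coprime_primes h.hp Nat.prime_two).2 (by omega)).gcd_eq_one] at hd
    exact orderOf_eq_one_iff.1 (Nat.dvd_one.1 hd)
  rw [hc1, mul_one] at e1
  exact e1

end action

end Pool.Agent.MP_62c071_al.H57.K5C
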