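import Pool.Agent.MP_62c071_al.H57.Spec

/-! Small tools: centralisers, parts of elements, Sylow subgroups, `Oq`. -/

set_option autoImplicit false

namespace Pool.Agent.MP_62c071_al.H57

open Subgroup
open scoped Pointwise

variable {G : Type} [Group G] {q r : ℕ} {a b g : G} {H U W N : Subgroup G}

theorem mem_cen : a ∈ cen g ↔ Commute g a := by
  rw [cen, mem_centralizer_singleton_iff]
  exact ⟨fun h => h.symm, fun h => h.symm⟩

theorem self_mem_cen (g : G) : g ∈ cen g := mem_cen.2 (Commute.refl g)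

theorem cen_eq_top : cen g = ⊤ ↔ g ∈ center G := by
  rw [mem_center_iff, eq_top_iff']
  exact ⟨fun h x => (mem_cen.1 (h x)).symm, fun h x => mem_cen.2 (h x).symm⟩

theorem cen_le_of_mem_zpowers (h : a ∈ zpowers g) : cen g ≤ cen a := by
  obtain ⟨k, rfl⟩ := h
  exact fun x hx => mem_cen.2 ((mem_cen.1 hx).zpow_left k)

theorem inf_le_cen_mul (a b : G) : cen a ⊓ cen b ≤ cen (a * b) :=
  fun _ hx => mem_cen.2 ((mem_cen.1 hx.1).mul_left (mem_cen.1 hx.2))

theorem mem_zpowers_mul_left [Finite G] (h : Commute a b)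
    (hc : (orderOf a).Coprime (orderOf b)) : a ∈ zpowers (a * b) := by
  have h1 : (a * b) ^ orderOf b = a ^ orderOf b := by
    rw [h.mul_pow, pow_orderOf_eq_one, mul_one]
  have h2 : a ∈ zpowers (a ^ orderOf b) := mem_zpowers_pow_iff.2 hc.symm
  rw [← h1] at h2
  exact (zpowers_le.2 (npow_mem_zpowers _ _)) h2

theorem mem_zpowers_mul_right [Finite G] (h : Commute a b)
    (hc : (orderOf a).Coprime (orderOf b)) : b ∈ zpowers (a * b) := by
  rw [h.eq]
  exact mem_zpowers_mul_left h.symm hc.symm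

theorem cop [Finite G] (h : Commute a b) (hc : (orderOf a).Coprime (orderOf b)) :
    cen (a * b) = cen a ⊓ cen b :=
  le_antisymm (le_inf (cen_le_of_mem_zpowers (mem_zpowers_mul_left h hc))
    (cen_le_of_mem_zpowers (mem_zpowers_mul_right h hc))) (inf_le_cen_mul a b)

/-- The class of `g` in the centraliser of `z`, when the orders are coprime. -/
theorem ix_mul [Finite G] (h : Commute a b) (hc : (orderOf a).Coprime (orderOf b)) :
    ix (a * b) = (cen b).relIndex (cen a) * ix a := by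
  rw [ix, ix, cop h hc, ← inf_relIndex_left, relIndex_mul_index inf_le_left]

theorem ix_pos [Finite G] (g : G) : 0 < ix g := Nat.pos_of_ne_zero index_ne_zero_of_finite

theorem ix_dvd (h : cen a ≤ cen b) : ix b ∣ ix a := index_dvd_of_le h

theorem mem_cen_conj : g * b * g⁻¹ ∈ cen (g * a * g⁻¹) ↔ b ∈ cen a := by
  rw [mem_cen, mem_cen, Commute.conj_iff]

theorem cen_conj (g a : G) : cen (g * a * g⁻¹) = (cen a).map (MulAut.conj g).toMonoidHom := by
  ext x
  rw [mem_map_equiv, ← mem_cen_conj (g := g) (a := a)]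
  simp [mul_assoc]

theorem ix_conj (g a : G) : ix (g * a * g⁻¹) = ix a := by
  rw [ix, cen_conj, ix]
  exact index_map_of_bijective (f := (MulAut.conj g).toMonoidHom) (MulAut.conj g).bijective _

theorem pe_iff_order (hq : q.Prime) : PE q a ↔ ∃ k, orderOf a = q ^ k :=
  ⟨fun ⟨_, h⟩ => let ⟨k, _, hk⟩ := (Nat.dvd_prime_pow hq).1 (orderOf_dvd_of_pow_eq_one h); ⟨k, hk⟩,
    fun ⟨k, h⟩ => ⟨k, by rw [← h, pow_orderOf_eq_one]⟩⟩

theorem isPGroup_iff : IsPGroup q H ↔ ∀ a ∈ H, PE q a :=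
  ⟨fun h a ha => let ⟨k, hk⟩ := h ⟨a, ha⟩; ⟨k, congrArg Subtype.val hk⟩,
    fun h a => let ⟨k, hk⟩ := h a.1 a.2; ⟨k, Subtype.ext hk⟩⟩

theorem pe_of_mem (h : IsPGroup q H) (ha : a ∈ H) : PE q a := isPGroup_iff.1 h a ha

theorem pe_sylow (Q : Sylow q G) (ha : a ∈ Q) : PE q a := pe_of_mem Q.isPGroup' ha

theorem PE.one : PE q (1 : G) := ⟨0, by simp⟩

theorem PP.one : PP q (1 : G) := by simp [PP]

theorem PE.of_mem (h : PE q g) (ha : a ∈ zpowers g) : PE q a := by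
  obtain ⟨k, hk⟩ := h
  exact ⟨k, orderOf_dvd_iff_pow_eq_one.1
    ((orderOf_dvd_of_mem_zpowers ha).trans (orderOf_dvd_of_pow_eq_one hk))⟩

theorem PP.of_mem (h : PP q g) (ha : a ∈ zpowers g) : PP q a :=
  Nat.Coprime.coprime_dvd_left (orderOf_dvd_of_mem_zpowers ha) h

theorem PE.zpowers (h : PE q a) : IsPGroup q (zpowers a) :=
  isPGroup_iff.2 fun _ hb => h.of_mem hb

theorem PE.conj (h : PE q a) (g : G) : PE q (g * a * g⁻¹) :=
  let ⟨k, hk⟩ := h; ⟨k, by rw [conj_pow, hk]; simp⟩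

theorem PP.conj (h : PP q a) (g : G) : PP q (g * a * g⁻¹) := by
  have : orderOf (g * a * g⁻¹) = orderOf a := (MulAut.conj g).orderOf_eq a
  rwa [PP, this]

theorem PE.inv (h : PE q a) : PE q a⁻¹ := h.of_mem (inv_mem (mem_zpowers a))

theorem PE.mul (h : Commute a b) (ha : PE q a) (hb : PE q b) : PE q (a * b) := by
  obtain ⟨k, hk⟩ := ha
  obtain ⟨l, hl⟩ := hb
  refine ⟨k + l, ?_⟩
  rw [h.mul_pow, pow_add, pow_mul, hk, one_pow, one_mul, mul_comm, pow_mul, hl, one_pow]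

theorem PP.mul (h : Commute a b) (ha : PP q a) (hb : PP q b) : PP q (a * b) :=
  Nat.Coprime.coprime_dvd_left h.orderOf_mul_dvd_mul_orderOf (Nat.Coprime.mul_left ha hb)

theorem PE.coprime (h : PE q a) (h' : PP q b) : (orderOf a).Coprime (orderOf b) :=
  let ⟨k, hk⟩ := h
  Nat.Coprime.coprime_dvd_left (orderOf_dvd_of_pow_eq_one hk) (Nat.Coprime.pow_left k h'.symm)

theorem PE.coprime_of (h : PE q a) {n : ℕ} (hn : q.Coprime n) : (orderOf a).Coprime n :=
  let ⟨k, hk⟩ := h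
  Nat.Coprime.coprime_dvd_left (orderOf_dvd_of_pow_eq_one hk) (Nat.Coprime.pow_left k hn)

theorem PE.pp (h : PE q a) (hq : q.Prime) (hr : r.Prime) (hne : q ≠ r) : PP r a :=
  h.coprime_of ((Nat.coprime_primes hq hr).2 hne)

theorem PE.eq_one (h : PE q a) (h' : PP q a) : a = 1 :=
  orderOf_eq_one_iff.1 (Nat.coprime_self _ |>.1 (h.coprime h'))

theorem PE.exists_sylow (h : PE q a) : ∃ Q : Sylow q G, a ∈ Q :=
  let ⟨Q, hQ⟩ := h.zpowers.exists_le_sylow; ⟨Q, hQ (mem_zpowers a)⟩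

/-- A `q`-element that normalises a Sylow subgroup lies in it. -/
theorem PE.mem_sylow (h : PE q a) (Q : Sylow q G) (ha : a ∈ normalizer (Q : Set G)) : a ∈ Q := by
  have := h.zpowers.inf_normalizer_sylow Q
  have h1 : a ∈ Subgroup.zpowers a ⊓ (Q : Subgroup G) := this ▸ ⟨mem_zpowers a, ha⟩
  exact h1.2

theorem PE.mem_sylow' (h : PE q a) (Q : Sylow q G) (ha : ∀ b ∈ Q, Commute a b) : a ∈ Q :=
  h.mem_sylow Q (centralizer_le_normalizer _ fun b hb => (ha b hb).symm)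

/-- The `q`-part and the part prime to `q`. -/
theorem part [Finite G] (hq : q.Prime) (g : G) : ∃ u v : G, g = u * v ∧ u ∈ zpowers g ∧
    v ∈ zpowers g ∧ PE q u ∧ PP q v ∧ Commute u v ∧ cen g = cen u ⊓ cen v ∧
    (∀ w ∈ zpowers g, PP q w → w ∈ zpowers v) ∧ ∀ w ∈ zpowers g, PE q w → w ∈ zpowers u := by
  obtain ⟨e, m, hm, he⟩ := Nat.exists_eq_pow_mul_and_not_dvd (orderOf_pos g).ne' q hq.ne_one
  have hc : (q ^ e).Coprime m := Nat.Coprime.pow_left e ((Nat.Prime.coprime_iff_not_dvd hq).2 hm)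
  have hb := Nat.gcd_eq_gcd_ab (q ^ e) m
  rw [hc.gcd_eq_one] at hb
  set A := Nat.gcdA (q ^ e) m
  set B := Nat.gcdB (q ^ e) m
  have hg : g ^ ((q ^ e * m : ℕ) : ℤ) = 1 := by rw [zpow_natCast, ← he, pow_orderOf_eq_one]
  have h1 : g = g ^ ((m : ℤ) * B) * g ^ (((q ^ e : ℕ) : ℤ) * A) := by
    rw [← zpow_add, add_comm, ← hb]; simp
  have hu : PE q (g ^ ((m : ℤ) * B)) := ⟨e, by
    rw [← zpow_natCast, ← zpow_mul, show (m : ℤ) * B * ((q ^ e : ℕ) : ℤ) =
      ((q ^ e * m : ℕ) : ℤ) * B by push_cast; ring, zpow_mul, hg, one_zpow]⟩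
  have hv : PP q (g ^ (((q ^ e : ℕ) : ℤ) * A)) := by
    refine Nat.Coprime.coprime_dvd_left (orderOf_dvd_of_pow_eq_one (n := m) ?_)
      ((Nat.Prime.coprime_iff_not_dvd hq).2 hm).symm
    rw [← zpow_natCast, ← zpow_mul, show ((q ^ e : ℕ) : ℤ) * A * (m : ℤ) =
      ((q ^ e * m : ℕ) : ℤ) * A by push_cast; ring, zpow_mul, hg, one_zpow]
  generalize hu' : g ^ ((m : ℤ) * B) = u at h1 hu
  generalize hv' : g ^ (((q ^ e : ℕ) : ℤ) * A) = v at h1 hv
  have mu : u ∈ zpowers g := ⟨_, hu'⟩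
  have mv : v ∈ zpowers g := ⟨_, hv'⟩
  have hcm : Commute u v := by rw [← hu', ← hv']; exact Commute.zpow_zpow_self g _ _
  refine ⟨u, v, h1, mu, mv, hu, hv, hcm, h1 ▸ cop hcm (hu.coprime hv), ?_, ?_⟩
  · rintro _ ⟨k, rfl⟩ hw
    have e1 : g ^ k = u ^ k * v ^ k := by rw [← hcm.mul_zpow, ← h1]
    have e2 : u ^ k = g ^ k * (v ^ k)⁻¹ := by rw [e1]; simp
    have hcg : Commute (g ^ k) (v ^ k)⁻¹ := by
      rw [← hv']; exact ((Commute.refl g).zpow_zpow _ _ |>.zpow_right _).inv_right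
    have : u ^ k = 1 := (hu.of_mem (zpow_mem_zpowers u k)).eq_one
      (e2 ▸ PP.mul hcg hw (hv.of_mem (inv_mem (zpow_mem_zpowers v k))))
    change g ^ k ∈ _
    rw [e1, this, one_mul]
    exact zpow_mem_zpowers v k
  · rintro _ ⟨k, rfl⟩ hw
    have e1 : g ^ k = u ^ k * v ^ k := by rw [← hcm.mul_zpow, ← h1]
    have e2 : v ^ k = (u ^ k)⁻¹ * g ^ k := by rw [e1]; simp
    have hcg : Commute (u ^ k)⁻¹ (g ^ k) := by
      rw [← hu']; exact ((Commute.refl g).zpow_zpow _ _ |>.zpow_left _).inv_left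
    have : v ^ k = 1 := PE.eq_one
      (e2 ▸ PE.mul hcg (hu.of_mem (inv_mem (zpow_mem_zpowers u k))) hw)
      (hv.of_mem (zpow_mem_zpowers v k))
    change g ^ k ∈ _
    rw [e1, this, mul_one]
    exact zpow_mem_zpowers u k

theorem sylow_le_iff [Finite G] (hq : q.Prime) :
    ¬ q ∣ H.index ↔ ∃ Q : Sylow q G, (Q : Subgroup G) ≤ H := by
  have := Fact.mk hq
  refine ⟨fun h => ?_, fun ⟨Q, hQ⟩ h => Q.not_dvd_index (h.trans (index_dvd_of_le hQ))⟩
  obtain ⟨Q⟩ : Nonempty (Sylow q H) := inferInstance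
  have hp : IsPGroup q (Q.1.map H.subtype) := Q.isPGroup'.map _
  have hi : ¬ q ∣ (Q.1.map H.subtype).index := by
    rw [index_map_subtype, hq.dvd_mul]
    exact fun hh => hh.elim Q.not_dvd_index h
  exact ⟨hp.toSylow hi, map_subtype_le _⟩

theorem sylow_le_rel [Finite G] (hq : q.Prime) :
    ¬ q ∣ W.relIndex U ↔ ∃ Q : Sylow q U, (Q : Subgroup U).map U.subtype ≤ W := by
  rw [relIndex, sylow_le_iff hq]
  simp only [map_le_iff_le_comap]
  rfl

/-- A `q`-subgroup of `H` lies in a Sylow subgroup of `G` inside `H` if the index is prime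
to `q`. -/
theorem exists_sylow_between [Finite G] (hq : q.Prime) (hN : IsPGroup q N) (h : N ≤ H)
    (hi : ¬ q ∣ H.index) : ∃ Q : Sylow q G, N ≤ Q ∧ (Q : Subgroup G) ≤ H := by
  have := Fact.mk hq
  obtain ⟨Q, hQ⟩ := (hN.comap_subtype (K := H)).exists_le_sylow
  have hp : IsPGroup q (Q.1.map H.subtype) := Q.isPGroup'.map _
  have hi : ¬ q ∣ (Q.1.map H.subtype).index := by
    rw [index_map_subtype, hq.dvd_mul]
    exact fun hh => hh.elim Q.not_dvd_index hi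
  exact ⟨hp.toSylow hi, fun x hx => ⟨⟨x, h hx⟩, hQ hx, rfl⟩, map_subtype_le _⟩

theorem not_dvd_ix_iff [Finite G] (hq : q.Prime) :
    ¬ q ∣ ix g ↔ ∃ Q : Sylow q G, ∀ a ∈ Q, Commute g a := by
  rw [ix, sylow_le_iff hq]
  exact exists_congr fun Q => ⟨fun h a ha => mem_cen.1 (h ha), fun h a ha => mem_cen.2 (h a ha)⟩

theorem mem_Oq : a ∈ Oq q U ↔ ∀ S : Sylow q U, a ∈ (S : Subgroup U).map U.subtype := mem_iInf

theorem Oq_le_map (S : Sylow q U) : Oq q U ≤ (S : Subgroup U).map U.subtype := iInf_le _ S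

theorem Oq_le : Oq q U ≤ U :=
  let ⟨S⟩ : Nonempty (Sylow q U) := inferInstance
  (Oq_le_map S).trans (map_subtype_le _)

theorem Oq_pgroup : IsPGroup q (Oq q U) :=
  let ⟨S⟩ : Nonempty (Sylow q U) := inferInstance
  (S.isPGroup'.map _).to_le (Oq_le_map S)

theorem conj_mem_Oq (hg : g ∈ U) (ha : a ∈ Oq q U) : g * a * g⁻¹ ∈ Oq q U := by
  refine mem_Oq.2 fun S => ?_
  obtain ⟨x, hx, rfl⟩ := mem_Oq.1 ha ((⟨g, hg⟩ : U)⁻¹ • S)
  refine ⟨⟨g, hg⟩ * x * ⟨g, hg⟩⁻¹, ?_, rfl⟩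
  have h2 : x ∈ MulAut.conj (⟨g, hg⟩ : U)⁻¹ • (S : Subgroup U) := hx
  rw [mem_pointwise_smul_iff_inv_smul_mem] at h2
  change _ ∈ (S : Subgroup U)
  simpa using h2

theorem le_normalizer_Oq : U ≤ normalizer (Oq q U : Set G) := fun g hg =>
  mem_normalizer_iff.2 fun a => ⟨conj_mem_Oq hg, fun h => by
    simpa [mul_assoc] using conj_mem_Oq (inv_mem hg) h⟩

theorem Oq_top_normal : (Oq q (⊤ : Subgroup G)).Normal :=
  ⟨fun _ ha g => conj_mem_Oq (mem_top g) ha⟩

theorem le_Oq (hN : IsPGroup q N) (h : N ≤ U) (hn : U ≤ normalizer (N : Set G)) :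
    N ≤ Oq q U := by
  refine le_iInf fun S x hx => ⟨⟨x, h hx⟩, ?_, rfl⟩
  have : (N.subgroupOf U).Normal := (normal_subgroupOf_iff_le_normalizer h).2 hn
  exact IsPGroup.le_sylow_of_normal (N := N.subgroupOf U) (hN.comap_subtype (K := U)) S hx

theorem le_Oq_top (hN : IsPGroup q N) [N.Normal] : N ≤ Oq q (⊤ : Subgroup G) :=
  le_Oq hN le_top (by rw [normalizer_eq_top])

theorem Oq_top_le (Q : Sylow q G) : Oq q (⊤ : Subgroup G) ≤ Q :=
  have := Oq_top_normal (G := G) (q := q)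
  IsPGroup.le_sylow_of_normal Oq_pgroup Q

theorem Oq_anti [Finite G] (hq : q.Prime) (h : W ≤ U) (hi : ¬ q ∣ W.relIndex U) :
    Oq q U ≤ Oq q W := by
  obtain ⟨S, hS⟩ := (sylow_le_rel hq).1 hi
  exact le_Oq Oq_pgroup ((Oq_le_map S).trans hS) (h.trans le_normalizer_Oq)

/-- A central `q`-element of `U` lies in `Oq q U`. -/
theorem mem_Oq_of_central (ha : a ∈ U) (hp : PE q a) (hc : ∀ u ∈ U, Commute a u) :
    a ∈ Oq q U := by
  refine le_Oq hp.zpowers (zpowers_le.2 ha) (fun u hu => ?_) (mem_zpowers a)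
  refine centralizer_le_normalizer _ ?_
  rintro _ ⟨k, rfl⟩
  exact (hc u hu).zpow_left k

theorem Oq_top_eq (Q : Sylow q G) (h : (Q : Subgroup G).Normal) :
    Oq q (⊤ : Subgroup G) = Q := le_antisymm (Oq_top_le Q) (le_Oq_top Q.isPGroup')

/-- An element of order prime to `q` that is trivial on `C` and modulo `C` is trivial. -/
theorem stab {C : Subgroup G} (hC : IsPGroup q C) (hg : PP q g) (h1 : ∀ c ∈ C, Commute g c)
    {u : G} (h2 : g * u * g⁻¹ * u⁻¹ ∈ C) : Commute g u := by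
  set c := g * u * g⁻¹ * u⁻¹ with hc
  have e : ∀ j : ℕ, g ^ j * u = c ^ j * u * g ^ j := by
    intro j
    induction j with
    | zero => simp
    | succ j ih =>
      have h3 : g * c ^ j = c ^ j * g := ((h1 c h2).pow_right j).eq
      have h4 : g * u = c * u * g := by rw [hc]; group
      calc g ^ (j + 1) * u = g * (g ^ j * u) := by rw [pow_succ', mul_assoc]
        _ = g * c ^ j * u * g ^ j := by rw [ih]; simp only [mul_assoc]
        _ = c ^ j * (g * u) * g ^ j := by rw [h3]; simp only [mul_assoc]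
        _ = c ^ (j + 1) * u * g ^ (j + 1) := by
          rw [h4, pow_succ c, pow_succ' g]; simp only [mul_assoc]
  have e1 := e (orderOf g)
  rw [pow_orderOf_eq_one, one_mul, mul_one, eq_comm, mul_eq_right] at e1
  have e2 : c = 1 := (pe_of_mem hC h2).eq_one
    (Nat.Coprime.coprime_dvd_left (orderOf_dvd_of_pow_eq_one e1) hg)
  rw [hc, mul_inv_eq_one, mul_inv_eq_iff_eq_mul] at e2
  exact e2

/-- A small subfamily with the same intersection. -/
theorem min_sub [Finite G] {ι : Type} (s : Finset ι) (f : ι → Subgroup G) :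
    ∃ t ⊆ s, ⨅ i ∈ t, f i = ⨅ i ∈ s, f i ∧ 2 ^ t.card ≤ (⨅ i ∈ s, f i).index := by
  classical
  induction s using Finset.induction_on with
  | empty => exact ⟨∅, subset_rfl, rfl, by simp⟩
  | insert i s hi ih =>
    obtain ⟨t, ht, e, h⟩ := ih
    rw [Finset.iInf_insert]
    by_cases hle : ⨅ i ∈ s, f i ≤ f i
    · rw [inf_eq_right.2 hle]
      exact ⟨t, ht.trans (Finset.subset_insert _ _), e, h⟩
    · refine ⟨insert i t, Finset.insert_subset_insert _ ht, by rw [Finset.iInf_insert, e], ?_⟩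
      rw [Finset.card_insert_of_notMem fun hh => hi (ht hh), pow_succ,
        ← relIndex_mul_index (inf_le_right : f i ⊓ ⨅ i ∈ s, f i ≤ _), mul_comm]
      refine Nat.mul_le_mul ?_ h
      have h0 : (f i ⊓ ⨅ i ∈ s, f i).relIndex (⨅ i ∈ s, f i) ≠ 0 := index_ne_zero_of_finite
      have h1 : (f i ⊓ ⨅ i ∈ s, f i).relIndex (⨅ i ∈ s, f i) ≠ 1 := fun hh =>
        hle ((relIndex_eq_one.1 hh).trans inf_le_left)
      omega

theorem two_pow_card_le {B : Finset ℕ} {n : ℕ} (h : ∀ q ∈ B, q.Prime ∧ q ∣ n) (hn : 0 < n) :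
    2 ^ B.card ≤ n :=
  (Finset.pow_card_le_prod B (fun q => q) 2 fun q hq => (h q hq).1.two_le).trans
    (Nat.le_of_dvd hn (Finset.prod_primes_dvd n (fun q hq => (h q hq).1.prime)
      fun q hq => (h q hq).2))

theorem card_primes_lt {B : Finset ℕ} {n μ : ℕ} (h : ∀ q ∈ B, q.Prime ∧ q ∣ n) (hn : 0 < n)
    (hμ : n < 2 ^ μ) : B.card < μ :=
  (Nat.pow_lt_pow_iff_right one_lt_two).1 ((two_pow_card_le h hn).trans_lt hμ)

end Pool.Agent.MP_62c071_al.H57
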