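import Pool.Agent.MP_62c071_al.H57.Spec
import Pool.Agent.MP_807c24_nt.H13.Pnt
import Pool.Agent.MP_807c24_nt.H13.Newman

/-! Row PI: primes between `n / 2 + 1` and `p`. -/

set_option autoImplicit false

namespace Pool.Agent.MP_62c071_al.H57

open Filter Topology
open scoped Nat

namespace PI

/-- the primes in the upper half -/
def U (n : ℕ) : Finset ℕ := (Finset.range (n + 1)).filter fun q => q.Prime ∧ n + 1 < 2 * q

theorem theta_le (n : ℕ) :
    Chebyshev.theta n ≤ Chebyshev.theta (((n : ℝ) + 1) / 2) + (U n).card * Real.log n := by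
  classical
  rw [Chebyshev.theta_eq_sum_Icc, Chebyshev.theta_eq_sum_Icc, Nat.floor_natCast]
  have h0 : ∀ q : ℕ, 0 ≤ Real.log q := fun q => Real.log_natCast_nonneg q
  have hs : ((Finset.Icc 0 n).filter Nat.Prime) ⊆
      ((Finset.Icc 0 ⌊((n : ℝ) + 1) / 2⌋₊).filter Nat.Prime) ∪ U n := by
    intro q hq
    simp only [Finset.mem_filter, Finset.mem_Icc, Finset.mem_union, U, Finset.mem_range] at hq ⊢
    by_cases h : n + 1 < 2 * q
    · exact Or.inr ⟨by omega, hq.2, h⟩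
    · refine Or.inl ⟨⟨Nat.zero_le _, Nat.le_floor ?_⟩, hq.2⟩
      have : ((2 * q : ℕ) : ℝ) ≤ ((n + 1 : ℕ) : ℝ) := by exact_mod_cast not_lt.1 h
      push_cast at this
      linarith
  refine (Finset.sum_le_sum_of_subset_of_nonneg hs fun q _ _ => h0 q).trans ?_
  have hu := Finset.sum_union_inter (s₁ := (Finset.Icc 0 ⌊((n : ℝ) + 1) / 2⌋₊).filter Nat.Prime)
    (s₂ := U n) (f := fun q : ℕ => Real.log q)
  have hi : 0 ≤ ∑ q ∈ (Finset.Icc 0 ⌊((n : ℝ) + 1) / 2⌋₊).filter Nat.Prime ∩ U n, Real.log q :=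
    Finset.sum_nonneg fun q _ => h0 q
  have hU : ∑ q ∈ U n, Real.log q ≤ (U n).card * Real.log n := by
    rw [← nsmul_eq_mul]
    refine Finset.sum_le_card_nsmul _ _ _ fun q hq => ?_
    simp only [U, Finset.mem_filter, Finset.mem_range] at hq
    exact Real.log_le_log (by exact_mod_cast hq.2.1.pos) (by exact_mod_cast Nat.lt_succ_iff.1 hq.1)
  linarith

theorem count : ∀ᶠ n : ℕ in atTop, 3 * n ≤ 10 * (U n).card * (Nat.log 2 n + 1) := by
  have P : Tendsto (fun x : ℝ => Chebyshev.theta x / x) atTop (𝓝 1) :=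
    Pool.Agent.MP_807c24_nt.H13.pnt_of_newman Pool.Agent.MP_807c24_nt.H13.newman
  have t1 : Tendsto (fun n : ℕ => (n : ℝ)) atTop atTop := tendsto_natCast_atTop_atTop
  have t2 : Tendsto (fun n : ℕ => ((n : ℝ) + 1) / 2) atTop atTop :=
    (tendsto_atTop_add_const_right _ 1 t1).atTop_div_const two_pos
  filter_upwards [(P.comp t1).eventually (lt_mem_nhds (show (9 / 10 : ℝ) < 1 by norm_num)),
    (P.comp t2).eventually (gt_mem_nhds (show (1 : ℝ) < 11 / 10 by norm_num)),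
    eventually_ge_atTop 20] with n h1 h2 h3
  have hn : (20 : ℝ) ≤ n := by exact_mod_cast h3
  simp only [Function.comp] at h1 h2
  rw [lt_div_iff₀ (by linarith)] at h1
  rw [div_lt_iff₀ (by linarith)] at h2
  have h4 := theta_le n
  have h5 : Real.log n ≤ (Nat.log 2 n : ℝ) + 1 := by
    have : (n : ℝ) ≤ 2 ^ (Nat.log 2 n + 1) := by
      exact_mod_cast (Nat.lt_pow_succ_log_self one_lt_two n).le
    refine (Real.log_le_log (by linarith) this).trans ?_
    rw [Real.log_pow]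
    have := Real.log_two_lt_d9
    push_cast
    nlinarith [Nat.cast_nonneg (α := ℝ) (Nat.log 2 n)]
  have h6 : ((U n).card : ℝ) * Real.log n ≤ (U n).card * ((Nat.log 2 n : ℝ) + 1) :=
    mul_le_mul_of_nonneg_left h5 (Nat.cast_nonneg _)
  have : (3 : ℝ) * n ≤ 10 * (U n).card * ((Nat.log 2 n : ℝ) + 1) := by linarith
  exact_mod_cast this

theorem pow8 {L : ℕ} (h : 64 ≤ L) : L ^ 8 ≤ 2 ^ L := by
  have h1 : L / 16 < 2 ^ (L / 16) := Nat.lt_two_pow_self
  have h2 : L ≤ 2 ^ (L / 16 + 4) := by rw [pow_add]; omega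
  calc L ^ 8 ≤ (2 ^ (L / 16 + 4)) ^ 8 := Nat.pow_le_pow_left h2 8
    _ = 2 ^ ((L / 16 + 4) * 8) := by rw [← pow_mul]
    _ ≤ 2 ^ L := Nat.pow_le_pow_right two_pos (by omega)

theorem fac (k j : ℕ) : k ! * 2 ^ j ≤ (k + j + 1)! := by
  induction j with
  | zero => simpa using Nat.factorial_le (Nat.le_succ k)
  | succ j ih =>
    rw [show k + (j + 1) + 1 = (k + j + 1) + 1 by ring, Nat.factorial_succ (k + j + 1), pow_succ]
    nlinarith [Nat.factorial_pos (k + j + 1)]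

theorem card_le (p k : ℕ) (E : Finset ℕ) :
    (U (p + k)).card ≤ (Pi0 (p + k) p \ E).card + E.card + (k + 1) := by
  classical
  have hs : U (p + k) ⊆ (Pi0 (p + k) p \ E) ∪ E ∪ Finset.Icc p (p + k) := by
    intro q hq
    simp only [U, Pi0, Finset.mem_filter, Finset.mem_range, Finset.mem_union, Finset.mem_sdiff,
      Finset.mem_Icc] at hq ⊢
    by_cases h : q < p
    · by_cases h' : q ∈ E
      · exact Or.inl (Or.inr h')
      · exact Or.inl (Or.inl ⟨⟨h, hq.2⟩, h'⟩)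
    · exact Or.inr ⟨by omega, by omega⟩
  refine (Finset.card_le_card hs).trans ((Finset.card_union_le _ _).trans ?_)
  have := Finset.card_union_le (Pi0 (p + k) p \ E) E
  rw [Nat.card_Icc]
  omega

end PI

theorem rowPI : RowPI := by
  filter_upwards [PI.count, eventually_ge_atTop (2 ^ 100)] with n hc hn p k E hp hk hE
  have hL : 100 ≤ Nat.log 2 n := Nat.le_log_of_pow_le one_lt_two hn
  have hup : n < 2 ^ (Nat.log 2 n + 1) := Nat.lt_pow_succ_log_self one_lt_two n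
  have hlo : 2 ^ Nat.log 2 n ≤ n := Nat.pow_log_le_self 2 (by rintro rfl; simp at hn)
  have h8 := (PI.pow8 (L := Nat.log 2 n) (by omega)).trans hlo
  have hcard := PI.card_le p k E
  rw [← hp] at hcard
  generalize Nat.log 2 n = L at *
  have l2 : 100 * L ≤ L ^ 2 := by nlinarith
  have l4 : 100 * (L + 1) * L ^ 2 ≤ 2 * L ^ 4 := by
    rw [show L ^ 4 = L ^ 2 * L ^ 2 by ring, ← mul_assoc]
    exact Nat.mul_le_mul_right _ (by omega)
  have l8 : 100 * L ^ 2 ≤ L ^ 8 := by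
    rw [show L ^ 8 = L ^ 6 * L ^ 2 by ring]
    exact Nat.mul_le_mul_right _ (hL.trans (Nat.le_self_pow (by norm_num) L))
  have k1 : 50 * (k * (L + 1) * L ^ 2) ≤ n := by nlinarith [Nat.mul_le_mul_left k l4]
  have k2 : k * (L + 1) ≤ k * (L + 1) * L ^ 2 := Nat.le_mul_of_pos_right _ (by omega)
  have k3 : k ≤ k * (L + 1) := Nat.le_mul_of_pos_right _ (by omega)
  have hpow : n ^ k ≤ 2 ^ (k * (L + 1)) := by
    rw [mul_comm, pow_mul]; exact Nat.pow_le_pow_left hup.le k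
  refine ⟨by omega, by omega, ?_, k * (L + 1) + 1, n / L ^ 2 + 1, ?_, ?_, ?_⟩
  · obtain ⟨j, hj⟩ : ∃ j, p = k + j + 1 + 1 := ⟨p - k - 2, by omega⟩
    have h1 : n ^ (2 * k) < 2 ^ j := by
      calc n ^ (2 * k) = (n ^ k) ^ 2 := by ring
        _ ≤ (2 ^ (k * (L + 1))) ^ 2 := Nat.pow_le_pow_left hpow 2
        _ = 2 ^ (k * (L + 1) * 2) := by rw [← pow_mul]
        _ < 2 ^ j := Nat.pow_lt_pow_right one_lt_two (by omega)
    unfold Dich
    rw [hj, Nat.factorial_succ (k + j + 1), mul_assoc]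
    refine Nat.mul_lt_mul_of_pos_left (lt_of_lt_of_le ?_ (PI.fac k j)) (by omega)
    exact Nat.mul_lt_mul_of_pos_left h1 (Nat.factorial_pos k)
  · exact hpow.trans_lt (Nat.pow_lt_pow_right one_lt_two (by omega))
  · have h1 : n ≤ (n / L ^ 2 + 1) * L ^ 2 := by
      have := Nat.lt_div_mul_add (a := n) (b := L ^ 2) (by omega)
      nlinarith
    have h2 : n ^ 3 * L ^ 8 ≤ (n / L ^ 2 + 1) ^ 4 * L ^ 8 := by
      calc n ^ 3 * L ^ 8 ≤ n ^ 3 * n := Nat.mul_le_mul_left _ h8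
        _ = n ^ 4 := by ring
        _ ≤ ((n / L ^ 2 + 1) * L ^ 2) ^ 4 := Nat.pow_le_pow_left h1 4
        _ = _ := by ring
    exact Nat.le_of_mul_le_mul_right h2 (by omega)
  · have h1 : n / L ^ 2 * L ^ 2 ≤ n := Nat.div_mul_le_self _ _
    have k4 : k * L ^ 2 ≤ k * (L + 1) * L ^ 2 := Nat.mul_le_mul_right _ k3
    have h2 : (7 * (k * (L + 1) + 1) + (n / L ^ 2 + 1) + 4 + E.card + (k + 1)) * L ^ 2 ≤ 4 * n := by
      have : (7 * (k * (L + 1) + 1) + (n / L ^ 2 + 1) + 4 + E.card + (k + 1)) * L ^ 2 =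
          7 * (k * (L + 1) * L ^ 2) + n / L ^ 2 * L ^ 2 + E.card * L ^ 2 + k * L ^ 2 +
            13 * L ^ 2 := by ring
      omega
    have h3 : 4 * n ≤ (PI.U n).card * L ^ 2 := by
      have : 14 * (L + 1) ≤ L ^ 2 := by omega
      nlinarith [Nat.mul_le_mul_left (PI.U n).card this]
    have := Nat.le_of_mul_le_mul_right (h2.trans h3) (by omega)
    omega

end Pool.Agent.MP_62c071_al.H57
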