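import Pool.Agent.MP_62c071_al.H57.Kit

/-! Rows SM and HX: from the centraliser orders to the hypotheses of Lemma X. -/

set_option autoImplicit false

namespace Pool.Agent.MP_62c071_al.H57

open Subgroup
open scoped Nat

namespace SMx

variable {G : Type} [Group G] [Finite G] {n ζ : ℕ} {c : G → ℕ}

theorem one_eq (h : CH n ζ c) (g : G) : c 1 = ix g * c g := by
  have h1 := h.card 1
  rw [cen_eq_top.2 (one_mem _), card_top, ← (cen g).index_mul_card, h.card g] at h1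
  refine Nat.eq_of_mul_eq_mul_left h.pos ?_
  rw [← h1, ix]
  ring

theorem not_sq {q : ℕ} (hq : q.Prime) (h : n < 2 * q) : ¬ q ^ 2 ∣ n ! := by
  intro hd
  have := Fact.mk hq
  have h1 := (padicValNat_dvd_iff_le (Nat.factorial_ne_zero n)).1 hd
  have h2 := sub_one_mul_padicValNat_factorial (p := q) n
  have h3 : (q - 1) * 2 ≤ (q - 1) * padicValNat q n ! := Nat.mul_le_mul_left _ h1
  have h4 := hq.two_le
  rcases Nat.lt_or_ge n q with h5 | h5
  · omega
  · rw [Nat.digits_def' hq.one_lt (by omega)] at h2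
    have h6 : n / q = 1 := by
      rw [Nat.div_eq_iff (by omega)]
      omega
    have h7 := Nat.div_add_mod n q
    rw [h6] at h2 h7
    rw [Nat.digits_of_lt q 1 one_ne_zero hq.one_lt] at h2
    simp only [List.sum_cons, List.sum_nil] at h2
    omega

theorem sq (hs : RowSH) (h : CH n ζ c) {q : ℕ} (hq : q.Prime) (hn : n < 2 * q) :
    ¬ q ^ 2 ∣ c 1 := fun hd => not_sq hq hn (hd.trans (hs.2.2 n _ (h.mem 1)).2.1)

theorem dvd_iff (hs : RowSH) (h : CH n ζ c) {q : ℕ} (hq : q.Prime) (hn : n < 2 * q)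
    (h1 : q ∣ c 1) (g : G) : q ∣ c g ↔ ¬ q ∣ ix g := by
  refine ⟨fun h2 h3 => sq hs h hq hn ?_, fun h2 => ?_⟩
  · rw [one_eq h g, pow_two]
    exact Nat.mul_dvd_mul h3 h2
  · rw [one_eq h g] at h1
    exact (hq.dvd_mul.1 h1).resolve_left h2

theorem big_dvd {p r x : ℕ} (h : Big p x) (hr : r.Prime) (h2 : 2 < r) (hp : r ≤ p) : r ∣ x :=
  (hr.dvd_mul.1 ((hr.dvd_factorial.2 hp).trans h)).resolve_left fun hh =>
    absurd (Nat.le_of_dvd two_pos hh) (by omega)

/-- Two large primes that divide a centraliser order. -/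
theorem big_two (hs : RowSH) (h2 : RowA2) {x q r : ℕ} (hx : x ∈ Cz n) (hq : q.Prime)
    (hr : r.Prime) (hqr : q < r) (hn : n < 2 * q) (hrn : r ≤ n) (d1 : q ∣ x) (d2 : r ∣ x) :
    Big r x := by
  obtain ⟨k, rfl⟩ := Nat.exists_eq_add_of_le hrn
  have := hq.two_le
  refine ((h2 r k hr (by omega) (by omega)).1 x hx d2).resolve_right ?_
  rintro ⟨κ, hκ, rfl⟩
  rcases hq.dvd_mul.1 d1 with h | h
  · have := (Nat.prime_dvd_prime_iff_eq hq hr).1 h
    omega
  · have := hq.dvd_factorial.1 (h.trans (hs.2.2 k κ hκ).2.1)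
    omega

end SMx

open SMx in
theorem rowSM (hs : RowSH) (h2 : RowA2) : RowSM := by
  intro G _ _ p k ζ c hp hk hkp h hb hd
  have hb1 : p ∣ c 1 := big_dvd hb hp (by omega) le_rfl
  refine ⟨one_eq h, dvd_iff hs h hp (by omega) hb1, fun g hg => ?_, fun g hg hi => ?_⟩
  · have h1 := Nat.le_of_dvd (Nat.factorial_pos _) ((hs.2.2 _ _ (h.mem 1)).2.2.1 (by omega))
    have h3 := Nat.le_of_dvd (by have := (hs.2.2 _ _ (h.mem g)).1; omega) hg
    have h4 : (p + k)! ≤ p ! * (p + k) ^ k := by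
      rw [← Nat.factorial_mul_ascFactorial]
      exact Nat.mul_le_mul_left _ (Nat.ascFactorial_le_pow_add p k)
    refine Nat.le_of_mul_le_mul_left ?_ (Nat.factorial_pos p)
    calc p ! * ix g ≤ 2 * c g * ix g := Nat.mul_le_mul_right _ h3
      _ = 2 * c 1 := by rw [one_eq h g]; ring
      _ ≤ _ := h1.trans h4
  · refine ((h2 p k hp (by omega) hkp).1 _ (h.mem g) hg).resolve_right ?_
    rintro ⟨κ, hκ, e⟩
    have h1 := Nat.le_of_dvd (Nat.factorial_pos _) ((hs.2.2 _ _ hκ).2.2.1 hk)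
    have h3 := Nat.le_of_dvd (by have := (hs.2.2 _ _ (h.mem 1)).1; omega) hb
    refine absurd hd (not_lt.2 ?_)
    calc p ! ≤ 2 * c 1 := h3
      _ = p * (2 * κ) * ix g := by rw [one_eq h g, e]; ring
      _ ≤ _ := Nat.mul_le_mul (Nat.mul_le_mul_left _ h1) hi

open SMx in
theorem rowHX (hs : RowSH) (h2 : RowA2) : RowHX := by
  intro G _ _ p k ζ c Pi hp hk hkp h hd hPi hc hkey
  have pr : ∀ q ∈ insert p Pi, q.Prime ∧ p + k + 1 < 2 * q ∧ q ≤ p := by
    intro q hq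
    rcases Finset.mem_insert.1 hq with rfl | hq
    · exact ⟨hp, by omega, le_rfl⟩
    · exact ⟨(hPi q hq).1, (hPi q hq).2.1, (hPi q hq).2.2.le⟩
  have key : ∀ q ∈ insert p Pi, ∃ y : G, q ∣ c y ∧ (∀ r ∈ insert p Pi, r ≠ q → ¬ r ∣ c y) ∧
      ∀ g : G, cen g ≤ cen y → cen y ≤ cen g := by
    intro q hq
    obtain ⟨κ, g₀, hκ, hr, hg₀⟩ := hkey q hq
    obtain ⟨y, hy, hmin⟩ := Set.exists_min_image {g | c g ∣ q * κ} c (Set.toFinite _) ⟨g₀, hg₀⟩
    refine ⟨y, ?_, fun r hr' hne hh => ?_, fun g hg => ?_⟩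
    · by_contra hn
      exact hκ _ (h.mem y)
        (((pr q hq).1.coprime_iff_not_dvd.2 hn).symm.dvd_of_dvd_mul_left hy)
    · rcases (pr r hr').1.dvd_mul.1 (hh.trans hy) with h1 | h1
      · exact hne ((Nat.prime_dvd_prime_iff_eq (pr r hr').1 (pr q hq).1).1 h1)
      · exact hr r hr' h1
    · have h1 := card_dvd_of_le hg
      rw [h.card, h.card] at h1
      have h3 := hmin g ((Nat.dvd_of_mul_dvd_mul_left h.pos h1).trans hy)
      refine (eq_of_le_of_card_ge hg ?_).ge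
      rw [h.card, h.card]
      exact Nat.mul_le_mul_left _ h3
  have d1 : ∀ q ∈ insert p Pi, q ∣ c 1 := fun q hq =>
    let ⟨y, hy, _⟩ := key q hq
    hy.trans ⟨ix y, by rw [one_eq h y, mul_comm]⟩
  have dv : ∀ q ∈ insert p Pi, ∀ g, q ∣ c g ↔ ¬ q ∣ ix g := fun q hq =>
    dvd_iff hs h (pr q hq).1 (by have := (pr q hq).2.1; omega) (d1 q hq)
  have two : ∀ g, ∀ q ∈ Pi, ∀ r ∈ insert p Pi, q < r → q ∣ c g → r ∣ c g → Big r (c g) :=
    fun g q hq r hr hlt => big_two hs h2 (h.mem g) (hPi q hq).1 (pr r hr).1 hlt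
      (by have := (hPi q hq).2.1; omega) (by have := (pr r hr).2.2; omega)
  have mp : p ∈ insert p Pi := Finset.mem_insert_self _ _
  have mq : ∀ q ∈ Pi, q ∈ insert p Pi := fun q => Finset.mem_insert_of_mem
  obtain ⟨q₀, hq₀⟩ : Pi.Nonempty := Finset.card_pos.1 (by omega)
  have hb : Big p (c 1) := two 1 q₀ hq₀ p mp (hPi _ hq₀).2.2 (d1 _ (mq _ hq₀)) (d1 p mp)
  obtain ⟨-, -, s3, s4⟩ := rowSM hs h2 G p k ζ c hp hk (by omega) h hb hd
  have nb : ∀ g r, Big r (c g) → ∀ q ∈ Pi, q ≤ r → ¬ q ∣ ix g := fun g r hg q hq hle =>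
    (dv q (mq q hq) g).1 (big_dvd hg (hPi q hq).1 (by have := (hPi q hq).2.1; omega) hle)
  refine ⟨hb, fun q hq => ⟨(pr q hq).1, (pr q hq).2.1, by have := (pr q hq).2.2; omega⟩,
    fun q hq => (hPi q hq).2.2, hc, fun g q hq hh => ?_, fun g q hq r hr hlt a b => ?_,
    fun q hq => ?_, fun g q hq a b => ?_, fun g a b => ?_⟩
  · exact sq hs h (pr q hq).1 (by have := (pr q hq).2.1; omega)
      (hh.trans ⟨c g, one_eq h g⟩)
  · exact nb g r (two g q hq r hr hlt ((dv q (mq q hq) g).2 a) ((dv r hr g).2 b))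
  · obtain ⟨y, a, b, e⟩ := key q hq
    refine ⟨y, (dv q hq y).1 a, fun r hr hne => ?_, e⟩
    by_contra hn
    exact b r hr hne ((dv r hr y).2 hn)
  · exact s3 g (two g q hq p mp (hPi q hq).2.2 ((dv q (mq q hq) g).2 b) ((dv p mp g).2 a))
  · have := s4 g ((dv p mp g).2 a) (by rwa [← pow_mul, mul_comm] at b)
    exact ⟨s3 g this, fun q hq => nb g p this q hq (hPi q hq).2.2.le⟩

end Pool.Agent.MP_62c071_al.H57
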