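import Pool.Agent.MP_62c071_al.H57.Spec

/-! One step of the chain, and the values needed one level higher. -/

set_option autoImplicit false

namespace Pool.Agent.MP_62c071_al.H57

open Subgroup Filter
open scoped Nat

theorem rowSTEP (hPI : RowPI) (hN : RowNUM) (hHX : RowHX) (hLX : RowLX) (hD : RowDOWN)
    (hS : RowSM) (h2 : RowSYL2) (hU2 : RowUP2) (hU3 : RowUP3) (hZ : RowZSC) (hA : RowK5A)
    (hB : RowK5B) (hC : RowK5C) (hKD : RowK5D) (hE : RowK5E) : RowSTEP := by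
  filter_upwards [hPI, hN, eventually_ge_atTop 100] with n hpi hnum h100
  intro p k E S hn hp hk hL hEc hlev G _ _ ζ c hch hW hkey
  obtain ⟨h600, hk3, hdich, μ, γ, hμ, hγ, hcard⟩ := hpi p k E hn hL hEc
  have hk5 : 5 ≤ k := by
    rcases hk with h | h
    · omega
    · by_contra hlt
      have : k ^ 2 ≤ 4 ^ 2 := Nat.pow_le_pow_left (by omega) 2
      omega
  subst hn
  have hPi : ∀ q ∈ Pi0 (p + k) p \ E, q.Prime ∧ p + k + 1 < 2 * q ∧ q < p := by
    intro q hq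
    have := (Finset.mem_sdiff.1 hq).1
    simp only [Pi0, Finset.mem_filter, Finset.mem_range] at this
    exact ⟨this.2.1, this.2.2, this.1⟩
  obtain ⟨hbig, hX⟩ := hHX G p k ζ c _ hp (by omega) (by omega) hch hdich hPi (by omega) hkey
  obtain ⟨⟨x, hxc, hxi⟩, q, hq, huse⟩ := hLX G _ p _ _ μ γ hX hμ hγ hcard
  obtain ⟨ψ, hcfg⟩ := hD G p k ζ c x S hp hk5 hk3 hch hbig hdich hxc hxi hlev hW
  by_cases h5 : k = 5
  · subst h5
    have hT := hA G p ζ c x ψ hcfg h600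
    obtain ⟨hc0, hβ⟩ := hB G p ζ c x ψ hcfg h600 hT
    obtain ⟨hq1, hq2, hq3⟩ := hPi q hq
    obtain ⟨h4, hu⟩ := hC G p ζ q c x ψ hcfg h600 hT hc0 hq1 (by omega) hq3 huse
    have hge := hKD G p ζ c x ψ hcfg h600 h4 hu
    exact hE G p ζ c x ψ hcfg h600 hT hc0 (by omega)
  · have hk2 : p + k ≤ k ^ 2 := by
      rcases hk with h | h
      · exact absurd h h5
      · exact h
    obtain ⟨h6, J, e, l, d, S', R, hJ4, hJ3, hJ, hZP⟩ := hnum p k rfl hk2 hL
    have hb := h2 G p k ζ c x ψ hcfg h6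
    have hsm := (hS G p k ζ c hp (by omega) (by omega) hch hbig hdich).2.2.1
    rcases hU2 G p k ζ c x ψ J hcfg (fun s => hsm _ (hb s)) hJ4 hJ3 hJ with hz | ⟨j, hj4, hjk, hj⟩
    · exact absurd hz (hZ G p k ζ c x ψ J e l d S' R hcfg hb (by omega) hZP)
    · exact hU3 G p k ζ c x ψ j hcfg hj4 hjk hj

namespace LEV

theorem od_le (m : ℕ) : od m ≤ m := by unfold od; omega

theorem od_pos {m : ℕ} (h : 1 ≤ m) : 0 < od m := by unfold od; omega

theorem safe_small (h : RowSH) {n κ : ℕ} (h0 : 0 < κ) (hκ : 2 * κ + 1 < n) : Safe n κ := by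
  intro c hc hd
  have h1 := (h.2.2 n c hc).2.2.2
  have h2 := Nat.le_of_dvd h0 hd
  omega

theorem dvd_of_safe {n p κ c : ℕ} (hp : p.Prime) (hs : Safe n κ) (hc : c ∈ Cz n)
    (hd : c ∣ p * κ) : p ∣ c := by
  by_contra hn
  exact hs c hc (((Nat.Prime.coprime_iff_not_dvd hp).2 hn).symm.dvd_of_dvd_mul_left hd)

theorem mem_Pi0 {n p q : ℕ} {E : Finset ℕ} (hq : q ∈ Pi0 n p \ E) :
    q.Prime ∧ n + 1 < 2 * q ∧ q < p := by
  have := (Finset.mem_sdiff.1 hq).1
  simp only [Pi0, Finset.mem_filter, Finset.mem_range] at this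
  exact ⟨this.2.1, this.2.2, this.1⟩

end LEV

open LEV in
theorem rowLEV (h : RowSH) (h2 : RowA2) (h3 : RowA3) (hPI : RowPI) (hS : RowSTEP) : RowLEV := by
  filter_upwards [hPI, hS, eventually_ge_atTop 100] with n hpi hstep h100
  intro p k hn hp hk hL
  obtain ⟨h600, hk3, -, -⟩ := hpi p k ∅ hn hL (by simp)
  have hk1 : 1 ≤ k := by
    rcases hk with h | h
    · omega
    · by_contra hlt
      have : k = 0 := by omega
      subst this
      simp at h
      omega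
  have hbig : ∀ (E : Finset ℕ), ∀ r ∈ insert p (Pi0 n p \ E),
      r.Prime ∧ n + 1 < 2 * r ∧ r ≤ p := by
    intro E r hr
    rcases Finset.mem_insert.1 hr with rfl | hr
    · exact ⟨hp, by omega, le_rfl⟩
    · obtain ⟨a, b, c⟩ := mem_Pi0 hr
      exact ⟨a, b, c.le⟩
  have hmem : ∀ q, q.Prime → n + 1 < 2 * q → q ≤ p → q * od (n - q) ∈ Cz n := by
    intro q hq h1 hqp
    have := (h2 q (n - q) hq (by omega) (by omega)).2 _ (h3.1 (n - q) (by omega))
    rwa [show q + (n - q) = n by omega] at this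
  have hkey : ∀ (E : Finset ℕ) (G : Type) (c : G → ℕ) (q : ℕ), n + 1 < 2 * q → q ≤ p →
      (∃ g, c g ∣ q * od (n - q)) → Key n (insert p (Pi0 n p \ E)) c q := by
    intro E G c q h1 hqp ⟨g, hg⟩
    have hpos : 0 < od (n - q) := od_pos (by omega)
    have hle := od_le (n - q)
    refine ⟨od (n - q), g, safe_small h hpos (by omega), fun r hr hd => ?_, hg⟩
    have := (hbig E r hr).2.1
    have := Nat.le_of_dvd hpos hd
    omega
  refine ⟨fun E S hE hne hsub hsafe hlev => ⟨?_, ?_⟩, ?_⟩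
  · intro G _ _ ζ c hch hW
    refine hstep p k E S hn hp hk hL hE hlev G ζ c hch (fun κ hκ => ?_) (fun q hq => ?_)
    · obtain ⟨g, hg⟩ := hW (p * κ) (Or.inl ⟨κ, hκ, rfl⟩)
      exact ⟨g, dvd_of_safe hp (hsafe κ hκ) (hch.mem g) hg, hg⟩
    · rcases Finset.mem_insert.1 hq with rfl | hq'
      · obtain ⟨κ, hκ⟩ := hne
        obtain ⟨g, hg⟩ := hW (q * κ) (Or.inl ⟨κ, hκ, rfl⟩)
        refine ⟨κ, g, hsafe κ hκ, fun r hr hd => ?_, hg⟩
        obtain ⟨hr1, hr2, -⟩ := hbig E r hr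
        have := (Nat.Prime.dvd_factorial hr1).1 (hd.trans (h.2.2 k κ (hsub hκ)).2.1)
        omega
      · obtain ⟨-, b, c'⟩ := mem_Pi0 hq'
        exact hkey E G c q b c'.le (hW _ (Or.inr ⟨q, hq', rfl⟩))
  · rintro κ (⟨κ', hκ', rfl⟩ | ⟨q, hq, rfl⟩)
    · rw [hn]
      exact (h2 p k hp (by omega) (by omega)).2 _ (hsub hκ')
    · obtain ⟨a, b, c'⟩ := mem_Pi0 hq
      exact hmem q a b c'.le
  · intro hlev G _ _ ζ c hch hon
    refine hstep p k ∅ (Cz k) hn hp hk hL (by simp) hlev G ζ c hch (fun κ hκ => ?_)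
      (fun q hq => ?_)
    · obtain ⟨g, hg⟩ := hon (p * κ) (by
        rw [hn]
        exact (h2 p k hp (by omega) (by omega)).2 _ hκ)
      exact ⟨g, by rw [hg]; exact Dvd.intro _ rfl, by rw [hg]⟩
    · obtain ⟨a, b, c'⟩ := hbig ∅ q hq
      obtain ⟨g, hg⟩ := hon _ (hmem q a b c')
      exact hkey ∅ G c q b c' ⟨g, by rw [hg]⟩

end Pool.Agent.MP_62c071_al.H57
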