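import Mathlib

/-! Groups with the class sizes of an alternating group: definitions and rows.
Paper proof: /team-store/MP_62c071_H57_plan.md -/

set_option autoImplicit false

namespace Pool.Agent.MP_62c071_al.H57

open Subgroup Filter
open scoped Nat

/-! ### definitions -/

abbrev An (n : ℕ) : Type := alternatingGroup (Fin n)

/-- the centraliser of an element -/
def cen {G : Type} [Group G] (g : G) : Subgroup G := centralizer {g}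

/-- the size of the class of an element -/
noncomputable def ix {G : Type} [Group G] (g : G) : ℕ := (cen g).index

/-- `g` is a `q`-element -/
def PE {G : Type} [Group G] (q : ℕ) (g : G) : Prop := ∃ a : ℕ, g ^ q ^ a = 1

/-- the order of `g` is prime to `q` -/
def PP {G : Type} [Group G] (q : ℕ) (g : G) : Prop := (orderOf g).Coprime q

/-- the largest normal `q`-subgroup of `U` -/
def Oq {G : Type} [Group G] (q : ℕ) (U : Subgroup G) : Subgroup G :=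
  ⨅ S : Sylow q U, (S : Subgroup U).map U.subtype

/-- the orders of the centralisers in the alternating group -/
def Cz (n : ℕ) : Set ℕ := Set.range fun s : An n => Nat.card (cen s)

/-- the order of the centraliser in the symmetric group -/
def zf (f : ℕ) (M : Multiset ℕ) : ℕ := f ! * M.prod * ∏ l ∈ M.toFinset, (M.count l)!

/-- the odd one of `m`, `m - 1` -/
def od (m : ℕ) : ℕ := m - 1 + m % 2

def Big (p c : ℕ) : Prop := p ! ∣ 2 * c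

def Safe (n κ : ℕ) : Prop := ∀ c ∈ Cz n, ¬ c ∣ κ

def Dich (n p k : ℕ) : Prop := p * k ! * n ^ (2 * k) < p !

/-- the centraliser orders are those of the alternating group, up to the factor `ζ` -/
structure CH (n : ℕ) {G : Type} [Group G] (ζ : ℕ) (c : G → ℕ) : Prop where
  pos : 0 < ζ
  mem : ∀ g, c g ∈ Cz n
  card : ∀ g, Nat.card (cen g) = ζ * c g

def WH {G : Type} (S : Set ℕ) (c : G → ℕ) : Prop := ∀ κ ∈ S, ∃ g, c g ∣ κ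

def Split (n : ℕ) (G : Type) [Group G] : Prop :=
  ∃ ψ : An n →* G, Function.Injective ψ ∧ ∀ g, ∃ s, ∃ z ∈ center G, g = ψ s * z

def Lev (n : ℕ) (S : Set ℕ) : Prop :=
  ∀ (G : Type) [Group G] [Finite G] (ζ : ℕ) (c : G → ℕ), CH n ζ c → WH S c → Split n G

def Key {G : Type} (n : ℕ) (P : Finset ℕ) (c : G → ℕ) (q : ℕ) : Prop :=
  ∃ κ g, Safe n κ ∧ (∀ r ∈ P, ¬ r ∣ κ) ∧ c g ∣ q * κ

/-- the three-cycle `a ↦ b ↦ c ↦ a` -/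
def cy3 {α : Type} [Fintype α] [DecidableEq α] (a b c : α) : alternatingGroup α :=
  if h : a ≠ b ∧ a ≠ c then
    ⟨Equiv.swap a c * Equiv.swap a b, by
      rw [Equiv.Perm.mem_alternatingGroup, Equiv.Perm.sign_mul, Equiv.Perm.sign_swap h.1,
        Equiv.Perm.sign_swap h.2]
      rfl⟩
  else 1

/-- the three-cycle `(0 1 i)` -/
def tt (k i : ℕ) : An k :=
  if h : 2 ≤ i ∧ i < k then cy3 ⟨0, by omega⟩ ⟨1, by omega⟩ ⟨i, h.2⟩ else 1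

/-- the support of an even permutation -/
def sp {α : Type} [Fintype α] [DecidableEq α] (s : alternatingGroup α) : Finset α :=
  (s : Equiv.Perm α).support

/-- the relations of Carmichael -/
def Car {G : Type} [Group G] (T : Set G) : Prop :=
  (∀ t ∈ T, t ≠ 1 ∧ t ^ 3 = 1) ∧ ∀ t ∈ T, ∀ u ∈ T, t ≠ u → (t * u) ^ 2 = 1

/-- the class of `u` under `B` -/
def orb {G : Type} [Group G] (B : Subgroup G) (u : G) : Set G := {v | ∃ b ∈ B, v = b * u * b⁻¹}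

/-- the centraliser of the three-cycles `(0 1 i)`, `i < j` -/
def BB {G : Type} [Group G] {k : ℕ} (ψ : An k →* G) (j : ℕ) : Subgroup G :=
  centralizer {g | ∃ i, i < j ∧ g = ψ (tt k i)}

/-! ### arithmetic rows -/

def RowSH : Prop :=
  (∀ (n c : ℕ), c ∈ Cz n → ∃ (f : ℕ) (M : Multiset ℕ), (∀ l ∈ M, 2 ≤ l) ∧ M.sum + f = n ∧
    Even (M.sum + M.card) ∧ (c = zf f M ∨ 2 * c = zf f M) ∧ (2 ≤ f → 2 * c = zf f M)) ∧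
  (∀ (f : ℕ) (M : Multiset ℕ), (∀ l ∈ M, 2 ≤ l) →
    M.sum + f ≤ zf f M + 1 ∧ zf f M ∣ (M.sum + f)! ∧ zf 0 M ^ 2 ≤ M.sum ^ M.sum) ∧
  ∀ (n c : ℕ), c ∈ Cz n → 0 < c ∧ c ∣ n ! ∧ (2 ≤ n → 2 * c ∣ n !) ∧ n ≤ 2 * c + 1

def RowA2 : Prop := ∀ p k : ℕ, p.Prime → 2 < p → k < p →
  (∀ c ∈ Cz (p + k), p ∣ c → Big p c ∨ ∃ κ ∈ Cz k, c = p * κ) ∧ ∀ κ ∈ Cz k, p * κ ∈ Cz (p + k)

def RowA3 : Prop :=
  (∀ m, 1 ≤ m → od m ∈ Cz m) ∧ (∀ n, 5 ≤ n → ∃ c ∈ Cz n, c.Coprime (od n)) ∧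
  ∀ (α : Type) [Fintype α] [DecidableEq α] (Γ : Finset α) (l : ℕ), Odd l → 3 ≤ l → l ≤ Γ.card →
    ∃ w : alternatingGroup α, sp w ⊆ Γ ∧ (sp w).card = l ∧ orderOf w = l ∧
      (l - 1)! ≤ 2 * {v : alternatingGroup α | ∃ s, sp s ⊆ sp w ∧ v = s * w * s⁻¹}.ncard

def RowAR : Prop := ∀ p k K d c c' ρ : ℕ, p.Prime → k < p → k ≤ K → 2 * p * k ! < p ! →
  c ∈ Cz (p + k) → c' ∈ Cz (p + k) → Big p c → Big p c' → c = ρ * c' →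
  (∀ l : ℕ, l.Prime → l ∣ ρ → l ≤ K) → 2 ≤ K →
  (p + k) ^ Nat.primeCounting K * k ^ (d + 1) < p ^ (d + 1) →
  ρ ^ 2 ≤ 4 * (p + k) ^ (2 * d) * k ^ k

def RowSAFE : Prop := ∀ N r q m c : ℕ, r.Prime → q.Prime → 5 ≤ q → q < r → N < q ^ 2 → 0 < m →
  m < q → c ∈ Cz N → c ∣ r * q * m →
  ∃ d₁ d₂ R : ℕ, N = r * d₁ + q * d₂ + R ∧ max d₁ 1 * max d₂ 1 * (R - 1) ≤ 2 * m ∧
    d₁ ≤ 2 * m ∧ d₂ ≤ 2 * m ∧ (d₁ = 0 ∨ d₁ ∣ 2 * m)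

def Bad (N r ν q : ℕ) : Prop :=
  ∃ d₁ d₂ R : ℕ, N = r * d₁ + q * d₂ + R ∧ max d₁ 1 * max d₂ 1 * (R - 1) ≤ ν ∧
    (d₁ = 0 ∨ d₁ ∣ 2 * od (ν - q))

def RowEXC : Prop := ∀ (N r ν Λ Λ₁ D₁ D₂ : ℕ) (E : Finset ℕ), 2 ≤ Λ → 1 ≤ Λ₁ → 1 ≤ ν →
  ν * (Λ + 2) ≤ r → ν * (Λ + 2) ≤ N → (N < r ∨ Λ₁ * r ≤ N) → N / r ≤ D₁ → 2 * N ≤ D₂ * ν →
  (∀ q ∈ E, ν < 2 * q ∧ q < ν ∧ Bad N r ν q) →
  (E.card : ℝ) ≤ (D₁ + 1) * (2 * ν / Λ + 2 * D₂) + 2 * ν / Λ₁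

def RowCZ5 : Prop := Cz 5 = {3, 4, 5, 60} ∧
  (∀ p c : ℕ, p.Prime → 5 < p → c ∈ Cz (p + 5) → Big p c →
    2 * c = (p + 5)! ∨ 2 * c = 3 * (p + 2)! ∨ 2 * c = 8 * (p + 1)! ∨ 2 * c = 5 * p !)

/-- class sizes give the hypothesis, and the conclusion gives a direct product -/
def RowTOP : Prop :=
  (∀ (n : ℕ) (G : Type) [Group G] [Finite G], 5 ≤ n →
    Set.range (fun x : G => Nat.card {y : G // IsConj x y}) =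
      Set.range (fun x : An n => Nat.card {y : An n // IsConj x y}) →
    ∃ (ζ : ℕ) (c : G → ℕ), CH n ζ c ∧ ∀ κ ∈ Cz n, ∃ g, c g = κ) ∧
  ∀ (n : ℕ) (G : Type) [Group G] [Finite G], 5 ≤ n → Split n G →
    ∃ (A : Type) (_ : CommGroup A), Nonempty (G ≃* An n × A)

/-! ### Lemma X -/

structure HX (G : Type) [Group G] (Pi : Finset ℕ) (p m n : ℕ) : Prop where
  pr : ∀ q ∈ insert p Pi, q.Prime ∧ n + 1 < 2 * q ∧ q ≤ n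
  lt : ∀ q ∈ Pi, q < p
  two_le : 2 ≤ Pi.card
  sq : ∀ (g : G), ∀ q ∈ insert p Pi, ¬ q ^ 2 ∣ ix g
  two : ∀ (g : G), ∀ q ∈ Pi, ∀ q' ∈ insert p Pi, q < q' → ¬ q ∣ ix g → ¬ q' ∣ ix g →
    ∀ r ∈ Pi, r ≤ q' → ¬ r ∣ ix g
  key : ∀ q ∈ insert p Pi, ∃ y : G, ¬ q ∣ ix y ∧ (∀ r ∈ insert p Pi, r ≠ q → r ∣ ix y) ∧
    ∀ g : G, cen g ≤ cen y → cen y ≤ cen g
  sm1 : ∀ (g : G), ∀ q ∈ Pi, ¬ p ∣ ix g → ¬ q ∣ ix g → ix g ≤ m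
  sm2 : ∀ (g : G), ¬ p ∣ ix g → ix g ≤ m ^ 2 → ix g ≤ m ∧ ∀ q ∈ Pi, ¬ q ∣ ix g

def RowSM : Prop := ∀ (G : Type) [Group G] [Finite G] (p k ζ : ℕ) (c : G → ℕ), p.Prime → 2 ≤ k →
  k < p → CH (p + k) ζ c → Big p (c 1) → Dich (p + k) p k →
  (∀ g, c 1 = ix g * c g) ∧ (∀ g, p ∣ c g ↔ ¬ p ∣ ix g) ∧
  (∀ g, Big p (c g) → ix g ≤ (p + k) ^ k) ∧
  ∀ g, p ∣ c g → ix g ≤ (p + k) ^ (2 * k) → Big p (c g)

def RowHX : Prop := ∀ (G : Type) [Group G] [Finite G] (p k ζ : ℕ) (c : G → ℕ) (Pi : Finset ℕ),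
  p.Prime → 2 ≤ k → k + 1 < p → CH (p + k) ζ c → Dich (p + k) p k →
  (∀ q ∈ Pi, q.Prime ∧ p + k + 1 < 2 * q ∧ q < p) → 2 ≤ Pi.card →
  (∀ q ∈ insert p Pi, Key (p + k) (insert p Pi) c q) →
  Big p (c 1) ∧ HX G Pi p ((p + k) ^ k) (p + k)

def RowCAM : Prop := ∀ (G : Type) [Group G] [Finite G] (q : ℕ), q.Prime →
  (∀ D : Subgroup G, (∀ g ∈ D, PP q g → ¬ q ∣ (cen g).relIndex D) →
    ∀ a ∈ D, ∀ b ∈ D, PE q a → PP q b → Commute a b) ∧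
  (∀ D : Subgroup G, (∀ g ∈ D, ¬ q ∣ (cen g).relIndex D) →
    ∀ a ∈ D, ∀ b ∈ D, PE q a → Commute a b) ∧
  ((∀ g : G, ¬ q ^ 2 ∣ ix g) → ∀ u : G, PE q u → q ∣ ix u →
    ∀ a b : G, Commute u a → Commute u b → PE q a → PP q b → Commute a b)

def RowR1 : Prop := ∀ (G : Type) [Group G] [Finite G] (q : ℕ) (V W : Subgroup G) (g : G),
  q.Prime → IsPGroup q V → V ≤ W → W ≤ normalizer (V : Set G) → g ∈ W →
  ¬ q ^ 2 ∣ (cen g).relIndex W →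
  (cen g).relIndex V ∣ q ∧
    (PP q g → (orderOf g).Coprime (q - 1) → ∀ v ∈ V, Commute g v)

/-- the conclusion of the lemma on reflections -/
def Refl {G : Type} [Group G] (q : ℕ) (V : Subgroup G) : Prop :=
  (∀ a : G, PE q a → ∀ v ∈ V, Commute a v) ∧
  (V ≤ center G ∨ ∃ v ∈ V, orderOf v = q ∧ (zpowers v).Normal ∧ v ∉ center G ∧
    cen v = centralizer (V : Set G))

def RowR2 : Prop := ∀ (G : Type) [Group G] [Finite G] (q : ℕ) (S : Set G), q.Prime →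
  (closure S).Normal → IsPGroup q (closure S) → (∀ s ∈ S, ¬ q ∣ ix s) →
  (∀ g : G, ¬ q ^ 2 ∣ ix g) → Refl q (closure S)

def RowR3 : Prop := ∀ (G : Type) [Group G] [Finite G],
  (∀ (q : ℕ) (v : G), q.Prime → (∀ g : G, ¬ q ^ 2 ∣ ix g) → orderOf v = q → (zpowers v).Normal →
    v ∉ center G → ∀ u : G, PE q u → ¬ q ∣ ix u) ∧
  ∀ (Pi : Finset ℕ) (p m n : ℕ), HX G Pi p m n →
    (∀ q ∈ insert p Pi, ∃ w : G, PE q w ∧ w ∉ center G ∧ ¬ q ∣ ix w) ∧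
    ∀ q ∈ Pi, Refl q (Oq q (⊤ : Subgroup G)) ∧
      (∀ a : G, PE p a → ∀ v ∈ Oq q (⊤ : Subgroup G), Commute a v) ∧
      ∀ Q : Sylow q G, ¬ (Q : Subgroup G).Normal →
        ∃ w ∈ Q, (∀ a ∈ Q, Commute a w) ∧ w ∉ Oq q (⊤ : Subgroup G)

def Tame (G : Type) [Group G] (q : ℕ) : Prop :=
  ∀ Q : Sylow q G, Nat.card Q ≤ q * Nat.card (Oq q (⊤ : Subgroup G))

def Tm (G : Type) [Group G] (q p : ℕ) : Prop :=
  ∀ Q : Sylow q G, (∀ a ∈ Q, ∀ b ∈ Q, Commute a b) ∧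
    (∃ x ∈ Q, cen x = centralizer (Q : Set G)) ∧
    ∀ g ∈ normalizer (Q : Set G), PE p g → g ∈ centralizer (Q : Set G)

def RowTM : Prop := ∀ (G : Type) [Group G] [Finite G] (Pi : Finset ℕ) (p m n : ℕ),
  HX G Pi p m n → ∀ q ∈ Pi, Tame G q → Tm G q p

def RowPB : Prop := ∀ (G : Type) [Group G] [Finite G] (W : Subgroup G) (B : Finset ℕ),
  (∀ q ∈ B, q.Prime ∧ ¬ q ∣ W.index ∧ Oq q W ≠ Oq q ⊤) →
  (∀ q ∈ B, ∀ r ∈ B, q ≠ r → ∀ a ∈ W, PE r a → ∀ v ∈ Oq q W, Commute a v) →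
  2 ^ B.card ≤ W.index

def RowALPHA : Prop := ∀ (G : Type) [Group G] [Finite G] (Pi : Finset ℕ) (p m n μ : ℕ),
  HX G Pi p m n → m < 2 ^ μ → ∀ B ⊆ Pi, (∀ q ∈ B, ¬ Tame G q) → B.card ≤ 3 * μ

def RowBETA : Prop := ∀ (G : Type) [Group G] [Finite G] (Pi : Finset ℕ) (p m n μ : ℕ),
  HX G Pi p m n → m < 2 ^ μ → ∀ B ⊆ Pi, (∀ q ∈ B, Tm G q p ∧ ∃ Q : Sylow q G,
    ¬ p ∣ (centralizer (Q : Set G)).index ∧ ¬ (Q : Subgroup G).Normal) → B.card ≤ 2 * μ + 1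

def RowGAM : Prop := ∀ (G : Type) [Group G] [Finite G] (Pi : Finset ℕ) (p m n : ℕ),
  HX G Pi p m n → ∀ B ⊆ Pi, (∀ q ∈ B, ∃ Q : Sylow q G, (Q : Subgroup G).Normal) →
  (B.card - 2) ^ 4 ≤ n ^ 3

def Useful (G : Type) [Group G] (q p : ℕ) : Prop :=
  Tm G q p ∧ ∀ Q : Sylow q G, p ∣ (centralizer (Q : Set G)).index

/-- the small `p`-elements -/
def SmP (G : Type) [Group G] (p m : ℕ) : Set G := {a | PE p a ∧ ¬ p ∣ ix a ∧ ix a ≤ m}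

/-- the `p`-elements of the centraliser of a useful Sylow subgroup form a central subgroup of
index `p` in a Sylow subgroup -/
def Pq (G : Type) [Group G] (q p : ℕ) : Prop :=
  ∀ Q : Sylow q G, ∃ R : Subgroup G, IsPGroup p R ∧
    (∀ a, a ∈ R ↔ PE p a ∧ a ∈ centralizer (Q : Set G)) ∧
    (∀ a ∈ R, ∀ g ∈ centralizer (Q : Set G), Commute a g) ∧
    ∀ P : Sylow p G, Nat.card P = p * Nat.card R

def RowFA : Prop := ∀ (G : Type) [Group G] [Finite G] (Pi : Finset ℕ) (p m n μ : ℕ),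
  HX G Pi p m n → m < 2 ^ μ → ∀ B ⊆ Pi, (∀ q ∈ B, Useful G q p) → 2 * μ < B.card →
  (∀ q ∈ B, Pq G q p ∧ ∀ Q : Sylow q G, p ∣ (normalizer (Q : Set G)).index) ∧
  Refl p (closure (SmP G p m)) ∧ IsPGroup p (closure (SmP G p m)) ∧ (closure (SmP G p m)).Normal

def RowFB : Prop := ∀ (G : Type) [Group G] [Finite G] (Pi : Finset ℕ) (p m n q : ℕ),
  HX G Pi p m n → q ∈ Pi → Pq G q p → (∀ Q : Sylow q G, ∀ a ∈ Q, ∀ b ∈ Q, Commute a b) →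
  (∀ Q : Sylow q G, p ∣ (normalizer (Q : Set G)).index) →
  Refl p (closure (SmP G p m)) → IsPGroup p (closure (SmP G p m)) →
  (closure (SmP G p m)).Normal → SmP G p m ⊆ center G

/-- a Sylow subgroup that is cyclic of order `p` over the centre -/
structure XC {G : Type} [Group G] (p : ℕ) (x : G) : Prop where
  nc : x ∉ center G
  xp : x ^ p ∈ center G
  syl : ∃ P : Sylow p G, x ∈ P ∧ centralizer (P : Set G) = cen x ∧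
    ∀ g ∈ P, ∃ i : ℕ, ∃ z ∈ center G, g = x ^ i * z

def RowFC : Prop := ∀ (G : Type) [Group G] [Finite G] (Pi : Finset ℕ) (p m n q : ℕ),
  HX G Pi p m n → q ∈ Pi → Pq G q p → (∀ Q : Sylow q G, ∀ a ∈ Q, ∀ b ∈ Q, Commute a b) →
  SmP G p m ⊆ center G → ∃ x : G, XC p x ∧ m < ix x

def RowLX : Prop := ∀ (G : Type) [Group G] [Finite G] (Pi : Finset ℕ) (p m n μ γ : ℕ),
  HX G Pi p m n → m < 2 ^ μ → n ^ 3 ≤ γ ^ 4 → 7 * μ + γ + 4 ≤ Pi.card →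
  (∃ x : G, XC p x ∧ m < ix x) ∧
    ∃ q ∈ Pi, ∀ Q : Sylow q G, p ∣ (normalizer (Q : Set G)).index

/-! ### descent and ascent -/

structure Cfg {G : Type} [Group G] (p k ζ : ℕ) (c : G → ℕ) (x : G) (ψ : An k →* G) : Prop where
  ch : CH (p + k) ζ c
  pr : p.Prime
  five : 5 ≤ k
  lt : k + 3 ≤ p
  big : Big p (c 1)
  dich : Dich (p + k) p k
  xc : XC p x
  inj : Function.Injective ψ
  com : ∀ s, Commute x (ψ s)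
  dec : ∀ g, Commute x g → ∃ s, ∃ a ∈ centralizer (cen x : Set G), g = ψ s * a
  cardA : Nat.card (centralizer (cen x : Set G)) = ζ * p
  cx : 2 * c x = p * k !

def RowDOWN : Prop := ∀ (G : Type) [Group G] [Finite G] (p k ζ : ℕ) (c : G → ℕ) (x : G)
  (S : Set ℕ), p.Prime → 5 ≤ k → k + 3 ≤ p → CH (p + k) ζ c → Big p (c 1) → Dich (p + k) p k →
  XC p x → (p + k) ^ k < ix x → Lev k S → (∀ κ ∈ S, ∃ g, p ∣ c g ∧ c g ∣ p * κ) →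
  ∃ ψ : An k →* G, Cfg p k ζ c x ψ

def RowORB : Prop := ∀ (G : Type) [Group G] [Finite G] (p : ℕ) (x : G), p.Prime →
  x ^ p ∈ center G →
  (∀ (B : Subgroup G) (u : G), (orb B u).ncard = (cen u).relIndex B) ∧
  (∀ X : Set G, (∀ v ∈ X, x * v * x⁻¹ ∈ X) →
    ∃ b : ℕ, X.ncard = {v ∈ X | Commute x v}.ncard + b * p) ∧
  ∀ u : G, ¬ Commute x u → {v | ∃ i : ℕ, v = x ^ i * u * (x ^ i)⁻¹}.ncard = p

def RowX3 : Prop :=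
  (∀ (α : Type) [Fintype α] [DecidableEq α] (a b c : α) (u : alternatingGroup α), a ≠ b → a ≠ c →
    b ≠ c → u ^ 3 = 1 → (u * cy3 a b c) ^ 2 = 1 → u * cy3 a b c ≠ 1 →
    ∃ i, i ≠ a ∧ i ≠ b ∧ i ≠ c ∧ (u = cy3 a b i ∨ u = cy3 b c i ∨ u = cy3 c a i)) ∧
  (∀ (k j : ℕ) (u : An k), 4 ≤ j → j ≤ k → u ^ 3 = 1 →
    (∀ i, 2 ≤ i → i < j → (u * tt k i) ^ 2 = 1 ∧ u * tt k i ≠ 1) →
    ∃ i, j ≤ i ∧ i < k ∧ u = tt k i) ∧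
  (∀ k i : ℕ, 2 ≤ i → i < k → orderOf (tt k i) = 3 ∧
    ∀ j, 2 ≤ j → j < k → i ≠ j → tt k i ≠ tt k j ∧ (tt k i * tt k j) ^ 2 = 1 ∧
      tt k i * tt k j ≠ 1) ∧
  ∀ k j i : ℕ, 2 ≤ j → j + 3 ≤ k → j ≤ i → i < k →
    ∃ s : An k, s * tt k j * s⁻¹ = tt k i ∧ (∀ l, l < j → Commute s (tt k l)) ∧
      ∀ l, j ≤ l → l < k → ∃ l', j ≤ l' ∧ l' < k ∧ s * tt k l * s⁻¹ = tt k l'

def RowGEN : Prop :=
  (∀ (α : Type) [Fintype α] [DecidableEq α] (Γ : Finset α) (a b : α), a ≠ b → a ∈ Γ → b ∈ Γ →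
    ∀ s : alternatingGroup α, sp s ⊆ Γ → s ∈ closure {u | ∃ i ∈ Γ, i ≠ a ∧ i ≠ b ∧ u = cy3 a b i}) ∧
  (∀ k : ℕ, closure {u | ∃ i, i < k ∧ u = tt k i} = (⊤ : Subgroup (An k))) ∧
  ∀ k : ℕ, 5 ≤ k → ∃ g : An k, ∀ i, 3 ≤ i → i < k → ∃ e : ℕ, g ^ e * tt k 3 * (g ^ e)⁻¹ = tt k i

def RowEND : Prop := ∀ (G : Type) [Group G] [Finite G] (n : ℕ) (T : Set G) (A : Subgroup G),
  5 ≤ n → Car T → T.ncard + 2 = n → (∀ a ∈ A, ∀ b ∈ A, Commute a b) →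
  (∀ a ∈ A, ∀ t ∈ T, Commute a t) → 2 * Nat.card G ≤ Nat.card A * n ! → Split n G

/-- the last step for a set made of elements of the alternating group and one orbit of `x` -/
def RowEND2 : Prop := ∀ (G : Type) [Group G] [Finite G] (p k ζ : ℕ) (c : G → ℕ) (x : G)
  (ψ : An k →* G) (j : ℕ), Cfg p k ζ c x ψ → 4 ≤ j → j < k →
  (orb (BB ψ j) (ψ (tt k j))).ncard = k - j + p →
  (∀ i, j ≤ i → i < k → ψ (tt k i) ∈ orb (BB ψ j) (ψ (tt k j))) →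
  (∀ u ∈ orb (BB ψ j) (ψ (tt k j)), ∀ v ∈ orb (BB ψ j) (ψ (tt k j)), u ≠ v → (u * v) ^ 2 = 1) →
  Split (p + k) G

def RowSYL2 : Prop := ∀ (G : Type) [Group G] [Finite G] (p k ζ : ℕ) (c : G → ℕ) (x : G)
  (ψ : An k →* G), Cfg p k ζ c x ψ → 6 ≤ k → ∀ s, Big p (c (ψ s))

/-- the fixed points of `x` on the classes -/
def RowUP1 : Prop := ∀ (G : Type) [Group G] [Finite G] (p k ζ : ℕ) (c : G → ℕ) (x : G)
  (ψ : An k →* G), Cfg p k ζ c x ψ →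
  (∀ (u : G) (s : An k), Commute x u → u ^ 3 = 1 → (u * ψ s) ^ 2 = 1 → u ∈ ψ.range) ∧
  (∀ j, 4 ≤ j → j < k → ∀ u ∈ orb (BB ψ j) (ψ (tt k j)), Commute x u →
    ∃ i, j ≤ i ∧ i < k ∧ u = ψ (tt k i)) ∧
  (∀ j, (BB ψ (j + 1)).relIndex (BB ψ j) = (orb (BB ψ j) (ψ (tt k j))).ncard) ∧
  ∀ j, 4 ≤ j → j + 3 ≤ k →
    (∀ i, j ≤ i → i < k → ψ (tt k i) ∈ orb (BB ψ j) (ψ (tt k j))) ∧
    ∃ b : ℕ, (orb (BB ψ j) (ψ (tt k j))).ncard = k - j + b * p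

def ZS {G : Type} [Group G] {k : ℕ} (ψ : An k →* G) (J : ℕ) : Prop :=
  BB ψ J ≤ normalizer (ψ.range : Set G)

def RowUP2 : Prop := ∀ (G : Type) [Group G] [Finite G] (p k ζ : ℕ) (c : G → ℕ) (x : G)
  (ψ : An k →* G) (J : ℕ), Cfg p k ζ c x ψ → (∀ s, ix (ψ s) ≤ (p + k) ^ k) → 4 ≤ J → J + 3 ≤ k →
  (p + k) ^ k < (2 * p) ^ (J - 4) →
  ZS ψ J ∨ ∃ j, 4 ≤ j ∧ j + 4 ≤ k ∧ (orb (BB ψ j) (ψ (tt k j))).ncard = k - j + p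

def RowUP3 : Prop := ∀ (G : Type) [Group G] [Finite G] (p k ζ : ℕ) (c : G → ℕ) (x : G)
  (ψ : An k →* G) (j : ℕ), Cfg p k ζ c x ψ → 4 ≤ j → j + 4 ≤ k →
  (orb (BB ψ j) (ψ (tt k j))).ncard = k - j + p → Split (p + k) G

def RowJOR : Prop := ∀ (α : Type) [Fintype α] [DecidableEq α] (H : Subgroup (Equiv.Perm α))
  (r : ℕ) (g : Equiv.Perm α), r.Prime → Fintype.card α < 2 * r → r + 3 ≤ Fintype.card α →
  (∀ a b : α, ∃ h ∈ H, h a = b) → g ∈ H → orderOf g = r → alternatingGroup α ≤ H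

def RowNAT : Prop := ∀ (α : Type) [Fintype α] [DecidableEq α] (U : Subgroup (alternatingGroup α))
  (r e : ℕ), r.Prime → 1 ≤ e → Fintype.card α < 2 * r → r + e + 3 ≤ Fintype.card α →
  ¬ r ∣ U.index → U.index < 2 ^ (e + 1) →
  ∃ O : Finset α, Fintype.card α ≤ O.card + e ∧ ∀ s, sp s ⊆ O → s ∈ U

def RowZS2 : Prop := ∀ (G : Type) [Group G] [Finite G] (k J e : ℕ) (ψ : An k →* G)
  (D : Subgroup G) (Γ : Finset (Fin k)) (y : An k) (R : Finset ℕ), Function.Injective ψ →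
  ZS ψ J → J + 2 ≤ k → 1 ≤ e → y ≠ 1 → sp y ⊆ Γ → J + e ≤ Γ.card →
  (∀ s, sp s ⊆ Γ → ψ s ∈ D) → (cen (ψ y)).relIndex D < 2 ^ (e + 1) →
  (∀ r ∈ R, r.Prime ∧ Γ.card < 2 * r ∧ r + e + 3 ≤ Γ.card) → e < R.card →
  ∀ u ∈ D, Commute u (ψ y) → ∀ s, sp s ⊆ Γ → u * ψ s * u⁻¹ ∈ ψ.range

def RowZS3 : Prop := ∀ (G : Type) [Group G] [Finite G] (k : ℕ) (ψ : An k →* G)
  (U : Subgroup G) (Γ : Finset (Fin k)) (t : An k), Function.Injective ψ → sp t ⊆ Γ →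
  (sp t).card = 3 → (∀ u ∈ U, Commute u (ψ t)) →
  (∀ u ∈ U, ∀ s, sp s ⊆ Γ → u * ψ s * u⁻¹ ∈ ψ.range) →
  ∀ w, sp w ⊆ Γ → ∀ l : ℕ, l.Prime → 3 * k < l → ¬ l ∣ (cen (ψ w)).relIndex U

/-- the parameters for the exclusion of scenario Z -/
structure ZP (p k J e l d : ℕ) (S R : Finset ℕ) : Prop where
  prS : ∀ r ∈ S, r.Prime ∧ 3 < r ∧ r < l
  ne : S.Nonempty
  prl : l.Prime
  fit : ∑ r ∈ S, r + 3 + l ≤ k
  he : 1 ≤ e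
  pow : (p + k) ^ k < 2 ^ ((e + 1) * S.card)
  room : J + e + ∑ r ∈ S, r ≤ k
  prR : ∀ r ∈ R, r.Prime ∧ k < 2 * r ∧ r + e + 3 + ∑ r ∈ S, r ≤ k
  many : e < R.card
  ar : (p + k) ^ Nat.primeCounting (3 * k) * k ^ (d + 1) < p ^ (d + 1)
  big : 16 * (p + k) ^ (2 * d) * k ^ k < (l - 1)! ^ 2

def RowZSC : Prop := ∀ (G : Type) [Group G] [Finite G] (p k ζ : ℕ) (c : G → ℕ) (x : G)
  (ψ : An k →* G) (J e l d : ℕ) (S R : Finset ℕ), Cfg p k ζ c x ψ → (∀ s, Big p (c (ψ s))) →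
  J + 2 ≤ k → ZP p k J e l d S R → ¬ ZS ψ J

def Num (p k : ℕ) : Prop :=
  6 ≤ k ∧ ∃ (J e l d : ℕ) (S R : Finset ℕ), 4 ≤ J ∧ J + 3 ≤ k ∧
    (p + k) ^ k < (2 * p) ^ (J - 4) ∧ ZP p k J e l d S R

def RowNUM : Prop := ∀ᶠ n : ℕ in atTop, ∀ p k : ℕ, n = p + k → n ≤ k ^ 2 →
  k * Nat.log 2 n ^ 4 ≤ n → Num p k

/-- the primes between `n / 2 + 1` and `p` -/
def Pi0 (n p : ℕ) : Finset ℕ := (Finset.range p).filter fun q => q.Prime ∧ n + 1 < 2 * q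

def RowPI : Prop := ∀ᶠ n : ℕ in atTop, ∀ (p k : ℕ) (E : Finset ℕ), n = p + k →
  k * Nat.log 2 n ^ 4 ≤ n → E.card * Nat.log 2 n ^ 2 ≤ n →
  600 < p ∧ k + 3 ≤ p ∧ Dich n p k ∧
    ∃ μ γ : ℕ, n ^ k < 2 ^ μ ∧ n ^ 3 ≤ γ ^ 4 ∧ 7 * μ + γ + 4 ≤ (Pi0 n p \ E).card

/-! ### the bottom of the chain -/

structure T5C (G : Type) [Group G] : Prop where
  card : Nat.card G = 60 * Nat.card (center G)
  ab : ∀ g : G, g ∉ center G → ∀ a b, Commute g a → Commute g b → Commute a b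
  cl : ∀ g : G, g ∉ center G → ix g = 20 ∨ ix g = 15 ∨ ix g = 12
  syl : ∀ r : ℕ, r.Prime → ∀ S : Sylow r G, ∀ a ∈ S, ∀ b ∈ S, Commute a b

def RowT5A : Prop := ∀ (G : Type) [Group G] [Finite G] (ζ : ℕ) (c : G → ℕ), 0 < ζ →
  (∀ g, c g ∈ ({3, 4, 5, 60} : Set ℕ)) → (∀ g, Nat.card (cen g) = ζ * c g) →
  WH {3, 4, 5} c → T5C G

def RowT5B : Prop := ∀ (G : Type) [Group G] [Finite G], T5C G →
  ∃ f : G →* An 5, Function.Surjective f ∧ f.ker = center G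

def RowT5C : Prop := ∀ (G : Type) [Group G] [Finite G] (f : G →* An 5), Function.Surjective f →
  f.ker = center G → (∀ r : ℕ, r.Prime → ∀ S : Sylow r G, ∀ a ∈ S, ∀ b ∈ S, Commute a b) →
  Split 5 G

def RowFUS : Prop := ∀ (G : Type) [Group G] [Finite G] (p k ζ : ℕ) (c : G → ℕ) (x : G)
  (ψ : An k →* G), Cfg p k ζ c x ψ →
  (∀ (g : G) (s : An k), Commute x (g * ψ s * g⁻¹) → g * ψ s * g⁻¹ ∈ ψ.range) ∧
  ∀ s, ix (ψ s) ≡ {s' | IsConj (ψ s) (ψ s')}.ncard [MOD p]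

/-- the types of the elements of the alternating group of degree five -/
structure K5T {G : Type} [Group G] (p : ℕ) (c : G → ℕ) (ψ : An 5 →* G) : Prop where
  one : 2 * c 1 = (p + 5)!
  three : ∀ s, orderOf s = 3 → 2 * c (ψ s) = 3 * (p + 2)!
  two : ∀ s, orderOf s = 2 → 2 * c (ψ s) = 8 * (p + 1)!
  five : ∀ s, orderOf s = 5 → 2 * c (ψ s) = 5 * p !

def RowK5A : Prop := ∀ (G : Type) [Group G] [Finite G] (p ζ : ℕ) (c : G → ℕ) (x : G)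
  (ψ : An 5 →* G), Cfg p 5 ζ c x ψ → 600 < p → K5T p c ψ

def RowK5B : Prop := ∀ (G : Type) [Group G] [Finite G] (p ζ : ℕ) (c : G → ℕ) (x : G)
  (ψ : An 5 →* G), Cfg p 5 ζ c x ψ → 600 < p → K5T p c ψ →
  2 * Nat.card (BB ψ 5) = ζ * p ! ∧
    ((BB ψ 5).relIndex (BB ψ 4) = 1 ∨ (BB ψ 5).relIndex (BB ψ 4) = p + 1)

/-- the centraliser of the four-group -/
def CV {G : Type} [Group G] (ψ : An 5 →* G) : Subgroup G :=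
  centralizer {ψ (tt 5 2 * tt 5 3), ψ (tt 5 3 * tt 5 2)}

def RowK5C : Prop := ∀ (G : Type) [Group G] [Finite G] (p ζ q : ℕ) (c : G → ℕ) (x : G)
  (ψ : An 5 →* G), Cfg p 5 ζ c x ψ → 600 < p → K5T p c ψ → 2 * Nat.card (BB ψ 5) = ζ * p ! →
  q.Prime → p + 6 < 2 * q → q < p → (∀ Q : Sylow q G, p ∣ (normalizer (Q : Set G)).index) →
  4 * (p + 1) * Nat.card (BB ψ 5) ≤ Nat.card (CV ψ) ∧
    ∀ u ∈ CV ψ, Commute x (u * ψ (tt 5 2) * u⁻¹)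

def RowK5D : Prop := ∀ (G : Type) [Group G] [Finite G] (p ζ : ℕ) (c : G → ℕ) (x : G)
  (ψ : An 5 →* G), Cfg p 5 ζ c x ψ → 600 < p →
  4 * (p + 1) * Nat.card (BB ψ 5) ≤ Nat.card (CV ψ) →
  (∀ u ∈ CV ψ, Commute x (u * ψ (tt 5 2) * u⁻¹)) → p + 1 ≤ (BB ψ 5).relIndex (BB ψ 4)

def RowK5E : Prop := ∀ (G : Type) [Group G] [Finite G] (p ζ : ℕ) (c : G → ℕ) (x : G)
  (ψ : An 5 →* G), Cfg p 5 ζ c x ψ → 600 < p → K5T p c ψ → 2 * Nat.card (BB ψ 5) = ζ * p ! →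
  (BB ψ 5).relIndex (BB ψ 4) = p + 1 → Split (p + 5) G

/-! ### the chain -/

/-- one step -/
def RowSTEP : Prop := ∀ᶠ n : ℕ in atTop, ∀ (p k : ℕ) (E : Finset ℕ) (S : Set ℕ), n = p + k →
  p.Prime → (k = 5 ∨ n ≤ k ^ 2) → k * Nat.log 2 n ^ 4 ≤ n → E.card * Nat.log 2 n ^ 2 ≤ n →
  Lev k S → ∀ (G : Type) [Group G] [Finite G] (ζ : ℕ) (c : G → ℕ), CH n ζ c →
  (∀ κ ∈ S, ∃ g, p ∣ c g ∧ c g ∣ p * κ) →
  (∀ q ∈ insert p (Pi0 n p \ E), Key n (insert p (Pi0 n p \ E)) c q) → Split n G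

/-- the values needed one level higher -/
def Nxt (n p : ℕ) (E : Finset ℕ) (S : Set ℕ) : Set ℕ :=
  {κ | (∃ κ' ∈ S, κ = p * κ') ∨ ∃ q ∈ Pi0 n p \ E, κ = q * od (n - q)}

def RowLEV : Prop := ∀ᶠ n : ℕ in atTop, ∀ (p k : ℕ), n = p + k → p.Prime →
  (k = 5 ∨ n ≤ k ^ 2) → k * Nat.log 2 n ^ 4 ≤ n →
  (∀ (E : Finset ℕ) (S : Set ℕ), E.card * Nat.log 2 n ^ 2 ≤ n → S.Nonempty → S ⊆ Cz k →
    (∀ κ ∈ S, Safe n κ) → Lev k S → Lev n (Nxt n p E S) ∧ Nxt n p E S ⊆ Cz n) ∧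
  (Lev k (Cz k) → ∀ (G : Type) [Group G] [Finite G] (ζ : ℕ) (c : G → ℕ), CH n ζ c →
    (∀ κ ∈ Cz n, ∃ g, c g = κ) → Split n G)

/-- three primes in the windows -/
def Win (M p₁ p₂ p₃ : ℕ) : Prop :=
  p₁.Prime ∧ p₂.Prime ∧ p₃.Prime ∧ M = p₁ + p₂ + p₃ ∧ M ≤ p₁ * Nat.log 2 M ^ 16 ∧
    p₁ * Nat.log 2 M ^ 16 ≤ 2 * M ∧ M ≤ p₂ * Nat.log 2 M ^ 6 ∧ p₂ * Nat.log 2 M ^ 6 ≤ 2 * M

/-- the exceptional sets of the chain -/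
def RowEXS : Prop := ∀ᶠ M : ℕ in atTop, ∀ p₁ p₂ p₃ : ℕ, Win M p₁ p₂ p₃ →
  ∃ E₁ E₂ : Finset ℕ, E₁.card * Nat.log 2 (p₁ + 5) ^ 2 ≤ p₁ + 5 ∧
    E₂.card * Nat.log 2 (p₂ + (p₁ + 5)) ^ 2 ≤ p₂ + (p₁ + 5) ∧
    (∀ κ ∈ Nxt (p₁ + 5) p₁ E₁ {3, 4, 5}, Safe (p₂ + (p₁ + 5)) κ) ∧
    ∀ κ ∈ Nxt (p₂ + (p₁ + 5)) p₂ E₂ (Nxt (p₁ + 5) p₁ E₁ {3, 4, 5}), Safe (M + 5) κ

def RowCHAIN : Prop := ∀ᶠ M : ℕ in atTop, ∀ p₁ p₂ p₃ : ℕ, Win M p₁ p₂ p₃ → Lev (M + 5) (Cz (M + 5))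

def RowV3 : Prop := ∀ᶠ M : ℕ in atTop, Odd M → ∃ p₁ p₂ p₃ : ℕ, Win M p₁ p₂ p₃

end Pool.Agent.MP_62c071_al.H57
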